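import Pool.Agent.Lib.MP_89fc28_gt.G.Defs

/-! # MP_89fc28_gt: the parametrizations are continuous -/

set_option autoImplicit false

open Set MeasureTheory Module

namespace Pool.Agent.AVG

private theorem contMk_cost_add {N : ℕ} (π ρ : Sph N × Sph N →₀ ℝ) :
    cost (π + ρ) = cost π + cost ρ := by
  unfold cost
  exact Finsupp.sum_add_index' (by intro a; ring) (by intro a b c; ring)

private theorem contMk_cost_single {N : ℕ} (p : Sph N × Sph N) (a : ℝ) :
    cost (Finsupp.single p a) = a * gd p.1 p.2 := by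
  unfold cost
  rw [Finsupp.sum_single_index (by ring)]

private theorem contMk_cost_zero {N : ℕ} : cost (0 : Sph N × Sph N →₀ ℝ) = 0 := by
  unfold cost
  exact Finsupp.sum_zero_index

private theorem contMk_cost_sum {N : ℕ} {ι : Type*} (s : Finset ι) (f : ι → (Sph N × Sph N →₀ ℝ)) :
    cost (∑ i ∈ s, f i) = ∑ i ∈ s, cost (f i) := by
  classical
  induction s using Finset.induction_on with
  | empty => simp [contMk_cost_zero]
  | insert a s ha ih => rw [Finset.sum_insert ha, Finset.sum_insert ha, contMk_cost_add, ih]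

private theorem contMk_gd_nonneg {N : ℕ} (x y : Sph N) : 0 ≤ gd x y := Real.arccos_nonneg _

private theorem contMk_gd_le {N : ℕ} (x y : Sph N) : gd x y ≤ Real.pi := Real.arccos_le_pi _

private theorem contMk_gd_self {N : ℕ} (x : Sph N) : gd x x = 0 := by
  unfold gd
  have h : ‖(x : Eu N)‖ = 1 := by
    have := x.2
    rwa [mem_sphere_zero_iff_norm] at this
  rw [real_inner_self_eq_norm_sq, h, one_pow, Real.arccos_one]

private theorem contMk_W1_le {N : ℕ} {μ ν : Sph N →₀ ℝ} {π : Sph N × Sph N →₀ ℝ}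
    (h : IsCoupling μ ν π) : W1 μ ν ≤ cost π := by
  unfold W1
  refine csInf_le ⟨0, ?_⟩ ⟨π, h, rfl⟩
  rintro c ⟨ρ, hρ, rfl⟩
  unfold cost
  exact Finsupp.sum_nonneg fun p _ => mul_nonneg (hρ.nonneg p) (contMk_gd_nonneg _ _)

private theorem contMk_bound {N : ℕ} {r : ℝ} {j : ℕ} (x y : Conf N r j)
    (l k : stdSimplex ℝ (Fin j)) :
    W1 (AVR.mk' x l).w (AVR.mk' y k).w ≤
      ∑ i, gd (x.1 i) (y.1 i) + Real.pi * ∑ i, |l.1 i - k.1 i| := by
  classical
  set m : Fin j → ℝ := fun i => min (l.1 i) (k.1 i) with hm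
  set a : Fin j → ℝ := fun i => l.1 i - m i with ha
  set b : Fin j → ℝ := fun i => k.1 i - m i with hb
  set T : ℝ := ∑ i, a i with hT
  have ha0 : ∀ i, 0 ≤ a i := fun i => sub_nonneg.2 (min_le_left _ _)
  have hb0 : ∀ i, 0 ≤ b i := fun i => sub_nonneg.2 (min_le_right _ _)
  have hm0 : ∀ i, 0 ≤ m i := fun i => le_min (l.2.1 i) (k.2.1 i)
  have hm1 : ∀ i, m i ≤ 1 := by
    intro i
    refine (min_le_left _ _).trans ?_
    have h1 := Finset.single_le_sum (f := l.1) (fun i _ => l.2.1 i) (Finset.mem_univ i)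
    exact h1.trans l.2.2.le
  have hTb : ∑ i, b i = T := by
    rw [hT, ha, hb, Finset.sum_sub_distrib, Finset.sum_sub_distrib]
    have h1 : ∑ i, l.1 i = 1 := l.2.2
    have h2 : ∑ i, k.1 i = 1 := k.2.2
    rw [h1, h2]
  have hT0 : 0 ≤ T := Finset.sum_nonneg fun i _ => ha0 i
  set c : Fin j → Fin j → ℝ := fun i i' => a i * b i' / T with hc
  have hc0 : ∀ i i', 0 ≤ c i i' := fun i i' => div_nonneg (mul_nonneg (ha0 i) (hb0 i')) hT0
  have hc1 : ∀ i, ∑ i', c i i' = a i := by
    intro i
    rw [hc]
    simp only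
    rw [← Finset.sum_div, ← Finset.mul_sum, hTb]
    by_cases h : T = 0
    · rw [h, div_zero]
      have h2 := (Finset.sum_eq_zero_iff_of_nonneg (fun i _ => ha0 i)).1 h
      exact (h2 i (Finset.mem_univ i)).symm
    · field_simp
  have hc2 : ∀ i', ∑ i, c i i' = b i' := by
    intro i'
    rw [hc]
    simp only
    rw [← Finset.sum_div, ← Finset.sum_mul, ← hT]
    by_cases h : T = 0
    · rw [h, div_zero]
      have h2 := (Finset.sum_eq_zero_iff_of_nonneg (fun i _ => hb0 i)).1 (hTb.trans h)
      exact (h2 i' (Finset.mem_univ i')).symm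
    · field_simp
  set π : Sph N × Sph N →₀ ℝ := ∑ i, Finsupp.single (x.1 i, y.1 i) (m i) +
    ∑ i, ∑ i', Finsupp.single (x.1 i, y.1 i') (c i i') with hπ
  have hcp : IsCoupling (AVR.mk' x l).w (AVR.mk' y k).w π := by
    constructor
    · intro p
      rw [hπ, Finsupp.add_apply, Finsupp.finsetSum_apply, Finsupp.finsetSum_apply]
      refine add_nonneg (Finset.sum_nonneg fun i _ => ?_) (Finset.sum_nonneg fun i _ => ?_)
      · rw [Finsupp.single_apply]
        split_ifs
        · exact hm0 i
        · exact le_rfl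
      · rw [Finsupp.finsetSum_apply]
        refine Finset.sum_nonneg fun i' _ => ?_
        rw [Finsupp.single_apply]
        split_ifs
        · exact hc0 i i'
        · exact le_rfl
    · rw [hπ, Finsupp.mapDomain_add, Finsupp.mapDomain_finsetSum, Finsupp.mapDomain_finsetSum]
      simp only [Finsupp.mapDomain_finsetSum, Finsupp.mapDomain_single]
      rw [← Finset.sum_add_distrib]
      refine Finset.sum_congr rfl fun i _ => ?_
      rw [← Finsupp.single_finsetSum, hc1, ← Finsupp.single_add]
      congr 1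
      rw [ha]
      ring
    · rw [hπ, Finsupp.mapDomain_add, Finsupp.mapDomain_finsetSum, Finsupp.mapDomain_finsetSum]
      simp only [Finsupp.mapDomain_finsetSum, Finsupp.mapDomain_single]
      rw [Finset.sum_comm, ← Finset.sum_add_distrib]
      refine Finset.sum_congr rfl fun i _ => ?_
      rw [← Finsupp.single_finsetSum, hc2, ← Finsupp.single_add]
      congr 1
      rw [hb]
      ring
  refine (contMk_W1_le hcp).trans ?_
  rw [hπ, contMk_cost_add, contMk_cost_sum, contMk_cost_sum]
  refine add_le_add ?_ ?_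
  · refine Finset.sum_le_sum fun i _ => ?_
    rw [contMk_cost_single]
    calc m i * gd (x.1 i) (y.1 i) ≤ 1 * gd (x.1 i) (y.1 i) :=
          mul_le_mul_of_nonneg_right (hm1 i) (contMk_gd_nonneg _ _)
      _ = _ := one_mul _
  · have h1 : ∀ i, cost (∑ i', Finsupp.single (x.1 i, y.1 i') (c i i')) ≤ Real.pi * a i := by
      intro i
      rw [contMk_cost_sum, ← hc1 i, Finset.mul_sum]
      refine Finset.sum_le_sum fun i' _ => ?_
      rw [contMk_cost_single, mul_comm]
      exact mul_le_mul_of_nonneg_right (contMk_gd_le _ _) (hc0 i i')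
    refine (Finset.sum_le_sum fun i _ => h1 i).trans ?_
    rw [← Finset.mul_sum]
    refine mul_le_mul_of_nonneg_left (Finset.sum_le_sum fun i _ => ?_) Real.pi_pos.le
    rw [ha, hm]
    simp only
    rcases le_total (l.1 i) (k.1 i) with h | h
    · rw [min_eq_left h, sub_self]
      exact abs_nonneg _
    · rw [min_eq_right h]
      exact le_abs_self _

/-- **T4. The parametrizations are continuous.** -/
theorem continuous_mk {N : ℕ} {r : ℝ} {j : ℕ} :
    Continuous fun p : Conf N r j × stdSimplex ℝ (Fin j) => AVR.mk' p.1 p.2 := by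
  refine continuous_def.2 fun U hU => isOpen_iff_mem_nhds.2 fun p hp => ?_
  obtain ⟨ε, hε, h⟩ := hU (AVR.mk' p.1 p.2) hp
  have hcont : Continuous fun q : Conf N r j × stdSimplex ℝ (Fin j) =>
      ∑ i, gd (p.1.1 i) (q.1.1 i) + Real.pi * ∑ i, |p.2.1 i - q.2.1 i| := by
    refine Continuous.add ?_ (continuous_const.mul ?_)
    · refine continuous_finsetSum _ fun i _ => ?_
      unfold gd
      refine Real.continuous_arccos.comp (Continuous.inner continuous_const ?_)
      exact continuous_subtype_val.comp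
        ((continuous_apply i).comp (continuous_subtype_val.comp continuous_fst))
    · refine continuous_finsetSum _ fun i _ => ?_
      refine (continuous_const.sub ?_).abs
      exact (continuous_apply i).comp (continuous_subtype_val.comp continuous_snd)
  have h0 : ∑ i, gd (p.1.1 i) (p.1.1 i) + Real.pi * ∑ i, |p.2.1 i - p.2.1 i| < ε := by
    have : ∑ i, gd (p.1.1 i) (p.1.1 i) + Real.pi * ∑ i, |p.2.1 i - p.2.1 i| = 0 := by
      simp [contMk_gd_self]
    rw [this]
    exact hε
  filter_upwards [hcont.continuousAt.eventually_lt continuousAt_const h0] with q hq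
  exact h _ ((contMk_bound p.1 q.1 p.2 q.2).trans_lt hq)

end Pool.Agent.AVG
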