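import Pool.Agent.Lib.MP_89fc28_gt.G.Defs

/-! # MP_89fc28_gt: representations of measures -/

set_option autoImplicit false

open Set MeasureTheory Module

namespace Pool.Agent.AVG

private theorem mk_ext' {N : ℕ} {r : ℝ} (μ ν : AVR N r) (h : μ.w = ν.w) : μ = ν :=
  AVR.ext h

private theorem mk_w_apply {N : ℕ} {r : ℝ} {j : ℕ} (x : Conf N r j) (l : stdSimplex ℝ (Fin j))
    (hx : Function.Injective x.1) (i : Fin j) : (AVR.mk' x l).w (x.1 i) = l.1 i := by
  unfold AVR.mk'
  simp only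
  rw [Finsupp.finsetSum_apply, Finset.sum_eq_single i]
  · simp
  · intro b _ hb
    rw [Finsupp.single_apply, if_neg (fun e => hb (hx e))]
  · intro h
    exact absurd (Finset.mem_univ i) h

private theorem mk_w_range {N : ℕ} {r : ℝ} {j : ℕ} (x : Conf N r j) (l : stdSimplex ℝ (Fin j))
    (y : Sph N) (hy : (AVR.mk' x l).w y ≠ 0) : ∃ i, x.1 i = y := by
  by_contra hne
  push Not at hne
  apply hy
  unfold AVR.mk'
  simp only
  rw [Finsupp.finsetSum_apply]
  exact Finset.sum_eq_zero fun i _ => by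
    rw [Finsupp.single_apply, if_neg (hne i)]

private theorem mk_conf_inj {N : ℕ} {r : ℝ} (hr : 0 < r) {j : ℕ} (x : Conf N r j) :
    Function.Injective x.1 := by
  intro i i' h
  by_contra hne
  have h1 := x.2 i i' hne
  have h2 : gd (x.1 i) (x.1 i') = 0 := by
    rw [← h]
    unfold gd
    have hn : ‖((x.1 i : Sph N) : Eu N)‖ = 1 := by
      have := (x.1 i).2
      rw [mem_sphere_zero_iff_norm] at this
      exact this
    rw [real_inner_self_eq_norm_sq, hn]
    simp
  linarith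

theorem exists_mk {N : ℕ} {r : ℝ} (μ : AVR N r) :
    ∃ (x : Conf N r μ.w.support.card) (l : stdSimplex ℝ (Fin μ.w.support.card)),
      Function.Injective x.1 ∧ (∀ i, 0 < l.1 i) ∧ AVR.mk' x l = μ := by
  classical
  let e : Fin μ.w.support.card ≃ {a // a ∈ μ.w.support} := (Finset.equivFin _).symm
  have hinj : Function.Injective (fun i => ((e i).1 : Sph N)) := by
    intro i i' h
    exact e.injective (Subtype.ext h)
  have hsum : ∀ {M : Type} [AddCommMonoid M] (f : Sph N → M),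
      ∑ i, f (e i).1 = ∑ a ∈ μ.w.support, f a := by
    intro M _ f
    rw [e.sum_comp (fun a : {a // a ∈ μ.w.support} => f a.1)]
    exact Finset.sum_coe_sort μ.w.support f
  refine ⟨⟨fun i => (e i).1, ?_⟩, ⟨fun i => μ.w (e i).1, ?_, ?_⟩, ?_, ?_, ?_⟩
  · intro i i' hii
    exact μ.spread _ (e i).2 _ (e i').2 (fun h => hii (hinj h))
  · intro i
    exact μ.nonneg _
  · rw [hsum (fun a => μ.w a)]
    exact μ.total
  · exact hinj
  · intro i
    exact lt_of_le_of_ne (μ.nonneg _) (Ne.symm (Finsupp.mem_support_iff.mp (e i).2))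
  · apply mk_ext'
    show ∑ i, Finsupp.single ((e i).1 : Sph N) (μ.w (e i).1) = μ.w
    rw [hsum (fun a => Finsupp.single a (μ.w a))]
    exact Finsupp.sum_single μ.w

theorem exists_mk' {N : ℕ} {r : ℝ} {j : ℕ} (μ : AVR N r) (hj : μ.w.support.card = j) :
    ∃ (x : Conf N r j) (l : stdSimplex ℝ (Fin j)), (∀ i, 0 < l.1 i) ∧ AVR.mk' x l = μ := by
  subst hj
  obtain ⟨x, l, _, h2, h3⟩ := exists_mk μ
  exact ⟨x, l, h2, h3⟩

theorem card_mk {N : ℕ} {r : ℝ} (hr : 0 < r) {j : ℕ} (x : Conf N r j)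
    (l : stdSimplex ℝ (Fin j)) :
    (AVR.mk' x l).w.support.card = (Finset.univ.filter fun i => l.1 i ≠ 0).card := by
  classical
  have hinj := mk_conf_inj hr x
  have : (AVR.mk' x l).w.support = (Finset.univ.filter fun i => l.1 i ≠ 0).image x.1 := by
    ext y
    rw [Finsupp.mem_support_iff, Finset.mem_image]
    constructor
    · intro hy
      obtain ⟨i, hi⟩ := mk_w_range x l y hy
      refine ⟨i, ?_, hi⟩
      rw [Finset.mem_filter]
      refine ⟨Finset.mem_univ i, ?_⟩
      rw [← hi, mk_w_apply x l hinj] at hy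
      exact hy
    · rintro ⟨i, hi, rfl⟩
      rw [mk_w_apply x l hinj]
      exact (Finset.mem_filter.mp hi).2
  rw [this, Finset.card_image_of_injective _ hinj]

/-- two representations differ by a permutation -/
theorem mk_perm {N : ℕ} {r : ℝ} (hr : 0 < r) {j : ℕ} (x y : Conf N r j)
    (l k : stdSimplex ℝ (Fin j)) (hl : ∀ i, 0 < l.1 i) (hk : ∀ i, 0 < k.1 i)
    (h : AVR.mk' x l = AVR.mk' y k) :
    ∃ σ : Equiv.Perm (Fin j), ∀ i, y.1 i = x.1 (σ i) ∧ k.1 i = l.1 (σ i) := by
  classical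
  have hx := mk_conf_inj hr x
  have hy := mk_conf_inj hr y
  have key : ∀ i, ∃ i', x.1 i' = y.1 i := by
    intro i
    apply mk_w_range x l
    rw [h, mk_w_apply y k hy]
    exact (hk i).ne'
  choose f hf using key
  have hfinj : Function.Injective f := by
    intro a b hab
    apply hy
    rw [← hf a, ← hf b, hab]
  refine ⟨Equiv.ofBijective f (Finite.injective_iff_bijective.mp hfinj), ?_⟩
  intro i
  rw [Equiv.ofBijective_apply]
  refine ⟨(hf i).symm, ?_⟩
  have e1 := mk_w_apply y k hy i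
  rw [← h, ← hf i, mk_w_apply x l hx] at e1
  exact e1.symm

theorem mk_of_perm {N : ℕ} {r : ℝ} {j : ℕ} (x y : Conf N r j)
    (l k : stdSimplex ℝ (Fin j)) (σ : Equiv.Perm (Fin j))
    (h : ∀ i, y.1 i = x.1 (σ i) ∧ k.1 i = l.1 (σ i)) : AVR.mk' x l = AVR.mk' y k := by
  apply mk_ext'
  show ∑ i, Finsupp.single (x.1 i) (l.1 i) = ∑ i, Finsupp.single (y.1 i) (k.1 i)
  rw [← Equiv.sum_comp σ (fun i => Finsupp.single (x.1 i) (l.1 i))]
  apply Finset.sum_congr rfl
  intro i _
  rw [(h i).1, (h i).2]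

end Pool.Agent.AVG
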