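import Pool.Agent.Lib.MP_89fc28_gt.G.Integ
import Pool.Agent.Lib.MP_89fc28_gt.G.ContMk
import Pool.Agent.Lib.MP_89fc28_gt.G.Mk

/-! # MP_89fc28_gt: Hausdorff property, compactness, strata -/

set_option autoImplicit false

open Set MeasureTheory Module

namespace Pool.Agent.AVG

/-- the integral against a test function which is `1` at `x₀` and `0` at the other atoms -/
private theorem compact_integ_eq {N : ℕ} (μ : Sph N →₀ ℝ) (x₀ : Sph N) (φ : Eu N → ℝ)
    (h1 : φ x₀ = 1) (h0 : ∀ x ∈ μ.support, x ≠ x₀ → φ x = 0) : integ μ φ = μ x₀ := by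
  unfold integ Finsupp.sum
  rw [Finset.sum_eq_single x₀]
  · show μ x₀ • φ x₀ = μ x₀
    rw [h1, smul_eq_mul, mul_one]
  · intro x hx hne
    show μ x • φ x = 0
    rw [h0 x hx hne, smul_zero]
  · intro hx
    show μ x₀ • φ x₀ = 0
    rw [Finsupp.notMem_support_iff.1 hx, zero_smul]

private theorem compact_test {N : ℕ} (T : Finset (Sph N)) (x₀ : Sph N) :
    ∃ φ : Eu N → ℝ, Continuous φ ∧ φ x₀ = 1 ∧ ∀ x ∈ T, x ≠ x₀ → φ x = 0 := by
  classical
  refine ⟨fun v => ∏ t ∈ T.erase x₀, (‖v - (t : Eu N)‖ / ‖(x₀ : Eu N) - (t : Eu N)‖), ?_, ?_, ?_⟩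
  · exact continuous_finsetProd _ fun t _ => by fun_prop
  · refine Finset.prod_eq_one fun t ht => div_self ?_
    rw [norm_ne_zero_iff, sub_ne_zero]
    intro h
    exact (Finset.mem_erase.1 ht).1 (Subtype.ext h.symm)
  · intro x hx hne
    refine Finset.prod_eq_zero (Finset.mem_erase.2 ⟨hne, hx⟩) ?_
    simp

instance (N : ℕ) (r : ℝ) : T2Space (AVR N r) := by
  classical
  refine ⟨fun μ ν hne => ?_⟩
  have h : ∃ x₀, μ.w x₀ ≠ ν.w x₀ := by
    by_contra h
    push Not at h
    exact hne (AVR.ext (Finsupp.ext h))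
  obtain ⟨x₀, hx₀⟩ := h
  obtain ⟨φ, hφ, h1, h0⟩ := compact_test (μ.w.support ∪ ν.w.support) x₀
  have hc : Continuous fun μ : AVR N r => integ μ.w φ := continuous_integ φ hφ
  refine separated_by_continuous hc ?_
  rw [compact_integ_eq μ.w x₀ φ h1 (fun x hx => h0 x (Finset.mem_union_left _ hx)),
    compact_integ_eq ν.w x₀ φ h1 (fun x hx => h0 x (Finset.mem_union_right _ hx))]
  exact hx₀

theorem compactSpace_conf {N : ℕ} {r : ℝ} {j : ℕ} : CompactSpace (Conf N r j) := by
  rw [← isCompact_iff_compactSpace]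
  apply IsClosed.isCompact
  have h : Conf N r j = ⋂ i : Fin j, ⋂ l : Fin j, {x | i ≠ l → r ≤ gd (x i) (x l)} := by
    ext x
    simp [Conf]
  rw [h]
  refine isClosed_iInter fun i => isClosed_iInter fun l => ?_
  by_cases hil : i = l
  · have : {x : Fin j → Sph N | i ≠ l → r ≤ gd (x i) (x l)} = univ := by
      ext x; simp [hil]
    rw [this]; exact isClosed_univ
  · have : {x : Fin j → Sph N | i ≠ l → r ≤ gd (x i) (x l)} =
        {x : Fin j → Sph N | r ≤ gd (x i) (x l)} := by
      ext x; simp [hil]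
    rw [this]
    refine isClosed_le continuous_const ?_
    unfold gd
    exact Real.continuous_arccos.comp (by fun_prop)

private theorem compact_range {N : ℕ} {r : ℝ} (j : ℕ) :
    IsCompact (range fun p : Conf N r j × stdSimplex ℝ (Fin j) => AVR.mk' p.1 p.2) := by
  have := compactSpace_conf (N := N) (r := r) (j := j)
  exact isCompact_range continuous_mk

private theorem compact_card_le {N : ℕ} {r : ℝ} {j : ℕ} (x : Conf N r j)
    (l : stdSimplex ℝ (Fin j)) : (AVR.mk' x l).w.support.card ≤ j := by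
  classical
  have h : (AVR.mk' x l).w.support ⊆ Finset.univ.image x.1 := by
    intro y hy
    by_contra hne
    rw [Finset.mem_image] at hne
    push Not at hne
    rw [Finsupp.mem_support_iff] at hy
    apply hy
    show (∑ i, Finsupp.single (x.1 i) (l.1 i)) y = 0
    rw [Finsupp.finsetSum_apply]
    refine Finset.sum_eq_zero fun i _ => ?_
    rw [Finsupp.single_apply, if_neg (hne i (Finset.mem_univ i))]
  refine (Finset.card_le_card h).trans (Finset.card_image_le.trans ?_)
  simp

theorem isCompact_strat {N : ℕ} {r : ℝ} (j : ℕ) : IsCompact (strat N r j) := by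
  have h : strat N r j = ⋃ i ∈ Finset.range (j + 1),
      range fun p : Conf N r i × stdSimplex ℝ (Fin i) => AVR.mk' p.1 p.2 := by
    ext μ
    simp only [mem_iUnion, Finset.mem_range]
    constructor
    · intro hμ
      obtain ⟨x, l, _, _, e⟩ := exists_mk μ
      have hc : μ.w.support.card ≤ j := hμ
      exact ⟨μ.w.support.card, by omega, (x, l), e⟩
    · rintro ⟨i, hi, ⟨x, l⟩, rfl⟩
      have := compact_card_le x l
      exact this.trans (by omega)
  rw [h]
  exact Finset.isCompact_biUnion _ fun i _ => compact_range i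

theorem compactSpace_AVR {N : ℕ} {r : ℝ} (J : ℕ) (hJ : ∀ μ : AVR N r, μ.w.support.card ≤ J) :
    CompactSpace (AVR N r) := by
  rw [← isCompact_univ_iff]
  have h : (univ : Set (AVR N r)) = strat N r J := by
    ext μ
    exact ⟨fun _ => hJ μ, fun _ => mem_univ _⟩
  rw [h]
  exact isCompact_strat J

theorem isClosed_strat {N : ℕ} {r : ℝ} (j : ℕ) : IsClosed (strat N r j) :=
  (isCompact_strat j).isClosed

end Pool.Agent.AVG
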