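import Pool.Agent.Lib.MP_89fc28_gt.G.Integ
import Pool.Agent.Lib.MP_89fc28_gt.G.Compact

/-! # MP_89fc28_gt: smooth approximation -/

set_option autoImplicit false

open Set MeasureTheory Module

namespace Pool.Agent.AVG

/-- the function `f` is a smooth function of finitely many smooth moments and of `t` -/
def approx_good {N : ℕ} {r : ℝ} (f : C(AVR N r × unitInterval, ℝ)) : Prop :=
  ∃ (ι : Type) (_ : Fintype ι) (φ : Eu N → ι → ℝ) (Ψ : (ι → ℝ) × ℝ → ℝ),
    ContDiff ℝ 2 φ ∧ ContDiff ℝ 2 Ψ ∧ ∀ μ t, f (μ, t) = Ψ (integ μ.w φ, (t : ℝ))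

theorem approx_integ_apply {N : ℕ} {ι : Type} (μ : Sph N →₀ ℝ) (φ : Eu N → ι → ℝ) (i : ι) :
    integ μ φ i = integ μ (fun x => φ x i) := by
  unfold integ Finsupp.sum
  rw [Finset.sum_apply]
  rfl

theorem approx_sigma {N : ℕ} {r : ℝ} {J : Type} [Fintype J]
    (f : J → C(AVR N r × unitInterval, ℝ)) (hf : ∀ j, approx_good (f j)) :
    ∃ (ι : Type) (_ : Fintype ι) (φ : Eu N → ι → ℝ) (Ψ : J → (ι → ℝ) × ℝ → ℝ),
      ContDiff ℝ 2 φ ∧ (∀ j, ContDiff ℝ 2 (Ψ j)) ∧
      ∀ j μ t, f j (μ, t) = Ψ j (integ μ.w φ, (t : ℝ)) := by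
  choose ι hι φ Ψ h1 h2 h3 using hf
  refine ⟨(j : J) × ι j, inferInstance, fun x p => φ p.1 x p.2,
    fun j z => Ψ j (fun i => z.1 ⟨j, i⟩, z.2), ?_, ?_, ?_⟩
  · rw [contDiff_pi]
    rintro ⟨j, i⟩
    exact (contDiff_pi.1 (h1 j)) i
  · intro j
    refine (h2 j).comp (ContDiff.prodMk ?_ contDiff_snd)
    rw [contDiff_pi]
    intro i
    exact (contDiff_apply ℝ ℝ (⟨j, i⟩ : (j : J) × ι j)).comp contDiff_fst
  · intro j μ t
    rw [h3 j μ t]
    have h4 : integ μ.w (φ j) = fun i => integ μ.w (fun (x : Eu N) (p : (j : J) × ι j) =>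
        φ p.1 x p.2) ⟨j, i⟩ := by
      funext i
      rw [approx_integ_apply, approx_integ_apply]
    rw [h4]

/-- constants and the second coordinate -/
theorem approx_of_t {N : ℕ} {r : ℝ} (f : C(AVR N r × unitInterval, ℝ)) (h : ℝ → ℝ)
    (hh : ContDiff ℝ 2 h) (hf : ∀ μ t, f (μ, t) = h (t : ℝ)) : approx_good f :=
  ⟨Empty, inferInstance, fun _ => Empty.elim, fun z => h z.2,
    contDiff_pi.2 fun i => i.elim, hh.comp contDiff_snd, fun μ t => hf μ t⟩

theorem approx_two {N : ℕ} {r : ℝ} {f g : C(AVR N r × unitInterval, ℝ)}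
    (hf : approx_good f) (hg : approx_good g) :
    ∃ (ι : Type) (_ : Fintype ι) (φ : Eu N → ι → ℝ) (Ψ Ψ' : (ι → ℝ) × ℝ → ℝ),
      ContDiff ℝ 2 φ ∧ ContDiff ℝ 2 Ψ ∧ ContDiff ℝ 2 Ψ' ∧
      (∀ μ t, f (μ, t) = Ψ (integ μ.w φ, (t : ℝ))) ∧
      ∀ μ t, g (μ, t) = Ψ' (integ μ.w φ, (t : ℝ)) := by
  obtain ⟨ι, hι, φ, Ψ, h1, h2, h3⟩ := approx_sigma (J := Bool) (fun b => if b then f else g)
    (fun b => by cases b <;> simp [hf, hg])
  refine ⟨ι, hι, φ, Ψ true, Ψ false, h1, h2 true, h2 false, ?_, ?_⟩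
  · intro μ t; have := h3 true μ t; simpa using this
  · intro μ t; have := h3 false μ t; simpa using this

/-- the subalgebra of the good functions -/
def approx_alg (N : ℕ) (r : ℝ) : Subalgebra ℝ C(AVR N r × unitInterval, ℝ) where
  carrier := {f | approx_good f}
  mul_mem' := by
    intro f g hf hg
    obtain ⟨ι, hι, φ, Ψ, Ψ', h1, h2, h3, h4, h5⟩ := approx_two hf hg
    exact ⟨ι, hι, φ, fun z => Ψ z * Ψ' z, h1, h2.mul h3, fun μ t => by
      rw [ContinuousMap.mul_apply, h4, h5]⟩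
  add_mem' := by
    intro f g hf hg
    obtain ⟨ι, hι, φ, Ψ, Ψ', h1, h2, h3, h4, h5⟩ := approx_two hf hg
    exact ⟨ι, hι, φ, fun z => Ψ z + Ψ' z, h1, h2.add h3, fun μ t => by
      rw [ContinuousMap.add_apply, h4, h5]⟩
  algebraMap_mem' := by
    intro c
    exact approx_of_t _ (fun _ => c) contDiff_const (fun μ t => rfl)

theorem approx_sep (N : ℕ) (r : ℝ) : (approx_alg N r).SeparatesPoints := by
  classical
  rintro ⟨μ, s⟩ ⟨ν, t⟩ hne
  by_cases hst : s = t
  · subst hst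
    have hμν : μ ≠ ν := fun h => hne (by rw [h])
    have hw : μ.w ≠ ν.w := fun h => hμν (AVR.ext h)
    obtain ⟨x₀, hx₀⟩ : ∃ x, μ.w x ≠ ν.w x := by
      by_contra hcon
      push Not at hcon
      exact hw (Finsupp.ext hcon)
    set S : Finset (Sph N) := (μ.w.support ∪ ν.w.support).erase x₀ with hS
    set b : Eu N → ℝ := fun x => ∏ y ∈ S, ‖x - (y : Eu N)‖ ^ 2 with hb
    have hbc : ContDiff ℝ 2 b := by
      rw [hb]
      refine contDiff_prod fun y _ => ?_
      exact (contDiff_id.sub contDiff_const).norm_sq ℝ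
    have hb0 : b (x₀ : Eu N) ≠ 0 := by
      rw [hb]
      refine Finset.prod_ne_zero_iff.2 fun y hy => ?_
      have h1 : y ≠ x₀ := Finset.ne_of_mem_erase hy
      have h2 : (x₀ : Eu N) - (y : Eu N) ≠ 0 := by
        rw [sub_ne_zero]; intro h; exact h1 (Subtype.ext h.symm)
      have h3 := norm_pos_iff.2 h2
      positivity
    have hbS : ∀ y ∈ S, b (y : Eu N) = 0 := by
      intro y hy
      rw [hb]
      refine Finset.prod_eq_zero hy ?_
      simp
    have hint : ∀ κ : Sph N →₀ ℝ, κ.support ⊆ μ.w.support ∪ ν.w.support →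
        integ κ b = κ x₀ * b (x₀ : Eu N) := by
      intro κ hκ
      unfold integ Finsupp.sum
      rw [Finset.sum_eq_single x₀]
      · rfl
      · intro y hy hyx
        show κ y • b (y : Eu N) = 0
        rw [hbS y (Finset.mem_erase.2 ⟨hyx, hκ hy⟩), smul_zero]
      · intro h
        show κ x₀ • b (x₀ : Eu N) = 0
        rw [Finsupp.notMem_support_iff.1 h, zero_smul]
    refine ⟨fun p => integ p.1.w b, ⟨⟨fun p => integ p.1.w b,
      (continuous_integ b hbc.continuous).comp continuous_fst⟩, ?_, rfl⟩, ?_⟩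
    · refine ⟨Unit, inferInstance, fun x _ => b x, fun z => z.1 (), ?_, ?_, ?_⟩
      · rw [contDiff_pi]; intro _; exact hbc
      · exact (contDiff_apply ℝ ℝ ()).comp contDiff_fst
      · intro κ u
        show integ κ.w b = integ κ.w (fun (x : Eu N) (_ : Unit) => b x) ()
        rw [approx_integ_apply]
    · show integ μ.w b ≠ integ ν.w b
      rw [hint μ.w Finset.subset_union_left, hint ν.w Finset.subset_union_right]
      exact fun h => hx₀ (mul_right_cancel₀ hb0 h)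
  · refine ⟨fun p => (p.2 : ℝ), ⟨⟨fun p => (p.2 : ℝ), by fun_prop⟩, ?_, rfl⟩, ?_⟩
    · exact approx_of_t _ (fun t => t) contDiff_id (fun μ t => rfl)
    · intro h; exact hst (Subtype.ext h)

/-- **T5. Smooth approximation by functions of moments.** -/
theorem approx {N : ℕ} {r : ℝ} [CompactSpace (AVR N r)] {H : Type} [NormedAddCommGroup H]
    [NormedSpace ℝ H] [FiniteDimensional ℝ H] (g : C(AVR N r × unitInterval, H)) (ε : ℝ)
    (hε : 0 < ε) : ∃ (k : ℕ) (φ : Eu N → Fin k → ℝ) (Ψ : (Fin k → ℝ) × ℝ → H),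
      ContDiff ℝ 2 φ ∧ ContDiff ℝ 2 Ψ ∧
      ∀ μ t, ‖g (μ, t) - Ψ (integ μ.w φ, (t : ℝ))‖ < ε := by
  classical
  have L : H ≃L[ℝ] (Fin (finrank ℝ H) → ℝ) :=
    ContinuousLinearEquiv.ofFinrankEq (by rw [finrank_fin_fun])
  set C : ℝ := ‖(L.symm : (Fin (finrank ℝ H) → ℝ) →L[ℝ] H)‖ + 1 with hC
  have hC0 : 0 < C := by positivity
  let G : Fin (finrank ℝ H) → C(AVR N r × unitInterval, ℝ) := fun i =>
    ⟨fun p => L (g p) i, (continuous_apply i).comp (L.continuous.comp g.continuous)⟩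
  have h1 : ∀ i, ∃ f : C(AVR N r × unitInterval, ℝ), approx_good f ∧ ∀ p, |f p - G i p| < ε / C := by
    intro i
    obtain ⟨f, hf⟩ := ContinuousMap.exists_mem_subalgebra_near_continuousMap_of_separatesPoints
      (approx_alg N r) (approx_sep N r) (G i) (ε / C) (by positivity)
    refine ⟨f, f.2, fun p => ?_⟩
    have := ContinuousMap.norm_coe_le_norm ((f : C(AVR N r × unitInterval, ℝ)) - G i) p
    rw [ContinuousMap.sub_apply, Real.norm_eq_abs] at this
    exact this.trans_lt hf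
  choose f hf1 hf2 using h1
  obtain ⟨ι, hι, φ, Ψ, h2, h3, h4⟩ := approx_sigma f hf1
  let e : ι ≃ Fin (Fintype.card ι) := Fintype.equivFin ι
  refine ⟨Fintype.card ι, fun x i => φ x (e.symm i),
    fun z => L.symm (fun j => Ψ j (fun i => z.1 (e i), z.2)), ?_, ?_, ?_⟩
  · rw [contDiff_pi]
    intro i
    exact (contDiff_pi.1 h2) (e.symm i)
  · refine L.symm.contDiff.comp ?_
    rw [contDiff_pi]
    intro j
    refine (h3 j).comp (ContDiff.prodMk ?_ contDiff_snd)
    rw [contDiff_pi]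
    intro i
    exact (contDiff_apply ℝ ℝ (e i)).comp contDiff_fst
  · intro μ t
    have h5 : (fun i : ι => integ μ.w (fun x (i : Fin (Fintype.card ι)) => φ x (e.symm i)) (e i)) =
        integ μ.w φ := by
      funext i
      rw [approx_integ_apply, approx_integ_apply, Equiv.symm_apply_apply]
    show ‖g (μ, t) - L.symm (fun j => Ψ j ((fun i : ι => integ μ.w
      (fun x (i : Fin (Fintype.card ι)) => φ x (e.symm i)) (e i)), (t : ℝ)))‖ < ε
    rw [h5]
    have h6 : g (μ, t) - L.symm (fun j => Ψ j (integ μ.w φ, (t : ℝ))) =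
        L.symm (fun j => G j (μ, t) - f j (μ, t)) := by
      have e1 : g (μ, t) = L.symm (fun j => G j (μ, t)) := (L.symm_apply_apply _).symm
      rw [e1, ← map_sub]
      congr 1
      funext j
      rw [Pi.sub_apply, h4 j μ t]
    rw [h6]
    have h7 : ‖(fun j => G j (μ, t) - f j (μ, t))‖ ≤ ε / C := by
      rw [pi_norm_le_iff_of_nonneg (by positivity)]
      intro j
      rw [Real.norm_eq_abs, abs_sub_comm]
      exact (hf2 j _).le
    calc ‖L.symm (fun j => G j (μ, t) - f j (μ, t))‖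
        ≤ ‖(L.symm : (Fin (finrank ℝ H) → ℝ) →L[ℝ] H)‖ * ‖(fun j => G j (μ, t) - f j (μ, t))‖ :=
          (L.symm : (Fin (finrank ℝ H) → ℝ) →L[ℝ] H).le_opNorm _
      _ ≤ ‖(L.symm : (Fin (finrank ℝ H) → ℝ) →L[ℝ] H)‖ * (ε / C) :=
          mul_le_mul_of_nonneg_left h7 (norm_nonneg _)
      _ < C * (ε / C) := by
          refine mul_lt_mul_of_pos_right ?_ (by positivity)
          rw [hC]; linarith
      _ = ε := by field_simp

end Pool.Agent.AVG
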