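import Pool.Agent.Lib.MP_89fc28_gt.G.Chain

/-! # MP_89fc28_gt: the number of atoms -/

set_option autoImplicit false

open Set MeasureTheory Module

namespace Pool.Agent.AVG

/-! ### sums of unit vectors -/

private theorem card_inner_mem {N : ℕ} (x y : Sph N) :
    (inner ℝ (x : Eu N) (y : Eu N) : ℝ) ∈ Icc (-1 : ℝ) 1 := by
  have hx : ‖(x : Eu N)‖ = 1 := by simp
  have hy : ‖(y : Eu N)‖ = 1 := by simp
  have h := abs_real_inner_le_norm (x : Eu N) (y : Eu N)
  rw [hx, hy, mul_one, abs_le] at h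
  exact h

private theorem card_c_mem {m : ℕ} (hm : 1 ≤ m) : (-(1 / (m : ℝ))) ∈ Icc (-1 : ℝ) 1 := by
  have hm' : (1 : ℝ) ≤ m := by exact_mod_cast hm
  have h1 : 1 / (m : ℝ) ≤ 1 := by
    rw [div_le_one (by linarith)]
    exact hm'
  have h2 : 0 ≤ 1 / (m : ℝ) := by positivity
  constructor <;> linarith

private theorem card_inner_le {N m : ℕ} (hm : 1 ≤ m) {x y : Sph N} (h : rm m ≤ gd x y) :
    (inner ℝ (x : Eu N) (y : Eu N) : ℝ) ≤ -(1 / (m : ℝ)) := by
  by_contra hc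
  push Not at hc
  have := Real.strictAntiOn_arccos (card_c_mem hm) (card_inner_mem x y) hc
  unfold rm gd at h
  linarith

private theorem card_inner_lt {N m : ℕ} (hm : 1 ≤ m) {x y : Sph N} (h : rm m < gd x y) :
    (inner ℝ (x : Eu N) (y : Eu N) : ℝ) < -(1 / (m : ℝ)) := by
  refine lt_of_le_of_ne (card_inner_le hm h.le) fun he => ?_
  unfold rm gd at h
  rw [he] at h
  exact lt_irrefl _ h

private theorem card_norm_sq {N : ℕ} {ι : Type*} [Fintype ι] (f : ι → Eu N) :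
    ‖∑ i, f i‖ ^ 2 = ∑ i, ∑ l, (inner ℝ (f i) (f l) : ℝ) := by
  rw [← real_inner_self_eq_norm_sq, sum_inner]
  refine Finset.sum_congr rfl fun i _ => ?_
  rw [inner_sum]

private theorem card_sum_const {ι : Type*} [Fintype ι] [DecidableEq ι] (c : ℝ) :
    ∑ i : ι, ∑ l : ι, (if i = l then (1 : ℝ) else -c) =
      Fintype.card ι * ((1 + c) - c * Fintype.card ι) := by
  have h : ∀ i : ι, ∑ l : ι, (if i = l then (1 : ℝ) else -c) = (1 + c) - c * Fintype.card ι := by
    intro i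
    have h1 : ∀ l : ι, (if i = l then (1 : ℝ) else -c) = (if i = l then (1 + c) else 0) + -c := by
      intro l
      split_ifs <;> ring
    simp only [h1, Finset.sum_add_distrib, Finset.sum_ite_eq, Finset.mem_univ, if_true,
      Finset.sum_const, Finset.card_univ, nsmul_eq_mul]
    ring
  simp only [h, Finset.sum_const, Finset.card_univ, nsmul_eq_mul]

private theorem card_term_le {N : ℕ} {ι : Type*} [DecidableEq ι] {f : ι → Eu N}
    (hf : ∀ i, ‖f i‖ = 1) {c : ℝ} (hc : ∀ i l, i ≠ l → (inner ℝ (f i) (f l) : ℝ) ≤ -c) (i l : ι) :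
    (inner ℝ (f i) (f l) : ℝ) ≤ if i = l then (1 : ℝ) else -c := by
  split_ifs with h
  · subst h
    rw [real_inner_self_eq_norm_sq, hf]
    norm_num
  · exact hc i l h

private theorem card_main {N : ℕ} {ι : Type*} [Fintype ι] [DecidableEq ι] {f : ι → Eu N}
    (hf : ∀ i, ‖f i‖ = 1) {c : ℝ} (hc : ∀ i l, i ≠ l → (inner ℝ (f i) (f l) : ℝ) ≤ -c) :
    ‖∑ i, f i‖ ^ 2 ≤ Fintype.card ι * ((1 + c) - c * Fintype.card ι) := by
  rw [card_norm_sq, ← card_sum_const]
  exact Finset.sum_le_sum fun i _ => Finset.sum_le_sum fun l _ => card_term_le hf hc i l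

private theorem card_le_succ {N m : ℕ} (hm : 1 ≤ m) {ι : Type*} [Fintype ι] {f : ι → Eu N}
    (hf : ∀ i, ‖f i‖ = 1)
    (hc : ∀ i l, i ≠ l → (inner ℝ (f i) (f l) : ℝ) ≤ -(1 / (m : ℝ))) :
    Fintype.card ι ≤ m + 1 := by
  classical
  have h1 := card_main hf hc
  have h0 : 0 ≤ ‖∑ i, f i‖ ^ 2 := sq_nonneg _
  have hm' : (0 : ℝ) < m := by exact_mod_cast hm
  by_contra hcon
  push Not at hcon
  have h2 : (m : ℝ) + 1 < Fintype.card ι := by exact_mod_cast hcon
  have h3 : (1 + 1 / (m : ℝ)) - 1 / (m : ℝ) * Fintype.card ι < 0 := by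
    have : (1 + 1 / (m : ℝ)) - 1 / (m : ℝ) * Fintype.card ι =
        (m + 1 - Fintype.card ι) / m := by
      field_simp
    rw [this]
    exact div_neg_of_neg_of_pos (by linarith) hm'
  have h4 : (0 : ℝ) < Fintype.card ι := by linarith
  have h5 := mul_neg_of_pos_of_neg h4 h3
  linarith

private theorem card_norm {N : ℕ} (x : Sph N) : ‖(x : Eu N)‖ = 1 := by simp

/-- **G1. The number of atoms.** -/
theorem card_le_of_lt {N m : ℕ} (hm : 1 ≤ m) {r : ℝ} (hr : rm m < r) (μ : AVR N r) :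
    μ.w.support.card ≤ m := by
  classical
  have hlt : ∀ i l : μ.w.support, i ≠ l →
      (inner ℝ ((i : Sph N) : Eu N) ((l : Sph N) : Eu N) : ℝ) < -(1 / (m : ℝ)) := by
    intro i l hil
    refine card_inner_lt hm (hr.trans_le ?_)
    exact μ.spread i i.2 l l.2 fun h => hil (Subtype.ext h)
  have hle := card_le_succ (ι := μ.w.support) (f := fun i => ((i : Sph N) : Eu N)) hm
    (fun i => card_norm _) (fun i l hil => (hlt i l hil).le)
  rw [Fintype.card_coe] at hle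
  by_contra hcon
  push Not at hcon
  have hcard : μ.w.support.card = m + 1 := by omega
  have hc : Fintype.card μ.w.support = m + 1 := by rw [Fintype.card_coe, hcard]
  have hm' : (0 : ℝ) < m := by exact_mod_cast hm
  -- two different points
  obtain ⟨x, hx, y, hy, hxy⟩ := Finset.one_lt_card.1 (by omega : 1 < μ.w.support.card)
  have h1 : ∑ i : μ.w.support, ∑ l : μ.w.support,
      (inner ℝ ((i : Sph N) : Eu N) ((l : Sph N) : Eu N) : ℝ) <
      ∑ i : μ.w.support, ∑ l : μ.w.support, (if i = l then (1 : ℝ) else -(1 / (m : ℝ))) := by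
    have hterm : ∀ i l : μ.w.support, (inner ℝ ((i : Sph N) : Eu N) ((l : Sph N) : Eu N) : ℝ) ≤
        if i = l then (1 : ℝ) else -(1 / (m : ℝ)) := fun i l =>
      card_term_le (f := fun i : μ.w.support => ((i : Sph N) : Eu N)) (fun i => card_norm _)
        (fun i l hil => (hlt i l hil).le) i l
    refine Finset.sum_lt_sum (fun i _ => Finset.sum_le_sum fun l _ => hterm i l)
      ⟨⟨x, hx⟩, Finset.mem_univ _, ?_⟩
    refine Finset.sum_lt_sum (fun l _ => hterm _ l) ⟨⟨y, hy⟩, Finset.mem_univ _, ?_⟩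
    have hne : (⟨x, hx⟩ : μ.w.support) ≠ ⟨y, hy⟩ := fun h => hxy (congrArg Subtype.val h)
    rw [if_neg hne]
    exact hlt _ _ hne
  rw [card_sum_const, ← card_norm_sq (fun i : μ.w.support => ((i : Sph N) : Eu N)), hc] at h1
  have h0 : 0 ≤ ‖∑ i : μ.w.support, ((i : Sph N) : Eu N)‖ ^ 2 := sq_nonneg _
  have h2 : ((m + 1 : ℕ) : ℝ) * ((1 + 1 / (m : ℝ)) - 1 / (m : ℝ) * ((m + 1 : ℕ) : ℝ)) = 0 := by
    push_cast
    field_simp
    ring
  rw [h2] at h1
  linarith

theorem card_le {N m : ℕ} (hm : 1 ≤ m) (μ : AVR N (rm m)) : μ.w.support.card ≤ m + 1 := by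
  classical
  have hle := card_le_succ (ι := μ.w.support) (f := fun i => ((i : Sph N) : Eu N)) hm
    (fun i => card_norm _) (fun i l hil => card_inner_le hm
      (μ.spread i i.2 l l.2 fun h => hil (Subtype.ext h)))
  rwa [Fintype.card_coe] at hle

theorem inner_of_card_eq {N m : ℕ} (hm : 1 ≤ m) (x : Conf N (rm m) (m + 1)) :
    (∀ i l, i ≠ l → inner ℝ (x.1 i : Eu N) (x.1 l : Eu N) = -(1 / (m : ℝ))) ∧
      ∑ i, (x.1 i : Eu N) = 0 := by
  classical
  have hm' : (0 : ℝ) < m := by exact_mod_cast hm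
  have hle : ∀ i l, i ≠ l → (inner ℝ (x.1 i : Eu N) (x.1 l : Eu N) : ℝ) ≤ -(1 / (m : ℝ)) :=
    fun i l hil => card_inner_le hm (x.2 i l hil)
  have hterm : ∀ i l : Fin (m + 1), (inner ℝ (x.1 i : Eu N) (x.1 l : Eu N) : ℝ) ≤
      if i = l then (1 : ℝ) else -(1 / (m : ℝ)) := fun i l =>
    card_term_le (f := fun i : Fin (m + 1) => (x.1 i : Eu N)) (fun i => card_norm _) hle i l
  have h0 : 0 ≤ ‖∑ i, (x.1 i : Eu N)‖ ^ 2 := sq_nonneg _
  have hz : ∑ i : Fin (m + 1), ∑ l : Fin (m + 1), (if i = l then (1 : ℝ) else -(1 / (m : ℝ))) = 0 := by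
    rw [card_sum_const, Fintype.card_fin]
    push_cast
    field_simp
    ring
  have hn := card_norm_sq (fun i : Fin (m + 1) => (x.1 i : Eu N))
  have hs : ∑ i : Fin (m + 1), ∑ l : Fin (m + 1),
      ((if i = l then (1 : ℝ) else -(1 / (m : ℝ))) -
        (inner ℝ (x.1 i : Eu N) (x.1 l : Eu N) : ℝ)) = -‖∑ i, (x.1 i : Eu N)‖ ^ 2 := by
    simp only [Finset.sum_sub_distrib]
    rw [hz, ← hn]
    ring
  have hnn : ∀ i l : Fin (m + 1), 0 ≤ ((if i = l then (1 : ℝ) else -(1 / (m : ℝ))) -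
        (inner ℝ (x.1 i : Eu N) (x.1 l : Eu N) : ℝ)) := fun i l => sub_nonneg.2 (hterm i l)
  have hs0 : 0 ≤ ∑ i : Fin (m + 1), ∑ l : Fin (m + 1),
      ((if i = l then (1 : ℝ) else -(1 / (m : ℝ))) -
        (inner ℝ (x.1 i : Eu N) (x.1 l : Eu N) : ℝ)) :=
    Finset.sum_nonneg fun i _ => Finset.sum_nonneg fun l _ => hnn i l
  have hsq : ‖∑ i, (x.1 i : Eu N)‖ ^ 2 = 0 := by linarith
  constructor
  · intro i l hil
    have hs1 : ∑ i : Fin (m + 1), ∑ l : Fin (m + 1),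
        ((if i = l then (1 : ℝ) else -(1 / (m : ℝ))) -
        (inner ℝ (x.1 i : Eu N) (x.1 l : Eu N) : ℝ)) = 0 := by
      rw [hs, hsq, neg_zero]
    have h2 := (Finset.sum_eq_zero_iff_of_nonneg
      (fun i _ => Finset.sum_nonneg fun l _ => hnn i l)).1 hs1 i (Finset.mem_univ i)
    have h3 := (Finset.sum_eq_zero_iff_of_nonneg (fun l _ => hnn i l)).1 h2 l (Finset.mem_univ l)
    rw [if_neg hil] at h3
    linarith
  · exact norm_eq_zero.1 (pow_eq_zero_iff (two_ne_zero)|>.1 hsq)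

end Pool.Agent.AVG
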