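import Pool.Agent.Lib.MP_89fc28_gt.G.Defs

/-!
# The explicit chain: regular simplices, the cap, weights

A linear map `A : ℝ^m → ℝ^N` is represented by the tuple of the images of the basis vectors.
-/

set_option autoImplicit false

open Set

namespace Pool.Agent.AVG

/-- the Gram map: inner products of a tuple of vectors -/
noncomputable def gram {N q : ℕ} (x : Fin q → Eu N) : Sym2 (Fin q) → ℝ :=
  Sym2.lift ⟨fun i j => inner ℝ (x i) (x j), fun i j => real_inner_comm (x j) (x i)⟩

/-- the Gram matrix of an orthonormal tuple -/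
def gramOne (q : ℕ) : Sym2 (Fin q) → ℝ :=
  Sym2.lift ⟨fun i j => if i = j then 1 else 0, fun i j => by simp [eq_comm]⟩

/-- the action of the linear map with the columns `A i` on the vector `v` -/
noncomputable def act {N m : ℕ} (A : Fin m → Eu N) (v : Eu m) : Eu N := ∑ i, v i • A i

/-- the unit vector `(1, …, 1) / √m` -/
noncomputable def ev (m : ℕ) : Eu m := WithLp.toLp 2 fun _ => 1 / Real.sqrt m

/-- the vertices of a regular simplex with `m` vertices in the orthogonal complement of `ev m` -/
noncomputable def qv (m : ℕ) (i : Fin m) : Eu m :=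
  Real.sqrt ((m : ℝ) / (m - 1)) • (EuclideanSpace.single i (1 : ℝ) - (1 / Real.sqrt m) • ev m)

/-- the vertices of the simplex tilted away from `ev m` -/
noncomputable def pv (m : ℕ) (ρ : ℝ) (i : Fin m) : Eu m :=
  Real.sqrt (1 - ρ ^ 2 / (m : ℝ) ^ 2) • qv m i - (ρ / m) • ev m

/-- the vertices of a regular simplex with `m + 1` vertices in `ℝ^m` -/
noncomputable def pf (m : ℕ) : Fin (m + 1) → Eu m := Fin.snoc (pv m 1) (ev m)

/-- unnormalised weights: `1, u 0, u 0 * u 1, …` -/
noncomputable def wt {m : ℕ} (u : Fin m → ℝ) (l : ℕ) : ℝ :=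
  ∏ i ∈ Finset.univ.filter (fun i : Fin m => i.1 < l), u i

/-- the normalised weights of `k` points -/
noncomputable def nw {m : ℕ} (u : Fin m → ℝ) (k l : ℕ) : ℝ :=
  wt u l / ∑ i : Fin k, wt u i

/-- the moments of the first piece: `m + 1` points at the vertices of a regular simplex -/
noncomputable def momE {N m k : ℕ} (φ : Eu N → Fin k → ℝ) (A : Fin m → Eu N) (u : Fin m → ℝ) :
    Fin k → ℝ :=
  ∑ l : Fin (m + 1), nw u (m + 1) l • φ (act A (pf m l))

/-- the moments of the cap: `m` points, the last coordinate of `u` is the parameter `ρ` -/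
noncomputable def momC {N m k : ℕ} (hm : 0 < m) (φ : Eu N → Fin k → ℝ) (A : Fin m → Eu N)
    (u : Fin m → ℝ) : Fin k → ℝ :=
  ∑ l : Fin m, nw u m l • φ (act A (pv m (u ⟨m - 1, by omega⟩) l))

/-- the great circle distance of two vertices of a regular simplex with `m + 1` vertices -/
noncomputable def rm (m : ℕ) : ℝ := Real.arccos (-(1 / (m : ℝ)))

/-- the upper half line: `v = (0, s)` with `s > 0` -/
def Up {D : ℕ} (v : (Fin D → ℝ) × ℝ) : Prop := v.1 = 0 ∧ 0 < v.2

end Pool.Agent.AVG
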