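import Pool.Agent.Lib.MP_89fc28_gt.G.Chain

/-! # MP_89fc28_gt: the Gram map -/

set_option autoImplicit false

open Set MeasureTheory Module

namespace Pool.Agent.AVG

private theorem gram_mk {N q : ℕ} (x : Fin q → Eu N) (i j : Fin q) :
    gram x s(i, j) = inner ℝ (x i) (x j) := rfl

/-- **A4. The Gram map is a submersion at independent tuples.** -/
theorem gram_contDiff {N q : ℕ} : ContDiff ℝ 2 (gram : (Fin q → Eu N) → Sym2 (Fin q) → ℝ) := by
  rw [contDiff_pi]
  intro p
  induction p using Sym2.ind with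
  | _ i j =>
    simp only [gram_mk]
    exact (contDiff_apply ℝ (Eu N) i).inner ℝ (contDiff_apply ℝ (Eu N) j)

theorem gram_fderiv {N q : ℕ} (x v : Fin q → Eu N) (i j : Fin q) :
    (fderiv ℝ (gram : (Fin q → Eu N) → Sym2 (Fin q) → ℝ) x v) s(i, j) =
      inner ℝ (x i) (v j) + inner ℝ (v i) (x j) := by
  have h0 : DifferentiableAt ℝ (gram : (Fin q → Eu N) → Sym2 (Fin q) → ℝ) x :=
    (gram_contDiff.differentiable (by norm_num)).differentiableAt
  have h1 := hasFDerivAt_pi'.1 h0.hasFDerivAt s(i, j)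
  have hi : HasFDerivAt (fun y : Fin q → Eu N => y i)
      (ContinuousLinearMap.proj (R := ℝ) (φ := fun _ : Fin q => Eu N) i) x :=
    (ContinuousLinearMap.proj (R := ℝ) (φ := fun _ : Fin q => Eu N) i).hasFDerivAt
  have hj : HasFDerivAt (fun y : Fin q → Eu N => y j)
      (ContinuousLinearMap.proj (R := ℝ) (φ := fun _ : Fin q => Eu N) j) x :=
    (ContinuousLinearMap.proj (R := ℝ) (φ := fun _ : Fin q => Eu N) j).hasFDerivAt
  have h2 := hi.inner ℝ hj
  have h3 := h1.unique h2
  have h4 := congrArg (fun L => L v) h3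
  simp only [ContinuousLinearMap.comp_apply, ContinuousLinearMap.proj_apply, fderivInnerCLM_apply,
    ContinuousLinearMap.prod_apply] at h4
  exact h4

private theorem gram_dual {N q : ℕ} (x : Fin q → Eu N) (hx : LinearIndependent ℝ x) (l : Fin q) :
    ∃ y : Eu N, ∀ i, inner ℝ (x i) y = if i = l then (1 : ℝ) else 0 := by
  obtain ⟨g, hg⟩ := LinearMap.exists_extend ((Basis.span hx).coord l)
  let g' : Eu N →L[ℝ] ℝ := LinearMap.toContinuousLinearMap g
  refine ⟨(InnerProductSpace.toDual ℝ (Eu N)).symm g', fun i => ?_⟩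
  rw [real_inner_comm, InnerProductSpace.toDual_symm_apply]
  have h1 : g' (x i) = g (x i) := rfl
  have h2 : g (x i) = (Basis.span hx).coord l ⟨x i, Submodule.subset_span (mem_range_self i)⟩ := by
    rw [← hg]
    rfl
  have h3 : (⟨x i, Submodule.subset_span (mem_range_self i)⟩ : Submodule.span ℝ (range x)) =
      Basis.span hx i := by
    apply Subtype.ext
    rw [Basis.span_apply]
  rw [h1, h2, h3, Basis.coord_apply, Basis.repr_self, Finsupp.single_apply]

theorem gram_surj {N q : ℕ} (x : Fin q → Eu N) (hx : LinearIndependent ℝ x) :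
    Function.Surjective (fderiv ℝ (gram : (Fin q → Eu N) → Sym2 (Fin q) → ℝ) x) := by
  intro W
  choose y hy using gram_dual x hx
  refine ⟨fun j => (1 / 2 : ℝ) • ∑ l, W s(l, j) • y l, ?_⟩
  have h1 : ∀ i j : Fin q, inner ℝ (x i) ((1 / 2 : ℝ) • ∑ l, W s(l, j) • y l) =
      1 / 2 * W s(i, j) := by
    intro i j
    rw [inner_smul_right, inner_sum]
    congr 1
    rw [Finset.sum_eq_single i]
    · rw [inner_smul_right, hy i i, if_pos rfl, mul_one]
    · intro l _ hl
      rw [inner_smul_right, hy l i, if_neg (Ne.symm hl), mul_zero]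
    · intro h
      exact absurd (Finset.mem_univ i) h
  funext p
  induction p using Sym2.ind with
  | _ i j =>
    rw [gram_fderiv, h1, real_inner_comm, h1, Sym2.eq_swap (a := j) (b := i)]
    ring

theorem finrank_sym2 (q : ℕ) : finrank ℝ (Sym2 (Fin q) → ℝ) = (q + 1).choose 2 := by
  rw [Module.finrank_fintype_fun_eq_card, Sym2.card, Fintype.card_fin]

end Pool.Agent.AVG
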