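import Pool.Agent.Lib.MP_89fc28_gt.G.Sard
import Pool.Agent.Lib.MP_89fc28_gt.G.Gram

/-! # MP_89fc28_gt: generic perturbation -/

set_option autoImplicit false

open Set MeasureTheory Module

namespace Pool.Agent.AVG

section GenericAux

variable {N m D k : ℕ}

/-- the parameters of the face with the coordinates in `T` fixed -/
private abbrev FE (N m : ℕ) (T : Finset (Fin m)) : Type :=
  (Fin m → Eu N) × (({j : Fin m // j ∉ T} → ℝ) × ℝ)

/-- extension by zero -/
private noncomputable def generic_ext (m : ℕ) (T : Finset (Fin m)) :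
    ({j : Fin m // j ∉ T} → ℝ) →L[ℝ] (Fin m → ℝ) :=
  ContinuousLinearMap.pi fun j =>
    if h : j ∈ T then 0 else ContinuousLinearMap.proj (⟨j, h⟩ : {j : Fin m // j ∉ T})

private theorem generic_ext_mem {T : Finset (Fin m)} (w : {j : Fin m // j ∉ T} → ℝ) {j : Fin m}
    (hj : j ∈ T) : generic_ext m T w j = 0 := by
  simp [generic_ext, hj]

private theorem generic_ext_not_mem {T : Finset (Fin m)} (w : {j : Fin m // j ∉ T} → ℝ)
    {j : Fin m} (hj : j ∉ T) : generic_ext m T w j = w ⟨j, hj⟩ := by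
  simp [generic_ext, hj]

/-- the linear part of the embedding of a face -/
private noncomputable def generic_lin (N m : ℕ) (T : Finset (Fin m)) :
    FE N m T →L[ℝ] ((Fin m → Eu N) × (Fin m → ℝ)) × ℝ :=
  ((ContinuousLinearMap.fst ℝ _ _).prod
    ((generic_ext m T).comp ((ContinuousLinearMap.fst ℝ _ _).comp
      (ContinuousLinearMap.snd ℝ _ _)))).prod
    ((ContinuousLinearMap.snd ℝ _ _).comp (ContinuousLinearMap.snd ℝ _ _))

private theorem generic_lin_apply {T : Finset (Fin m)} (z : FE N m T) :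
    generic_lin N m T z = ((z.1, generic_ext m T z.2.1), z.2.2) := rfl

/-- the base point of a face -/
private noncomputable def generic_base (T : Finset (Fin m)) (a : Fin m → ℝ) : Fin m → ℝ :=
  fun j => if j ∈ T then a j else 0

/-- the embedding of a face -/
private noncomputable def generic_emb (T : Finset (Fin m)) (a : Fin m → ℝ) (z : FE N m T) :
    ((Fin m → Eu N) × (Fin m → ℝ)) × ℝ :=
  generic_lin N m T z + ((0, generic_base T a), 0)

private theorem generic_emb_restrict {T : Finset (Fin m)} {a : Fin m → ℝ} (A : Fin m → Eu N)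
    (u : Fin m → ℝ) (t : ℝ) (hu : ∀ j ∈ T, u j = a j) :
    generic_emb T a ((A, ((fun j => u j.1), t)) : FE N m T) = ((A, u), t) := by
  unfold generic_emb
  rw [generic_lin_apply]
  simp only [Prod.mk_add_mk, add_zero, Prod.mk.injEq, and_true, true_and]
  funext j
  rw [Pi.add_apply]
  unfold generic_base
  by_cases hj : j ∈ T
  · rw [generic_ext_mem _ hj, if_pos hj, zero_add, hu j hj]
  · rw [generic_ext_not_mem _ hj, if_neg hj, add_zero]

private theorem generic_finrank (T : Finset (Fin m)) :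
    finrank ℝ (FE N m T) + T.card = m * N + m + 1 := by
  have h1 : Fintype.card {j : Fin m // j ∉ T} + T.card = m := by
    rw [Fintype.card_subtype_compl, Fintype.card_coe, Fintype.card_fin]
    have := Finset.card_le_univ T
    rw [Fintype.card_fin] at this
    omega
  have h2 : finrank ℝ (FE N m T) = m * N + (Fintype.card {j : Fin m // j ∉ T} + 1) := by
    rw [finrank_prod, finrank_prod, finrank_self, Module.finrank_pi, Module.finrank_pi_fintype]
    simp [finrank_euclideanSpace]
  omega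

private theorem generic_dims (hD : D + m.choose 2 = m * N) :
    finrank ℝ (Sym2 (Fin m) → ℝ) + finrank ℝ (Fin D → ℝ) = m * N + m := by
  have h : (m + 1).choose 2 = m.choose 1 + m.choose 2 := Nat.choose_succ_succ' m 1
  rw [finrank_sym2, finrank_fin_fun, h, Nat.choose_one_right]
  omega

private theorem generic_indep {A : Fin m → Eu N} (hA : gram A = gramOne m) :
    LinearIndependent ℝ A := by
  have h : Orthonormal ℝ A := by
    rw [orthonormal_iff_ite]
    intro i j
    have := congrFun hA s(i, j)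
    simpa [gram, gramOne] using this
  exact h.linearIndependent

private theorem generic_gram_sub (A : Fin m → Eu N) (T : Finset (Fin m))
    (w : ({j : Fin m // j ∉ T} → ℝ) × ℝ) :
    HasFDerivAt (fun z : FE N m T => gram z.1 - gramOne m)
      ((fderiv ℝ (gram : (Fin m → Eu N) → Sym2 (Fin m) → ℝ) A).comp
        (ContinuousLinearMap.fst ℝ (Fin m → Eu N) (({j : Fin m // j ∉ T} → ℝ) × ℝ))) (A, w) := by
  have h1 : HasFDerivAt (gram : (Fin m → Eu N) → Sym2 (Fin m) → ℝ) (fderiv ℝ gram A) A :=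
    ((gram_contDiff (N := N) (q := m)).differentiable (by norm_num) A).hasFDerivAt
  have h2 : HasFDerivAt (Prod.fst : FE N m T → (Fin m → Eu N))
      (ContinuousLinearMap.fst ℝ (Fin m → Eu N) (({j : Fin m // j ∉ T} → ℝ) × ℝ)) (A, w) :=
    hasFDerivAt_fst
  exact (h1.comp (A, w) h2).sub_const (gramOne m)

private theorem generic_face (hD : D + m.choose 2 = m * N)
    (f : (Fin m → Eu N) × (Fin m → ℝ) → Fin k → ℝ) (O : Set ((Fin m → Eu N) × (Fin m → ℝ)))
    (hO : IsOpen O) (hf : ContDiffOn ℝ 2 f O) (Ψ : (Fin k → ℝ) × ℝ → (Fin D → ℝ) × ℝ)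
    (hΨ : ContDiff ℝ 2 Ψ) (T : Finset (Fin m)) (hT : 1 ≤ T.card) (a : Fin m → ℝ) :
    ∀ᵐ y : Fin D → ℝ, ∀ A u, (A, u) ∈ O → gram A = gramOne m → (∀ j ∈ T, u j = a j) →
      ∀ t : ℝ, 0 < t → (Ψ (f (A, u), t)).1 + t • y = 0 →
      ∀ (η : Fin D → ℝ) (γ : Sym2 (Fin m) → ℝ), ∃ ζ : FE N m T,
        fderiv ℝ (fun p : ((Fin m → Eu N) × (Fin m → ℝ)) × ℝ =>
            (Ψ (f p.1, p.2)).1 + p.2 • y) ((A, u), t) (generic_lin N m T ζ) = η ∧
          fderiv ℝ gram A ζ.1 = γ := by
  set Φ : ((Fin m → Eu N) × (Fin m → ℝ)) × ℝ → Fin D → ℝ := fun p => (Ψ (f p.1, p.2)).1 with hΦ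
  have hUo : IsOpen (O ×ˢ (univ : Set ℝ)) := hO.prod isOpen_univ
  have hΦc : ContDiffOn ℝ 2 Φ (O ×ˢ (univ : Set ℝ)) := by
    have h1 : ContDiffOn ℝ 2 (fun p : ((Fin m → Eu N) × (Fin m → ℝ)) × ℝ => f p.1)
        (O ×ˢ (univ : Set ℝ)) := hf.comp contDiff_fst.contDiffOn (fun p hp => hp.1)
    have h2 : ContDiffOn ℝ 2 (fun p : ((Fin m → Eu N) × (Fin m → ℝ)) × ℝ => p.2)
        (O ×ˢ (univ : Set ℝ)) := contDiff_snd.contDiffOn
    exact contDiff_fst.comp_contDiffOn (hΨ.comp_contDiffOn (h1.prodMk h2))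
  have hembc : Continuous (generic_emb T a : FE N m T → _) := by
    unfold generic_emb
    exact (generic_lin N m T).continuous.add continuous_const
  have hembd : ContDiff ℝ 2 (generic_emb T a : FE N m T → _) := by
    unfold generic_emb
    exact (generic_lin N m T).contDiff.add contDiff_const
  set O' : Set (FE N m T) := {z | (generic_emb T a z).1 ∈ O ∧ 0 < z.2.2} with hO'
  have hO'o : IsOpen O' := by
    refine IsOpen.inter ?_ ?_
    · exact hO.preimage (continuous_fst.comp hembc)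
    · exact isOpen_Ioi.preimage (continuous_snd.comp continuous_snd)
  set c : FE N m T → Sym2 (Fin m) → ℝ := fun z => gram z.1 - gramOne m with hc
  set g : FE N m T → Fin D → ℝ := fun z => -(z.2.2)⁻¹ • Φ (generic_emb T a z) with hg
  have hgc : ContDiffOn ℝ 1 g O' := by
    have h1 : ContDiffOn ℝ 1 (fun z : FE N m T => Φ (generic_emb T a z)) O' :=
      (hΦc.of_le (by norm_num)).comp ((hembd.of_le (by norm_num)).contDiffOn)
        (fun z hz => ⟨hz.1, mem_univ _⟩)
    have h2 : ContDiffOn ℝ 1 (fun z : FE N m T => -(z.2.2)⁻¹) O' := by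
      refine ContDiffOn.neg (ContDiffOn.inv ?_ ?_)
      · exact (contDiff_snd.comp contDiff_snd).contDiffOn
      · intro z hz
        exact hz.2.ne'
    exact h2.smul h1
  have hcc : ContDiffOn ℝ 1 c O' :=
    ((gram_contDiff.of_le (by norm_num)).comp contDiff_fst).sub contDiff_const |>.contDiffOn
  have hcd : ∀ z : FE N m T, fderiv ℝ c z = (fderiv ℝ gram z.1).comp
      (ContinuousLinearMap.fst ℝ (Fin m → Eu N) (({j : Fin m // j ∉ T} → ℝ) × ℝ)) :=
    fun z => (generic_gram_sub z.1 T z.2).fderiv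
  have sard := sard_level (volume : Measure (Fin D → ℝ)) O' hO'o c g hcc hgc ?_ ?_
  · filter_upwards [sard] with y hy A u hAu hA hu t ht hzero η γ
    set z : FE N m T := (A, ((fun j => u j.1), t)) with hz
    have hze : generic_emb T a z = ((A, u), t) := generic_emb_restrict A u t hu
    have hzO : z ∈ O' := by
      refine ⟨?_, ht⟩
      rw [hze]
      exact hAu
    have hgz : g z = y := by
      have h1 : g z = -t⁻¹ • Φ (generic_emb T a z) := rfl
      rw [h1, hze]
      have h2 : Φ ((A, u), t) = -(t • y) := eq_neg_of_add_eq_zero_left hzero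
      rw [h2, smul_neg, neg_smul, neg_neg, smul_smul, inv_mul_cancel₀ ht.ne', one_smul]
    have hcz : c z = 0 := sub_eq_zero.2 hA
    obtain ⟨ζ, hζ⟩ := hy z hzO hcz hgz (-t⁻¹ • η, γ)
    have hζ1 : fderiv ℝ g z ζ = -t⁻¹ • η := congrArg Prod.fst hζ
    have hζ2 : fderiv ℝ c z ζ = γ := congrArg Prod.snd hζ
    refine ⟨ζ, ?_, ?_⟩
    · -- derivatives
      have d0 : HasFDerivAt Φ (fderiv ℝ Φ ((A, u), t)) ((A, u), t) :=
        ((hΦc.contDiffAt (hUo.mem_nhds ⟨hAu, mem_univ _⟩)).differentiableAt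
          (by norm_num)).hasFDerivAt
      have d1 : HasFDerivAt (generic_emb T a : FE N m T → _) (generic_lin N m T) z := by
        unfold generic_emb
        exact (generic_lin N m T).hasFDerivAt.add_const _
      have d2 : HasFDerivAt (fun z : FE N m T => -Φ (generic_emb T a z))
          (-((fderiv ℝ Φ ((A, u), t)).comp (generic_lin N m T))) z := by
        have d0' := d0
        rw [← hze] at d0'
        have := (d0'.comp z d1).neg
        rw [hze] at this
        exact this
      have d3 : HasFDerivAt g (fderiv ℝ g z) z :=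
        ((hgc.contDiffAt (hO'o.mem_nhds hzO)).differentiableAt (by norm_num)).hasFDerivAt
      have d4 : HasFDerivAt (fun z : FE N m T => z.2.2)
          ((ContinuousLinearMap.snd ℝ _ _).comp (ContinuousLinearMap.snd ℝ _ _)) z :=
        ((ContinuousLinearMap.snd ℝ ({j : Fin m // j ∉ T} → ℝ) ℝ).comp
          (ContinuousLinearMap.snd ℝ (Fin m → Eu N) _)).hasFDerivAt
      have d5 := d4.smul d3
      have d6 : (fun z : FE N m T => z.2.2 • g z) =ᶠ[nhds z]
          (fun z : FE N m T => -Φ (generic_emb T a z)) := by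
        filter_upwards [hO'o.mem_nhds hzO] with w hw
        have h1 : g w = -(w.2.2)⁻¹ • Φ (generic_emb T a w) := rfl
        rw [h1, smul_smul, mul_neg, mul_inv_cancel₀ hw.2.ne', neg_smul, one_smul]
      have d7 := (d2.congr_of_eventuallyEq d6).unique d5
      have d8 := congrArg (fun L => L ζ) d7
      simp only [neg_apply, ContinuousLinearMap.comp_apply,
        add_apply, smul_apply,
        ContinuousLinearMap.smulRight_apply, ContinuousLinearMap.coe_snd'] at d8
      rw [hζ1, hgz] at d8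
      have d9 : HasFDerivAt (fun p : ((Fin m → Eu N) × (Fin m → ℝ)) × ℝ => Φ p + p.2 • y)
          (fderiv ℝ Φ ((A, u), t) + (ContinuousLinearMap.snd ℝ _ _).smulRight y) ((A, u), t) := by
        refine d0.add ?_
        exact ((ContinuousLinearMap.snd ℝ ((Fin m → Eu N) × (Fin m → ℝ)) ℝ).smulRight y).hasFDerivAt
      rw [d9.fderiv]
      simp only [add_apply, ContinuousLinearMap.smulRight_apply,
        ContinuousLinearMap.coe_snd']
      have e1 : (generic_lin N m T ζ).2 = ζ.2.2 := rfl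
      have e2 : z.2.2 = t := rfl
      rw [e2] at d8
      rw [e1]
      have e3 : fderiv ℝ Φ ((A, u), t) (generic_lin N m T ζ) = -(t • -t⁻¹ • η + ζ.2.2 • y) := by
        rw [← d8, neg_neg]
      rw [e3, neg_smul, smul_neg, smul_smul, mul_inv_cancel₀ ht.ne', one_smul]
      abel
    · rw [hcd] at hζ2
      exact hζ2
  · intro z hz hcz
    rw [hcd]
    intro γ
    obtain ⟨V, hV⟩ := gram_surj z.1 (generic_indep (sub_eq_zero.1 hcz)) γ
    exact ⟨(V, 0), hV⟩
  · have h1 := generic_finrank (N := N) T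
    have h2 := generic_dims (N := N) hD
    omega

private theorem generic_lin_restrict {T : Finset (Fin m)} (V : Fin m → Eu N) (v : Fin m → ℝ)
    (τ : ℝ) (hv : ∀ j ∈ T, v j = 0) :
    generic_lin N m T ((V, ((fun j => v j.1), τ)) : FE N m T) = ((V, v), τ) := by
  rw [generic_lin_apply]
  simp only [Prod.mk.injEq, and_true, true_and]
  funext j
  by_cases hj : j ∈ T
  · rw [generic_ext_mem _ hj, hv j hj]
  · rw [generic_ext_not_mem _ hj]

/-- the combined derivative on a face -/
private noncomputable def generic_M (T : Finset (Fin m))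
    (P : ((Fin m → Eu N) × (Fin m → ℝ)) × ℝ →L[ℝ] (Fin D → ℝ))
    (Q : (Fin m → Eu N) →L[ℝ] (Sym2 (Fin m) → ℝ)) :
    FE N m T →L[ℝ] (Fin D → ℝ) × (Sym2 (Fin m) → ℝ) :=
  (P.comp (generic_lin N m T)).prod (Q.comp (ContinuousLinearMap.fst ℝ _ _))

end GenericAux

/-- **B3. Generic perturbation.** -/
theorem generic {N m D k : ℕ} (hD : D + m.choose 2 = m * N)
    (f : (Fin m → Eu N) × (Fin m → ℝ) → Fin k → ℝ) (O : Set ((Fin m → Eu N) × (Fin m → ℝ)))
    (hO : IsOpen O) (hf : ContDiffOn ℝ 2 f O) (Ψ : (Fin k → ℝ) × ℝ → (Fin D → ℝ) × ℝ)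
    (hΨ : ContDiff ℝ 2 Ψ) :
    ∀ᵐ y : (Fin D → ℝ) × ℝ, ∀ A u, (A, u) ∈ O → gram A = gramOne m → ∀ t : ℝ, 0 < t →
      Up (Ψ (f (A, u), t) + t • y) → ∀ i, (u i = 0 ∨ u i = 1) →
        (∀ j, j ≠ i → u j ≠ 0 ∧ u j ≠ 1) ∧
        ∀ (V : Fin m → Eu N) (v : Fin m → ℝ) (τ : ℝ), v i = 0 → fderiv ℝ gram A V = 0 →
          fderiv ℝ (fun p : ((Fin m → Eu N) × (Fin m → ℝ)) × ℝ =>
            (Ψ (f p.1, p.2) + p.2 • y).1) ((A, u), t) ((V, v), τ) = 0 →
          V = 0 ∧ v = 0 ∧ τ = 0 := by
  have key : ∀ᵐ y : Fin D → ℝ, ∀ Tb : Finset (Fin m) × (Fin m → Bool), 1 ≤ Tb.1.card →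
      ∀ A u, (A, u) ∈ O → gram A = gramOne m →
      (∀ j ∈ Tb.1, u j = if Tb.2 j then (1 : ℝ) else 0) →
      ∀ t : ℝ, 0 < t → (Ψ (f (A, u), t)).1 + t • y = 0 →
      ∀ (η : Fin D → ℝ) (γ : Sym2 (Fin m) → ℝ), ∃ ζ : FE N m Tb.1,
        fderiv ℝ (fun p : ((Fin m → Eu N) × (Fin m → ℝ)) × ℝ =>
            (Ψ (f p.1, p.2)).1 + p.2 • y) ((A, u), t) (generic_lin N m Tb.1 ζ) = η ∧
          fderiv ℝ gram A ζ.1 = γ := by
    rw [ae_all_iff]
    intro Tb
    by_cases h : 1 ≤ Tb.1.card
    · filter_upwards [generic_face hD f O hO hf Ψ hΨ Tb.1 h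
        (fun j => if Tb.2 j then (1 : ℝ) else 0)] with y hy _
      exact hy
    · exact Filter.Eventually.of_forall fun y h' => absurd h' h
  have key' := (Measure.quasiMeasurePreserving_fst
    (μ := (volume : Measure (Fin D → ℝ))) (ν := (volume : Measure ℝ))).ae key
  rw [← Measure.volume_eq_prod] at key'
  filter_upwards [key'] with y hy A u hAu hA t ht hUp i hi
  have hfun : (fun p : ((Fin m → Eu N) × (Fin m → ℝ)) × ℝ => (Ψ (f p.1, p.2) + p.2 • y).1) =
      fun p => (Ψ (f p.1, p.2)).1 + p.2 • y.1 := rfl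
  rw [hfun]
  have hzero : (Ψ (f (A, u), t)).1 + t • y.1 = 0 := hUp.1
  have hb : ∀ j, (u j = 0 ∨ u j = 1) →
      u j = if (decide (u j = 1) : Bool) = true then (1 : ℝ) else 0 := by
    intro j hj
    by_cases h1 : u j = 1
    · simp [h1]
    · have h0 : u j = 0 := by tauto
      simp [h0]
  set P := fderiv ℝ (fun p : ((Fin m → Eu N) × (Fin m → ℝ)) × ℝ =>
    (Ψ (f p.1, p.2)).1 + p.2 • y.1) ((A, u), t) with hP
  have hsurj : ∀ T : Finset (Fin m), 1 ≤ T.card → (∀ j ∈ T, u j = 0 ∨ u j = 1) →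
      Function.Surjective (generic_M T P (fderiv ℝ gram A)) := by
    intro T hT hTu w
    obtain ⟨ζ, h1, h2⟩ := hy (T, fun j => decide (u j = 1)) hT A u hAu hA
      (fun j hj => hb j (hTu j hj)) t ht hzero w.1 w.2
    exact ⟨ζ, Prod.ext h1 h2⟩
  have hdims := generic_dims (N := N) hD
  constructor
  · intro j hji
    by_contra hcon
    have hj : u j = 0 ∨ u j = 1 := by
      by_contra h
      push Not at h
      exact hcon h
    have hcard : ({i, j} : Finset (Fin m)).card = 2 := Finset.card_pair (Ne.symm hji)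
    have hs := hsurj {i, j} (by omega) (by
      intro l hl
      rcases Finset.mem_insert.1 hl with rfl | hl
      · exact hi
      · rw [Finset.mem_singleton.1 hl]; exact hj)
    have h1 := LinearMap.finrank_le_finrank_of_surjective
      (f := (generic_M {i, j} P (fderiv ℝ gram A)).toLinearMap) hs
    have h2 := generic_finrank (N := N) ({i, j} : Finset (Fin m))
    rw [hcard] at h2
    rw [finrank_prod] at h1
    omega
  · intro V v τ hv hV hd
    have hs := hsurj {i} (by simp) (by
      intro l hl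
      rw [Finset.mem_singleton.1 hl]; exact hi)
    have h2 := generic_finrank (N := N) ({i} : Finset (Fin m))
    rw [Finset.card_singleton] at h2
    have hpr : finrank ℝ ((Fin D → ℝ) × (Sym2 (Fin m) → ℝ)) =
        finrank ℝ (Fin D → ℝ) + finrank ℝ (Sym2 (Fin m) → ℝ) := finrank_prod
    have hfr : finrank ℝ (FE N m {i}) = finrank ℝ ((Fin D → ℝ) × (Sym2 (Fin m) → ℝ)) := by
      rw [hpr]
      omega
    have hinj : Function.Injective (generic_M {i} P (fderiv ℝ gram A)).toLinearMap :=
      (LinearMap.injective_iff_surjective_of_finrank_eq_finrank hfr).2 hs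
    have hlin := generic_lin_restrict (T := {i}) V v τ (by
      intro l hl
      rw [Finset.mem_singleton.1 hl]; exact hv)
    have hz : generic_M {i} P (fderiv ℝ gram A)
        ((V, ((fun j => v j.1), τ)) : FE N m {i}) = 0 := by
      refine Prod.ext ?_ ?_
      · show P (generic_lin N m {i} ((V, ((fun j => v j.1), τ)) : FE N m {i})) = 0
        rw [hlin]
        exact hd
      · exact hV
    have h0 : ((V, ((fun j => v j.1), τ)) : FE N m {i}) = 0 := hinj (by
      rw [map_zero]
      exact hz)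
    have e1 : V = 0 := congrArg Prod.fst h0
    have e2 : (fun j : {j : Fin m // j ∉ ({i} : Finset (Fin m))} => v j.1) = 0 :=
      congrArg (fun z : FE N m {i} => z.2.1) h0
    have e3 : τ = 0 := congrArg (fun z : FE N m {i} => z.2.2) h0
    refine ⟨e1, ?_, e3⟩
    funext j
    by_cases hj : j = i
    · rw [hj, hv]; rfl
    · exact congrFun e2 ⟨j, by simpa using hj⟩

end Pool.Agent.AVG
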