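import Pool.Agent.Lib.MP_89fc28_gt.G.ParityProd
import Pool.Agent.Lib.MP_89fc28_gt.G.Gram

/-! # MP_89fc28_gt: parity of one piece -/

set_option autoImplicit false

open Set MeasureTheory Module

namespace Pool.Agent.AVG

/-- The identification `(A, (u, t)) ↦ ((A, u), t)`. -/
private noncomputable def parityPiece_L (N m : ℕ) :
    ((Fin m → Eu N) × (Fin (m + 1) → ℝ)) ≃L[ℝ] (((Fin m → Eu N) × (Fin m → ℝ)) × ℝ) :=
  LinearEquiv.toContinuousLinearEquiv
  { toFun := fun x => ((x.1, Fin.init x.2), x.2 (Fin.last m))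
    invFun := fun y => (y.1.1, Fin.snoc (α := fun _ => ℝ) y.1.2 y.2)
    map_add' := fun x y => rfl
    map_smul' := fun c x => rfl
    left_inv := fun x => by simp
    right_inv := fun y => by simp }

private lemma parityPiece_L_apply (N m : ℕ) (x : (Fin m → Eu N) × (Fin (m + 1) → ℝ)) :
    parityPiece_L N m x = ((x.1, Fin.init x.2), x.2 (Fin.last m)) := rfl

private lemma parityPiece_L_symm (N m : ℕ) (y : ((Fin m → Eu N) × (Fin m → ℝ)) × ℝ) :
    (parityPiece_L N m).symm y = (y.1.1, Fin.snoc (α := fun _ => ℝ) y.1.2 y.2) := rfl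

private lemma parityPiece_gram_self {N m : ℕ} (A : Fin m → Eu N) (i : Fin m) :
    gram A s(i, i) = ‖A i‖ ^ 2 := by
  unfold gram
  simp [Sym2.lift_mk]

private lemma parityPiece_compact {N m : ℕ} :
    IsCompact {A : Fin m → Eu N | ‖gram A - gramOne m‖ ≤ 1} := by
  have hc : Continuous (gram : (Fin m → Eu N) → Sym2 (Fin m) → ℝ) := gram_contDiff.continuous
  refine Metric.isCompact_of_isClosed_isBounded ?_ ?_
  · exact isClosed_le ((hc.sub continuous_const).norm) continuous_const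
  · refine (Metric.isBounded_closedBall (x := (0 : Fin m → Eu N)) (r := 2)).subset ?_
    intro A hA
    rw [mem_closedBall_zero_iff, pi_norm_le_iff_of_nonneg (by norm_num)]
    intro i
    have h1 : ‖(gram A - gramOne m) s(i, i)‖ ≤ 1 := (norm_le_pi_norm _ _).trans hA
    have h2 : (gram A - gramOne m) s(i, i) = ‖A i‖ ^ 2 - 1 := by
      rw [Pi.sub_apply, parityPiece_gram_self]
      unfold gramOne
      simp [Sym2.lift_mk]
    rw [h2, Real.norm_eq_abs] at h1
    have h3 := (abs_le.mp h1).2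
    nlinarith [norm_nonneg (A i)]

/-- **B2. The parity of the number of zeros on the boundary of one piece.** -/
theorem parity_piece {N m D k : ℕ} (hD : D + m.choose 2 = m * N)
    (f : (Fin m → Eu N) × (Fin m → ℝ) → Fin k → ℝ) (O : Set ((Fin m → Eu N) × (Fin m → ℝ)))
    (hO : IsOpen O) (hf : ContDiffOn ℝ 2 f O)
    (hbox : ∀ A u, u ∈ Icc (0 : Fin m → ℝ) 1 → (A, u) ∈ O)
    (G : (Fin k → ℝ) × ℝ → (Fin D → ℝ) × ℝ) (hG : ContDiff ℝ 2 G)
    (hne : ∀ A, gram A = gramOne m → ∀ u ∈ Icc (0 : Fin m → ℝ) 1, ∀ t ∈ Icc (0 : ℝ) 1,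
      G (f (A, u), t) ≠ 0)
    (hface : ∀ A, gram A = gramOne m → ∀ u ∈ Icc (0 : Fin m → ℝ) 1, ∀ t ∈ Icc (0 : ℝ) 1,
      Up (G (f (A, u), t)) → ∀ i, (u i = 0 ∨ u i = 1) →
        (∀ j, j ≠ i → 0 < u j ∧ u j < 1) ∧ (0 < t ∧ t < 1) ∧
        ∀ (V : Fin m → Eu N) (v : Fin m → ℝ) (τ : ℝ), v i = 0 → fderiv ℝ gram A V = 0 →
          fderiv ℝ (fun p : ((Fin m → Eu N) × (Fin m → ℝ)) × ℝ => (G (f p.1, p.2)).1)
            ((A, u), t) ((V, v), τ) = 0 → V = 0 ∧ v = 0 ∧ τ = 0)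
    (hend : ∀ A, gram A = gramOne m → ∀ u ∈ Icc (0 : Fin m → ℝ) 1, ∀ t : ℝ, (t = 0 ∨ t = 1) →
      Up (G (f (A, u), t)) → (∀ j, 0 < u j ∧ u j < 1) ∧
        ∀ (V : Fin m → Eu N) (v : Fin m → ℝ), fderiv ℝ gram A V = 0 →
          fderiv ℝ (fun p : (Fin m → Eu N) × (Fin m → ℝ) => (G (f p, t)).1) (A, u) (V, v) = 0 →
          V = 0 ∧ v = 0) :
    {p : ((Fin m → Eu N) × (Fin m → ℝ)) × ℝ | gram p.1.1 = gramOne m ∧ p.1.2 ∈ Icc 0 1 ∧
        p.2 ∈ Icc (0 : ℝ) 1 ∧ Up (G (f p.1, p.2)) ∧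
        ((∃ i, p.1.2 i = 0 ∨ p.1.2 i = 1) ∨ p.2 = 0 ∨ p.2 = 1)}.Finite ∧
      Even {p : ((Fin m → Eu N) × (Fin m → ℝ)) × ℝ | gram p.1.1 = gramOne m ∧
        p.1.2 ∈ Icc 0 1 ∧ p.2 ∈ Icc (0 : ℝ) 1 ∧ Up (G (f p.1, p.2)) ∧
        ((∃ i, p.1.2 i = 0 ∨ p.1.2 i = 1) ∨ p.2 = 0 ∨ p.2 = 1)}.ncard := by
  classical
  set L := parityPiece_L N m with hL
  have hLa : ∀ x, L x = ((x.1, Fin.init x.2), x.2 (Fin.last m)) := parityPiece_L_apply N m
  -- the functions
  set g : ((Fin m → Eu N) × (Fin m → ℝ)) × ℝ → (Fin D → ℝ) × ℝ := fun p => G (f p.1, p.2) with hg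
  set g₁ : ((Fin m → Eu N) × (Fin m → ℝ)) × ℝ → (Fin D → ℝ) := fun p => (G (f p.1, p.2)).1 with hg₁
  set O₁ : Set (((Fin m → Eu N) × (Fin m → ℝ)) × ℝ) := Prod.fst ⁻¹' O with hO₁
  have hO₁open : IsOpen O₁ := hO.preimage continuous_fst
  have hgc : ContDiffOn ℝ 2 g O₁ := by
    refine hG.comp_contDiffOn ?_
    refine ContDiffOn.prodMk ?_ contDiff_snd.contDiffOn
    exact hf.comp contDiff_fst.contDiffOn (fun x hx => hx)
  have hg₁c : ContDiffOn ℝ 2 g₁ O₁ := contDiff_fst.comp_contDiffOn hgc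
  set O₂ : Set ((Fin m → Eu N) × (Fin (m + 1) → ℝ)) := L ⁻¹' O₁ with hO₂
  have hO₂open : IsOpen O₂ := hO₁open.preimage L.continuous
  have hgL : ContDiffOn ℝ 2 (fun x => g (L x)) O₂ :=
    hgc.comp L.contDiff.contDiffOn (fun x hx => hx)
  have hg₁L : ContDiffOn ℝ 2 (fun x => g₁ (L x)) O₂ :=
    hg₁c.comp L.contDiff.contDiffOn (fun x hx => hx)
  set O' : Set ((Fin m → Eu N) × (Fin (m + 1) → ℝ)) := {x | x ∈ O₂ ∧ 0 < (g (L x)).2} with hO'
  have hO'open : IsOpen O' := by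
    have h1 : ContinuousOn (fun x => (g (L x)).2) O₂ := continuous_snd.comp_continuousOn hgL.continuousOn
    have h2 := h1.isOpen_inter_preimage hO₂open (isOpen_Ioi (a := (0 : ℝ)))
    exact h2
  set H : (Fin m → Eu N) × (Fin (m + 1) → ℝ) → (Sym2 (Fin m) → ℝ) × (Fin D → ℝ) :=
    fun x => (gram x.1 - gramOne m, g₁ (L x)) with hH
  have hHc : ContDiffOn ℝ 2 H O₂ := by
    refine ContDiffOn.prodMk ?_ hg₁L
    exact ((gram_contDiff.comp contDiff_fst).sub contDiff_const).contDiffOn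
  have hinit : ∀ w : Fin (m + 1) → ℝ, w ∈ Icc (0 : Fin (m + 1) → ℝ) 1 ↔
      (Fin.init w ∈ Icc (0 : Fin m → ℝ) 1 ∧ w (Fin.last m) ∈ Icc (0 : ℝ) 1) := by
    intro w
    constructor
    · intro hw
      exact ⟨⟨fun i => hw.1 i.castSucc, fun i => hw.2 i.castSucc⟩, hw.1 _, hw.2 _⟩
    · rintro ⟨h1, h2⟩
      constructor
      · intro i
        refine Fin.lastCases ?_ (fun j => ?_) i
        · exact h2.1
        · exact h1.1 j
      · intro i
        refine Fin.lastCases ?_ (fun j => ?_) i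
        · exact h2.2
        · exact h1.2 j
  have hO₂mem : ∀ x : (Fin m → Eu N) × (Fin (m + 1) → ℝ), x.2 ∈ Icc (0 : Fin (m + 1) → ℝ) 1 →
      x ∈ O₂ := by
    intro x hx
    exact hbox _ _ ((hinit x.2).mp hx).1
  -- the compactness argument
  set K₁ : Set ((Fin m → Eu N) × (Fin (m + 1) → ℝ)) :=
    {A : Fin m → Eu N | ‖gram A - gramOne m‖ ≤ 1} ×ˢ Icc 0 1 with hK₁
  have hK₁c : IsCompact K₁ := parityPiece_compact.prod isCompact_Icc
  have hK₁O : K₁ ⊆ O₂ := fun x hx => hO₂mem x hx.2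
  have hpsi : ContinuousOn (fun x => max ‖gram x.1 - gramOne m‖ ‖g (L x)‖) K₁ := by
    have h1 : ContinuousOn (fun x : (Fin m → Eu N) × (Fin (m + 1) → ℝ) =>
        ‖gram x.1 - gramOne m‖) K₁ :=
      (((gram_contDiff (N := N) (q := m)).continuous.comp continuous_fst).sub
        continuous_const).norm.continuousOn
    exact continuous_max.comp_continuousOn (h1.prodMk (hgL.continuousOn.mono hK₁O).norm)
  have hpos : ∀ x ∈ K₁, 0 < max ‖gram x.1 - gramOne m‖ ‖g (L x)‖ := by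
    intro x hx
    by_cases h1 : gram x.1 = gramOne m
    · refine lt_max_of_lt_right ?_
      rw [norm_pos_iff]
      have h2 := (hinit x.2).mp hx.2
      exact hne x.1 h1 _ h2.1 _ h2.2
    · refine lt_max_of_lt_left ?_
      rw [norm_pos_iff, sub_ne_zero]
      exact h1
  obtain ⟨c, hc0, hc⟩ : ∃ c : ℝ, 0 < c ∧ ∀ x ∈ K₁, c ≤ max ‖gram x.1 - gramOne m‖ ‖g (L x)‖ := by
    rcases K₁.eq_empty_or_nonempty with he | hne'
    · exact ⟨1, one_pos, fun x hx => by rw [he] at hx; exact hx.elim⟩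
    · obtain ⟨x₀, hx₀, hmin⟩ := hK₁c.exists_isMinOn hne' hpsi
      exact ⟨_, hpos x₀ hx₀, fun x hx => hmin hx⟩
  set ε : ℝ := min 1 (c / 2) with hε
  have hε0 : 0 < ε := lt_min one_pos (by positivity)
  have hε1 : ε ≤ 1 := min_le_left _ _
  have hεc : ε < c := (min_le_right _ _).trans_lt (by linarith)
  have hcomp : IsCompact {x | x ∈ O' ∧ x.2 ∈ Icc 0 1 ∧ ‖H x‖ ≤ ε} := by
    have h1 : {x | x ∈ O' ∧ x.2 ∈ Icc 0 1 ∧ ‖H x‖ ≤ ε} =
        K₁ ∩ (fun x => (H x, (g (L x)).2)) ⁻¹' (Metric.closedBall 0 ε ×ˢ Ici c) := by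
      ext x
      simp only [mem_ofPred_eq, mem_inter_iff, mem_preimage, mem_prod, mem_closedBall_zero_iff,
        mem_Ici]
      constructor
      · rintro ⟨hx1, hx2, hx3⟩
        have h2 : ‖gram x.1 - gramOne m‖ ≤ ε := (norm_fst_le (H x)).trans hx3
        have h3 : ‖g₁ (L x)‖ ≤ ε := (norm_snd_le (H x)).trans hx3
        have hxK : x ∈ K₁ := ⟨h2.trans hε1, hx2⟩
        refine ⟨hxK, hx3, ?_⟩
        have h4 := hc x hxK
        have h5 : c ≤ ‖g (L x)‖ := by
          rcases le_max_iff.mp h4 with h | h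
          · linarith
          · exact h
        rw [Prod.norm_def] at h5
        rcases le_max_iff.mp h5 with h | h
        · have : ‖(g (L x)).1‖ ≤ ε := h3
          linarith
        · rw [Real.norm_of_nonneg hx1.2.le] at h
          exact h
      · rintro ⟨hxK, hx3, hx4⟩
        exact ⟨⟨hK₁O hxK, lt_of_lt_of_le hc0 hx4⟩, hxK.2, hx3⟩
    rw [h1]
    have h2 : ContinuousOn (fun x => (H x, (g (L x)).2)) K₁ :=
      ((hHc.continuousOn.mono hK₁O)).prodMk
        (continuous_snd.comp_continuousOn (hgL.continuousOn.mono hK₁O))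
    exact hK₁c.of_isClosed_subset (h2.preimage_isClosed_of_isClosed hK₁c.isClosed
      (Metric.isClosed_closedBall.prod isClosed_Ici)) inter_subset_left
  -- derivatives
  have hderiv : ∀ x ∈ O₂, ∀ v : (Fin m → Eu N) × (Fin (m + 1) → ℝ), fderiv ℝ H x v = 0 →
      fderiv ℝ gram x.1 v.1 = 0 ∧ fderiv ℝ g₁ (L x) (L v) = 0 := by
    intro x hx v hv
    have h1 : HasFDerivAt g₁ (fderiv ℝ g₁ (L x)) (L x) :=
      ((hg₁c.contDiffAt (hO₁open.mem_nhds hx)).differentiableAt (by norm_num)).hasFDerivAt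
    have h2 : HasFDerivAt (fun y => g₁ (L y)) ((fderiv ℝ g₁ (L x)).comp
        (L : _ →L[ℝ] ((Fin m → Eu N) × (Fin m → ℝ)) × ℝ)) x :=
      h1.comp x L.hasFDerivAt
    have h3 : HasFDerivAt (fun y : (Fin m → Eu N) × (Fin (m + 1) → ℝ) => gram y.1 - gramOne m)
        ((fderiv ℝ gram x.1).comp (ContinuousLinearMap.fst ℝ _ _)) x := by
      have h4 : HasFDerivAt (gram : (Fin m → Eu N) → Sym2 (Fin m) → ℝ) (fderiv ℝ gram x.1) x.1 :=
        ((gram_contDiff (N := N) (q := m)).differentiable (by norm_num) x.1).hasFDerivAt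
      exact (h4.comp x hasFDerivAt_fst).sub_const _
    have h5 := (h3.prodMk h2).fderiv
    rw [show (fun y : (Fin m → Eu N) × (Fin (m + 1) → ℝ) => (gram y.1 - gramOne m, g₁ (L y))) = H
      from rfl] at h5
    rw [h5] at hv
    have h6 := congrArg Prod.fst hv
    have h7 := congrArg Prod.snd hv
    exact ⟨h6, h7⟩
  have hnd : ∀ x ∈ O', x.2 ∈ Icc 0 1 → H x = 0 → ∀ i, (x.2 i = 0 ∨ x.2 i = 1) →
      (∀ j, j ≠ i → 0 < x.2 j ∧ x.2 j < 1) ∧
      ∀ v : (Fin m → Eu N) × (Fin (m + 1) → ℝ), v.2 i = 0 → fderiv ℝ H x v = 0 → v = 0 := by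
    intro x hx hx2 hHx i hi
    have h1 : gram x.1 = gramOne m := sub_eq_zero.mp (congrArg Prod.fst hHx)
    have h2 : g₁ (L x) = 0 := congrArg Prod.snd hHx
    have hUp : Up (G (f (x.1, Fin.init x.2), x.2 (Fin.last m))) := ⟨h2, hx.2⟩
    obtain ⟨h3, h4⟩ := (hinit x.2).mp hx2
    revert hi
    refine Fin.lastCases ?_ (fun i' => ?_) i
    · intro hi
      obtain ⟨h5, h6⟩ := hend x.1 h1 _ h3 _ hi hUp
      constructor
      · intro j hj
        revert hj
        refine Fin.lastCases ?_ (fun j' => ?_) j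
        · intro hj
          exact absurd rfl hj
        · intro _
          exact h5 j'
      · intro v hv hv2
        obtain ⟨h7, h8⟩ := hderiv x hx.1 v hv2
        have h9 : fderiv ℝ (fun p : (Fin m → Eu N) × (Fin m → ℝ) =>
            (G (f p, x.2 (Fin.last m))).1) (x.1, Fin.init x.2) (v.1, Fin.init v.2) = 0 := by
          have h10 : HasFDerivAt g₁ (fderiv ℝ g₁ (L x)) (L x) :=
            ((hg₁c.contDiffAt (hO₁open.mem_nhds hx.1)).differentiableAt (by norm_num)).hasFDerivAt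
          have h11 : HasFDerivAt (fun p : (Fin m → Eu N) × (Fin m → ℝ) =>
              (p, x.2 (Fin.last m))) (ContinuousLinearMap.inl ℝ _ ℝ) (x.1, Fin.init x.2) :=
            hasFDerivAt_prodMk_left _ _
          have h12 := HasFDerivAt.comp (x.1, Fin.init x.2) (g := g₁) (g' := fderiv ℝ g₁ (L x))
            h10 h11
          have h13 : fderiv ℝ (fun p : (Fin m → Eu N) × (Fin m → ℝ) =>
            (G (f p, x.2 (Fin.last m))).1) (x.1, Fin.init x.2) = (fderiv ℝ g₁ (L x)).comp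
              (ContinuousLinearMap.inl ℝ _ ℝ) := h12.fderiv
          rw [h13, ContinuousLinearMap.comp_apply]
          have h14 : (ContinuousLinearMap.inl ℝ ((Fin m → Eu N) × (Fin m → ℝ)) ℝ)
              (v.1, Fin.init v.2) = L v := by
            rw [hLa, hv]
            rfl
          rw [h14, h8]
        obtain ⟨h10, h11⟩ := h6 v.1 (Fin.init v.2) h7 h9
        refine Prod.ext h10 ?_
        funext j
        refine Fin.lastCases ?_ (fun j' => ?_) j
        · exact hv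
        · exact congrFun h11 j'
    · intro hi
      obtain ⟨h5, h6, h7⟩ := hface x.1 h1 _ h3 _ h4 hUp i' hi
      constructor
      · intro j hj
        revert hj
        refine Fin.lastCases ?_ (fun j' => ?_) j
        · intro _
          exact h6
        · intro hj
          exact h5 j' (fun h => hj (by rw [h]))
      · intro v hv hv2
        obtain ⟨h8, h9⟩ := hderiv x hx.1 v hv2
        rw [hLa v] at h9
        obtain ⟨h10, h11, h12⟩ := h7 v.1 (Fin.init v.2) (v.2 (Fin.last m)) hv h8 h9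
        refine Prod.ext h10 ?_
        funext j
        refine Fin.lastCases ?_ (fun j' => ?_) j
        · exact h12
        · exact congrFun h11 j'
  have hdim : finrank ℝ ((Sym2 (Fin m) → ℝ) × (Fin D → ℝ)) + 1 =
      finrank ℝ (Fin m → Eu N) + (m + 1) := by
    have h1 : finrank ℝ (Fin m → Eu N) = m * N := by
      rw [Module.finrank_pi_fintype]
      simp
    have h2 : (m + 1).choose 2 = m + m.choose 2 := by
      rw [Nat.choose_succ_succ' m 1, Nat.choose_one_right]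
    rw [Module.finrank_prod, finrank_sym2, h1, h2]
    simp only [Module.finrank_fin_fun]
    omega
  obtain ⟨hfin, heven⟩ := parity_prod hdim H O' hO'open (hHc.mono fun x hx => hx.1) ε hε0 hcomp hnd
  have himg : {p : ((Fin m → Eu N) × (Fin m → ℝ)) × ℝ | gram p.1.1 = gramOne m ∧
        p.1.2 ∈ Icc 0 1 ∧ p.2 ∈ Icc (0 : ℝ) 1 ∧ Up (G (f p.1, p.2)) ∧
        ((∃ i, p.1.2 i = 0 ∨ p.1.2 i = 1) ∨ p.2 = 0 ∨ p.2 = 1)} =
      L '' {x | x ∈ O' ∧ x.2 ∈ Icc 0 1 ∧ H x = 0 ∧ ∃ i, x.2 i = 0 ∨ x.2 i = 1} := by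
    ext p
    simp only [mem_ofPred_eq, mem_image]
    constructor
    · rintro ⟨h1, h2, h3, h4, h5⟩
      refine ⟨L.symm p, ?_, L.apply_symm_apply p⟩
      have hp : L (L.symm p) = p := L.apply_symm_apply p
      have hp' := hp
      rw [hLa] at hp'
      have e1 : (L.symm p).1 = p.1.1 := congrArg (fun z => z.1.1) hp'
      have e2 : Fin.init (L.symm p).2 = p.1.2 := congrArg (fun z => z.1.2) hp'
      have e3 : (L.symm p).2 (Fin.last m) = p.2 := congrArg (fun z => z.2) hp'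
      have h6 : (L.symm p).2 ∈ Icc (0 : Fin (m + 1) → ℝ) 1 := by
        rw [hinit, e2, e3]
        exact ⟨h2, h3⟩
      refine ⟨⟨hO₂mem _ h6, ?_⟩, h6, ?_, ?_⟩
      · rw [hp]
        exact h4.2
      · have h7 : g₁ p = 0 := h4.1
        simp only [hH]
        rw [hp, h7, e1, h1, sub_self]
        rfl
      · rcases h5 with ⟨i, hi⟩ | hi
        · refine ⟨i.castSucc, ?_⟩
          have : (L.symm p).2 i.castSucc = p.1.2 i := congrFun e2 i
          rw [this]
          exact hi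
        · refine ⟨Fin.last m, ?_⟩
          rw [e3]
          exact hi
    · rintro ⟨x, ⟨hx1, hx2, hx3, i, hi⟩, rfl⟩
      have h1 : gram x.1 = gramOne m := sub_eq_zero.mp (congrArg Prod.fst hx3)
      have h2 : g₁ (L x) = 0 := congrArg Prod.snd hx3
      obtain ⟨h3, h4⟩ := (hinit x.2).mp hx2
      refine ⟨h1, h3, h4, ⟨h2, hx1.2⟩, ?_⟩
      revert hi
      refine Fin.lastCases ?_ (fun i' => ?_) i
      · intro hi
        exact Or.inr hi
      · intro hi
        exact Or.inl ⟨i', hi⟩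
  rw [himg]
  refine ⟨hfin.image L, ?_⟩
  rwa [Set.ncard_image_of_injective _ L.injective]

end Pool.Agent.AVG
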