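import Pool.Agent.Lib.MP_89fc28_gt.G.Faces
import Pool.Agent.Lib.MP_89fc28_gt.G.ParityPiece
import Pool.Agent.Lib.MP_89fc28_gt.G.Generic

/-! # MP_89fc28_gt: the count -/

set_option autoImplicit false

open Set MeasureTheory Module

namespace Pool.Agent.AVG

private lemma count_compact (N m : ℕ) : IsCompact {A : Fin m → Eu N | gram A = gramOne m} := by
  refine Metric.isCompact_of_isClosed_isBounded ?_ ?_
  · exact isClosed_eq gram_contDiff.continuous continuous_const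
  · refine (Metric.isBounded_closedBall (x := (0 : Fin m → Eu N)) (r := 1)).subset ?_
    intro A hA
    rw [mem_closedBall_zero_iff, pi_norm_le_iff_of_nonneg zero_le_one]
    intro i
    have h := congrFun (show gram A = gramOne m from hA) s(i, i)
    simp only [gram, gramOne, Sym2.lift_mk, if_true] at h
    rw [real_inner_self_eq_norm_sq] at h
    have h2 := norm_nonneg (A i)
    nlinarith

private lemma count_line {E F : Type*} [NormedAddCommGroup E] [NormedSpace ℝ E]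
    [NormedAddCommGroup F] [NormedSpace ℝ F] (f : E → F) (x v : E)
    (h : ∀ s : ℝ, f (x + s • v) = f x) : fderiv ℝ f x v = 0 := by
  by_cases hd : DifferentiableAt ℝ f x
  · rw [← hd.lineDeriv_eq_fderiv, lineDeriv]
    have h1 : (fun t : ℝ => f (x + t • v)) = fun _ => f x := by
      ext t
      exact h t
    rw [h1, deriv_const]
  · rw [fderiv_zero_of_not_differentiableAt hd]
    rfl

private lemma count_even {X : Type*} {S : Set X} (hS : S.Finite) (T : X → X)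
    (hT : ∀ x ∈ S, T x ∈ S) (hTT : ∀ x ∈ S, T (T x) = x) (hne : ∀ x ∈ S, T x ≠ x) :
    Even S.ncard := by
  classical
  rw [Set.ncard_eq_toFinset_card S hS]
  have h : ((hS.toFinset.card : ℕ) : ZMod 2) = 0 := by
    rw [Finset.card_eq_sum_ones]
    push_cast
    refine Finset.sum_involution (fun a _ => T a) ?_ ?_ ?_ ?_
    · intro a _
      decide
    · intro a ha _
      exact hne a (by simpa using ha)
    · intro a ha
      have := hT a (by simpa using ha)
      simpa using this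
    · intro a ha
      exact hTT a (by simpa using ha)
  rwa [ZMod.natCast_eq_zero_iff_even] at h

private lemma count_invo {N m k D : ℕ}
    (f : (Fin m → Eu N) → (Fin m → ℝ) → Fin k → ℝ) (G : (Fin k → ℝ) × ℝ → (Fin D → ℝ) × ℝ)
    (R : (Fin m → ℝ) → ℝ → Prop) (Q : Set (((Fin m → Eu N) × (Fin m → ℝ)) × ℝ))
    (hQf : Q.Finite)
    (hQ : ∀ p, p ∈ Q ↔ gram p.1.1 = gramOne m ∧ Up (G (f p.1.1 p.1.2, p.2)) ∧ R p.1.2 p.2)
    (hT : ∀ p ∈ Q, ∃ T : (Fin m → Eu N) → Fin m → Eu N, ∀ A, gram A = gramOne m →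
      gram (T A) = gramOne m ∧ T (T A) = A ∧ T A ≠ A ∧ f (T A) p.1.2 = f A p.1.2) :
    Even Q.ncard := by
  classical
  let T₀ : (Fin m → ℝ) → (Fin m → Eu N) → Fin m → Eu N := fun u =>
    if h : ∃ T : (Fin m → Eu N) → Fin m → Eu N, ∀ A, gram A = gramOne m →
      gram (T A) = gramOne m ∧ T (T A) = A ∧ T A ≠ A ∧ f (T A) u = f A u
    then Classical.choose h else id
  have hT₀ : ∀ p ∈ Q, ∀ A, gram A = gramOne m → gram (T₀ p.1.2 A) = gramOne m ∧
      T₀ p.1.2 (T₀ p.1.2 A) = A ∧ T₀ p.1.2 A ≠ A ∧ f (T₀ p.1.2 A) p.1.2 = f A p.1.2 := by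
    intro p hp
    have h := hT p hp
    have h1 : T₀ p.1.2 = Classical.choose h := by
      simp only [T₀]
      rw [dif_pos h]
    rw [h1]
    exact Classical.choose_spec h
  refine count_even hQf (fun p => ((T₀ p.1.2 p.1.1, p.1.2), p.2)) ?_ ?_ ?_
  · intro p hp
    have hp' := (hQ p).mp hp
    obtain ⟨h1, h2, h3, h4⟩ := hT₀ p hp p.1.1 hp'.1
    rw [hQ]
    refine ⟨h1, ?_, hp'.2.2⟩
    simp only
    rw [h4]
    exact hp'.2.1
  · intro p hp
    have hp' := (hQ p).mp hp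
    obtain ⟨h1, h2, h3, h4⟩ := hT₀ p hp p.1.1 hp'.1
    simp only
    rw [h2]
  · intro p hp hcon
    have hp' := (hQ p).mp hp
    obtain ⟨h1, h2, h3, h4⟩ := hT₀ p hp p.1.1 hp'.1
    exact h3 (congrArg (fun q => q.1.1) hcon)

private lemma count_perturb {X : Type*} [TopologicalSpace X] {k D : ℕ} {K : Set X}
    (hK : IsCompact K) (f : X → Fin k → ℝ) (hf : ContinuousOn f K)
    (Ψ : (Fin k → ℝ) × ℝ → (Fin D → ℝ) × ℝ) (hΨ : Continuous Ψ)
    (hne : ∀ x ∈ K, ∀ t ∈ Icc (0 : ℝ) 1, Ψ (f x, t) ≠ 0)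
    (h1 : ∀ x ∈ K, ¬ Up (Ψ (f x, 1))) :
    ∃ δ : ℝ, 0 < δ ∧ ∀ y : (Fin D → ℝ) × ℝ, ‖y‖ < δ →
      (∀ x ∈ K, ∀ t ∈ Icc (0 : ℝ) 1, Ψ (f x, t) + t • y ≠ 0) ∧
      ∀ x ∈ K, ¬ Up (Ψ (f x, 1) + (1 : ℝ) • y) := by
  have hc1 : IsCompact ((fun p : X × ℝ => Ψ (f p.1, p.2)) '' (K ×ˢ Icc (0 : ℝ) 1)) := by
    refine (hK.prod isCompact_Icc).image_of_continuousOn ?_
    refine hΨ.comp_continuousOn ?_
    refine ContinuousOn.prodMk ?_ continuous_snd.continuousOn
    exact hf.comp continuous_fst.continuousOn (fun p hp => hp.1)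
  have hc2 : IsCompact ((fun x : X => Ψ (f x, 1)) '' K) := by
    refine hK.image_of_continuousOn ?_
    refine hΨ.comp_continuousOn ?_
    exact ContinuousOn.prodMk hf continuousOn_const
  have hcl : IsClosed {v : (Fin D → ℝ) × ℝ | v.1 = 0 ∧ 0 ≤ v.2} := by
    refine IsClosed.inter ?_ ?_
    · exact isClosed_eq continuous_fst continuous_const
    · exact isClosed_le continuous_const continuous_snd
  obtain ⟨δ₁, hδ₁, hs₁⟩ := hc1.exists_thickening_subset_open
    (isOpen_compl_singleton (x := (0 : (Fin D → ℝ) × ℝ))) (by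
      rintro _ ⟨p, hp, rfl⟩
      exact hne p.1 hp.1 p.2 hp.2)
  obtain ⟨δ₂, hδ₂, hs₂⟩ := hc2.exists_thickening_subset_open hcl.isOpen_compl (by
      rintro _ ⟨x, hx, rfl⟩ ⟨h2, h3⟩
      have h4 := hne x hx 1 ⟨zero_le_one, le_rfl⟩
      have h5 := h1 x hx
      simp only at h2 h3
      rcases h3.lt_or_eq with h | h
      · exact h5 ⟨h2, h⟩
      · exact h4 (Prod.ext h2 h.symm))
  refine ⟨min δ₁ δ₂, lt_min hδ₁ hδ₂, fun y hy => ⟨?_, ?_⟩⟩
  · intro x hx t ht
    have h2 : Ψ (f x, t) + t • y ∈ Metric.thickening δ₁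
        ((fun p : X × ℝ => Ψ (f p.1, p.2)) '' (K ×ˢ Icc (0 : ℝ) 1)) := by
      rw [Metric.mem_thickening_iff]
      refine ⟨Ψ (f x, t), ⟨(x, t), ⟨hx, ht⟩, rfl⟩, ?_⟩
      rw [dist_eq_norm, add_sub_cancel_left, norm_smul, Real.norm_eq_abs, abs_of_nonneg ht.1]
      calc t * ‖y‖ ≤ 1 * ‖y‖ := by gcongr; exact ht.2
        _ < δ₁ := by rw [one_mul]; exact hy.trans_le (min_le_left _ _)
    exact hs₁ h2
  · intro x hx hup
    have h2 : Ψ (f x, 1) + (1 : ℝ) • y ∈ Metric.thickening δ₂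
        ((fun x : X => Ψ (f x, 1)) '' K) := by
      rw [Metric.mem_thickening_iff]
      refine ⟨Ψ (f x, 1), ⟨x, hx, rfl⟩, ?_⟩
      rw [dist_eq_norm, add_sub_cancel_left, one_smul]
      exact hy.trans_le (min_le_right _ _)
    exact hs₂ h2 ⟨hup.1, hup.2.le⟩

/-- **B4. The count gives a contradiction.** -/
theorem stepB_core {N m D k : ℕ} (hm : 2 ≤ m) (hmN : m ≤ N) (hD : D + m.choose 2 = m * N)
    (φ : Eu N → Fin k → ℝ) (hφ : ContDiff ℝ 2 φ) (Ψ : (Fin k → ℝ) × ℝ → (Fin D → ℝ) × ℝ)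
    (hΨ : ContDiff ℝ 2 Ψ)
    (hne : ∀ A : Fin m → Eu N, gram A = gramOne m → ∀ u ∈ Icc (0 : Fin m → ℝ) 1,
      ∀ t ∈ Icc (0 : ℝ) 1, Ψ (momE φ A u, t) ≠ 0 ∧ Ψ (momC (by omega : 0 < m) φ A u, t) ≠ 0)
    (A₀ : Fin m → Eu N) (u₀ : Fin m → ℝ) (hA₀ : gram A₀ = gramOne m)
    (hu₀ : ∀ i, 0 < u₀ i ∧ u₀ i < 1)
    (h0 : ∀ A : Fin m → Eu N, gram A = gramOne m → ∀ u ∈ Icc (0 : Fin m → ℝ) 1,
      (Up (Ψ (momE φ A u, 0)) ↔ A = A₀ ∧ u = u₀))
    (hnd : ∀ (V : Fin m → Eu N) (v : Fin m → ℝ), fderiv ℝ gram A₀ V = 0 →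
      fderiv ℝ (fun p : (Fin m → Eu N) × (Fin m → ℝ) => (Ψ (momE φ p.1 p.2, 0)).1) (A₀, u₀)
        (V, v) = 0 → V = 0 ∧ v = 0)
    (h0C : ∀ A : Fin m → Eu N, gram A = gramOne m → ∀ u ∈ Icc (0 : Fin m → ℝ) 1,
      ¬ Up (Ψ (momC (by omega : 0 < m) φ A u, 0)))
    (h1 : ∀ A : Fin m → Eu N, gram A = gramOne m → ∀ u ∈ Icc (0 : Fin m → ℝ) 1,
      ¬ Up (Ψ (momE φ A u, 1)) ∧ ¬ Up (Ψ (momC (by omega : 0 < m) φ A u, 1))) : False := by
  classical
  have hm0 : 0 < m := by omega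
  set K : Set ((Fin m → Eu N) × (Fin m → ℝ)) :=
    {A : Fin m → Eu N | gram A = gramOne m} ×ˢ Icc (0 : Fin m → ℝ) 1 with hKdef
  have hK : IsCompact K := (count_compact N m).prod isCompact_Icc
  have hOC : IsOpen (Om N m m ∩ {p | ∀ i, |p.2 i| < 3 / 2}) := by
    refine (isOpen_Om N m m).inter ?_
    have : {p : (Fin m → Eu N) × (Fin m → ℝ) | ∀ i, |p.2 i| < 3 / 2} =
        ⋂ i : Fin m, {p | |p.2 i| < 3 / 2} := by
      ext p
      simp
    rw [this]
    refine isOpen_iInter_of_finite fun i => ?_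
    exact isOpen_lt (by fun_prop) continuous_const
  have hboxE : ∀ (A : Fin m → Eu N) (u : Fin m → ℝ), u ∈ Icc (0 : Fin m → ℝ) 1 →
      (A, u) ∈ Om N m (m + 1) := fun A u hu => mem_Om (by omega) hu
  have hboxC : ∀ (A : Fin m → Eu N) (u : Fin m → ℝ), u ∈ Icc (0 : Fin m → ℝ) 1 →
      (A, u) ∈ Om N m m ∩ {p | ∀ i, |p.2 i| < 3 / 2} := by
    intro A u hu
    refine ⟨mem_Om (by omega) hu, fun i => ?_⟩
    have h1 : 0 ≤ u i := hu.1 i
    have h2 : u i ≤ 1 := hu.2 i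
    simp only
    rw [abs_of_nonneg h1]
    linarith
  have hcE : ContinuousOn (fun p : (Fin m → Eu N) × (Fin m → ℝ) => momE φ p.1 p.2) K :=
    (momE_contDiffOn φ hφ).continuousOn.mono (fun p hp => hboxE p.1 p.2 hp.2)
  have hcC : ContinuousOn (fun p : (Fin m → Eu N) × (Fin m → ℝ) => momC hm0 φ p.1 p.2) K :=
    (momC_contDiffOn hm φ hφ).continuousOn.mono (fun p hp => hboxC p.1 p.2 hp.2)
  obtain ⟨δ₁, hδ₁, hE⟩ := count_perturb hK _ hcE Ψ hΨ.continuous
    (fun p hp t ht => (hne p.1 hp.1 p.2 hp.2 t ht).1) (fun p hp => (h1 p.1 hp.1 p.2 hp.2).1)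
  obtain ⟨δ₂, hδ₂, hC⟩ := count_perturb hK _ hcC Ψ hΨ.continuous
    (fun p hp t ht => (hne p.1 hp.1 p.2 hp.2 t ht).2) (fun p hp => (h1 p.1 hp.1 p.2 hp.2).2)
  have hgE := generic hD (fun p : (Fin m → Eu N) × (Fin m → ℝ) => momE φ p.1 p.2) (Om N m (m + 1))
    (isOpen_Om N m (m + 1)) (momE_contDiffOn φ hφ) Ψ hΨ
  have hgC := generic hD (fun p : (Fin m → Eu N) × (Fin m → ℝ) => momC hm0 φ p.1 p.2) _
    hOC (momC_contDiffOn hm φ hφ) Ψ hΨ
  obtain ⟨y, ⟨hyE, hyC⟩, hy⟩ := (Measure.dense_of_ae (hgE.and hgC)).exists_dist_lt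
    (0 : (Fin D → ℝ) × ℝ) (lt_min hδ₁ hδ₂)
  rw [dist_comm, dist_zero_right] at hy
  obtain ⟨hEne, hE1⟩ := hE y (hy.trans_le (min_le_left _ _))
  obtain ⟨hCne, hC1⟩ := hC y (hy.trans_le (min_le_right _ _))
  simp only at hyE hyC hEne hE1 hCne hC1
  set G : (Fin k → ℝ) × ℝ → (Fin D → ℝ) × ℝ := fun q => Ψ q + q.2 • y with hG
  have hGc : ContDiff ℝ 2 G := hΨ.add (contDiff_snd.smul contDiff_const)
  have hG0 : ∀ z, G (z, 0) = Ψ (z, 0) := by
    intro z
    simp [hG]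
  have hup0 : Up (G (momE φ A₀ u₀, 0)) := by
    rw [hG0]
    exact (h0 A₀ hA₀ u₀ ⟨fun i => (hu₀ i).1.le, fun i => (hu₀ i).2.le⟩).mpr ⟨rfl, rfl⟩
  -- facts on the first piece
  have hE0 : ∀ A : Fin m → Eu N, gram A = gramOne m → ∀ u ∈ Icc (0 : Fin m → ℝ) 1,
      Up (G (momE φ A u, 0)) → A = A₀ ∧ u = u₀ := by
    intro A hA u hu h
    rw [hG0] at h
    exact (h0 A hA u hu).mp h
  have hE1' : ∀ A : Fin m → Eu N, gram A = gramOne m → ∀ u ∈ Icc (0 : Fin m → ℝ) 1,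
      ¬ Up (G (momE φ A u, 1)) := fun A hA u hu => hE1 (A, u) ⟨hA, hu⟩
  have hC0' : ∀ A : Fin m → Eu N, gram A = gramOne m → ∀ u ∈ Icc (0 : Fin m → ℝ) 1,
      ¬ Up (G (momC hm0 φ A u, 0)) := by
    intro A hA u hu h
    rw [hG0] at h
    exact h0C A hA u hu h
  have hC1' : ∀ A : Fin m → Eu N, gram A = gramOne m → ∀ u ∈ Icc (0 : Fin m → ℝ) 1,
      ¬ Up (G (momC hm0 φ A u, 1)) := fun A hA u hu => hC1 (A, u) ⟨hA, hu⟩
  have hEface : ∀ A : Fin m → Eu N, gram A = gramOne m → ∀ u ∈ Icc (0 : Fin m → ℝ) 1,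
      ∀ t ∈ Icc (0 : ℝ) 1, Up (G (momE φ A u, t)) → ∀ i, (u i = 0 ∨ u i = 1) →
      0 < t ∧ t < 1 := by
    intro A hA u hu t ht hup i hi
    constructor
    · rcases ht.1.lt_or_eq with h | h
      · exact h
      · exfalso
        rw [← h] at hup
        obtain ⟨-, h3⟩ := hE0 A hA u hu hup
        have := hu₀ i
        rw [h3] at hi
        rcases hi with hi | hi <;> rw [hi] at this
        · exact lt_irrefl _ this.1
        · exact lt_irrefl _ this.2
    · rcases ht.2.lt_or_eq with h | h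
      · exact h
      · exfalso
        rw [h] at hup
        exact hE1' A hA u hu hup
  have hCt : ∀ A : Fin m → Eu N, gram A = gramOne m → ∀ u ∈ Icc (0 : Fin m → ℝ) 1,
      ∀ t ∈ Icc (0 : ℝ) 1, Up (G (momC hm0 φ A u, t)) → 0 < t ∧ t < 1 := by
    intro A hA u hu t ht hup
    constructor
    · rcases ht.1.lt_or_eq with h | h
      · exact h
      · exfalso
        rw [← h] at hup
        exact hC0' A hA u hu hup
    · rcases ht.2.lt_or_eq with h | h
      · exact h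
      · exfalso
        rw [h] at hup
        exact hC1' A hA u hu hup
  have hstrict : ∀ u ∈ Icc (0 : Fin m → ℝ) 1, ∀ j, u j ≠ 0 ∧ u j ≠ 1 → 0 < u j ∧ u j < 1 := by
    intro u hu j hj
    exact ⟨lt_of_le_of_ne (hu.1 j) (Ne.symm hj.1), lt_of_le_of_ne (hu.2 j) hj.2⟩
  obtain ⟨hEfin, hEeven⟩ := parity_piece hD
    (fun p : (Fin m → Eu N) × (Fin m → ℝ) => momE φ p.1 p.2) (Om N m (m + 1))
    (isOpen_Om N m (m + 1)) (momE_contDiffOn φ hφ) hboxE G hGc
    (fun A hA u hu t ht => hEne (A, u) ⟨hA, hu⟩ t ht)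
    (by
      intro A hA u hu t ht hup i hi
      have ht' := hEface A hA u hu t ht hup i hi
      obtain ⟨h2, h3⟩ := hyE A u (hboxE A u hu) hA t ht'.1 hup i hi
      exact ⟨fun j hj => hstrict u hu j (h2 j hj), ht', h3⟩)
    (by
      intro A hA u hu t ht hup
      rcases ht with rfl | rfl
      · obtain ⟨rfl, rfl⟩ := hE0 A hA u hu hup
        refine ⟨hu₀, ?_⟩
        intro V v hV hv
        simp only [hG0] at hv
        exact hnd V v hV hv
      · exact absurd hup (hE1' A hA u hu))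
  obtain ⟨hCfin, hCeven⟩ := parity_piece hD
    (fun p : (Fin m → Eu N) × (Fin m → ℝ) => momC hm0 φ p.1 p.2) _
    hOC (momC_contDiffOn hm φ hφ) hboxC G hGc
    (fun A hA u hu t ht => hCne (A, u) ⟨hA, hu⟩ t ht)
    (by
      intro A hA u hu t ht hup i hi
      have ht' := hCt A hA u hu t ht hup
      obtain ⟨h2, h3⟩ := hyC A u (hboxC A u hu) hA t ht'.1 hup i hi
      exact ⟨fun j hj => hstrict u hu j (h2 j hj), ht', h3⟩)
    (by
      intro A hA u hu t ht hup
      rcases ht with rfl | rfl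
      · exact absurd hup (hC0' A hA u hu)
      · exact absurd hup (hC1' A hA u hu))
  -- no points on the degenerate faces
  have hEz : ∀ A : Fin m → Eu N, gram A = gramOne m → ∀ u ∈ Icc (0 : Fin m → ℝ) 1,
      ∀ t ∈ Icc (0 : ℝ) 1, Up (G (momE φ A u, t)) → ∀ i : Fin m, i.1 + 1 < m → u i ≠ 0 := by
    intro A hA u hu t ht hup i him hi
    have ht' := hEface A hA u hu t ht hup i (Or.inl hi)
    obtain ⟨-, h3⟩ := hyE A u (hboxE A u hu) hA t ht'.1 hup i (Or.inl hi)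
    set l : Fin m := ⟨m - 1, by omega⟩ with hl
    have hil : i < l := by
      rw [Fin.lt_def]
      simp only [hl]
      omega
    have h4 := h3 0 (Pi.single l 1) 0 (Pi.single_eq_of_ne hil.ne 1) (map_zero _) (by
      refine count_line _ _ _ fun s => ?_
      have e1 : u + s • (Pi.single l 1 : Fin m → ℝ) = Function.update u l (u l + s) := by
        ext j
        by_cases hj : j = l
        · subst hj
          simp
        · simp [hj]
      simp only [Prod.smul_mk, Prod.mk_add_mk, smul_zero, add_zero]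
      rw [e1, faceE_zero φ A u i l hil hi])
    have h5 := congrFun h4.2.1 l
    simp at h5
  have hCz : ∀ A : Fin m → Eu N, gram A = gramOne m → ∀ u ∈ Icc (0 : Fin m → ℝ) 1,
      ∀ t ∈ Icc (0 : ℝ) 1, Up (G (momC hm0 φ A u, t)) → ∀ i : Fin m, i.1 + 2 < m → u i ≠ 0 := by
    intro A hA u hu t ht hup i him hi
    have ht' := hCt A hA u hu t ht hup
    obtain ⟨-, h3⟩ := hyC A u (hboxC A u hu) hA t ht'.1 hup i (Or.inl hi)
    set l : Fin m := ⟨m - 2, by omega⟩ with hl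
    have hil : i < l := by
      rw [Fin.lt_def]
      simp only [hl]
      omega
    have hlm : l.1 + 1 < m := by
      simp only [hl]
      omega
    have h4 := h3 0 (Pi.single l 1) 0 (Pi.single_eq_of_ne hil.ne 1) (map_zero _) (by
      refine count_line _ _ _ fun s => ?_
      have e1 : u + s • (Pi.single l 1 : Fin m → ℝ) = Function.update u l (u l + s) := by
        ext j
        by_cases hj : j = l
        · subst hj
          simp
        · simp [hj]
      simp only [Prod.smul_mk, Prod.mk_add_mk, smul_zero, add_zero]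
      rw [e1, faceC_zero hm0 φ A u i l hil hlm hi])
    have h5 := congrFun h4.2.1 l
    simp at h5
  set l : Fin m := ⟨m - 1, by omega⟩ with hl
  set SE := {p : ((Fin m → Eu N) × (Fin m → ℝ)) × ℝ | gram p.1.1 = gramOne m ∧
    p.1.2 ∈ Icc 0 1 ∧ p.2 ∈ Icc (0 : ℝ) 1 ∧ Up (G (momE φ p.1.1 p.1.2, p.2)) ∧
    ((∃ i, p.1.2 i = 0 ∨ p.1.2 i = 1) ∨ p.2 = 0 ∨ p.2 = 1)} with hSE
  set SC := {p : ((Fin m → Eu N) × (Fin m → ℝ)) × ℝ | gram p.1.1 = gramOne m ∧
    p.1.2 ∈ Icc 0 1 ∧ p.2 ∈ Icc (0 : ℝ) 1 ∧ Up (G (momC hm0 φ p.1.1 p.1.2, p.2)) ∧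
    ((∃ i, p.1.2 i = 0 ∨ p.1.2 i = 1) ∨ p.2 = 0 ∨ p.2 = 1)} with hSC
  set QE := {p ∈ SE | p.2 ≠ 0 ∧ p.1.2 l ≠ 0} with hQE
  set RE := {p ∈ SE | p.1.2 l = 0} with hRE
  set RC := {p ∈ SC | p.1.2 l = 1} with hRC
  set QC := {p ∈ SC | p.1.2 l ≠ 1} with hQC
  -- the first decomposition
  have hdecE : SE = {((A₀, u₀), 0)} ∪ (RE ∪ QE) := by
    ext p
    constructor
    · intro hp
      by_cases h2 : p.1.2 l = 0
      · exact Or.inr (Or.inl ⟨hp, h2⟩)
      · by_cases h3 : p.2 = 0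
        · left
          obtain ⟨⟨A, u⟩, t⟩ := p
          simp only at h3
          subst h3
          obtain ⟨h4, h5⟩ := hE0 A hp.1 u hp.2.1 hp.2.2.2.1
          simp [h4, h5]
        · exact Or.inr (Or.inr ⟨hp, h3, h2⟩)
    · rintro (hp | hp | hp)
      · rw [Set.mem_singleton_iff] at hp
        subst hp
        refine ⟨hA₀, ⟨fun i => (hu₀ i).1.le, fun i => (hu₀ i).2.le⟩, ⟨le_rfl, zero_le_one⟩, hup0,
          Or.inr (Or.inl rfl)⟩
      · exact hp.1
      · exact hp.1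
  have hREfin : RE.Finite := hEfin.subset (fun p hp => hp.1)
  have hQEfin : QE.Finite := hEfin.subset (fun p hp => hp.1)
  have hRCfin : RC.Finite := hCfin.subset (fun p hp => hp.1)
  have hQCfin : QC.Finite := hCfin.subset (fun p hp => hp.1)
  have hcardE : SE.ncard = 1 + (RE.ncard + QE.ncard) := by
    rw [hdecE, Set.ncard_union_eq ?_ (Set.finite_singleton _) (hREfin.union hQEfin),
      Set.ncard_singleton, Set.ncard_union_eq ?_ hREfin hQEfin]
    · rw [Set.disjoint_left]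
      intro p hp hp'
      exact hp'.2.2 hp.2
    · rw [Set.disjoint_left]
      intro p hp hp'
      rw [Set.mem_singleton_iff] at hp
      subst hp
      rcases hp' with hp' | hp'
      · have h2 : u₀ l = 0 := hp'.2
        have := (hu₀ l).1
        rw [h2] at this
        exact lt_irrefl _ this
      · exact hp'.2.1 rfl
  have hdecC : SC = RC ∪ QC := by
    ext p
    constructor
    · intro hp
      by_cases h2 : p.1.2 l = 1
      · exact Or.inl ⟨hp, h2⟩
      · exact Or.inr ⟨hp, h2⟩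
    · rintro (hp | hp) <;> exact hp.1
  have hcardC : SC.ncard = RC.ncard + QC.ncard := by
    rw [hdecC, Set.ncard_union_eq ?_ hRCfin hQCfin]
    rw [Set.disjoint_left]
    intro p hp hp'
    exact hp'.2 hp.2
  -- the two pieces are glued along one face
  have hup : ∀ (u : Fin m → ℝ) (x : ℝ), u ∈ Icc (0 : Fin m → ℝ) 1 → x ∈ Icc (0 : ℝ) 1 →
      Function.update u l x ∈ Icc (0 : Fin m → ℝ) 1 := by
    intro u x hu hx
    constructor
    · intro j
      by_cases hj : j = l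
      · subst hj
        simpa using hx.1
      · simpa [hj] using hu.1 j
    · intro j
      by_cases hj : j = l
      · subst hj
        simpa using hx.2
      · simpa [hj] using hu.2 j
  have hglue : RE.ncard = RC.ncard := by
    refine Set.ncard_congr (fun p _ => ((p.1.1, Function.update p.1.2 l 1), p.2)) ?_ ?_ ?_
    · rintro p ⟨⟨h2, h3, h4, h5, h6⟩, h7⟩
      refine ⟨⟨h2, hup _ _ h3 ⟨zero_le_one, le_rfl⟩, h4, ?_, Or.inl ⟨l, Or.inr (by simp)⟩⟩, by simp⟩
      simp only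
      rw [← faceE_last hm0 φ p.1.1 p.1.2 h7]
      exact h5
    · rintro p q ⟨-, hp⟩ ⟨-, hq⟩ hpq
      simp only [Prod.mk.injEq] at hpq
      obtain ⟨⟨h2, h3⟩, h4⟩ := hpq
      refine Prod.ext (Prod.ext h2 ?_) h4
      ext j
      by_cases hj : j = l
      · subst hj
        rw [hp, hq]
      · have := congrFun h3 j
        simpa [hj] using this
    · rintro q ⟨⟨h2, h3, h4, h5, h6⟩, h7⟩
      have e1 : Function.update (Function.update q.1.2 l 0) l 1 = q.1.2 := by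
        rw [Function.update_idem, ← h7, Function.update_eq_self]
      refine ⟨((q.1.1, Function.update q.1.2 l 0), q.2),
        ⟨⟨h2, hup _ _ h3 ⟨le_rfl, zero_le_one⟩, h4, ?_, Or.inl ⟨l, Or.inl (by simp)⟩⟩, by simp⟩, ?_⟩
      · simp only
        rw [faceE_last hm0 φ q.1.1 (Function.update q.1.2 l 0) (by simp [hl])]
        have e2 : Function.update (Function.update q.1.2 l 0) ⟨m - 1, by omega⟩ 1 = q.1.2 := e1
        rw [e2]
        exact h5
      · simp only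
        rw [e1]
  -- the other faces are even
  have hQEeven : Even QE.ncard := by
    refine count_invo (fun A u => momE φ A u) G (fun u t => u ∈ Icc (0 : Fin m → ℝ) 1 ∧
      t ∈ Icc (0 : ℝ) 1 ∧ ((∃ i, u i = 0 ∨ u i = 1) ∨ t = 0 ∨ t = 1) ∧ t ≠ 0 ∧ u l ≠ 0) QE
      hQEfin ?_ ?_
    · intro p
      constructor
      · rintro ⟨⟨h2, h3, h4, h5, h6⟩, h7, h8⟩
        exact ⟨h2, h5, h3, h4, h6, h7, h8⟩
      · rintro ⟨h2, h5, h3, h4, h6, h7, h8⟩
        exact ⟨⟨h2, h3, h4, h5, h6⟩, h7, h8⟩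
    · rintro ⟨⟨A, u⟩, t⟩ ⟨⟨h2, h3, h4, h5, h6⟩, h7, h8⟩
      simp only at h2 h3 h4 h5 h6 h7 h8 ⊢
      have h9 : ∃ i, u i = 1 := by
        rcases h6 with ⟨i, hi | hi⟩ | h6 | h6
        · exfalso
          by_cases him : i.1 + 1 < m
          · exact hEz A h2 u h3 t h4 h5 i him hi
          · have : i = l := by
              apply Fin.ext
              simp only [hl]
              omega
            rw [this] at hi
            exact h8 hi
        · exact ⟨i, hi⟩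
        · exact absurd h6 h7
        · rw [h6] at h5
          exact absurd h5 (hE1' A h2 u h3)
      obtain ⟨i, hi⟩ := h9
      obtain ⟨T, hT⟩ := faceE_one (N := N) (k := k) hm i
      refine ⟨T u, fun B hB => ?_⟩
      obtain ⟨a1, a2, a3, a4⟩ := hT u B hB
      exact ⟨a1, a2, a3, a4 hi φ⟩
  have hQCeven : Even QC.ncard := by
    refine count_invo (fun A u => momC hm0 φ A u) G (fun u t => u ∈ Icc (0 : Fin m → ℝ) 1 ∧
      t ∈ Icc (0 : ℝ) 1 ∧ ((∃ i, u i = 0 ∨ u i = 1) ∨ t = 0 ∨ t = 1) ∧ u l ≠ 1) QC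
      hQCfin ?_ ?_
    · intro p
      constructor
      · rintro ⟨⟨h2, h3, h4, h5, h6⟩, h7⟩
        exact ⟨h2, h5, h3, h4, h6, h7⟩
      · rintro ⟨h2, h5, h3, h4, h6, h7⟩
        exact ⟨⟨h2, h3, h4, h5, h6⟩, h7⟩
    · rintro ⟨⟨A, u⟩, t⟩ ⟨⟨h2, h3, h4, h5, h6⟩, h7⟩
      simp only at h2 h3 h4 h5 h6 h7 ⊢
      have ht := hCt A h2 u h3 t h4 h5
      obtain ⟨i, hi⟩ : ∃ i, u i = 0 ∨ u i = 1 := by
        rcases h6 with h6 | h6 | h6
        · exact h6
        · exact absurd h6 ht.1.ne'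
        · exact absurd h6 ht.2.ne
      by_cases him : i.1 + 1 < m
      · rcases hi with hi | hi
        · have him2 : i.1 + 2 = m := by
            by_contra hcon
            exact hCz A h2 u h3 t h4 h5 i (by omega) hi
          have hiv : i = ⟨m - 2, by omega⟩ := by
            apply Fin.ext
            simp only
            omega
          obtain ⟨T, hT⟩ := faceC_prev (N := N) (k := k) hm
          refine ⟨T u, fun B hB => ?_⟩
          obtain ⟨a1, a2, a3, a4⟩ := hT u B hB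
          exact ⟨a1, a2, a3, a4 (by rw [← hiv]; exact hi) φ⟩
        · obtain ⟨T, hT⟩ := faceC_one (N := N) (k := k) hm i him
          refine ⟨T u, fun B hB => ?_⟩
          obtain ⟨a1, a2, a3, a4⟩ := hT u B hB
          exact ⟨a1, a2, a3, a4 hi φ⟩
      · have hiv : i = l := by
          apply Fin.ext
          simp only [hl]
          omega
        rw [hiv] at hi
        rcases hi with hi | hi
        · obtain ⟨T, hT⟩ := faceC_rho (N := N) (k := k) hm
          refine ⟨T u, fun B hB => ?_⟩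
          obtain ⟨a1, a2, a3, a4⟩ := hT u B hB
          exact ⟨a1, a2, a3, a4 hi φ⟩
        · exact absurd hi h7
  rw [hcardE] at hEeven
  rw [hcardC] at hCeven
  rw [hglue] at hEeven
  obtain ⟨a, ha⟩ := hEeven
  obtain ⟨b, hb⟩ := hCeven
  obtain ⟨c, hc⟩ := hQEeven
  obtain ⟨d, hd⟩ := hQCeven
  omega

end Pool.Agent.AVG
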