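import Mathlib

/-! # MP_89fc28_gt: smooth cut-off -/

set_option autoImplicit false

open Set MeasureTheory Module

namespace Pool.Agent.AVG

/-- **T7. A smooth cut-off.** -/
theorem smooth_cut {H : Type} [NormedAddCommGroup H] [NormedSpace ℝ H] [FiniteDimensional ℝ H]
    (ε : ℝ) (hε : 0 < ε) : ∃ (S : H → H) (δ : ℝ), 0 < δ ∧ ContDiff ℝ 2 S ∧
      (∀ v, ‖v‖ ≤ δ → S v = 0) ∧ ∀ v, ‖S v - v‖ ≤ ε := by
  let b : ContDiffBump (0 : H) := ⟨ε / 2, ε, by linarith, by linarith⟩
  refine ⟨fun v => (1 - b v) • v, ε / 2, by linarith, ?_, ?_, ?_⟩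
  · exact (contDiff_const.sub b.contDiff).smul contDiff_id
  · intro v hv
    have h1 : b v = 1 := b.one_of_mem_closedBall (by simpa [b] using hv)
    simp [h1]
  · intro v
    have e1 : (1 - b v) • v - v = -(b v • v) := by rw [sub_smul, one_smul]; abel
    rw [e1, norm_neg, norm_smul, Real.norm_eq_abs, abs_of_nonneg b.nonneg]
    by_cases hv : ε ≤ ‖v‖
    · have h1 : b v = 0 := b.zero_of_le_dist (by simpa [b] using hv)
      rw [h1, zero_mul]; exact hε.le
    · push Not at hv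
      calc b v * ‖v‖ ≤ 1 * ‖v‖ := mul_le_mul_of_nonneg_right b.le_one (norm_nonneg _)
        _ ≤ ε := by rw [one_mul]; exact hv.le

end Pool.Agent.AVG
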