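import Mathlib

/-!
# MP_89fc28_gt: anti-Vietoris-Rips metric thickenings of spheres, definitions

`Sph N` is the unit sphere of `ℝ^N`, so the sphere `S^n` is `Sph (n + 1)`.
`AVR N r` is the set of the finitely supported probability measures on `Sph N` whose support has
spread at least `r` (great circle distance), with the topology of the 1-Wasserstein distance.
-/

set_option autoImplicit false

open Set

namespace Pool.Agent.AVG

/-- Euclidean space of dimension `N` -/
abbrev Eu (N : ℕ) : Type := EuclideanSpace ℝ (Fin N)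

/-- the unit sphere of `ℝ^N` -/
abbrev Sph (N : ℕ) : Type := Metric.sphere (0 : Eu N) 1

/-- great circle distance -/
noncomputable def gd {N : ℕ} (x y : Sph N) : ℝ :=
  Real.arccos (inner ℝ (x : Eu N) (y : Eu N))

/-- `π` is a coupling of the finitely supported measures `μ` and `ν` -/
structure IsCoupling {N : ℕ} (μ ν : Sph N →₀ ℝ) (π : Sph N × Sph N →₀ ℝ) : Prop where
  nonneg : ∀ p, 0 ≤ π p
  fst : π.mapDomain Prod.fst = μ
  snd : π.mapDomain Prod.snd = ν

/-- transport cost of a coupling -/
noncomputable def cost {N : ℕ} (π : Sph N × Sph N →₀ ℝ) : ℝ :=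
  π.sum fun p a => a * gd p.1 p.2

/-- the 1-Wasserstein distance -/
noncomputable def W1 {N : ℕ} (μ ν : Sph N →₀ ℝ) : ℝ :=
  sInf {c | ∃ π, IsCoupling μ ν π ∧ c = cost π}

/-- The underlying set of the anti-Vietoris-Rips metric thickening of the unit sphere of `ℝ^N` at
scale `r`: finitely supported probability measures whose support has spread at least `r`. -/
@[ext]
structure AVR (N : ℕ) (r : ℝ) where
  /-- the weights -/
  w : Sph N →₀ ℝ
  nonneg : ∀ x, 0 ≤ w x
  total : (w.sum fun _ a => a) = 1
  spread : ∀ x ∈ w.support, ∀ y ∈ w.support, x ≠ y → r ≤ gd x y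

/-- the topology of the 1-Wasserstein distance -/
instance (N : ℕ) (r : ℝ) : TopologicalSpace (AVR N r) where
  IsOpen U := ∀ μ ∈ U, ∃ ε > 0, ∀ ν : AVR N r, W1 μ.w ν.w < ε → ν ∈ U
  isOpen_univ := fun _ _ => ⟨1, one_pos, fun _ _ => trivial⟩
  isOpen_inter := by
    rintro U V hU hV μ ⟨h1, h2⟩
    obtain ⟨ε, hε, h⟩ := hU μ h1
    obtain ⟨δ, hδ, h'⟩ := hV μ h2
    exact ⟨min ε δ, lt_min hε hδ, fun ν hν =>
      ⟨h ν (hν.trans_le (min_le_left _ _)), h' ν (hν.trans_le (min_le_right _ _))⟩⟩
  isOpen_sUnion := by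
    rintro 𝒰 h μ ⟨U, hU, hμ⟩
    obtain ⟨ε, hε, h'⟩ := h U hU μ hμ
    exact ⟨ε, hε, fun ν hν => ⟨U, hU, h' ν hν⟩⟩

/-- the great circle distance of two vertices of a regular `(k+1)`-simplex inscribed in `S^k` -/
noncomputable def rk (k : ℕ) : ℝ := Real.arccos (-(1 / ((k : ℝ) + 1)))

/-- Two spaces have the same homotopy type. -/
def HEquiv (X Y : Type) [TopologicalSpace X] [TopologicalSpace Y] : Prop :=
  Nonempty (ContinuousMap.HomotopyEquiv X Y)

/-- The homotopy type of `AVR N r` changes at the scale `s`. -/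
def Changes (N : ℕ) (s : ℝ) : Prop :=
  ¬ ∃ a b : ℝ, a < s ∧ s < b ∧ ∀ r ∈ Ioo a b, ∀ r' ∈ Ioo a b, HEquiv (AVR N r) (AVR N r')

/-! ### integrals, configurations -/

/-- the integral of a function against a finitely supported measure -/
noncomputable def integ {N : ℕ} {F : Type*} [AddCommGroup F] [Module ℝ F] (μ : Sph N →₀ ℝ)
    (φ : Eu N → F) : F :=
  μ.sum fun x a => a • φ x

/-- tuples of points with pairwise distances at least `r` -/
def Conf (N : ℕ) (r : ℝ) (j : ℕ) : Set (Fin j → Sph N) :=
  {x | ∀ i l, i ≠ l → r ≤ gd (x i) (x l)}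

/-- the measure with the atoms `x i` and the weights `l i` -/
noncomputable def AVR.mk' {N : ℕ} {r : ℝ} {j : ℕ} (x : Conf N r j) (l : stdSimplex ℝ (Fin j)) :
    AVR N r where
  w := ∑ i, Finsupp.single (x.1 i) (l.1 i)
  nonneg y := by
    rw [Finsupp.finsetSum_apply]
    refine Finset.sum_nonneg fun i _ => ?_
    rw [Finsupp.single_apply]
    split_ifs
    · exact l.2.1 i
    · exact le_rfl
  total := by
    have h : ∀ s : Finset (Fin j), ((∑ i ∈ s, Finsupp.single (x.1 i) (l.1 i)).sum fun _ a => a) =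
        ∑ i ∈ s, l.1 i := by
      intro s
      induction s using Finset.induction_on with
      | empty => simp
      | insert a s ha ih =>
        rw [Finset.sum_insert ha, Finset.sum_insert ha, Finsupp.sum_add_index' (by simp) (by simp),
          ih, Finsupp.sum_single_index rfl]
    rw [h]; exact l.2.2
  spread := by
    have h : ∀ y ∈ (∑ i, Finsupp.single (x.1 i) (l.1 i)).support, ∃ i, x.1 i = y := by
      intro y hy
      by_contra hne
      push Not at hne
      rw [Finsupp.mem_support_iff, Finsupp.finsetSum_apply] at hy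
      exact hy (Finset.sum_eq_zero fun i _ => by
        rw [Finsupp.single_apply, if_neg (hne i)])
    intro y hy z hz hyz
    obtain ⟨i, rfl⟩ := h y hy
    obtain ⟨l', rfl⟩ := h z hz
    exact x.2 i l' fun e => hyz (by rw [e])

/-- the stratum of the measures with at most `j` atoms -/
def strat (N : ℕ) (r : ℝ) (j : ℕ) : Set (AVR N r) := {μ | μ.w.support.card ≤ j}

/-- the punctured space -/
abbrev Pun (H : Type*) [Zero H] : Type _ := {v : H // v ≠ 0}

end Pool.Agent.AVG
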