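import Pool.Agent.Lib.MP_89fc28_gt.G.Defs

/-! # MP_89fc28_gt: gluing and homotopy extension -/

set_option autoImplicit false

open Set MeasureTheory Module

namespace Pool.Agent.AVG

/-- **T1. Gluing continuous functions along compact pieces.** -/
theorem continuous_of_pieces {ι : Type} [Finite ι] {K : ι → Type} [∀ i, TopologicalSpace (K i)]
    [∀ i, CompactSpace (K i)] {X Z : Type} [TopologicalSpace X] [T2Space X] [TopologicalSpace Z]
    (q : ∀ i, K i → X) (hq : ∀ i, Continuous (q i)) (hs : ∀ x, ∃ i k, q i k = x) (F : X → Z)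
    (hF : ∀ i, Continuous fun k => F (q i k)) : Continuous F := by
  rw [continuous_iff_isClosed]
  intro C hC
  have h1 : F ⁻¹' C = ⋃ i, q i '' ((fun k => F (q i k)) ⁻¹' C) := by
    ext x
    simp only [mem_preimage, mem_iUnion, mem_image]
    constructor
    · intro hx
      obtain ⟨i, k, rfl⟩ := hs x
      exact ⟨i, k, hx, rfl⟩
    · rintro ⟨i, k, hk, rfl⟩
      exact hk
  rw [h1]
  exact isClosed_iUnion_of_finite fun i =>
    (((hC.preimage (hF i)).isCompact).image (hq i)).isClosed

/-- **T2. Homotopy extension.** -/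
theorem hep {X H : Type} [TopologicalSpace X] [CompactSpace X] [T2Space X]
    [NormedAddCommGroup H] [NormedSpace ℝ H] [FiniteDimensional ℝ H] (L : Set X)
    (hL : IsClosed L) (f : C(X, Pun H)) (G : C(L × unitInterval, Pun H))
    (hG : ∀ x : L, G (x, 0) = f x) :
    ∃ f' : C(X, Pun H), f.Homotopic f' ∧ ∀ x : L, f' x = G (x, 1) := by
  have : TietzeExtension.{0, 0} H := TietzeExtension.of_tvs ℝ
  -- extend the difference
  have he : Topology.IsClosedEmbedding
      (Prod.map (Subtype.val : L → X) (id : unitInterval → unitInterval)) :=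
    hL.isClosedEmbedding_subtypeVal.prodMap Topology.IsClosedEmbedding.id
  let D : C(L × unitInterval, H) :=
    ⟨fun p => (G p : H) - (f p.1 : H), by fun_prop⟩
  obtain ⟨D', hD'⟩ := ContinuousMap.exists_extension he D
  have hD'' : ∀ (x : L) (t : unitInterval), D' ((x : X), t) = (G (x, t) : H) - (f x : H) := by
    intro x t
    have := DFunLike.congr_fun hD' (x, t)
    simpa [D] using this
  let g : X × unitInterval → H := fun p => (f p.1 : H) + (D' p - D' (p.1, 0))
  have hg : Continuous g := by
    have h1 : Continuous fun p : X × unitInterval => ((f p.1 : Pun H) : H) := by fun_prop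
    have h2 : Continuous fun p : X × unitInterval => D' (p.1, (0 : unitInterval)) :=
      D'.continuous.comp (by fun_prop)
    exact h1.add (D'.continuous.sub h2)
  have hg0 : ∀ x, g (x, 0) = f x := by
    intro x
    simp [g]
  have hgL : ∀ (x : L) (t : unitInterval), g ((x : X), t) = G (x, t) := by
    intro x t
    simp only [g]
    rw [hD'' x t, hD'' x 0, hG x]
    abel
  -- the bad set
  set B : Set X := Prod.fst '' {p : X × unitInterval | g p = 0} with hB
  have hBc : IsClosed B := by
    have h1 : IsClosed {p : X × unitInterval | g p = 0} := isClosed_eq hg continuous_const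
    exact (h1.isCompact.image continuous_fst).isClosed
  have hBL : Disjoint B L := by
    rw [Set.disjoint_left]
    rintro x ⟨⟨x', t⟩, h1, rfl⟩ hxL
    have h2 := hgL ⟨x', hxL⟩ t
    exact (G (⟨x', hxL⟩, t)).2 (h2.symm.trans h1)
  obtain ⟨u, hu0, hu1, hu⟩ := exists_continuous_zero_one_of_isClosed hBc hL hBL
  let v : X → unitInterval := fun x => ⟨u x, hu x⟩
  have hv : Continuous v := Continuous.subtype_mk u.continuous _
  have hv0 : ∀ x ∈ B, v x = 0 := by
    intro x hx
    exact Subtype.ext (hu0 hx)
  have hv1 : ∀ x ∈ L, v x = 1 := by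
    intro x hx
    exact Subtype.ext (hu1 hx)
  have hne : ∀ (x : X) (t : unitInterval), g (x, t * v x) ≠ 0 := by
    intro x t hz
    have hxB : x ∈ B := ⟨(x, t * v x), hz, rfl⟩
    rw [hv0 x hxB, mul_zero, hg0] at hz
    exact (f x).2 hz
  have hcont : Continuous fun p : unitInterval × X => g (p.2, p.1 * v p.2) := by
    have h2 : Continuous fun p : unitInterval × X => (p.2, p.1 * v p.2) :=
      continuous_snd.prodMk (continuous_fst.mul (hv.comp continuous_snd))
    exact hg.comp h2
  have hcont1 : Continuous fun x : X => g (x, (1 : unitInterval) * v x) :=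
    hcont.comp (continuous_const.prodMk continuous_id)
  refine ⟨⟨fun x => ⟨g (x, 1 * v x), hne x 1⟩, hcont1.subtype_mk _⟩, ⟨⟨⟨fun p =>
    ⟨g (p.2, p.1 * v p.2), hne p.2 p.1⟩, hcont.subtype_mk _⟩, ?_, ?_⟩⟩, ?_⟩
  · intro x
    apply Subtype.ext
    change g (x, 0 * v x) = f x
    rw [zero_mul, hg0]
  · intro x
    rfl
  · intro x
    apply Subtype.ext
    change g ((x : X), 1 * v x) = G (x, 1)
    rw [hv1 x x.2, mul_one, hgL]

end Pool.Agent.AVG
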