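import Pool.Agent.Lib.MP_89fc28_gt.G.Compact
import Pool.Agent.Lib.MP_89fc28_gt.G.Glue

/-! # MP_89fc28_gt: functions on a stratum -/

set_option autoImplicit false

open Set MeasureTheory Module

namespace Pool.Agent.AVG

/-- **T6. Functions on a stratum.** -/
theorem descend {N : ℕ} {r : ℝ} (hr : 0 < r) {j : ℕ} {Z : Type} [TopologicalSpace Z]
    (Φ : Conf N r (j + 1) × stdSimplex ℝ (Fin (j + 1)) × unitInterval → Z) (hΦ : Continuous Φ)
    (z : unitInterval → Z) (hz : Continuous z)
    (hperm : ∀ (x y : Conf N r (j + 1)) (l k : stdSimplex ℝ (Fin (j + 1)))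
      (σ : Equiv.Perm (Fin (j + 1))), (∀ i, y.1 i = x.1 (σ i) ∧ k.1 i = l.1 (σ i)) →
      ∀ t, Φ (y, k, t) = Φ (x, l, t))
    (hzero : ∀ x (l : stdSimplex ℝ (Fin (j + 1))) t, (∃ i, l.1 i = 0) → Φ (x, l, t) = z t) :
    ∃ G : C(strat N r (j + 1) × unitInterval, Z),
      (∀ (μ : strat N r (j + 1)) x l t, AVR.mk' x l = μ.1 → G (μ, t) = Φ (x, l, t)) ∧
      ∀ (μ : strat N r (j + 1)) t, μ.1 ∈ strat N r j → G (μ, t) = z t := by
  classical
  -- a representation of a measure with at most `j` atoms has a zero weight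
  have hlow : ∀ (x : Conf N r (j + 1)) (l : stdSimplex ℝ (Fin (j + 1))),
      (AVR.mk' x l).w.support.card ≤ j → ∃ i, l.1 i = 0 := by
    intro x l h
    by_contra hcon
    push Not at hcon
    rw [card_mk hr, Finset.filter_true_of_mem (fun i _ => hcon i)] at h
    simp at h
  -- a representation of a measure with `j + 1` atoms has positive weights
  have hhigh : ∀ (x : Conf N r (j + 1)) (l : stdSimplex ℝ (Fin (j + 1))),
      (AVR.mk' x l).w.support.card = j + 1 → ∀ i, 0 < l.1 i := by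
    intro x l h i
    rw [card_mk hr] at h
    have h1 : (Finset.univ.filter fun i => l.1 i ≠ 0) = Finset.univ := by
      apply Finset.eq_univ_of_card
      rw [h, Fintype.card_fin]
    have h2 : i ∈ (Finset.univ.filter fun i => l.1 i ≠ 0) := by
      rw [h1]
      exact Finset.mem_univ i
    exact lt_of_le_of_ne (l.2.1 i) (Ne.symm (Finset.mem_filter.1 h2).2)
  have hcard : ∀ (x : Conf N r (j + 1)) (l : stdSimplex ℝ (Fin (j + 1))),
      (AVR.mk' x l).w.support.card ≤ j + 1 := by
    intro x l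
    rw [card_mk hr]
    exact (Finset.card_filter_le _ _).trans (by simp)
  -- the function is well defined
  have hwd : ∀ (x y : Conf N r (j + 1)) (l k : stdSimplex ℝ (Fin (j + 1))) (t : unitInterval),
      AVR.mk' x l = AVR.mk' y k → Φ (x, l, t) = Φ (y, k, t) := by
    intro x y l k t h
    by_cases hc : (AVR.mk' x l).w.support.card ≤ j
    · have hc' : (AVR.mk' y k).w.support.card ≤ j := by rwa [← h]
      rw [hzero x l t (hlow x l hc), hzero y k t (hlow y k hc')]
    · have hc1 : (AVR.mk' x l).w.support.card = j + 1 := by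
        have := hcard x l
        omega
      have hc2 : (AVR.mk' y k).w.support.card = j + 1 := by rwa [← h]
      obtain ⟨σ, hσ⟩ := mk_perm hr x y l k (hhigh x l hc1) (hhigh y k hc2) h
      exact (hperm x y l k σ hσ t).symm
  -- the function
  let F : strat N r (j + 1) × unitInterval → Z := fun p =>
    if h : ∃ q : Conf N r (j + 1) × stdSimplex ℝ (Fin (j + 1)), AVR.mk' q.1 q.2 = p.1.1 then
      Φ (h.choose.1, h.choose.2, p.2) else z p.2
  have hF1 : ∀ (μ : strat N r (j + 1)) x l t, AVR.mk' x l = μ.1 → F (μ, t) = Φ (x, l, t) := by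
    intro μ x l t h
    have hex : ∃ q : Conf N r (j + 1) × stdSimplex ℝ (Fin (j + 1)), AVR.mk' q.1 q.2 = μ.1 :=
      ⟨(x, l), h⟩
    have h1 : F (μ, t) = Φ (hex.choose.1, hex.choose.2, t) := dif_pos hex
    rw [h1]
    exact hwd _ _ _ _ t (hex.choose_spec.trans h.symm)
  have hF2 : ∀ (μ : strat N r (j + 1)) t, μ.1 ∈ strat N r j → F (μ, t) = z t := by
    intro μ t hμ
    by_cases hex : ∃ q : Conf N r (j + 1) × stdSimplex ℝ (Fin (j + 1)), AVR.mk' q.1 q.2 = μ.1
    · obtain ⟨⟨x, l⟩, h⟩ := hex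
      rw [hF1 μ x l t h]
      apply hzero
      apply hlow x l
      have h' : AVR.mk' x l = μ.1 := h
      rw [h']
      exact hμ
    · exact dif_neg hex
  -- the pieces
  have hc1 : CompactSpace (Conf N r (j + 1)) := compactSpace_conf
  have hc2 : CompactSpace (stdSimplex ℝ (Fin (j + 1))) :=
    isCompact_iff_compactSpace.1 (isCompact_stdSimplex ℝ _)
  have hc3 : CompactSpace (strat N r j) := isCompact_iff_compactSpace.1 (isCompact_strat j)
  have hcont : Continuous F := by
    refine continuous_of_pieces (ι := Unit)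
      (K := fun _ => (Conf N r (j + 1) × stdSimplex ℝ (Fin (j + 1)) × unitInterval) ⊕
        (strat N r j × unitInterval))
      (fun _ => Sum.elim (fun p => (⟨AVR.mk' p.1 p.2.1, hcard p.1 p.2.1⟩, p.2.2))
        (fun p => (⟨p.1.1, le_trans p.1.2 (Nat.le_succ j)⟩, p.2))) ?_ ?_ F ?_
    · intro _
      refine continuous_sumElim.2 ⟨?_, ?_⟩
      · refine Continuous.prodMk (Continuous.subtype_mk ?_ _) (by fun_prop)
        exact continuous_mk.comp (f := fun p : Conf N r (j + 1) × stdSimplex ℝ (Fin (j + 1)) ×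
          unitInterval => (p.1, p.2.1)) (by fun_prop)
      · exact Continuous.prodMk (Continuous.subtype_mk (by fun_prop) _) (by fun_prop)
    · rintro ⟨μ, t⟩
      by_cases hμ : μ.1 ∈ strat N r j
      · exact ⟨(), Sum.inr (⟨μ.1, hμ⟩, t), rfl⟩
      · have hμ' : ¬ μ.1.w.support.card ≤ j := hμ
        have hμ2 : μ.1.w.support.card ≤ j + 1 := μ.2
        obtain ⟨x, l, -, h⟩ := exists_mk' (j := j + 1) μ.1 (by omega)
        refine ⟨(), Sum.inl (x, l, t), ?_⟩
        exact Prod.ext (Subtype.ext h) rfl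
    · intro _
      refine (continuous_congr ?_).1 (continuous_sumElim.2 ⟨hΦ, hz.comp
        (continuous_snd : Continuous fun p : strat N r j × unitInterval => p.2)⟩)
      rintro (⟨x, l, t⟩ | ⟨μ, t⟩)
      · exact (hF1 ⟨AVR.mk' x l, hcard x l⟩ x l t rfl).symm
      · exact (hF2 ⟨μ.1, le_trans μ.2 (Nat.le_succ j)⟩ t μ.2).symm
  exact ⟨⟨F, hcont⟩, hF1, hF2⟩

end Pool.Agent.AVG
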