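import Pool.Agent.Lib.MP_89fc28_gt.G.Points
import Pool.Agent.Lib.MP_89fc28_gt.G.Gram
import Pool.Agent.Lib.MP_89fc28_gt.G.Compact

/-! # MP_89fc28_gt: the map -/

set_option autoImplicit false

open Set MeasureTheory Module

namespace Pool.Agent.AVG

open Topology Filter

private theorem existsF_exists_A {N m : ℕ} (hmN : m ≤ N) :
    ∃ A : Fin m → Eu N, gram A = gramOne m := by
  refine ⟨fun i => EuclideanSpace.single (Fin.castLE hmN i) (1 : ℝ), ?_⟩
  funext s
  induction s using Sym2.ind with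
  | _ i j =>
    simp only [gram, gramOne, Sym2.lift_mk]
    rw [EuclideanSpace.inner_single_left]
    by_cases h : i = j
    · simp [h]
    · have h' : Fin.castLE hmN i ≠ Fin.castLE hmN j := fun e => h (by simpa using e)
      simp [h, h']

private theorem existsF_inner {N m : ℕ} {A : Fin m → Eu N} (hA : gram A = gramOne m)
    (i j : Fin m) : inner ℝ (A i) (A j) = if i = j then (1 : ℝ) else 0 := by
  have := congrFun hA s(i, j)
  simpa [gram, gramOne, Sym2.lift_mk] using this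

private theorem existsF_norm {N m : ℕ} {A : Fin m → Eu N} (hA : gram A = gramOne m)
    (i : Fin m) : ‖A i‖ = 1 := by
  have h := existsF_inner hA i i
  rw [if_pos rfl, real_inner_self_eq_norm_sq] at h
  nlinarith [norm_nonneg (A i)]

private theorem existsF_indep {N m : ℕ} {A : Fin m → Eu N} (hA : gram A = gramOne m) :
    LinearIndependent ℝ A := by
  have : Orthonormal ℝ A := by
    rw [orthonormal_iff_ite]
    exact existsF_inner hA
  exact this.linearIndependent

private theorem existsF_compact (N m : ℕ) :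
    IsCompact {A : Fin m → Eu N | gram A = gramOne m} := by
  apply Metric.isCompact_of_isClosed_isBounded
  · exact isClosed_eq gram_contDiff.continuous continuous_const
  · refine (Metric.isBounded_closedBall (x := (0 : Fin m → Eu N)) (r := 1)).subset ?_
    intro A hA
    rw [mem_closedBall_zero_iff, pi_norm_le_iff_of_nonneg zero_le_one]
    intro i
    exact (existsF_norm hA i).le

private theorem existsF_L {E F : Type*} [NormedAddCommGroup E] [NormedSpace ℝ E]
    [FiniteDimensional ℝ E] [NormedAddCommGroup F] [NormedSpace ℝ F] (K : Submodule ℝ E)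
    (T : E →L[ℝ] F) (hT : Function.Injective T) (D : ℕ) (hK : finrank ℝ K = D) :
    ∃ L : F →ₗ[ℝ] (Fin D → ℝ), ∀ x ∈ K, L (T x) = 0 → x = 0 := by
  have hD : finrank ℝ K = finrank ℝ (Fin D → ℝ) := by rw [hK]; simp
  let ε : K ≃ₗ[ℝ] (Fin D → ℝ) := LinearEquiv.ofFinrankEq _ _ hD
  have hinj : Function.Injective ((T : E →ₗ[ℝ] F).comp K.subtype) := by
    intro x y h
    exact Subtype.ext (hT h)
  obtain ⟨R, hR⟩ := LinearMap.exists_leftInverse_of_injective ((T : E →ₗ[ℝ] F).comp K.subtype)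
    (LinearMap.ker_eq_bot.2 hinj)
  refine ⟨(ε : K →ₗ[ℝ] (Fin D → ℝ)).comp R, fun x hx h => ?_⟩
  have h1 : R (T x) = ⟨x, hx⟩ := by
    have := LinearMap.congr_fun hR ⟨x, hx⟩
    simpa using this
  have h2 : ε (R (T x)) = 0 := h
  rw [h1] at h2
  have h3 : (⟨x, hx⟩ : K) = 0 := by
    apply ε.injective
    rw [h2, map_zero]
  exact congrArg Subtype.val h3

private theorem existsF_bumps {N n : ℕ} (x : Fin n → Eu N)
    (hx : ∀ i j, i ≠ j → 1 < dist (x i) (x j)) :
    ∃ b : Fin n → Eu N → ℝ, (∀ i, ContDiff ℝ 2 (b i)) ∧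
      ∀ i j, ∀ᶠ y in 𝓝 (x j), b i y = if i = j then 1 else 0 := by
  let f : ∀ i, ContDiffBump (x i) := fun i => ⟨1 / 4, 1 / 2, by norm_num, by norm_num⟩
  refine ⟨fun i y => f i y, fun i => (f i).contDiff, fun i j => ?_⟩
  by_cases h : i = j
  · subst h
    rw [if_pos rfl]
    exact (f i).eventuallyEq_one
  · rw [if_neg h]
    have h1 : ∀ᶠ y in 𝓝 (x j), dist y (x j) < 1 / 2 := Metric.ball_mem_nhds _ (by norm_num)
    filter_upwards [h1] with y hy
    apply (f i).zero_of_le_dist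
    have h2 := hx i j h
    have h3 := dist_triangle (x i) y (x j)
    rw [dist_comm (x i) y] at h3
    change (1 / 2 : ℝ) ≤ dist y (x i)
    linarith

/-! weights -/

private theorem existsF_wt_zero {m : ℕ} (u : Fin m → ℝ) : wt u 0 = 1 := by
  simp [wt]

private theorem existsF_wt_succ {m : ℕ} (u : Fin m → ℝ) (l : Fin m) :
    wt u (l.1 + 1) = wt u l.1 * u l := by
  unfold wt
  have h : Finset.univ.filter (fun i : Fin m => i.1 < l.1 + 1) =
      insert l (Finset.univ.filter (fun i : Fin m => i.1 < l.1)) := by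
    ext i
    simp only [Finset.mem_filter, Finset.mem_univ, true_and, Finset.mem_insert, Fin.ext_iff]
    omega
  rw [h, Finset.prod_insert (by simp), mul_comm]

private theorem existsF_nw_succ {m : ℕ} (u : Fin m → ℝ) (k : ℕ) (l : Fin m) :
    nw u k (l.1 + 1) = nw u k l.1 * u l := by
  unfold nw
  rw [existsF_wt_succ]
  ring

private theorem existsF_wt_pos {m : ℕ} {u : Fin m → ℝ} (hu : ∀ i, 0 < u i) (l : ℕ) : 0 < wt u l :=
  Finset.prod_pos (fun i _ => hu i)

private theorem existsF_nw_pos {m : ℕ} {u : Fin m → ℝ} (hu : ∀ i, 0 < u i) (k l : ℕ) (hk : 1 ≤ k) :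
    0 < nw u k l := by
  unfold nw
  apply div_pos (existsF_wt_pos hu l)
  have : Nonempty (Fin k) := ⟨⟨0, by omega⟩⟩
  exact Finset.sum_pos (fun i _ => existsF_wt_pos hu i) Finset.univ_nonempty

/-! identification of the measure -/

private theorem existsF_supp {N : ℕ} {r : ℝ} (ν : AVR N r) {n : ℕ} (x : Fin n → Sph N)
    (h : integ ν.w (fun y : Eu N => ∏ i, ‖y - (x i : Eu N)‖ ^ 2) = 0) :
    ∀ y ∈ ν.w.support, ∃ i, y = x i := by
  intro y hy
  unfold integ Finsupp.sum at h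
  rw [Finset.sum_eq_zero_iff_of_nonneg] at h
  · have h1 := h y hy
    beta_reduce at h1
    rw [smul_eq_mul, mul_eq_zero] at h1
    rcases h1 with h1 | h1
    · exact absurd h1 (Finsupp.mem_support_iff.1 hy)
    · rw [Finset.prod_eq_zero_iff] at h1
      obtain ⟨i, -, hi⟩ := h1
      refine ⟨i, Subtype.ext ?_⟩
      rw [sq_eq_zero_iff, norm_eq_zero, sub_eq_zero] at hi
      exact hi
  · intro z _
    beta_reduce
    rw [smul_eq_mul]
    exact mul_nonneg (ν.nonneg z) (Finset.prod_nonneg (fun i _ => sq_nonneg _))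

private theorem existsF_weight {N : ℕ} {r : ℝ} (ν : AVR N r) {n : ℕ} (x : Fin n → Sph N)
    (b : Fin n → Eu N → ℝ) (hb : ∀ i j, b i (x j) = if i = j then 1 else 0)
    (hs : ∀ y ∈ ν.w.support, ∃ i, y = x i) (i : Fin n) : ν.w (x i) = integ ν.w (b i) := by
  unfold integ Finsupp.sum
  rw [Finset.sum_eq_single (x i)]
  · beta_reduce
    rw [hb, if_pos rfl, smul_eq_mul, mul_one]
  · intro y hy hne
    obtain ⟨j, rfl⟩ := hs y hy
    have : i ≠ j := fun e => hne (by rw [e])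
    beta_reduce
    rw [hb, if_neg this, smul_zero]
  · intro h
    beta_reduce
    rw [Finsupp.notMem_support_iff.1 h, zero_smul]

private theorem existsF_ident {N : ℕ} {r : ℝ} (μ ν : AVR N r) {n : ℕ} (x : Fin n → Sph N)
    (b : Fin n → Eu N → ℝ) (hb : ∀ i j, b i (x j) = if i = j then 1 else 0)
    (hμ : integ μ.w (fun y : Eu N => ∏ i, ‖y - (x i : Eu N)‖ ^ 2) = 0)
    (hν : integ ν.w (fun y : Eu N => ∏ i, ‖y - (x i : Eu N)‖ ^ 2) = 0)
    (h : ∀ i, integ μ.w (b i) = integ ν.w (b i)) : μ = ν := by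
  have h1 := existsF_supp μ x hμ
  have h2 := existsF_supp ν x hν
  apply AVR.ext
  ext y
  by_cases hy : ∃ i, y = x i
  · obtain ⟨i, rfl⟩ := hy
    rw [existsF_weight μ x b hb h1, existsF_weight ν x b hb h2, h]
  · have e1 : y ∉ μ.w.support := fun hm => hy (h1 y hm)
    have e2 : y ∉ ν.w.support := fun hm => hy (h2 y hm)
    rw [Finsupp.notMem_support_iff.1 e1, Finsupp.notMem_support_iff.1 e2]

/-! linear maps and integrals -/

private theorem existsF_integ_map {N : ℕ} {F G : Type*} [AddCommGroup F] [Module ℝ F]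
    [AddCommGroup G] [Module ℝ G] (μ : Sph N →₀ ℝ) (ψ : Eu N → F) (e : F →ₗ[ℝ] G) :
    integ μ (fun y => e (ψ y)) = e (integ μ ψ) := by
  unfold integ
  rw [map_finsuppSum]
  simp only [map_smul]

/-! the derivative -/

private theorem existsF_act_add {N m : ℕ} (A V : Fin m → Eu N) (t : ℝ) (w : Eu m) :
    act (A + t • V) w = act A w + t • act V w := by
  unfold act
  rw [Finset.smul_sum, ← Finset.sum_add_distrib]
  refine Finset.sum_congr rfl (fun i _ => ?_)
  simp only [Pi.add_apply, Pi.smul_apply, smul_add]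
  rw [smul_comm]

private theorem existsF_act_eq_zero {N m : ℕ} (hm : 2 ≤ m) {V : Fin m → Eu N}
    (h : ∀ l, act V (pf m l) = 0) : V = 0 := by
  let a : Eu m →ₗ[ℝ] Eu N :=
    { toFun := act V
      map_add' := fun x y => by
        unfold act
        rw [← Finset.sum_add_distrib]
        refine Finset.sum_congr rfl (fun i _ => ?_)
        rw [PiLp.add_apply, add_smul]
      map_smul' := fun c x => by
        unfold act
        rw [RingHom.id_apply, Finset.smul_sum]
        refine Finset.sum_congr rfl (fun i _ => ?_)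
        rw [PiLp.smul_apply, smul_eq_mul, mul_smul] }
  have h0 : a = 0 := by
    apply LinearMap.ext_on_range (v := pf m) (span_pf hm)
    intro l
    exact h l
  funext i
  have h1 : a (EuclideanSpace.single i (1 : ℝ)) = V i := by
    change act V (EuclideanSpace.single i (1 : ℝ)) = V i
    unfold act
    rw [Finset.sum_eq_single i]
    · simp
    · intro j _ hj
      simp [hj]
    · simp
  rw [← h1, h0]
  rfl

private theorem existsF_inj {N m k : ℕ} (hm : 2 ≤ m) {A₀ : Fin m → Eu N} {u₀ : Fin m → ℝ}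
    (hu₀ : ∀ i, 0 < u₀ i) (b : Fin (m + 1) → Eu N → ℝ)
    (hb : ∀ i j, ∀ᶠ y in 𝓝 (act A₀ (pf m j)), b i y = if i = j then 1 else 0)
    (p : Eu N → ℝ)
    (e : (ℝ × (Fin (m + 1) → ℝ) × (Fin (m + 1) → Eu N)) ≃L[ℝ] (Fin k → ℝ))
    (φ : Eu N → Fin k → ℝ) (hφ : φ = fun x => e (p x, fun l => b l x, fun l => b l x • x))
    (T : ((Fin m → Eu N) × (Fin m → ℝ)) →L[ℝ] (Fin k → ℝ))
    (hT : HasFDerivAt (fun q : (Fin m → Eu N) × (Fin m → ℝ) => momE φ q.1 q.2) T (A₀, u₀)) :
    Function.Injective T := by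
  rw [injective_iff_map_eq_zero]
  rintro ⟨V, v⟩ hz
  have hc : HasDerivAt (fun t : ℝ => ((A₀ + t • V, u₀ + t • v) : (Fin m → Eu N) × (Fin m → ℝ)))
      (V, v) 0 := by
    have h1 : HasDerivAt (fun t : ℝ => A₀ + t • V) V 0 := by
      simpa using ((hasDerivAt_id (0 : ℝ)).smul_const V).const_add A₀
    have h2 : HasDerivAt (fun t : ℝ => u₀ + t • v) v 0 := by
      simpa using ((hasDerivAt_id (0 : ℝ)).smul_const v).const_add u₀
    exact h1.prodMk h2
  have h1 : HasDerivAt (fun t : ℝ => momE φ (A₀ + t • V) (u₀ + t • v)) 0 0 := by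
    rw [← hz]
    have hT' : HasFDerivAt (fun q : (Fin m → Eu N) × (Fin m → ℝ) => momE φ q.1 q.2) T
        (A₀ + (0 : ℝ) • V, u₀ + (0 : ℝ) • v) := by
      rw [zero_smul, zero_smul, add_zero, add_zero]
      exact hT
    exact HasFDerivAt.comp_hasDerivAt (0 : ℝ) hT' hc
  have h2 : HasDerivAt (fun t : ℝ => e.symm (momE φ (A₀ + t • V) (u₀ + t • v))) 0 0 := by
    have := (e.symm : (Fin k → ℝ) →L[ℝ]
      (ℝ × (Fin (m + 1) → ℝ) × (Fin (m + 1) → Eu N))).hasFDerivAt.comp_hasDerivAt (0 : ℝ) h1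
    simpa [Function.comp_def] using this
  have h3 : ∀ t : ℝ, e.symm (momE φ (A₀ + t • V) (u₀ + t • v)) =
      ∑ j : Fin (m + 1), nw (u₀ + t • v) (m + 1) j •
        ((p (act (A₀ + t • V) (pf m j)), fun l => b l (act (A₀ + t • V) (pf m j)),
          fun l => b l (act (A₀ + t • V) (pf m j)) • act (A₀ + t • V) (pf m j)) :
          (ℝ × (Fin (m + 1) → ℝ) × (Fin (m + 1) → Eu N))) := by
    intro t
    unfold momE
    rw [map_sum]
    refine Finset.sum_congr rfl (fun j _ => ?_)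
    rw [map_smul, hφ]
    simp only [ContinuousLinearEquiv.symm_apply_apply]
  have hev : ∀ᶠ t in 𝓝 (0 : ℝ), ∀ i j, b i (act (A₀ + t • V) (pf m j)) = if i = j then 1 else 0 := by
    rw [eventually_all]
    intro i
    rw [eventually_all]
    intro j
    have ht : Tendsto (fun t : ℝ => act (A₀ + t • V) (pf m j)) (𝓝 0) (𝓝 (act A₀ (pf m j))) := by
      simp_rw [existsF_act_add]
      have : ContinuousAt (fun t : ℝ => act A₀ (pf m j) + t • act V (pf m j)) 0 := by fun_prop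
      have h4 := this.tendsto
      simpa using h4
    exact ht.eventually (hb i j)
  have hlam : ∀ l : Fin (m + 1), HasDerivAt (fun t : ℝ => nw (u₀ + t • v) (m + 1) l) 0 0 := by
    intro l
    have h4 : HasDerivAt (fun t : ℝ => (e.symm (momE φ (A₀ + t • V) (u₀ + t • v))).2.1 l) 0 0 := by
      have := ((ContinuousLinearMap.proj (R := ℝ) (φ := fun _ : Fin (m + 1) => ℝ) l).comp
        ((ContinuousLinearMap.fst ℝ (Fin (m + 1) → ℝ) (Fin (m + 1) → Eu N)).comp
          (ContinuousLinearMap.snd ℝ ℝ ((Fin (m + 1) → ℝ) × (Fin (m + 1) → Eu N))))).hasFDerivAt.comp_hasDerivAt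
          (0 : ℝ) h2
      simpa [Function.comp_def] using this
    refine h4.congr_of_eventuallyEq ?_
    filter_upwards [hev] with t ht
    rw [h3]
    simp only [Prod.snd_sum, Prod.fst_sum, Finset.sum_apply, Prod.smul_snd, Prod.smul_fst,
      Pi.smul_apply, smul_eq_mul, ht]
    rw [Finset.sum_eq_single l]
    · simp
    · intro j _ hj
      rw [if_neg (Ne.symm hj), mul_zero]
    · simp
  have hact : ∀ l : Fin (m + 1), HasDerivAt
      (fun t : ℝ => nw (u₀ + t • v) (m + 1) l • act (A₀ + t • V) (pf m l)) 0 0 := by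
    intro l
    have h4 : HasDerivAt (fun t : ℝ => (e.symm (momE φ (A₀ + t • V) (u₀ + t • v))).2.2 l) 0 0 := by
      have := ((ContinuousLinearMap.proj (R := ℝ) (φ := fun _ : Fin (m + 1) => Eu N) l).comp
        ((ContinuousLinearMap.snd ℝ (Fin (m + 1) → ℝ) (Fin (m + 1) → Eu N)).comp
          (ContinuousLinearMap.snd ℝ ℝ ((Fin (m + 1) → ℝ) × (Fin (m + 1) → Eu N))))).hasFDerivAt.comp_hasDerivAt
          (0 : ℝ) h2
      simpa [Function.comp_def] using this
    refine h4.congr_of_eventuallyEq ?_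
    filter_upwards [hev] with t ht
    rw [h3]
    simp only [Prod.snd_sum, Finset.sum_apply, Prod.smul_snd, Pi.smul_apply, ht]
    rw [Finset.sum_eq_single l]
    · simp
    · intro j _ hj
      rw [if_neg (Ne.symm hj), zero_smul, smul_zero]
    · simp
  have hv : v = 0 := by
    funext i
    have h5 : HasDerivAt (fun t : ℝ => nw (u₀ + t • v) (m + 1) i.1 * (u₀ i + t * v i))
        (0 * (u₀ i + 0 * v i) + nw (u₀ + (0 : ℝ) • v) (m + 1) i.1 * v i) 0 := by
      have h6 : HasDerivAt (fun t : ℝ => u₀ i + t * v i) (v i) 0 := by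
        simpa using ((hasDerivAt_id (0 : ℝ)).mul_const (v i)).const_add (u₀ i)
      exact (hlam i.castSucc).mul h6
    have h7 : HasDerivAt (fun t : ℝ => nw (u₀ + t • v) (m + 1) i.1 * (u₀ i + t * v i)) 0 0 := by
      have := hlam i.succ
      simp only [Fin.val_succ, existsF_nw_succ] at this
      exact this
    have h8 := h5.unique h7
    simp only [zero_mul, zero_add, zero_smul, add_zero] at h8
    exact (mul_eq_zero.1 h8).resolve_left (existsF_nw_pos hu₀ _ _ (by omega)).ne'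
  have hV : V = 0 := by
    apply existsF_act_eq_zero hm
    intro l
    have h5 : HasDerivAt (fun t : ℝ => nw (u₀ + t • v) (m + 1) l • act (A₀ + t • V) (pf m l))
        (nw (u₀ + (0 : ℝ) • v) (m + 1) l • act V (pf m l) +
          (0 : ℝ) • (act (A₀ + (0 : ℝ) • V) (pf m l))) 0 := by
      have h6 : HasDerivAt (fun t : ℝ => act (A₀ + t • V) (pf m l)) (act V (pf m l)) 0 := by
        simp_rw [existsF_act_add]
        simpa using ((hasDerivAt_id (0 : ℝ)).smul_const (act V (pf m l))).const_add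
          (act A₀ (pf m l))
      exact (hlam l).smul h6
    have h8 := h5.unique (hact l)
    simp only [zero_smul, add_zero] at h8
    exact (smul_eq_zero.1 h8).resolve_left (existsF_nw_pos hu₀ _ _ (by omega)).ne'
  rw [hv, hV]
  rfl

private theorem existsF_finrank {N m D : ℕ} (hD : D + m.choose 2 = m * N)
    {A₀ : Fin m → Eu N} (hA₀ : gram A₀ = gramOne m) :
    finrank ℝ (LinearMap.ker ((fderiv ℝ (gram : (Fin m → Eu N) → Sym2 (Fin m) → ℝ) A₀ :
      (Fin m → Eu N) →ₗ[ℝ] (Sym2 (Fin m) → ℝ)).comp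
        (LinearMap.fst ℝ (Fin m → Eu N) (Fin m → ℝ)))) = D := by
  set g := (fderiv ℝ (gram : (Fin m → Eu N) → Sym2 (Fin m) → ℝ) A₀ :
      (Fin m → Eu N) →ₗ[ℝ] (Sym2 (Fin m) → ℝ)).comp
        (LinearMap.fst ℝ (Fin m → Eu N) (Fin m → ℝ)) with hg
  have hsurj : Function.Surjective g := by
    intro y
    obtain ⟨V, hV⟩ := gram_surj A₀ (existsF_indep hA₀) y
    exact ⟨(V, 0), hV⟩
  have h1 := g.finrank_range_add_finrank_ker
  rw [LinearMap.range_eq_top.2 hsurj, finrank_top, finrank_sym2] at h1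
  have h2 : finrank ℝ ((Fin m → Eu N) × (Fin m → ℝ)) = m * N + m := by
    rw [finrank_prod, finrank_pi_fintype]
    simp
  rw [h2] at h1
  have h3 : (m + 1).choose 2 = m.choose 2 + m := by
    rw [Nat.choose_succ_succ' m 1]
    simp [add_comm]
  omega

/-- **F2. The map that is not null-homotopic.** -/
theorem exists_F {N m D : ℕ} (hm : 2 ≤ m) (hmN : m ≤ N) (hD : D + m.choose 2 = m * N) :
    ∃ (k : ℕ) (φ : Eu N → Fin k → ℝ) (F₀ : (Fin k → ℝ) → (Fin D → ℝ) × ℝ)
      (A₀ : Fin m → Eu N) (u₀ : Fin m → ℝ) (μ₀ : AVR N (rm m)), ContDiff ℝ 2 φ ∧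
      ContDiff ℝ 2 F₀ ∧ gram A₀ = gramOne m ∧ (∀ i, 0 < u₀ i ∧ u₀ i < 1) ∧
      (∀ μ : AVR N (rm m), F₀ (integ μ.w φ) ≠ 0) ∧
      (∀ μ : AVR N (rm m), Up (F₀ (integ μ.w φ)) ↔ μ = μ₀) ∧
      μ₀.w.support.card = m + 1 ∧
      (∃ (x : Conf N (rm m) (m + 1)) (l : stdSimplex ℝ (Fin (m + 1))),
        (∀ i, (x.1 i : Eu N) = act A₀ (pf m i)) ∧ (∀ i, l.1 i = nw u₀ (m + 1) i) ∧
        AVR.mk' x l = μ₀) ∧
      (∀ (V : Fin m → Eu N) (v : Fin m → ℝ), fderiv ℝ gram A₀ V = 0 →
        fderiv ℝ (fun p : (Fin m → Eu N) × (Fin m → ℝ) => (F₀ (momE φ p.1 p.2)).1) (A₀, u₀)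
          (V, v) = 0 → V = 0 ∧ v = 0) := by
  obtain ⟨A₀, hA₀⟩ := existsF_exists_A (N := N) (m := m) hmN
  obtain ⟨u₀, hu₀⟩ : ∃ u₀ : Fin m → ℝ, ∀ i, 0 < u₀ i ∧ u₀ i < 1 :=
    ⟨fun _ => 1 / 2, fun i => by norm_num⟩
  have hu₀p : ∀ i, 0 < u₀ i := fun i => (hu₀ i).1
  have hu₀I : u₀ ∈ Icc (0 : Fin m → ℝ) 1 := ⟨fun i => (hu₀ i).1.le, fun i => (hu₀ i).2.le⟩
  obtain ⟨x, hx⟩ := exists_confE hm hA₀
  obtain ⟨l, hl⟩ := exists_wt (k := m + 1) (by omega) hu₀I
  obtain ⟨μ₀, hμ₀⟩ : ∃ μ₀ : AVR N (rm m), AVR.mk' x l = μ₀ := ⟨_, rfl⟩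
  have hm0 : (0 : ℝ) < m := by exact_mod_cast (by omega : 0 < m)
  have hrm : 0 < rm m := by
    unfold rm
    rw [Real.arccos_pos]
    have : 0 < 1 / (m : ℝ) := by positivity
    linarith
  have hlpos : ∀ i, 0 < l.1 i := fun i => by
    rw [hl]
    exact existsF_nw_pos hu₀p _ _ (by omega)
  have hcard : μ₀.w.support.card = m + 1 := by
    rw [← hμ₀, card_mk hrm, Finset.filter_true_of_mem (fun i _ => (hlpos i).ne')]
    simp
  have hdist : ∀ i j, i ≠ j → 1 < dist (act A₀ (pf m i)) (act A₀ (pf m j)) := by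
    intro i j hij
    have h1 : ‖act A₀ (pf m i) - act A₀ (pf m j)‖ ^ 2 = 2 + 2 / m := by
      rw [← real_inner_self_eq_norm_sq, inner_sub_left, inner_sub_right, inner_sub_right,
        inner_act hA₀, inner_act hA₀, inner_act hA₀, inner_act hA₀, real_inner_self_eq_norm_sq,
        real_inner_self_eq_norm_sq, norm_pf hm, norm_pf hm, inner_pf hm hij, inner_pf hm hij.symm]
      ring
    have h2 : 0 < 2 / (m : ℝ) := by positivity
    rw [dist_eq_norm]
    by_contra hcon
    nlinarith [norm_nonneg (act A₀ (pf m i) - act A₀ (pf m j))]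
  obtain ⟨b, hbc, hb⟩ := existsF_bumps (fun i => act A₀ (pf m i)) hdist
  have hb0 : ∀ i j, b i (x.1 j) = if i = j then 1 else 0 := fun i j => by
    rw [hx]
    exact (hb i j).self_of_nhds
  obtain ⟨p, hp⟩ : ∃ p : Eu N → ℝ, p = fun y => ∏ i, ‖y - (x.1 i : Eu N)‖ ^ 2 := ⟨_, rfl⟩
  obtain ⟨k, ⟨e⟩⟩ : ∃ k : ℕ, Nonempty ((ℝ × (Fin (m + 1) → ℝ) × (Fin (m + 1) → Eu N)) ≃L[ℝ]
      (Fin k → ℝ)) := ⟨_, ⟨(Module.finBasis ℝ _).equivFunL⟩⟩
  obtain ⟨ψ, hψ⟩ : ∃ ψ : Eu N → (ℝ × (Fin (m + 1) → ℝ) × (Fin (m + 1) → Eu N)),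
    ψ = fun y => (p y, fun l => b l y, fun l => b l y • y) := ⟨_, rfl⟩
  obtain ⟨φ, hφ⟩ : ∃ φ : Eu N → Fin k → ℝ,
    φ = fun y => e (p y, fun l => b l y, fun l => b l y • y) := ⟨_, rfl⟩
  have hφψ : φ = fun y => e (ψ y) := by rw [hφ, hψ]
  have hψc : ContDiff ℝ 2 ψ := by
    rw [hψ, hp]
    refine ContDiff.prodMk ?_ (ContDiff.prodMk ?_ ?_)
    · apply contDiff_prod
      intro i _
      exact (contDiff_id.sub contDiff_const).norm_sq ℝ
    · exact contDiff_pi.2 hbc
    · exact contDiff_pi.2 (fun i => (hbc i).smul contDiff_id)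
  have hφc : ContDiff ℝ 2 φ := by
    rw [hφψ]
    exact e.contDiff.comp hψc
  obtain ⟨m0, hm0def⟩ : ∃ m0 : Fin k → ℝ, m0 = integ μ₀.w φ := ⟨_, rfl⟩
  -- identification
  have hint : ∀ μ : AVR N (rm m), e.symm (integ μ.w φ) =
      (integ μ.w p, fun l => integ μ.w (b l), fun l => integ μ.w (fun y => b l y • y)) := by
    intro μ
    have h1 : integ μ.w φ = e (integ μ.w ψ) := by
      rw [hφψ]
      exact existsF_integ_map μ.w ψ (e : _ →ₗ[ℝ] (Fin k → ℝ))
    rw [h1, e.symm_apply_apply]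
    refine Prod.ext ?_ (Prod.ext ?_ ?_)
    · have := existsF_integ_map μ.w ψ (LinearMap.fst ℝ ℝ ((Fin (m + 1) → ℝ) × (Fin (m + 1) → Eu N)))
      rw [hψ] at this ⊢
      exact this.symm
    · funext i
      have := existsF_integ_map μ.w ψ ((LinearMap.proj (R := ℝ) (φ := fun _ : Fin (m + 1) => ℝ) i).comp
        ((LinearMap.fst ℝ (Fin (m + 1) → ℝ) (Fin (m + 1) → Eu N)).comp
          (LinearMap.snd ℝ ℝ ((Fin (m + 1) → ℝ) × (Fin (m + 1) → Eu N)))))
      rw [hψ] at this ⊢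
      exact this.symm
    · funext i
      have := existsF_integ_map μ.w ψ ((LinearMap.proj (R := ℝ) (φ := fun _ : Fin (m + 1) => Eu N) i).comp
        ((LinearMap.snd ℝ (Fin (m + 1) → ℝ) (Fin (m + 1) → Eu N)).comp
          (LinearMap.snd ℝ ℝ ((Fin (m + 1) → ℝ) × (Fin (m + 1) → Eu N)))))
      rw [hψ] at this ⊢
      exact this.symm
  have hp0 : integ μ₀.w p = 0 := by
    rw [← hμ₀, integ_mk]
    refine Finset.sum_eq_zero (fun i _ => ?_)
    have : p (x.1 i) = 0 := by
      rw [hp]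
      exact Finset.prod_eq_zero (Finset.mem_univ i) (by simp)
    rw [this, smul_zero]
  have hident : ∀ μ : AVR N (rm m), integ μ.w φ = m0 → μ = μ₀ := by
    intro μ hμ
    have h1 : e.symm (integ μ.w φ) = e.symm (integ μ₀.w φ) := by rw [hμ, hm0def]
    rw [hint, hint] at h1
    have h2 : integ μ.w p = integ μ₀.w p := congrArg Prod.fst h1
    have h3 : ∀ i, integ μ.w (b i) = integ μ₀.w (b i) := fun i =>
      congrFun (congrArg (fun z => z.2.1) h1) i
    apply existsF_ident μ μ₀ x.1 b hb0 _ _ h3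
    · rw [hp] at h2 hp0
      rw [h2, hp0]
    · rw [hp] at hp0
      exact hp0
  -- moments of the chain
  have hmomE : ∀ (A : Fin m → Eu N) (u : Fin m → ℝ) (y : Conf N (rm m) (m + 1))
      (k' : stdSimplex ℝ (Fin (m + 1))), (∀ i, (y.1 i : Eu N) = act A (pf m i)) →
      (∀ i, k'.1 i = nw u (m + 1) i) → integ (AVR.mk' y k').w φ = momE φ A u := by
    intro A u y k' hy hk'
    rw [integ_mk]
    unfold momE
    exact Finset.sum_congr rfl (fun i _ => by rw [hy, hk'])
  have hmom0 : momE φ A₀ u₀ = m0 := by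
    rw [hm0def, ← hμ₀, hmomE A₀ u₀ x l hx hl]
  have hchain : ∀ (A : Fin m → Eu N) (u : Fin m → ℝ), gram A = gramOne m →
      u ∈ Icc (0 : Fin m → ℝ) 1 → momE φ A u = m0 → A = A₀ ∧ u = u₀ := by
    intro A u hA hu h
    obtain ⟨y, hy⟩ := exists_confE hm hA
    obtain ⟨k', hk'⟩ := exists_wt (k := m + 1) (by omega) hu
    have h1 : AVR.mk' y k' = μ₀ := hident _ (by rw [hmomE A u y k' hy hk', h])
    rw [← hμ₀] at h1
    exact unique_E hm hA hA₀ hu hu₀ y x k' l hy hx hk' hl h1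
  -- derivative
  have hmem : (A₀, u₀) ∈ Om N m (m + 1) := mem_Om (by omega) hu₀I
  have hCD : ContDiffAt ℝ 2 (fun q : (Fin m → Eu N) × (Fin m → ℝ) => momE φ q.1 q.2) (A₀, u₀) :=
    (momE_contDiffOn φ hφc).contDiffAt ((isOpen_Om N m (m + 1)).mem_nhds hmem)
  obtain ⟨T, hT⟩ := hCD.differentiableAt (by norm_num)
  have hTinj : Function.Injective T := existsF_inj hm hu₀p b hb p e φ hφ T hT
  obtain ⟨L, hL⟩ := existsF_L _ T hTinj D (existsF_finrank hD hA₀)
  obtain ⟨L', hL'⟩ : ∃ L' : (Fin k → ℝ) →L[ℝ] (Fin D → ℝ), ∀ z, L' z = L z :=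
    ⟨LinearMap.toContinuousLinearMap L, fun z => rfl⟩
  have hLinj : ∀ z : (Fin m → Eu N) × (Fin m → ℝ), fderiv ℝ gram A₀ z.1 = 0 →
      L' (T z) = 0 → z = 0 := fun z h1 h2 => hL z h1 (by rw [← hL']; exact h2)
  -- isolated zero
  have hgd : HasFDerivAt (fun q : (Fin m → Eu N) × (Fin m → ℝ) => gram q.1)
      ((fderiv ℝ gram A₀).comp (ContinuousLinearMap.fst ℝ (Fin m → Eu N) (Fin m → ℝ))) (A₀, u₀) := by
    have h1 : HasFDerivAt gram (fderiv ℝ gram A₀) A₀ :=
      ((gram_contDiff.differentiable (by norm_num)) A₀).hasFDerivAt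
    have h2 : HasFDerivAt (fun q : (Fin m → Eu N) × (Fin m → ℝ) => q.1)
        (ContinuousLinearMap.fst ℝ (Fin m → Eu N) (Fin m → ℝ)) (A₀, u₀) := hasFDerivAt_fst
    exact HasFDerivAt.comp (g := gram) (f := fun q : (Fin m → Eu N) × (Fin m → ℝ) => q.1)
      (A₀, u₀) h1 h2
  have hLT : HasFDerivAt (fun q : (Fin m → Eu N) × (Fin m → ℝ) => L' (momE φ q.1 q.2)) (L'.comp T)
      (A₀, u₀) := L'.hasFDerivAt.comp (A₀, u₀) hT
  have hh := hgd.prodMk hLT
  have hbound : ∃ C, AntilipschitzWith C (((fderiv ℝ gram A₀).comp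
      (ContinuousLinearMap.fst ℝ (Fin m → Eu N) (Fin m → ℝ))).prod (L'.comp T)) := by
    obtain ⟨C, hC0, hC⟩ := LinearMap.exists_antilipschitzWith
      ((((fderiv ℝ gram A₀).comp (ContinuousLinearMap.fst ℝ (Fin m → Eu N) (Fin m → ℝ))).prod
        (L'.comp T) : ((Fin m → Eu N) × (Fin m → ℝ)) →L[ℝ] _) :
          ((Fin m → Eu N) × (Fin m → ℝ)) →ₗ[ℝ] ((Sym2 (Fin m) → ℝ) × (Fin D → ℝ))) (by
        rw [LinearMap.ker_eq_bot']
        intro z hz
        exact hLinj z (congrArg Prod.fst hz) (congrArg Prod.snd hz))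
    exact ⟨C, hC⟩
  have hiso := hh.eventually_ne (c := (gram A₀, L' (momE φ A₀ u₀))) hbound
  rw [eventually_nhdsWithin_iff, eventually_nhds_iff] at hiso
  obtain ⟨U, hU, hUo, hUm⟩ := hiso
  -- the compact sets
  have hKc : IsCompact ({A : Fin m → Eu N | gram A = gramOne m} ×ˢ Icc (0 : Fin m → ℝ) 1) :=
    (existsF_compact N m).prod isCompact_Icc
  have hKU := hKc.diff hUo
  have hQ1 : ∃ ε, 0 < ε ∧ ∀ q ∈ ({A : Fin m → Eu N | gram A = gramOne m} ×ˢ
      Icc (0 : Fin m → ℝ) 1) \ U, ε ≤ ∑ i, (momE φ q.1 q.2 i - m0 i) ^ 2 := by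
    have hcont : ContinuousOn (fun q : (Fin m → Eu N) × (Fin m → ℝ) => momE φ q.1 q.2)
        (({A : Fin m → Eu N | gram A = gramOne m} ×ˢ Icc (0 : Fin m → ℝ) 1) \ U) :=
      (momE_contDiffOn φ hφc).continuousOn.mono (fun q hq => mem_Om (by omega) hq.1.2)
    refine hKU.exists_forall_le' (f := fun q : (Fin m → Eu N) × (Fin m → ℝ) =>
      ∑ i, (momE φ q.1 q.2 i - m0 i) ^ 2) ?_ ?_
    · apply continuousOn_finsetSum
      intro i _
      exact (((continuousOn_pi.1 hcont i).sub continuousOn_const).pow 2)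
    · intro q hq
      rcases (Finset.sum_nonneg (fun i _ => sq_nonneg (momE φ q.1 q.2 i - m0 i)) :
        0 ≤ ∑ i, (momE φ q.1 q.2 i - m0 i) ^ 2).lt_or_eq with h | h
      · exact h
      · exfalso
        have h1 : momE φ q.1 q.2 = m0 := by
          funext i
          have := (Finset.sum_eq_zero_iff_of_nonneg (fun i _ => sq_nonneg _)).1 h.symm i
            (Finset.mem_univ i)
          rw [sq_eq_zero_iff, sub_eq_zero] at this
          exact this
        obtain ⟨h2, h3⟩ := hchain q.1 q.2 hq.1.1 hq.1.2 h1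
        apply hq.2
        have : q = (A₀, u₀) := Prod.ext h2 h3
        rw [this]
        exact hUm
  have hQ2 : ∃ ε, 0 < ε ∧ ∀ μ ∈ strat N (rm m) m, ε ≤ ∑ i, (integ μ.w φ i - m0 i) ^ 2 := by
    have hcont : Continuous (fun μ : AVR N (rm m) => integ μ.w φ) :=
      continuous_integ φ hφc.continuous
    refine (isCompact_strat m).exists_forall_le' (f := fun μ : AVR N (rm m) =>
      ∑ i, (integ μ.w φ i - m0 i) ^ 2) ?_ ?_
    · apply Continuous.continuousOn
      apply continuous_finsetSum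
      intro i _
      exact ((continuous_pi_iff.1 hcont i).sub continuous_const).pow 2
    · intro μ hμ
      rcases (Finset.sum_nonneg (fun i _ => sq_nonneg (integ μ.w φ i - m0 i)) :
        0 ≤ ∑ i, (integ μ.w φ i - m0 i) ^ 2).lt_or_eq with h | h
      · exact h
      · exfalso
        have h1 : integ μ.w φ = m0 := by
          funext i
          have := (Finset.sum_eq_zero_iff_of_nonneg (fun i _ => sq_nonneg _)).1 h.symm i
            (Finset.mem_univ i)
          rw [sq_eq_zero_iff, sub_eq_zero] at this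
          exact this
        have h2 := hident μ h1
        rw [h2] at hμ
        have h3 : μ₀.w.support.card ≤ m := hμ
        omega
  obtain ⟨ε₁, hε₁, hQ1⟩ := hQ1
  obtain ⟨ε₂, hε₂, hQ2⟩ := hQ2
  obtain ⟨ε, hε, hεε₁, hεε₂⟩ : ∃ ε > 0, ε < ε₁ ∧ ε < ε₂ :=
    ⟨min ε₁ ε₂ / 2, by positivity, by
      have := min_le_left ε₁ ε₂
      have : 0 < min ε₁ ε₂ := lt_min hε₁ hε₂
      linarith, by
      have := min_le_right ε₁ ε₂
      have : 0 < min ε₁ ε₂ := lt_min hε₁ hε₂
      linarith⟩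
  have hkey : ∀ μ : AVR N (rm m), L' (integ μ.w φ - m0) = 0 →
      ∑ i, (integ μ.w φ i - m0 i) ^ 2 ≤ ε → μ = μ₀ := by
    intro μ h1 h2
    have hc1 : μ.w.support.card = m + 1 := by
      have h3 := card_le (by omega) μ
      by_contra hne
      have h4 : μ ∈ strat N (rm m) m := by
        change μ.w.support.card ≤ m
        omega
      linarith [hQ2 μ h4]
    obtain ⟨A, u, y, k', hA, hu, hy, hk', hμ⟩ := exists_E hm μ hc1
    have h5 : integ μ.w φ = momE φ A u := by rw [← hμ, hmomE A u y k' hy hk']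
    have h6 : (A, u) ∈ U := by
      by_contra hnU
      have := hQ1 (A, u) ⟨⟨hA, hu⟩, hnU⟩
      simp only at this
      rw [← h5] at this
      linarith
    by_cases h7 : (A, u) = (A₀, u₀)
    · have h8 : A = A₀ := congrArg Prod.fst h7
      have h9 : u = u₀ := congrArg Prod.snd h7
      apply hident
      rw [h5, h8, h9, hmom0]
    · exfalso
      apply hU (A, u) h6 h7
      refine Prod.ext ?_ ?_
      · change gram A = gram A₀
        rw [hA, hA₀]
      · change L' (momE φ A u) = L' (momE φ A₀ u₀)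
        rw [← h5, hmom0]
        rw [map_sub, sub_eq_zero] at h1
        exact h1
  have hF0 : ContDiff ℝ 2 (fun z : Fin k → ℝ => ((L' (z - m0), ε - ∑ i, (z i - m0 i) ^ 2) :
      (Fin D → ℝ) × ℝ)) := by
    refine ContDiff.prodMk ?_ ?_
    · exact L'.contDiff.comp (contDiff_id.sub contDiff_const)
    · refine contDiff_const.sub (ContDiff.sum (fun i _ => ?_))
      exact (((contDiff_apply ℝ ℝ i).sub contDiff_const).pow 2)
  refine ⟨k, φ, fun z => (L' (z - m0), ε - ∑ i, (z i - m0 i) ^ 2), A₀, u₀, μ₀, hφc, hF0, hA₀, hu₀,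
    ?_, ?_, hcard, ⟨x, l, hx, hl, hμ₀⟩, ?_⟩
  · intro μ h
    have h1 : L' (integ μ.w φ - m0) = 0 := congrArg Prod.fst h
    have h2 : ε - ∑ i, (integ μ.w φ i - m0 i) ^ 2 = 0 := congrArg Prod.snd h
    have h3 := hkey μ h1 (by linarith)
    rw [h3, ← hm0def] at h2
    simp at h2
    linarith
  · intro μ
    constructor
    · rintro ⟨h1, h2⟩
      exact hkey μ h1 (by
        have h3 : 0 < ε - ∑ i, (integ μ.w φ i - m0 i) ^ 2 := h2
        linarith)
    · intro h
      rw [h, ← hm0def]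
      refine ⟨?_, ?_⟩
      · change L' (m0 - m0) = 0
        rw [sub_self, map_zero]
      · change 0 < ε - ∑ i, (m0 i - m0 i) ^ 2
        simpa using hε
  · intro V v h1 h2
    have h3 : HasFDerivAt (fun q : (Fin m → Eu N) × (Fin m → ℝ) => L' (momE φ q.1 q.2 - m0))
        (L'.comp T) (A₀, u₀) := L'.hasFDerivAt.comp (A₀, u₀) (hT.sub_const m0)
    have h4 : fderiv ℝ (fun q : (Fin m → Eu N) × (Fin m → ℝ) => L' (momE φ q.1 q.2 - m0)) (A₀, u₀) =
        L'.comp T := h3.fderiv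
    simp only at h2
    rw [h4] at h2
    have h5 := hLinj (V, v) h1 h2
    exact ⟨congrArg Prod.fst h5, congrArg Prod.snd h5⟩

end Pool.Agent.AVG
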