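import Pool.Agent.Lib.MP_89fc28_gt.G.Chain

/-! # MP_89fc28_gt: isometric tuples, smoothness of the moments -/

set_option autoImplicit false

open Set MeasureTheory Module

namespace Pool.Agent.AVG

private theorem moments_gram {N m : ℕ} {A : Fin m → Eu N} (hA : gram A = gramOne m) (i j : Fin m) :
    inner ℝ (A i) (A j) = if i = j then (1 : ℝ) else 0 :=
  congrFun hA s(i, j)

/-- **B0. Isometric tuples.** -/
theorem inner_act {N m : ℕ} {A : Fin m → Eu N} (hA : gram A = gramOne m) (v w : Eu m) :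
    inner ℝ (act A v) (act A w) = inner ℝ v w := by
  unfold act
  rw [sum_inner]
  simp only [inner_sum, inner_smul_left, inner_smul_right, moments_gram hA, mul_ite, mul_one,
    mul_zero, Finset.sum_ite_eq, Finset.mem_univ, if_true]
  rw [PiLp.inner_apply]
  refine Finset.sum_congr rfl fun i _ => ?_
  simp [mul_comm]

/-- the action as a linear map -/
private noncomputable def moments_lin {N m : ℕ} (A : Fin m → Eu N) : Eu m →ₗ[ℝ] Eu N where
  toFun := act A
  map_add' v w := by
    unfold act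
    rw [← Finset.sum_add_distrib]
    exact Finset.sum_congr rfl fun i _ => by rw [PiLp.add_apply, add_smul]
  map_smul' c v := by
    unfold act
    rw [Finset.smul_sum]
    exact Finset.sum_congr rfl fun i _ => by
      rw [PiLp.smul_apply, smul_eq_mul, mul_smul, RingHom.id_apply]

private theorem moments_sum_single {m : ℕ} (v : Eu m) :
    ∑ i, v i • (EuclideanSpace.single i (1 : ℝ) : Eu m) = v := by
  ext j
  rw [WithLp.ofLp_sum, Finset.sum_apply, Finset.sum_eq_single j]
  · simp
  · intro i _ hi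
    simp [Ne.symm hi]
  · intro h
    exact absurd (Finset.mem_univ j) h

/-- composition with a linear isometry -/
theorem act_comp {N m : ℕ} (A : Fin m → Eu N) (R : Eu m ≃ₗᵢ[ℝ] Eu m) (v : Eu m) :
    act (fun i => act A (R (EuclideanSpace.single i 1))) v = act A (R v) := by
  have h1 : act A (R v) = moments_lin A (R v) := rfl
  have h2 : R v = ∑ i, v i • R (EuclideanSpace.single i 1) := by
    conv_lhs => rw [← moments_sum_single v]
    rw [map_sum]
    exact Finset.sum_congr rfl fun i _ => by rw [map_smul]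
  rw [h1, h2, map_sum]
  unfold act
  refine Finset.sum_congr rfl fun i _ => ?_
  rw [map_smul]
  rfl

theorem gram_comp {N m : ℕ} {A : Fin m → Eu N} (hA : gram A = gramOne m)
    (R : Eu m ≃ₗᵢ[ℝ] Eu m) :
    gram (fun i => act A (R (EuclideanSpace.single i 1))) = gramOne m := by
  funext p
  induction p using Sym2.ind with
  | _ i j =>
    show inner ℝ (act A (R (EuclideanSpace.single i 1))) (act A (R (EuclideanSpace.single j 1))) =
      if i = j then (1 : ℝ) else 0
    rw [inner_act hA, LinearIsometryEquiv.inner_map_map]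
    simp [EuclideanSpace.inner_single_left]

/-- the set where the moments are smooth -/
def Om (N m k : ℕ) : Set ((Fin m → Eu N) × (Fin m → ℝ)) :=
  {p | (∑ i : Fin k, wt p.2 i) ≠ 0}

private theorem moments_wt {N m : ℕ} (l : ℕ) :
    ContDiff ℝ 2 (fun p : (Fin m → Eu N) × (Fin m → ℝ) => wt p.2 l) := by
  unfold wt
  exact contDiff_prod fun i _ => (contDiff_apply ℝ ℝ i).comp contDiff_snd

private theorem moments_coord {N m : ℕ} (i : Fin m) :
    ContDiff ℝ 2 (fun p : (Fin m → Eu N) × (Fin m → ℝ) => p.1 i) :=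
  (contDiff_apply ℝ (Eu N) i).comp contDiff_fst

private theorem moments_nw {N m : ℕ} (k l : ℕ) :
    ContDiffOn ℝ 2 (fun p : (Fin m → Eu N) × (Fin m → ℝ) => nw p.2 k l) (Om N m k) := by
  unfold nw
  refine (moments_wt l).contDiffOn.div (ContDiff.sum fun i _ => moments_wt _).contDiffOn ?_
  exact fun p hp => hp

/-- **B1. Smoothness of the moments.** -/
theorem momE_contDiffOn {N m k : ℕ} (φ : Eu N → Fin k → ℝ) (hφ : ContDiff ℝ 2 φ) :
    ContDiffOn ℝ 2 (fun p : (Fin m → Eu N) × (Fin m → ℝ) => momE φ p.1 p.2) (Om N m (m + 1)) := by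
  unfold momE
  refine ContDiffOn.sum fun l _ => (moments_nw (m + 1) l).smul ?_
  refine (hφ.comp ?_).contDiffOn
  unfold act
  exact ContDiff.sum fun i _ => contDiff_const.fun_smul (moments_coord i)

theorem momC_contDiffOn {N m k : ℕ} (hm : 2 ≤ m) (φ : Eu N → Fin k → ℝ)
    (hφ : ContDiff ℝ 2 φ) :
    ContDiffOn ℝ 2 (fun p : (Fin m → Eu N) × (Fin m → ℝ) => momC (by omega : 0 < m) φ p.1 p.2)
      (Om N m m ∩ {p | ∀ i, |p.2 i| < 3 / 2}) := by
  unfold momC
  refine ContDiffOn.sum fun l _ => ((moments_nw m l).mono inter_subset_left).smul ?_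
  refine hφ.comp_contDiffOn ?_
  unfold act
  refine ContDiffOn.sum fun i _ => ContDiffOn.fun_smul ?_ (moments_coord i).contDiffOn
  have hρ : ContDiff ℝ 2 (fun p : (Fin m → Eu N) × (Fin m → ℝ) => p.2 ⟨m - 1, by omega⟩) :=
    (contDiff_apply ℝ ℝ _).comp contDiff_snd
  unfold pv
  simp only [PiLp.sub_apply, PiLp.smul_apply, smul_eq_mul]
  refine ContDiffOn.sub (ContDiffOn.mul ?_ contDiffOn_const)
    (((hρ.div_const _).contDiffOn).mul contDiffOn_const)
  refine ContDiffOn.sqrt ?_ ?_
  · exact (contDiff_const.sub ((hρ.pow 2).div_const _)).contDiffOn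
  · intro p hp
    have h1 := hp.2 ⟨m - 1, by omega⟩
    have h2 : (2 : ℝ) ≤ m := by exact_mod_cast hm
    have h3 : p.2 ⟨m - 1, by omega⟩ ^ 2 < (m : ℝ) ^ 2 := by
      rw [← sq_abs (p.2 _)]
      have := abs_nonneg (p.2 ⟨m - 1, by omega⟩)
      nlinarith
    have h4 : p.2 ⟨m - 1, by omega⟩ ^ 2 / (m : ℝ) ^ 2 < 1 := by
      rw [div_lt_one (by positivity)]
      exact h3
    exact (sub_pos.mpr h4).ne'

theorem isOpen_Om (N m k : ℕ) : IsOpen (Om N m k) := by
  have h1 : Continuous (fun p : (Fin m → Eu N) × (Fin m → ℝ) => ∑ i : Fin k, wt p.2 i) :=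
    continuous_finsetSum _ fun i _ => (moments_wt _).continuous
  exact isOpen_ne.preimage h1

theorem mem_Om {N m k : ℕ} (hk : 1 ≤ k) {A : Fin m → Eu N} {u : Fin m → ℝ}
    (hu : u ∈ Icc (0 : Fin m → ℝ) 1) : (A, u) ∈ Om N m k := by
  have h0 : ∀ l, 0 ≤ wt u l := fun l => Finset.prod_nonneg fun i _ => hu.1 i
  have h1 : wt u 0 = 1 := by
    unfold wt
    simp
  have h2 : wt u ((⟨0, by omega⟩ : Fin k) : ℕ) ≤ ∑ i : Fin k, wt u i :=
    Finset.single_le_sum (f := fun i : Fin k => wt u i) (fun i _ => h0 i) (Finset.mem_univ _)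
  have h3 : (1 : ℝ) ≤ ∑ i : Fin k, wt u i := h1 ▸ h2
  show (∑ i : Fin k, wt u i) ≠ 0
  linarith

end Pool.Agent.AVG
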