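import Pool.Agent.Lib.MP_89fc28_gt.G.Simplex
import Pool.Agent.Lib.MP_89fc28_gt.G.Moments

/-! # MP_89fc28_gt: the faces -/

set_option autoImplicit false

open Set MeasureTheory Module

namespace Pool.Agent.AVG

/-- a fixed point free involution of the isometric tuples that keeps the moments `f` at `u` -/
def Invo {N m k : ℕ} (f : (Eu N → Fin k → ℝ) → (Fin m → Eu N) → (Fin m → ℝ) → Fin k → ℝ)
    (P : (Fin m → ℝ) → Prop) : Prop :=
  ∃ T : (Fin m → ℝ) → (Fin m → Eu N) → Fin m → Eu N, ∀ (u : Fin m → ℝ) (A : Fin m → Eu N),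
    gram A = gramOne m → gram (T u A) = gramOne m ∧ T u (T u A) = A ∧ T u A ≠ A ∧
      (P u → ∀ φ, f φ (T u A) u = f φ A u)

private theorem faces_act_single {N m : ℕ} (A : Fin m → Eu N) (l : Fin m) :
    act A (EuclideanSpace.single l 1) = A l := by
  unfold act
  rw [Finset.sum_eq_single l]
  · simp
  · intro i _ hi
    simp [hi]
  · intro h
    exact absurd (Finset.mem_univ l) h

private theorem faces_invo {N m k : ℕ}
    (f : (Eu N → Fin k → ℝ) → (Fin m → Eu N) → (Fin m → ℝ) → Fin k → ℝ)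
    (P : (Fin m → ℝ) → Prop) (R : (Fin m → ℝ) → (Eu m ≃ₗᵢ[ℝ] Eu m)) (h1 : ∀ u, R u ≠ 1)
    (h2 : ∀ u v, R u (R u v) = v)
    (h3 : ∀ u A φ, P u → f φ (fun i => act A (R u (EuclideanSpace.single i 1))) u = f φ A u) :
    Invo f P := by
  refine ⟨fun u A i => act A (R u (EuclideanSpace.single i 1)), fun u A hA => ⟨?_, ?_, ?_, ?_⟩⟩
  · exact gram_comp hA (R u)
  · funext l
    simp only
    rw [act_comp, h2, faces_act_single]
  · intro h
    apply h1 u
    ext1 v
    have e1 : act A (R u v) = act A v := by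
      have e2 := act_comp A (R u) v
      rw [← e2]
      exact congrArg (fun B => act B v) h
    have e3 := inner_act hA (R u v) (R u v)
    have e4 := inner_act hA (R u v) v
    have e5 := inner_act hA v v
    rw [e1] at e3 e4
    have e6 : inner ℝ (R u v - v) (R u v - v) = 0 := by
      rw [inner_sub_left, inner_sub_right, inner_sub_right, real_inner_comm (R u v) v]
      linarith
    have e7 : R u v - v = 0 := inner_self_eq_zero.1 e6
    exact sub_eq_zero.1 e7
  · intro hP φ
    exact h3 u A φ hP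

/-! ### the weights -/

private theorem faces_wt_succ {m : ℕ} (u : Fin m → ℝ) (i : Fin m) :
    wt u (i.1 + 1) = wt u i.1 * u i := by
  unfold wt
  have h : (Finset.univ.filter fun j : Fin m => j.1 < i.1 + 1) =
      insert i (Finset.univ.filter fun j : Fin m => j.1 < i.1) := by
    ext j
    simp only [Finset.mem_filter, Finset.mem_univ, true_and, Finset.mem_insert, Fin.ext_iff]
    omega
  rw [h, Finset.prod_insert (by simp), mul_comm]

private theorem faces_wt_zero {m : ℕ} (u : Fin m → ℝ) (i : Fin m) (hi : u i = 0) {l : ℕ}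
    (h : i.1 < l) : wt u l = 0 := by
  unfold wt
  exact Finset.prod_eq_zero (Finset.mem_filter.2 ⟨Finset.mem_univ i, h⟩) hi

private theorem faces_wt_congr {m : ℕ} (u v : Fin m → ℝ) {l : ℕ}
    (h : ∀ i : Fin m, i.1 < l → u i = v i) : wt u l = wt v l := by
  unfold wt
  refine Finset.prod_congr rfl fun i hi => ?_
  exact h i (Finset.mem_filter.1 hi).2

private theorem faces_wt_update {m : ℕ} (u : Fin m → ℝ) (i l : Fin m) (hi : i < l)
    (hu : u i = 0) (x : ℝ) (j : ℕ) : wt (Function.update u l x) j = wt u j := by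
  rcases Nat.lt_or_ge l.1 j with h | h
  · have h' : i.1 < j := lt_trans hi h
    rw [faces_wt_zero u i hu h', faces_wt_zero _ i _ h']
    rw [Function.update_of_ne (ne_of_lt hi), hu]
  · refine faces_wt_congr _ _ fun r hr => ?_
    rw [Function.update_of_ne]
    rintro rfl
    omega

private theorem faces_nw_congr {m : ℕ} (u v : Fin m → ℝ) {k l : ℕ}
    (h : ∀ j, j < k → wt u j = wt v j) (hl : l < k) : nw u k l = nw v k l := by
  unfold nw
  rw [h l hl, Finset.sum_congr rfl fun (i : Fin k) _ => h i.1 i.2]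

theorem faceE_one {N m k : ℕ} (hm : 2 ≤ m) (i : Fin m) :
    Invo (N := N) (k := k) momE (fun u => u i = 1) := by
  obtain ⟨R, hR1, hR2, hR3⟩ := swap_pf hm i
  refine faces_invo _ _ (fun _ => R) (fun _ => hR1) (fun _ => hR2) fun u A φ hu => ?_
  unfold momE
  simp only [act_comp, hR3]
  rw [← Equiv.sum_comp (Equiv.swap i.castSucc i.succ)]
  refine Finset.sum_congr rfl fun l _ => ?_
  rw [Equiv.swap_apply_self]
  congr 1
  have h1 : wt u (i.1 + 1) = wt u i.1 := by
    rw [faces_wt_succ, hu, mul_one]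
  unfold nw
  congr 1
  rcases eq_or_ne l i.castSucc with rfl | h
  · rw [Equiv.swap_apply_left]
    exact h1
  · rcases eq_or_ne l i.succ with rfl | h'
    · rw [Equiv.swap_apply_right]
      exact h1.symm
    · rw [Equiv.swap_apply_of_ne_of_ne h h']

theorem faceE_zero {N m k : ℕ} (φ : Eu N → Fin k → ℝ) (A : Fin m → Eu N) (u : Fin m → ℝ)
    (i l : Fin m) (hi : i < l) (hu : u i = 0) (x : ℝ) :
    momE φ A (Function.update u l x) = momE φ A u := by
  unfold momE
  refine Finset.sum_congr rfl fun j _ => ?_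
  rw [faces_nw_congr _ u (fun j _ => faces_wt_update u i l hi hu x j) j.2]

theorem faceE_last {N m k : ℕ} (hm : 0 < m) (φ : Eu N → Fin k → ℝ) (A : Fin m → Eu N)
    (u : Fin m → ℝ) (hu : u ⟨m - 1, by omega⟩ = 0) :
    momE φ A u = momC hm φ A (Function.update u ⟨m - 1, by omega⟩ 1) := by
  unfold momE momC
  have h0 : wt u m = 0 := faces_wt_zero u ⟨m - 1, by omega⟩ hu (by simp only; omega)
  rw [Fin.sum_univ_castSucc]
  have h1 : nw u (m + 1) (Fin.last m : Fin (m + 1)) = 0 := by
    unfold nw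
    rw [Fin.val_last, h0, zero_div]
  rw [h1, zero_smul, add_zero]
  refine Finset.sum_congr rfl fun l _ => ?_
  rw [pf_castSucc, Function.update_self]
  congr 1
  have h2 : nw u (m + 1) (l.castSucc : Fin (m + 1)) = nw u m l := by
    unfold nw
    rw [Fin.sum_univ_castSucc (f := fun i : Fin (m + 1) => wt u i), Fin.val_last, h0, add_zero]
    rfl
  rw [h2]
  refine (faces_nw_congr _ u (fun j hj => ?_) l.2).symm
  refine faces_wt_congr _ _ fun r hr => ?_
  rw [Function.update_of_ne]
  rintro rfl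
  simp only at hr
  omega

theorem faceC_one {N m k : ℕ} (hm : 2 ≤ m) (i : Fin m) (hi : i.1 + 1 < m) :
    Invo (N := N) (k := k) (fun φ => momC (m := m) (by omega) φ) (fun u => u i = 1) := by
  have hij : i ≠ (⟨i.1 + 1, hi⟩ : Fin m) := by
    intro h
    have := congrArg Fin.val h
    simp only at this
    omega
  obtain ⟨R, hR1, hR2, hR3⟩ := swap_pv hm i ⟨i.1 + 1, hi⟩ hij
  refine faces_invo _ _ (fun _ => R) (fun _ => hR1) (fun _ => hR2) fun u A φ hu => ?_
  unfold momC
  simp only [act_comp, hR3]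
  rw [← Equiv.sum_comp (Equiv.swap i (⟨i.1 + 1, hi⟩ : Fin m))]
  refine Finset.sum_congr rfl fun l _ => ?_
  rw [Equiv.swap_apply_self]
  congr 1
  have h1 : wt u (i.1 + 1) = wt u i.1 := by
    rw [faces_wt_succ, hu, mul_one]
  unfold nw
  congr 1
  rcases eq_or_ne l i with rfl | h
  · rw [Equiv.swap_apply_left]
    exact h1
  · rcases eq_or_ne l ⟨i.1 + 1, hi⟩ with rfl | h'
    · rw [Equiv.swap_apply_right]
      exact h1.symm
    · rw [Equiv.swap_apply_of_ne_of_ne h h']

theorem faceC_zero {N m k : ℕ} (hm : 0 < m) (φ : Eu N → Fin k → ℝ) (A : Fin m → Eu N)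
    (u : Fin m → ℝ) (i l : Fin m) (hi : i < l) (hl : l.1 + 1 < m) (hu : u i = 0) (x : ℝ) :
    momC hm φ A (Function.update u l x) = momC hm φ A u := by
  unfold momC
  have h1 : Function.update u l x ⟨m - 1, by omega⟩ = u ⟨m - 1, by omega⟩ := by
    rw [Function.update_of_ne]
    intro h'
    have h2 := congrArg Fin.val h'
    simp only at h2
    omega
  rw [h1]
  refine Finset.sum_congr rfl fun j _ => ?_
  rw [faces_nw_congr _ u (fun j _ => faces_wt_update u i l hi hu x j) j.2]

theorem faceC_prev {N m k : ℕ} (hm : 2 ≤ m) :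
    Invo (N := N) (k := k) (fun φ => momC (m := m) (by omega) φ)
      (fun u => u ⟨m - 2, by omega⟩ = 0) := by
  choose R hR1 hR2 hR3 using fun ρ : ℝ => fix_pv hm ρ
  refine faces_invo _ _ (fun u => R (u ⟨m - 1, by omega⟩)) (fun _ => hR1 _) (fun _ => hR2 _)
    fun u A φ hu => ?_
  unfold momC
  simp only [act_comp]
  refine Finset.sum_congr rfl fun l _ => ?_
  by_cases hl : l.1 + 1 < m
  · rw [hR3 _ l hl]
  · have h1 : nw u m l = 0 := by
      unfold nw
      rw [faces_wt_zero u ⟨m - 2, by omega⟩ hu (by simp only; omega), zero_div]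
    rw [h1, zero_smul, zero_smul]

theorem faceC_rho {N m k : ℕ} (hm : 2 ≤ m) :
    Invo (N := N) (k := k) (fun φ => momC (m := m) (by omega) φ)
      (fun u => u ⟨m - 1, by omega⟩ = 0) := by
  obtain ⟨R, hR1, hR2, hR3⟩ := fix_pv_zero hm
  refine faces_invo _ _ (fun _ => R) (fun _ => hR1) (fun _ => hR2) fun u A φ hu => ?_
  unfold momC
  simp only [act_comp, hu, hR3]

end Pool.Agent.AVG
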