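import Pool.Agent.Lib.MP_89fc28_gt.G.Count
import Pool.Agent.Lib.MP_89fc28_gt.G.ExistsF
import Pool.Agent.Lib.MP_89fc28_gt.G.Approx
import Pool.Agent.Lib.MP_89fc28_gt.G.Card

/-! # MP_89fc28_gt: Step B -/

set_option autoImplicit false

open Set MeasureTheory Module

namespace Pool.Agent.AVG

variable {N m D k k' : ℕ}

/-- joining two families of functions -/
def stepB_join (φ : Eu N → Fin k → ℝ) (φ' : Eu N → Fin k' → ℝ) (x : Eu N) : Fin (k + k') → ℝ :=
  Fin.append (φ x) (φ' x)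

/-- the first block -/
def stepB_left (z : Fin (k + k') → ℝ) : Fin k → ℝ := fun i => z (Fin.castAdd k' i)

/-- the second block -/
def stepB_right (z : Fin (k + k') → ℝ) : Fin k' → ℝ := fun i => z (Fin.natAdd k i)

theorem stepB_join_contDiff {φ : Eu N → Fin k → ℝ} {φ' : Eu N → Fin k' → ℝ}
    (h : ContDiff ℝ 2 φ) (h' : ContDiff ℝ 2 φ') : ContDiff ℝ 2 (stepB_join φ φ') := by
  rw [contDiff_pi]
  intro i
  refine Fin.addCases (fun i => ?_) (fun i => ?_) i
  · simp only [stepB_join, Fin.append_left]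
    exact (contDiff_pi.1 h i)
  · simp only [stepB_join, Fin.append_right]
    exact (contDiff_pi.1 h' i)

theorem stepB_left_contDiff : ContDiff ℝ 2 (stepB_left : (Fin (k + k') → ℝ) → Fin k → ℝ) := by
  rw [contDiff_pi]
  exact fun i => contDiff_apply ℝ ℝ _

theorem stepB_right_contDiff : ContDiff ℝ 2 (stepB_right : (Fin (k + k') → ℝ) → Fin k' → ℝ) := by
  rw [contDiff_pi]
  exact fun i => contDiff_apply ℝ ℝ _

theorem stepB_left_sum {ι : Type} (s : Finset ι) (c : ι → ℝ) (x : ι → Eu N)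
    (φ : Eu N → Fin k → ℝ) (φ' : Eu N → Fin k' → ℝ) :
    stepB_left (∑ i ∈ s, c i • stepB_join φ φ' (x i)) = ∑ i ∈ s, c i • φ (x i) := by
  ext j
  simp [stepB_left, stepB_join, Finset.sum_apply, Fin.append_left]

theorem stepB_right_sum {ι : Type} (s : Finset ι) (c : ι → ℝ) (x : ι → Eu N)
    (φ : Eu N → Fin k → ℝ) (φ' : Eu N → Fin k' → ℝ) :
    stepB_right (∑ i ∈ s, c i • stepB_join φ φ' (x i)) = ∑ i ∈ s, c i • φ' (x i) := by
  ext j
  simp [stepB_right, stepB_join, Finset.sum_apply, Fin.append_right]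

theorem stepB_path {D : ℕ} (hD : 1 ≤ D) (y z : Pun ((Fin D → ℝ) × ℝ)) :
    Joined y z := by
  have h1 : 1 < Module.rank ℝ ((Fin D → ℝ) × ℝ) := by
    rw [← Module.finrank_eq_rank, Module.finrank_prod]
    simp
    omega
  have h2 := isPathConnected_compl_singleton_of_one_lt_rank h1 (0 : (Fin D → ℝ) × ℝ)
  have h3 : PathConnectedSpace (({0} : Set ((Fin D → ℝ) × ℝ))ᶜ : Set _) :=
    isPathConnected_iff_pathConnectedSpace.1 h2
  exact h3.joined y z

theorem stepB_const {X : Type} [TopologicalSpace X] {D : ℕ} (hD : 1 ≤ D)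
    (y z : Pun ((Fin D → ℝ) × ℝ)) :
    (ContinuousMap.const X y).Homotopic (ContinuousMap.const X z) := by
  obtain ⟨γ⟩ := stepB_path hD y z
  exact ⟨{ toFun := fun p => γ p.1
           continuous_toFun := γ.continuous.comp continuous_fst
           map_zero_left := fun x => γ.source
           map_one_left := fun x => γ.target }⟩

theorem stepB_exE (hm : 2 ≤ m) {A : Fin m → Eu N} (hA : gram A = gramOne m) {u : Fin m → ℝ}
    (hu : u ∈ Icc (0 : Fin m → ℝ) 1) :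
    ∃ (x : Conf N (rm m) (m + 1)) (l : stdSimplex ℝ (Fin (m + 1))),
      (∀ i, (x.1 i : Eu N) = act A (pf m i)) ∧ (∀ i, l.1 i = nw u (m + 1) i) ∧
      ∀ (k : ℕ) (φ : Eu N → Fin k → ℝ), momE φ A u = integ (AVR.mk' x l).w φ := by
  obtain ⟨x, hx⟩ := exists_confE hm hA
  obtain ⟨l, hl⟩ := exists_wt (k := m + 1) (by omega) hu
  refine ⟨x, l, hx, hl, fun k φ => ?_⟩
  rw [integ_mk]
  unfold momE
  exact Finset.sum_congr rfl fun i _ => by rw [hx, hl]

theorem stepB_exC (hm : 2 ≤ m) {A : Fin m → Eu N} (hA : gram A = gramOne m) {u : Fin m → ℝ}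
    (hu : u ∈ Icc (0 : Fin m → ℝ) 1) :
    ∃ (x : Conf N (rm m) m) (l : stdSimplex ℝ (Fin m)),
      ∀ (k : ℕ) (φ : Eu N → Fin k → ℝ),
        momC (by omega : 0 < m) φ A u = integ (AVR.mk' x l).w φ := by
  obtain ⟨x, hx⟩ := exists_confC hm hA (ρ := u ⟨m - 1, by omega⟩) ⟨hu.1 _, hu.2 _⟩
  obtain ⟨l, hl⟩ := exists_wt (k := m) (by omega) hu
  refine ⟨x, l, fun k φ => ?_⟩
  rw [integ_mk]
  unfold momC
  exact Finset.sum_congr rfl fun i _ => by rw [hx, hl]

theorem stepB_card_mk {r : ℝ} {j : ℕ} (x : Conf N r j) (l : stdSimplex ℝ (Fin j)) :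
    (AVR.mk' x l).w.support.card ≤ j := by
  classical
  calc (AVR.mk' x l).w.support.card ≤ (Finset.univ.image x.1).card := by
        refine Finset.card_le_card fun y hy => ?_
        rw [Finset.mem_image]
        by_contra hne
        push Not at hne
        rw [Finsupp.mem_support_iff] at hy
        refine hy ?_
        change (∑ i, Finsupp.single (x.1 i) (l.1 i)) y = 0
        rw [Finsupp.finsetSum_apply]
        exact Finset.sum_eq_zero fun i _ => by
          rw [Finsupp.single_apply, if_neg (hne i (Finset.mem_univ i))]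
    _ ≤ (Finset.univ : Finset (Fin j)).card := Finset.card_image_le
    _ = j := by simp

/-- **Step B.** -/
theorem stepB {N m D : ℕ} (hm : 2 ≤ m) (hmN : m ≤ N) (hD : D + m.choose 2 = m * N) :
    ∃ F : C(AVR N (rm m), Pun ((Fin D → ℝ) × ℝ)), ∀ y, ¬ F.Homotopic (ContinuousMap.const _ y) := by
  have : CompactSpace (AVR N (rm m)) := compactSpace_AVR (m + 1) fun μ => card_le (by omega) μ
  obtain ⟨k, φ, F₀, A₀, u₀, μ₀, hφ, hF₀, hA₀, hu₀, hne, hup, hcard, ⟨x₀, l₀, hx₀, hl₀, hμ₀⟩,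
    hnd⟩ := exists_F hm hmN hD
  refine ⟨⟨fun μ => ⟨F₀ (integ μ.w φ), hne μ⟩, (hF₀.continuous.comp
    (continuous_integ φ hφ.continuous)).subtype_mk _⟩, fun y hy => ?_⟩
  have hD1 : 1 ≤ D := by
    have h1 : m.choose 2 < m * N := by
      rw [Nat.choose_two_right]
      calc m * (m - 1) / 2 ≤ m * (m - 1) := Nat.div_le_self _ _
        _ < m * N := Nat.mul_lt_mul_of_pos_left (by omega) (by omega)
    omega
  have hz : ((0 : Fin D → ℝ), (-1 : ℝ)) ≠ 0 := by
    intro h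
    have := congrArg Prod.snd h
    norm_num at this
  obtain ⟨G⟩ := hy.trans (stepB_const hD1 y ⟨((0 : Fin D → ℝ), (-1 : ℝ)), hz⟩)
  let g : C(AVR N (rm m) × unitInterval, (Fin D → ℝ) × ℝ) :=
    ⟨fun p => (G (p.2, p.1)).1, by fun_prop⟩
  have hg0 : ∀ μ, g (μ, 0) = F₀ (integ μ.w φ) := by
    intro μ
    change (G (0, μ)).1 = _
    rw [G.apply_zero]
    rfl
  have hg1 : ∀ μ, g (μ, 1) = ((0 : Fin D → ℝ), (-1 : ℝ)) := by
    intro μ
    change (G (1, μ)).1 = _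
    rw [G.apply_one]
    rfl
  obtain ⟨c, hc, hlow⟩ : ∃ c > 0, ∀ p, c ≤ ‖g p‖ := by
    obtain ⟨p, -, hp⟩ := (isCompact_univ : IsCompact (univ : Set (AVR N (rm m) × unitInterval))).exists_isMinOn
      ⟨(μ₀, 0), trivial⟩ (f := fun p => ‖g p‖) (by fun_prop)
    exact ⟨‖g p‖, norm_pos_iff.2 (G (p.2, p.1)).2, fun q => hp (mem_univ q)⟩
  set ε := min c 1 / 4 with hε
  have hε0 : 0 < ε := by positivity
  have hεc : 4 * ε ≤ c := by rw [hε]; linarith [min_le_left c 1]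
  have hε1 : 4 * ε ≤ 1 := by rw [hε]; linarith [min_le_right c 1]
  obtain ⟨k', φ', Ψ, hφ', hΨ, happ⟩ := approx g ε hε0
  let ψ : (Fin (k + k') → ℝ) × ℝ → (Fin D → ℝ) × ℝ := fun p =>
    Ψ (stepB_right p.1, p.2) + (1 - p.2) • (F₀ (stepB_left p.1) - Ψ (stepB_right p.1, 0))
  have hψ : ContDiff ℝ 2 ψ := by
    have h1 : ContDiff ℝ 2 fun p : (Fin (k + k') → ℝ) × ℝ =>
        (stepB_right p.1 : Fin k' → ℝ) := stepB_right_contDiff.comp contDiff_fst
    have h2 : ContDiff ℝ 2 fun p : (Fin (k + k') → ℝ) × ℝ =>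
        (stepB_left p.1 : Fin k → ℝ) := stepB_left_contDiff.comp contDiff_fst
    exact (hΨ.comp (h1.prodMk contDiff_snd)).add ((contDiff_const.sub contDiff_snd).smul
      ((hF₀.comp h2).sub (hΨ.comp (h1.prodMk contDiff_const))))
  have hintL : ∀ μ : AVR N (rm m), stepB_left (integ μ.w (stepB_join φ φ')) = integ μ.w φ :=
    fun μ => stepB_left_sum _ _ _ _ _
  have hintR : ∀ μ : AVR N (rm m), stepB_right (integ μ.w (stepB_join φ φ')) = integ μ.w φ' :=
    fun μ => stepB_right_sum _ _ _ _ _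
  have hest : ∀ (μ : AVR N (rm m)) (t : ℝ) (ht : t ∈ Icc (0 : ℝ) 1),
      ‖ψ (integ μ.w (stepB_join φ φ'), t) - g (μ, ⟨t, ht⟩)‖ < 2 * ε := by
    intro μ t ht
    have e1 := happ μ ⟨t, ht⟩
    have e2 := happ μ 0
    rw [hg0] at e2
    simp only [ψ, hintL, hintR]
    have e3 : Ψ (integ μ.w φ', t) + (1 - t) • (F₀ (integ μ.w φ) - Ψ (integ μ.w φ', 0)) -
        g (μ, ⟨t, ht⟩) = -(g (μ, ⟨t, ht⟩) - Ψ (integ μ.w φ', t)) +
          (1 - t) • (F₀ (integ μ.w φ) - Ψ (integ μ.w φ', 0)) := by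
      abel
    rw [e3]
    have e4 : ‖(1 - t) • (F₀ (integ μ.w φ) - Ψ (integ μ.w φ', 0))‖ ≤
        ‖F₀ (integ μ.w φ) - Ψ (integ μ.w φ', 0)‖ := by
      rw [norm_smul, Real.norm_eq_abs, abs_of_nonneg (by linarith [ht.2])]
      exact mul_le_of_le_one_left (norm_nonneg _) (by linarith [ht.1])
    calc _ ≤ ‖-(g (μ, ⟨t, ht⟩) - Ψ (integ μ.w φ', t))‖ +
          ‖(1 - t) • (F₀ (integ μ.w φ) - Ψ (integ μ.w φ', 0))‖ := norm_add_le _ _
      _ < ε + ε := by
        rw [norm_neg]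
        exact add_lt_add_of_lt_of_le e1 (e4.trans e2.le)
      _ = 2 * ε := by ring
  have hψne : ∀ (μ : AVR N (rm m)), ∀ t ∈ Icc (0 : ℝ) 1,
      ψ (integ μ.w (stepB_join φ φ'), t) ≠ 0 := by
    intro μ t ht h
    have e1 := hest μ t ht
    rw [h, zero_sub, norm_neg] at e1
    linarith [hlow (μ, ⟨t, ht⟩)]
  have hψ0 : ∀ z, ψ (z, 0) = F₀ (stepB_left z) := by
    intro z
    simp [ψ]
  have hψ1 : ∀ μ : AVR N (rm m), ¬ Up (ψ (integ μ.w (stepB_join φ φ'), 1)) := by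
    intro μ h
    have e1 := hest μ 1 ⟨by norm_num, by norm_num⟩
    have e2 : g (μ, ⟨1, ⟨by norm_num, by norm_num⟩⟩) = ((0 : Fin D → ℝ), (-1 : ℝ)) := hg1 μ
    rw [e2] at e1
    have e3 := (norm_snd_le _).trans_lt e1
    rw [Prod.snd_sub, Real.norm_eq_abs] at e3
    have := (abs_lt.1 e3).2
    have := h.2
    simp only at *
    linarith
  have hleftE : ∀ (A : Fin m → Eu N) (u : Fin m → ℝ),
      stepB_left (momE (stepB_join φ φ') A u) = (momE φ A u : Fin k → ℝ) :=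
    fun A u => stepB_left_sum (N := N) _ _ _ _ _
  refine stepB_core hm hmN hD (stepB_join φ φ') (stepB_join_contDiff hφ hφ') ψ hψ
    ?_ A₀ u₀ hA₀ hu₀ ?_ ?_ ?_ ?_
  · intro A hA u hu t ht
    obtain ⟨x, l, -, -, h⟩ := stepB_exE hm hA hu
    obtain ⟨x', l', h'⟩ := stepB_exC hm hA hu
    rw [h, h']
    exact ⟨hψne _ t ht, hψne _ t ht⟩
  · intro A hA u hu
    obtain ⟨x, l, hx, hl, h⟩ := stepB_exE hm hA hu
    rw [hψ0, hleftE, h, hup]
    constructor
    · intro e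
      rw [← hμ₀] at e
      exact unique_E hm hA hA₀ hu hu₀ x x₀ l l₀ hx hx₀ hl hl₀ e
    · rintro ⟨rfl, rfl⟩
      have e1 : x = x₀ := Subtype.ext (funext fun i => Subtype.ext ((hx i).trans (hx₀ i).symm))
      have e2 : l = l₀ := Subtype.ext (funext fun i => (hl i).trans (hl₀ i).symm)
      rw [e1, e2, hμ₀]
  · intro V v hV hv
    refine hnd V v hV ?_
    have e : (fun p : (Fin m → Eu N) × (Fin m → ℝ) =>
        (ψ (momE (stepB_join φ φ') p.1 p.2, 0)).1) = fun p => (F₀ (momE φ p.1 p.2)).1 := by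
      funext p
      rw [hψ0, hleftE]
    rw [e] at hv
    exact hv
  · intro A hA u hu h
    obtain ⟨x', l', h'⟩ := stepB_exC hm hA hu
    rw [h', hψ0, hintL, hup] at h
    have := stepB_card_mk x' l'
    rw [h, hcard] at this
    omega
  · intro A hA u hu
    obtain ⟨x, l, -, -, h⟩ := stepB_exE hm hA hu
    obtain ⟨x', l', h'⟩ := stepB_exC hm hA hu
    rw [h, h']
    exact ⟨hψ1 _, hψ1 _⟩

end Pool.Agent.AVG
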