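import Pool.Agent.Lib.MP_89fc28_gt.G.StepA
import Pool.Agent.Lib.MP_89fc28_gt.G.StepB

set_option autoImplicit false

open Set

namespace Pool.Agent.AVG


theorem rk_eq (k : ℕ) : rk k = rm (k + 1) := by
  unfold rk rm; push_cast; rfl

theorem exists_D {m N : ℕ} (hmN : m ≤ N) : ∃ D, D + m.choose 2 = m * N := by
  refine ⟨m * N - m.choose 2, Nat.sub_add_cancel ?_⟩
  rw [Nat.choose_two_right]
  calc m * (m - 1) / 2 ≤ m * (m - 1) := Nat.div_le_self _ _
    _ ≤ m * N := Nat.mul_le_mul_left _ (by omega)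

theorem not_hequiv {N m : ℕ} (hm : 2 ≤ m) (hmN : m ≤ N) {r : ℝ} (hr : rm m < r) :
    ¬ HEquiv (AVR N r) (AVR N (rm m)) := by
  rintro ⟨e⟩
  obtain ⟨D, hD⟩ := exists_D hmN
  obtain ⟨F, hF⟩ := stepB hm hmN hD
  obtain ⟨y, hy⟩ := stepA (by omega) hmN hD hr (F.comp e.toFun)
  refine hF y ?_
  have h1 : (F.comp (e.toFun.comp e.invFun)).Homotopic (F.comp (ContinuousMap.id _)) :=
    ContinuousMap.Homotopic.comp (ContinuousMap.Homotopic.refl F) e.right_inv
  have h2 : ((F.comp e.toFun).comp e.invFun).Homotopic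
      ((ContinuousMap.const _ y).comp e.invFun) :=
    ContinuousMap.Homotopic.comp hy (ContinuousMap.Homotopic.refl _)
  exact (h1.symm.trans h2 : _)

theorem changes {n k : ℕ} (hk : 2 ≤ k) (hkn : k ≤ n) : Changes (n + 1) (rk k) := by
  rintro ⟨a, b, ha, hb, h⟩
  refine not_hequiv (N := n + 1) (m := k + 1) (by omega) (by omega)
    (r := (rk k + b) / 2) (by rw [← rk_eq]; linarith) ?_
  rw [← rk_eq]
  exact h _ ⟨by linarith, by linarith⟩ _ ⟨ha, hb⟩

end Pool.Agent.AVG
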