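import Pool.Agent.Lib.MP_89fc28_gt.G.Defs

/-! # MP_89fc28_gt: integrals are continuous -/

set_option autoImplicit false

open Set MeasureTheory Module

namespace Pool.Agent.AVG

private theorem integ_dist_le {N : ℕ} (x y : Sph N) : dist x y ≤ gd x y := by
  have hx : ‖(x : Eu N)‖ = 1 := by simp
  have hy : ‖(y : Eu N)‖ = 1 := by simp
  have h1 : |inner ℝ (x : Eu N) (y : Eu N)| ≤ 1 := by
    have := abs_real_inner_le_norm (x : Eu N) (y : Eu N)
    rwa [hx, hy, mul_one] at this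
  have h2 : Real.cos (gd x y) = inner ℝ (x : Eu N) (y : Eu N) :=
    Real.cos_arccos (abs_le.mp h1).1 (abs_le.mp h1).2
  have h3 := Real.one_sub_sq_div_two_le_cos (x := gd x y)
  have h4 : ‖(x : Eu N) - (y : Eu N)‖ ^ 2 = 2 - 2 * inner ℝ (x : Eu N) (y : Eu N) := by
    rw [norm_sub_sq_real, hx, hy]; ring
  have h5 : 0 ≤ gd x y := Real.arccos_nonneg _
  rw [Subtype.dist_eq, dist_eq_norm]
  refine le_of_sq_le_sq ?_ h5
  rw [h4, ← h2]
  linarith

private theorem integ_mod {N : ℕ} {F : Type} [NormedAddCommGroup F] [NormedSpace ℝ F]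
    (φ : Eu N → F) (hφ : Continuous φ) (ε : ℝ) (hε : 0 < ε) :
    ∃ C : ℝ, 0 < C ∧ ∀ x y : Sph N, ‖φ x - φ y‖ ≤ ε + C * gd x y := by
  have hc : Continuous fun x : Sph N => φ x := hφ.comp continuous_subtype_val
  have hu := CompactSpace.uniformContinuous_of_continuous hc
  rw [Metric.uniformContinuous_iff] at hu
  obtain ⟨δ, hδ, h1⟩ := hu ε hε
  obtain ⟨B, hB⟩ := isCompact_univ.exists_bound_of_continuousOn hc.continuousOn
  have hB' : ∀ x : Sph N, ‖φ x‖ ≤ |B| := fun x => (hB x (mem_univ _)).trans (le_abs_self B)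
  refine ⟨2 * |B| / δ + 1, by positivity, fun x y => ?_⟩
  have hg : 0 ≤ gd x y := Real.arccos_nonneg _
  rcases lt_or_ge (dist x y) δ with h2 | h2
  · have h3 := (h1 h2).le
    rw [dist_eq_norm] at h3
    have : 0 ≤ (2 * |B| / δ + 1) * gd x y := by positivity
    linarith
  · have h3 : δ ≤ gd x y := h2.trans (integ_dist_le x y)
    have h4 : ‖φ x - φ y‖ ≤ 2 * |B| := by
      have := norm_sub_le (φ x) (φ y)
      have := hB' x
      have := hB' y
      linarith
    have h5 : 2 * |B| ≤ 2 * |B| / δ * gd x y := by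
      rw [div_mul_eq_mul_div, le_div_iff₀ hδ]
      exact mul_le_mul_of_nonneg_left h3 (by positivity)
    nlinarith

private theorem integ_coupling {N : ℕ} {r : ℝ} {F : Type} [NormedAddCommGroup F]
    [NormedSpace ℝ F] (φ : Eu N → F) (ε C : ℝ)
    (hφ : ∀ x y : Sph N, ‖φ x - φ y‖ ≤ ε + C * gd x y) (μ ν : AVR N r)
    (π : Sph N × Sph N →₀ ℝ) (hπ : IsCoupling μ.w ν.w π) :
    ‖integ μ.w φ - integ ν.w φ‖ ≤ ε + C * cost π := by
  have e1 : integ μ.w φ = π.sum fun p a => a • φ p.1 := by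
    unfold integ
    rw [← hπ.fst]
    exact Finsupp.sum_mapDomain_index (by simp) (by intro b m₁ m₂; rw [add_smul])
  have e2 : integ ν.w φ = π.sum fun p a => a • φ p.2 := by
    unfold integ
    rw [← hπ.snd]
    exact Finsupp.sum_mapDomain_index (by simp) (by intro b m₁ m₂; rw [add_smul])
  have e3 : (π.sum fun _ a => a) = 1 := by
    have h1 := μ.total
    rw [← hπ.fst] at h1
    rw [Finsupp.sum_mapDomain_index (by simp) (by intro b m₁ m₂; rfl)] at h1
    exact h1
  rw [e1, e2]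
  unfold Finsupp.sum at e3 ⊢
  rw [← Finset.sum_sub_distrib]
  refine (norm_sum_le _ _).trans ?_
  have h2 : ∀ p ∈ π.support, ‖π p • φ p.1 - π p • φ p.2‖ ≤ π p * ε + C * (π p * gd p.1 p.2) := by
    intro p _
    rw [← smul_sub, norm_smul, Real.norm_eq_abs, abs_of_nonneg (hπ.nonneg p)]
    have h3 := mul_le_mul_of_nonneg_left (hφ p.1 p.2) (hπ.nonneg p)
    nlinarith
  refine (Finset.sum_le_sum h2).trans (le_of_eq ?_)
  rw [Finset.sum_add_distrib, ← Finset.sum_mul, e3, one_mul, ← Finset.mul_sum]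
  rfl

private theorem integ_costs_nonempty {N : ℕ} {r : ℝ} (μ ν : AVR N r) :
    {c | ∃ π, IsCoupling μ.w ν.w π ∧ c = cost π}.Nonempty := by
  classical
  obtain ⟨π, hπ⟩ : ∃ π : Sph N × Sph N →₀ ℝ, π = μ.w.sum fun x a => ν.w.sum fun y b =>
    Finsupp.single (x, y) (a * b) := ⟨_, rfl⟩
  refine ⟨cost π, π, ⟨?_, ?_, ?_⟩, rfl⟩
  · intro p
    rw [hπ]
    unfold Finsupp.sum
    rw [Finsupp.finsetSum_apply]
    refine Finset.sum_nonneg fun x _ => ?_
    rw [Finsupp.finsetSum_apply]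
    refine Finset.sum_nonneg fun y _ => ?_
    rw [Finsupp.single_apply]
    split_ifs
    · exact mul_nonneg (μ.nonneg _) (ν.nonneg _)
    · exact le_rfl
  · rw [hπ]
    unfold Finsupp.sum
    rw [Finsupp.mapDomain_finsetSum]
    have h1 : ∀ x ∈ μ.w.support, Finsupp.mapDomain Prod.fst
        (∑ y ∈ ν.w.support, Finsupp.single (x, y) (μ.w x * ν.w y)) =
        Finsupp.single x (μ.w x) := by
      intro x _
      rw [Finsupp.mapDomain_finsetSum]
      simp only [Finsupp.mapDomain_single]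
      rw [← Finsupp.single_finsetSum, ← Finset.mul_sum]
      have := ν.total
      unfold Finsupp.sum at this
      rw [this, mul_one]
    rw [Finset.sum_congr rfl h1]
    exact Finsupp.sum_single μ.w
  · rw [hπ]
    unfold Finsupp.sum
    rw [Finsupp.mapDomain_finsetSum]
    have h1 : ∀ x ∈ μ.w.support, Finsupp.mapDomain Prod.snd
        (∑ y ∈ ν.w.support, Finsupp.single (x, y) (μ.w x * ν.w y)) =
        ∑ y ∈ ν.w.support, Finsupp.single y (μ.w x * ν.w y) := by
      intro x _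
      rw [Finsupp.mapDomain_finsetSum]
      simp only [Finsupp.mapDomain_single]
    rw [Finset.sum_congr rfl h1, Finset.sum_comm]
    have h2 : ∀ y ∈ ν.w.support, ∑ x ∈ μ.w.support, Finsupp.single y (μ.w x * ν.w y) =
        Finsupp.single y (ν.w y) := by
      intro y _
      rw [← Finsupp.single_finsetSum, ← Finset.sum_mul]
      have := μ.total
      unfold Finsupp.sum at this
      rw [this, one_mul]
    rw [Finset.sum_congr rfl h2]
    exact Finsupp.sum_single ν.w

/-- **T3. Integrals are continuous.** -/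
theorem continuous_integ {N : ℕ} {r : ℝ} {F : Type} [NormedAddCommGroup F] [NormedSpace ℝ F]
    (φ : Eu N → F) (hφ : Continuous φ) : Continuous fun μ : AVR N r => integ μ.w φ := by
  refine continuous_def.mpr fun V hV => ?_
  show ∀ μ ∈ (fun μ : AVR N r => integ μ.w φ) ⁻¹' V, ∃ ε > 0, ∀ ν : AVR N r,
    W1 μ.w ν.w < ε → ν ∈ (fun μ : AVR N r => integ μ.w φ) ⁻¹' V
  intro μ hμ
  obtain ⟨ρ, hρ, hball⟩ := Metric.isOpen_iff.mp hV _ hμ
  obtain ⟨C, hC, hφC⟩ := integ_mod φ hφ (ρ / 2) (by linarith)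
  refine ⟨ρ / (2 * C), by positivity, fun ν hν => hball ?_⟩
  obtain ⟨c, ⟨π, hπ, rfl⟩, hc⟩ := exists_lt_of_csInf_lt (integ_costs_nonempty μ ν) hν
  have h1 := integ_coupling φ (ρ / 2) C hφC μ ν π hπ
  rw [Metric.mem_ball, dist_comm, dist_eq_norm]
  have h2 : C * cost π < ρ / 2 := by
    rw [lt_div_iff₀ (by positivity)] at hc
    linarith
  show ‖integ μ.w φ - integ ν.w φ‖ < ρ
  linarith

theorem integ_mk {N : ℕ} {r : ℝ} {j : ℕ} {F : Type} [AddCommGroup F] [Module ℝ F]
    (x : Conf N r j) (l : stdSimplex ℝ (Fin j)) (φ : Eu N → F) :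
    integ (AVR.mk' x l).w φ = ∑ i, l.1 i • φ (x.1 i : Eu N) := by
  have h : ∀ s : Finset (Fin j), integ (∑ i ∈ s, Finsupp.single (x.1 i) (l.1 i)) φ =
      ∑ i ∈ s, l.1 i • φ (x.1 i : Eu N) := by
    intro s
    unfold integ
    induction s using Finset.induction_on with
    | empty => simp
    | insert a s ha ih =>
      rw [Finset.sum_insert ha, Finset.sum_insert ha,
        Finsupp.sum_add_index' (by simp) (by intro b m₁ m₂; rw [add_smul]), ih,
        Finsupp.sum_single_index (by simp)]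
  exact h Finset.univ

end Pool.Agent.AVG
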