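import Pool.Agent.Lib.MP_89fc28_gt.G.Sard
import Pool.Agent.Lib.MP_89fc28_gt.G.Gram

/-! # MP_89fc28_gt: a ray is missed -/

set_option autoImplicit false

open Set MeasureTheory Module

namespace Pool.Agent.AVG

private lemma missed_haar (D : ℕ) :
    (volume : Measure ((Fin D → ℝ) × ℝ)).IsAddHaarMeasure := by
  rw [Measure.volume_eq_prod]
  infer_instance

private lemma missed_core {N D t p k : ℕ} (B : Sym2 (Fin t) → ℝ)
    (hB : ∀ x : Fin t → Eu N, gram x = B → LinearIndependent ℝ x)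
    (ψ : (Fin t → Eu N) × (Fin p → ℝ) → Fin k → ℝ) (hψ : ContDiff ℝ 1 ψ)
    (g : (Fin k → ℝ) → (Fin D → ℝ) × ℝ) (hg : ContDiff ℝ 1 g)
    (hdim : t * N + p < (t + 1).choose 2 + D) :
    ∀ᵐ y : (Fin D → ℝ) × ℝ, ∀ (x : Fin t → Eu N) (w : Fin p → ℝ) (a : ℝ), gram x = B →
      a • g (ψ (x, w)) ≠ y := by
  have hfE : finrank ℝ (((Fin t → Eu N) × (Fin p → ℝ)) × ℝ) = t * N + p + 1 := by
    have h1 : finrank ℝ (Fin t → Eu N) = t * N := by
      rw [finrank_pi_fintype]
      simp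
    rw [finrank_prod, finrank_prod, h1]
    simp
  have hfG : finrank ℝ (Sym2 (Fin t) → ℝ) = (t + 1).choose 2 := finrank_sym2 t
  have hfH : finrank ℝ ((Fin D → ℝ) × ℝ) = D + 1 := by
    simp
  let c : ((Fin t → Eu N) × (Fin p → ℝ)) × ℝ → (Sym2 (Fin t) → ℝ) := fun z => gram z.1.1 - B
  let G : ((Fin t → Eu N) × (Fin p → ℝ)) × ℝ → (Fin D → ℝ) × ℝ := fun z => z.2 • g (ψ z.1)
  have hc : ContDiff ℝ 1 c :=
    ((gram_contDiff.of_le (by norm_num)).comp (contDiff_fst.comp contDiff_fst)).sub contDiff_const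
  have hG : ContDiff ℝ 1 G := contDiff_snd.smul (hg.comp (hψ.comp contDiff_fst))
  have hcd : ∀ z, fderiv ℝ c z = (fderiv ℝ gram z.1.1).comp
      ((ContinuousLinearMap.fst ℝ (Fin t → Eu N) (Fin p → ℝ)).comp
        (ContinuousLinearMap.fst ℝ ((Fin t → Eu N) × (Fin p → ℝ)) ℝ)) := by
    intro z
    have h1 : HasFDerivAt (gram : (Fin t → Eu N) → Sym2 (Fin t) → ℝ) (fderiv ℝ gram z.1.1)
        z.1.1 :=
      ((gram_contDiff.differentiable (by norm_num)) z.1.1).hasFDerivAt
    have h2 : HasFDerivAt (fun z : ((Fin t → Eu N) × (Fin p → ℝ)) × ℝ => z.1.1)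
        ((ContinuousLinearMap.fst ℝ (Fin t → Eu N) (Fin p → ℝ)).comp
        (ContinuousLinearMap.fst ℝ ((Fin t → Eu N) × (Fin p → ℝ)) ℝ)) z :=
      ((ContinuousLinearMap.fst ℝ (Fin t → Eu N) (Fin p → ℝ)).comp
        (ContinuousLinearMap.fst ℝ ((Fin t → Eu N) × (Fin p → ℝ)) ℝ)).hasFDerivAt
    exact ((h1.comp z h2).sub_const B).fderiv
  have hvol := missed_haar D
  have key := sard_level (volume : Measure ((Fin D → ℝ) × ℝ)) univ isOpen_univ c G
    hc.contDiffOn hG.contDiffOn ?_ ?_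
  · filter_upwards [key] with y hy x w a hx hya
    have h1 := hy ((x, w), a) trivial (by simp [c, hx]) hya
    let f : (((Fin t → Eu N) × (Fin p → ℝ)) × ℝ) →ₗ[ℝ] ((Fin D → ℝ) × ℝ) × (Sym2 (Fin t) → ℝ) :=
      ((fderiv ℝ G ((x, w), a)).prod (fderiv ℝ c ((x, w), a))).toLinearMap
    have h2 := LinearMap.finrank_le_finrank_of_surjective (f := f) h1
    rw [finrank_prod, hfH, hfG, hfE] at h2
    omega
  · intro z _ hz
    rw [hcd]
    have h1 : gram z.1.1 = B := sub_eq_zero.1 hz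
    have h2 := gram_surj z.1.1 (hB _ h1)
    intro v
    obtain ⟨u, hu⟩ := h2 v
    exact ⟨((u, 0), 0), hu⟩
  · rw [hfE, hfG, hfH]
    omega

private lemma missed_indep {N n : ℕ} (x : Fin (n + 1) → Eu N) (h1 : ∀ i, inner ℝ (x i) (x i) = (1 : ℝ))
    (h2 : ∀ i j, i ≠ j → inner ℝ (x i) (x j) = -(1 / ((n : ℝ) + 1))) :
    LinearIndependent ℝ x := by
  rw [Fintype.linearIndependent_iff]
  intro c hc
  have hn : (0 : ℝ) < (n : ℝ) + 1 := by positivity
  have h3 : ∀ i, c i * ((n : ℝ) + 2) = ∑ j, c j := by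
    intro i
    have h4 : inner ℝ (x i) (∑ j, c j • x j) = (0 : ℝ) := by rw [hc, inner_zero_right]
    rw [inner_sum] at h4
    have h5 : ∀ j, inner ℝ (x i) (c j • x j) =
        (if j = i then c i * (1 + 1 / ((n : ℝ) + 1)) else 0) - (1 / ((n : ℝ) + 1)) * c j := by
      intro j
      rw [inner_smul_right]
      split_ifs with h
      · subst h
        rw [h1]
        ring
      · rw [h2 i j (Ne.symm h)]
        ring
    rw [Finset.sum_congr rfl fun j _ => h5 j, Finset.sum_sub_distrib, Finset.sum_ite_eq',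
      if_pos (Finset.mem_univ _), ← Finset.mul_sum] at h4
    field_simp at h4
    linarith
  have h6 : (∑ j, c j) * ((n : ℝ) + 2) = ((n : ℝ) + 1) * ∑ j, c j := by
    rw [Finset.sum_mul, Finset.sum_congr rfl fun j _ => h3 j, Finset.sum_const, Finset.card_univ,
      Fintype.card_fin, nsmul_eq_mul]
    push_cast
    ring
  have h7 : ∑ j, c j = 0 := by linarith
  intro i
  have h8 := h3 i
  rw [h7] at h8
  have h9 : (n : ℝ) + 2 ≠ 0 := by positivity
  exact (mul_eq_zero.1 h8).resolve_right h9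

private lemma missed_last {N n : ℕ} (x : Fin (n + 2) → Eu N) (h1 : ∀ i, ‖x i‖ = 1)
    (h2 : ∀ i j, i ≠ j → inner ℝ (x i) (x j) = -(1 / ((n : ℝ) + 1))) :
    x (Fin.last (n + 1)) = -∑ i : Fin (n + 1), x i.castSucc := by
  have h3 : ∑ i, x i = 0 := by
    have h4 : inner ℝ (∑ i, x i) (∑ i, x i) = (0 : ℝ) := by
      rw [sum_inner]
      refine Finset.sum_eq_zero fun i _ => ?_
      rw [inner_sum]
      have h5 : ∀ j, inner ℝ (x i) (x j) =
        (if j = i then (1 + 1 / ((n : ℝ) + 1)) else 0) - (1 / ((n : ℝ) + 1)) := by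
        intro j
        split_ifs with h
        · subst h
          rw [real_inner_self_eq_norm_sq, h1]
          ring
        · rw [h2 i j (Ne.symm h)]
          ring
      rw [Finset.sum_congr rfl fun j _ => h5 j, Finset.sum_sub_distrib, Finset.sum_ite_eq',
        if_pos (Finset.mem_univ _), Finset.sum_const, Finset.card_univ,
        Fintype.card_fin, nsmul_eq_mul]
      have hn : (n : ℝ) + 1 ≠ 0 := by positivity
      push_cast
      field_simp
      ring
    exact inner_self_eq_zero.1 h4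
  rw [Fin.sum_univ_castSucc] at h3
  exact eq_neg_of_add_eq_zero_right h3

private lemma missed_ray {D : ℕ} (hD : 0 < D) (q : (Fin D → ℝ) × ℝ) :
    ∀ᵐ y : (Fin D → ℝ) × ℝ, ∀ a : ℝ, a • q ≠ y := by
  have h1 : (Submodule.span ℝ {q} : Submodule ℝ ((Fin D → ℝ) × ℝ)) ≠ ⊤ := by
    intro h
    have h2 : finrank ℝ (Submodule.span ℝ {q} : Submodule ℝ ((Fin D → ℝ) × ℝ)) ≤ 1 := by
      refine (finrank_span_le_card ({q} : Set ((Fin D → ℝ) × ℝ))).trans ?_
      simp
    rw [h, finrank_top] at h2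
    simp at h2
    omega
  have hvol := missed_haar D
  have h2 := Measure.addHaar_submodule (volume : Measure ((Fin D → ℝ) × ℝ)) _ h1
  have h3 : ∀ᵐ y : (Fin D → ℝ) × ℝ, y ∉ (Submodule.span ℝ {q} : Set ((Fin D → ℝ) × ℝ)) :=
    measure_eq_zero_iff_ae_notMem.1 h2
  filter_upwards [h3] with y hy a ha
  exact hy (Submodule.mem_span_singleton.2 ⟨a, ha⟩)

private lemma missed_arith (s m N D : ℕ) (hs : 1 ≤ s) (hsm : s ≤ m) (hmN : m ≤ N)
    (hD : D + m.choose 2 = m * N) : (s - 1) * N + (s - 1) < s.choose 2 + D ∧ N ≤ D ∧ 0 < D := by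
  have e1 : ∀ r : ℕ, 2 * (r + 1).choose 2 = (r + 1) * r := by
    intro r
    rw [Nat.choose_two_right]
    have := Nat.even_mul_pred_self (r + 1)
    rw [Nat.mul_div_cancel' this.two_dvd]
    simp
  obtain ⟨s, rfl⟩ : ∃ s', s = s' + 1 := ⟨s - 1, by omega⟩
  obtain ⟨d, rfl⟩ : ∃ d, m = s + 1 + d := ⟨m - (s + 1), by omega⟩
  obtain ⟨e, rfl⟩ : ∃ e, N = s + 1 + d + e := ⟨N - (s + 1 + d), by omega⟩
  have e2 := e1 s
  have e3 := e1 (s + d)
  rw [show s + d + 1 = s + 1 + d by ring] at e3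
  simp only [Nat.add_sub_cancel]
  zify at *
  have hs0 : (0 : ℤ) ≤ s := by positivity
  have hd0 : (0 : ℤ) ≤ d := by positivity
  have he0 : (0 : ℤ) ≤ e := by positivity
  refine ⟨?_, ?_, ?_⟩
  · nlinarith [mul_nonneg hs0 hd0, mul_nonneg hd0 he0, mul_nonneg hs0 he0, mul_nonneg hd0 hd0]
  · nlinarith [mul_nonneg hs0 hd0, mul_nonneg hd0 he0, mul_nonneg hs0 he0, mul_nonneg hd0 hd0]
  · nlinarith [mul_nonneg hs0 hd0, mul_nonneg hd0 he0, mul_nonneg hs0 he0, mul_nonneg hd0 hd0]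

/-- **G3. A generic ray is missed on the regular simplices.** -/
theorem exists_missed {N m D s k : ℕ} (hs : 1 ≤ s) (hsm : s ≤ m) (hmN : m ≤ N)
    (hD : D + m.choose 2 = m * N) (φ : Eu N → Fin k → ℝ) (hφ : ContDiff ℝ 2 φ)
    (g : (Fin k → ℝ) → (Fin D → ℝ) × ℝ) (hg : ContDiff ℝ 2 g) (q : (Fin D → ℝ) × ℝ) :
    ∃ y : (Fin D → ℝ) × ℝ, y ≠ 0 ∧ (∀ a : ℝ, 0 < a → a • q ≠ y) ∧
      ∀ (x : Fin s → Eu N) (l : Fin s → ℝ), (∀ i, ‖x i‖ = 1) →
        (∀ i j, i ≠ j → inner ℝ (x i) (x j) = -(1 / ((s : ℝ) - 1))) → ∑ i, l i = 1 →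
        ∀ a : ℝ, 0 < a → a • g (∑ i, l i • φ (x i)) ≠ y := by
  obtain ⟨ha1, ha2, ha3⟩ := missed_arith s m N D hs hsm hmN hD
  have hφ1 : ContDiff ℝ 1 φ := hφ.of_le (by norm_num)
  have hg1 : ContDiff ℝ 1 g := hg.of_le (by norm_num)
  have hray := missed_ray ha3 q
  suffices h : ∀ᵐ y : (Fin D → ℝ) × ℝ, ∀ (x : Fin s → Eu N) (l : Fin s → ℝ), (∀ i, ‖x i‖ = 1) →
        (∀ i j, i ≠ j → inner ℝ (x i) (x j) = -(1 / ((s : ℝ) - 1))) → ∑ i, l i = 1 →
        ∀ a : ℝ, 0 < a → a • g (∑ i, l i • φ (x i)) ≠ y by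
    obtain ⟨y, hy1, hy2⟩ := (hray.and h).exists
    refine ⟨y, ?_, fun a _ => hy1 a, hy2⟩
    intro hy0
    exact hy1 0 (by rw [hy0, zero_smul])
  rcases Nat.lt_or_ge s 2 with hs2 | hs2
  · -- one point
    obtain rfl : s = 1 := by omega
    let B : Sym2 (Fin 1) → ℝ := fun _ => 1
    have hB : ∀ x : Fin 1 → Eu N, gram x = B → LinearIndependent ℝ x := by
      intro x hx
      have h1 : gram x s(0, 0) = 1 := by rw [hx]
      have h2 : inner ℝ (x 0) (x 0) = (1 : ℝ) := h1
      refine LinearIndependent.of_subsingleton (i := 0) ?_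
      intro h0
      rw [h0, inner_zero_left] at h2
      exact zero_ne_one h2
    have key := missed_core (p := 0) (D := D) B hB (fun z => φ (z.1 0))
      (hφ1.comp ((contDiff_apply ℝ (Eu N) 0).comp contDiff_fst)) g hg1 (by
        simp
        omega)
    filter_upwards [key] with y hy x l hx _ hl a ha
    have h3 : gram x = B := by
      funext z
      induction z using Sym2.ind with
      | _ i j =>
        have hi : i = 0 := Subsingleton.elim _ _
        have hj : j = 0 := Subsingleton.elim _ _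
        subst hi hj
        change inner ℝ (x 0) (x 0) = (1 : ℝ)
        rw [real_inner_self_eq_norm_sq, hx]
        norm_num
    have h4 := hy x 0 a h3
    rw [Fin.sum_univ_one] at hl
    rw [Fin.sum_univ_one, hl, one_smul]
    exact h4
  · obtain ⟨n, rfl⟩ : ∃ n, s = n + 2 := ⟨s - 2, by omega⟩
    have hcast : ((n + 2 : ℕ) : ℝ) - 1 = (n : ℝ) + 1 := by
      push_cast
      ring
    rw [hcast]
    let B : Sym2 (Fin (n + 1)) → ℝ :=
      Sym2.lift ⟨fun i j => if i = j then 1 else -(1 / ((n : ℝ) + 1)), fun i j => by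
        simp only [eq_comm]⟩
    have hB : ∀ x : Fin (n + 1) → Eu N, gram x = B → LinearIndependent ℝ x := by
      intro x hx
      refine missed_indep x (fun i => ?_) (fun i j hij => ?_)
      · have h1 : gram x s(i, i) = 1 := by
          rw [hx]
          change (if i = i then (1 : ℝ) else _) = 1
          rw [if_pos rfl]
        exact h1
      · have h1 : gram x s(i, j) = -(1 / ((n : ℝ) + 1)) := by
          rw [hx]
          change (if i = j then (1 : ℝ) else _) = _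
          rw [if_neg hij]
        exact h1
    have hψ : ContDiff ℝ 1 (fun z : (Fin (n + 1) → Eu N) × (Fin (n + 1) → ℝ) =>
        ∑ i, z.2 i • φ (z.1 i) + (1 - ∑ i, z.2 i) • φ (-∑ i, z.1 i)) := by
      have h1 : ∀ i : Fin (n + 1), ContDiff ℝ 1
          (fun z : (Fin (n + 1) → Eu N) × (Fin (n + 1) → ℝ) => z.1 i) := fun i =>
        (contDiff_apply ℝ (Eu N) i).comp contDiff_fst
      have h2 : ∀ i : Fin (n + 1), ContDiff ℝ 1
          (fun z : (Fin (n + 1) → Eu N) × (Fin (n + 1) → ℝ) => z.2 i) := fun i =>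
        (contDiff_apply ℝ ℝ i).comp contDiff_snd
      refine ContDiff.add (ContDiff.sum fun i _ => (h2 i).smul (hφ1.comp (h1 i))) ?_
      exact (contDiff_const.sub (ContDiff.sum fun i _ => h2 i)).smul
        (hφ1.comp (ContDiff.sum fun i _ => h1 i).neg)
    have key := missed_core (D := D) B hB _ hψ g hg1 (by
      simpa using ha1)
    filter_upwards [key] with y hy x l hx hxx hl a ha
    have h3 : gram (fun i : Fin (n + 1) => x i.castSucc) = B := by
      funext z
      induction z using Sym2.ind with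
      | _ i j =>
        change inner ℝ (x i.castSucc) (x j.castSucc) =
          (if i = j then (1 : ℝ) else -(1 / ((n : ℝ) + 1)))
        split_ifs with h
        · subst h
          rw [real_inner_self_eq_norm_sq, hx]
          norm_num
        · exact hxx _ _ fun h' => h (Fin.castSucc_injective _ h')
    have h4 := hy (fun i : Fin (n + 1) => x i.castSucc) (fun i => l i.castSucc) a h3
    have h5 := missed_last x hx hxx
    rw [Fin.sum_univ_castSucc] at hl
    have h6 : l (Fin.last (n + 1)) = 1 - ∑ i : Fin (n + 1), l i.castSucc := by linarith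
    rw [Fin.sum_univ_castSucc, h5, h6]
    exact h4

end Pool.Agent.AVG
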