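import Mathlib

/-! # MP_89fc28_gt: parity lemma on a box -/

set_option autoImplicit false

open Set MeasureTheory Module

namespace Pool.Agent.AVG

open Filter Topology in
/-- neighbourhoods of the zeros on which `g` is a diffeomorphism -/
private lemma parityBox_nbhd {E : Type} [NormedAddCommGroup E] [NormedSpace ℝ E]
    [FiniteDimensional ℝ E] (g : E → E) (O Q : Set E) (hO : IsOpen O)
    (hg : ContDiffOn ℝ 1 g O) (z : E) (hz : z ∈ O) (hQ : Q ∈ 𝓝 z) (hgz : g z = 0)
    (hinj : ∀ v, fderiv ℝ g z v = 0 → v = 0) (U : Set E) (hU : U ∈ 𝓝 z) :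
    ∃ (s : ℤ) (N : Set E), (s = 1 ∨ s = -1) ∧ IsOpen N ∧ z ∈ N ∧ N ⊆ O ∧ N ⊆ Q ∧ N ⊆ U ∧
      InjOn g N ∧ (∀ y ∈ N, (fderiv ℝ g y).det = s * |(fderiv ℝ g y).det|) ∧ g '' N ∈ 𝓝 (0 : E) := by
  haveI : CompleteSpace E := FiniteDimensional.complete ℝ E
  have hcd : ContDiffAt ℝ 1 g z := (hg z hz).contDiffAt (hO.mem_nhds hz)
  have hstr : HasStrictFDerivAt g (fderiv ℝ g z) z := hcd.hasStrictFDerivAt one_ne_zero
  have hinj' : Function.Injective (fderiv ℝ g z) := by
    rw [injective_iff_map_eq_zero]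
    exact hinj
  -- the derivative is an isomorphism
  let e : E ≃L[ℝ] E := (LinearEquiv.ofInjectiveEndo (fderiv ℝ g z : E →ₗ[ℝ] E)
    hinj').toContinuousLinearEquiv
  have he : (e : E →L[ℝ] E) = fderiv ℝ g z := by
    ext v
    rfl
  have hstr' : HasStrictFDerivAt g (e : E →L[ℝ] E) z := by rw [he]; exact hstr
  have hdet : (fderiv ℝ g z).det ≠ 0 := by
    intro h0
    have h1 := LinearMap.bot_lt_ker_of_det_eq_zero (f := (fderiv ℝ g z : E →ₗ[ℝ] E)) h0
    rw [LinearMap.ker_eq_bot.2 hinj'] at h1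
    exact lt_irrefl _ h1
  have hcdet : ContinuousOn (fun y => (fderiv ℝ g y).det) O :=
    ContinuousLinearMap.continuous_det.comp_continuousOn
      (hg.continuousOn_fderiv_of_isOpen hO le_rfl)
  have hcz : ContinuousAt (fun y => (fderiv ℝ g y).det) z := hcdet.continuousAt (hO.mem_nhds hz)
  obtain ⟨s, hs, hspos⟩ : ∃ s : ℤ, (s = 1 ∨ s = -1) ∧ 0 < (s : ℝ) * (fderiv ℝ g z).det := by
    rcases lt_or_gt_of_ne hdet with h | h
    · exact ⟨-1, Or.inr rfl, by push_cast; linarith⟩
    · exact ⟨1, Or.inl rfl, by push_cast; linarith⟩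
  have hev : ∀ᶠ y in 𝓝 z, 0 < (s : ℝ) * (fderiv ℝ g y).det :=
    (hcz.const_mul (s : ℝ)).eventually (lt_mem_nhds hspos)
  let P := hstr'.toOpenPartialHomeomorph g
  have hPs : P.source ∈ 𝓝 z := P.open_source.mem_nhds hstr'.mem_toOpenPartialHomeomorph_source
  have hbig : P.source ∩ O ∩ Q ∩ U ∩ {y | 0 < (s : ℝ) * (fderiv ℝ g y).det} ∈ 𝓝 z :=
    inter_mem (inter_mem (inter_mem (inter_mem hPs (hO.mem_nhds hz)) hQ) hU) hev
  refine ⟨s, interior (P.source ∩ O ∩ Q ∩ U ∩ {y | 0 < (s : ℝ) * (fderiv ℝ g y).det}), hs,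
    isOpen_interior, mem_interior_iff_mem_nhds.2 hbig, ?_, ?_, ?_, ?_, ?_, ?_⟩
  · intro y hy
    exact (interior_subset hy).1.1.1.2
  · intro y hy
    exact (interior_subset hy).1.1.2
  · intro y hy
    exact (interior_subset hy).1.2
  · intro y hy y' hy' h
    exact P.injOn (interior_subset hy).1.1.1.1 (interior_subset hy').1.1.1.1 h
  · intro y hy
    have h1 : 0 < (s : ℝ) * (fderiv ℝ g y).det := (interior_subset hy).2
    rcases hs with rfl | rfl
    · push_cast at h1 ⊢
      rw [one_mul] at h1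
      rw [abs_of_pos h1, one_mul]
    · push_cast at h1 ⊢
      have h2 : (fderiv ℝ g y).det < 0 := by linarith
      rw [abs_of_neg h2]
      ring
  · have h1 := hstr'.map_nhds_eq_of_equiv
    rw [hgz] at h1
    rw [← h1]
    exact image_mem_map (isOpen_interior.mem_nhds (mem_interior_iff_mem_nhds.2 hbig))

open Filter Topology in
/-- the signed count of the zeros on a face by an integral -/
private lemma parityBox_face {E : Type} [NormedAddCommGroup E] [NormedSpace ℝ E]
    [FiniteDimensional ℝ E] [MeasurableSpace E] [BorelSpace E] (μ : Measure E)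
    [μ.IsAddHaarMeasure] (g : E → E) (O Q : Set E) (hO : IsOpen O) (hQm : MeasurableSet Q)
    (hg : ContDiffOn ℝ 1 g O) (ε : ℝ) (hε : 0 < ε)
    (hK : IsCompact {x | x ∈ O ∧ x ∈ Q ∧ ‖g x‖ ≤ ε})
    (hnd : ∀ x ∈ O, x ∈ Q → g x = 0 → Q ∈ 𝓝 x ∧ ∀ v, fderiv ℝ g x v = 0 → v = 0) :
    {x | x ∈ O ∧ x ∈ Q ∧ g x = 0}.Finite ∧ ∃ (S : ℤ) (δ : ℝ), 0 < δ ∧ δ ≤ ε ∧
      (Even S ↔ Even {x | x ∈ O ∧ x ∈ Q ∧ g x = 0}.ncard) ∧
      ∀ ρ : E → ℝ, Integrable ρ μ → (∀ y, ρ y ≠ 0 → ‖y‖ < δ) →
        ∫ x in Q, O.indicator (fun x => ρ (g x) * (fderiv ℝ g x).det) x ∂μ =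
          S * ∫ y, ρ y ∂μ := by
  classical
  set K : Set E := {x | x ∈ O ∧ x ∈ Q ∧ ‖g x‖ ≤ ε} with hKdef
  set Z : Set E := {x | x ∈ O ∧ x ∈ Q ∧ g x = 0} with hZdef
  have hgK : ContinuousOn g K := hg.continuousOn.mono fun x hx => hx.1
  have hZK : Z = K ∩ g ⁻¹' {0} := by
    ext x
    simp only [hZdef, hKdef, mem_setOf_eq, mem_inter_iff, mem_preimage, mem_singleton_iff]
    constructor
    · rintro ⟨h1, h2, h3⟩
      exact ⟨⟨h1, h2, by rw [h3, norm_zero]; exact hε.le⟩, h3⟩
    · rintro ⟨⟨h1, h2, _⟩, h3⟩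
      exact ⟨h1, h2, h3⟩
  have hZc : IsCompact Z := by
    rw [hZK]
    exact hK.of_isClosed_subset (hgK.preimage_isClosed_of_isClosed hK.isClosed
      isClosed_singleton) inter_subset_left
  -- finiteness
  have hZf : Z.Finite := by
    have h1 : ∀ z ∈ Z, ∃ N : Set E, N ∈ 𝓝 z ∧ ∀ y ∈ Z, y ∈ N → y = z := by
      intro z hz
      obtain ⟨hQz, hinj⟩ := hnd z hz.1 hz.2.1 hz.2.2
      obtain ⟨s, N, _, hNo, hzN, _, _, _, hNi, _, _⟩ :=
        parityBox_nbhd g O Q hO hg z hz.1 hQz hz.2.2 hinj univ univ_mem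
      refine ⟨N, hNo.mem_nhds hzN, fun y hy hyN => hNi hyN hzN ?_⟩
      rw [hy.2.2, hz.2.2]
    choose! N hN1 hN2 using h1
    obtain ⟨t, ht1, ht2⟩ := hZc.elim_nhds_subcover N hN1
    refine t.finite_toSet.subset ?_
    intro y hy
    obtain ⟨z, hz, hyz⟩ := mem_iUnion₂.1 (ht2 hy)
    rw [hN2 z (ht1 z hz) y hy hyz]
    exact hz
  refine ⟨hZf, ?_⟩
  -- disjoint neighbourhoods
  obtain ⟨U, hU1, hU2⟩ := hZf.t2_separation
  have h1 : ∀ z : E, ∃ (s : ℤ) (N : Set E), z ∈ Z → (s = 1 ∨ s = -1) ∧ IsOpen N ∧ z ∈ N ∧ N ⊆ O ∧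
      N ⊆ Q ∧ N ⊆ U z ∧ InjOn g N ∧ (∀ y ∈ N, (fderiv ℝ g y).det = s * |(fderiv ℝ g y).det|) ∧
      g '' N ∈ 𝓝 (0 : E) := by
    intro z
    by_cases hz : z ∈ Z
    · obtain ⟨hQz, hinj⟩ := hnd z hz.1 hz.2.1 hz.2.2
      obtain ⟨s, N, h⟩ := parityBox_nbhd g O Q hO hg z hz.1 hQz hz.2.2 hinj (U z)
        ((hU1 z).2.mem_nhds (hU1 z).1)
      exact ⟨s, N, fun _ => h⟩
    · exact ⟨0, ∅, fun h => absurd h hz⟩
  choose s N hN using h1
  have hNdisj : Z.PairwiseDisjoint N := by
    intro z hz z' hz' hne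
    exact (hU2 hz hz' hne).mono (hN z hz).2.2.2.2.2.1 (hN z' hz').2.2.2.2.2.1
  -- lower bound outside the neighbourhoods
  obtain ⟨δ', hδ', hlow⟩ : ∃ δ' : ℝ, 0 < δ' ∧ ∀ x ∈ K, x ∉ ⋃ z ∈ Z, N z → δ' ≤ ‖g x‖ := by
    have hc : IsCompact (K \ ⋃ z ∈ Z, N z) :=
      hK.diff (isOpen_biUnion fun z hz => (hN z hz).2.1)
    rcases (K \ ⋃ z ∈ Z, N z).eq_empty_or_nonempty with he | hne
    · refine ⟨1, one_pos, fun x hx hx' => ?_⟩
      have : x ∈ K \ ⋃ z ∈ Z, N z := ⟨hx, hx'⟩
      rw [he] at this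
      exact absurd this (notMem_empty x)
    · obtain ⟨x0, hx0, hmin⟩ := hc.exists_isMinOn hne ((hgK.mono diff_subset).norm)
      refine ⟨‖g x0‖, ?_, fun x hx hx' => hmin ⟨hx, hx'⟩⟩
      rw [norm_pos_iff]
      intro h0
      apply hx0.2
      have hz : x0 ∈ Z := ⟨hx0.1.1, hx0.1.2.1, h0⟩
      exact mem_biUnion hz (hN x0 hz).2.2.1
  -- choice of delta
  obtain ⟨δ, hδpos, hδε, hδδ, hδN⟩ : ∃ δ : ℝ, 0 < δ ∧ δ ≤ ε ∧ δ ≤ δ' ∧
      ∀ z ∈ Z, Metric.ball (0 : E) δ ⊆ g '' N z := by
    have e1 : ∀ᶠ δ : ℝ in 𝓝[>] 0, ∀ z ∈ Z, Metric.ball (0 : E) δ ⊆ g '' N z := by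
      rw [eventually_all_finite hZf]
      intro z hz
      obtain ⟨r, hr, hr'⟩ := Metric.mem_nhds_iff.1 (hN z hz).2.2.2.2.2.2.2.2
      filter_upwards [Ioc_mem_nhdsGT hr] with δ hδ
      exact (Metric.ball_subset_ball hδ.2).trans hr'
    have e2 : ∀ᶠ δ : ℝ in 𝓝[>] 0, 0 < δ ∧ δ ≤ ε := Ioc_mem_nhdsGT hε
    have e3 : ∀ᶠ δ : ℝ in 𝓝[>] 0, 0 < δ ∧ δ ≤ δ' := Ioc_mem_nhdsGT hδ'
    obtain ⟨δ, h1, h2, h3⟩ := (e1.and (e2.and e3)).exists
    exact ⟨δ, h2.1, h2.2, h3.2, h1⟩
  refine ⟨∑ z ∈ hZf.toFinset, s z, δ, hδpos, hδε, ?_, ?_⟩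
  · -- parity
    have e1 : ∀ z ∈ hZf.toFinset, Odd (s z) := by
      intro z hz
      rw [Set.Finite.mem_toFinset] at hz
      rcases (hN z hz).1 with h | h
      · rw [h]; exact odd_one
      · rw [h]; exact odd_neg_one
    have e2 : Z.ncard = hZf.toFinset.card := Set.ncard_eq_toFinset_card Z hZf
    rw [e2]
    have e3 : ((∑ z ∈ hZf.toFinset, s z : ℤ) : ZMod 2) = ((hZf.toFinset.card : ℕ) : ZMod 2) := by
      push_cast
      rw [Finset.sum_congr rfl (g := fun _ => (1 : ZMod 2)), Finset.sum_const, nsmul_eq_mul,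
        mul_one]
      intro z hz
      obtain ⟨k, hk⟩ := e1 z hz
      rw [hk]
      push_cast
      have : (2 : ZMod 2) = 0 := rfl
      rw [this]
      ring
    rw [← ZMod.intCast_eq_zero_iff_even, ← ZMod.natCast_eq_zero_iff_even, e3]
  · intro ρ hρi hρ
    set G : E → ℝ := O.indicator (fun x => ρ (g x) * (fderiv ℝ g x).det) with hG
    -- vanishing outside the neighbourhoods
    have hvan : ∀ x ∈ Q \ ⋃ z ∈ Z, N z, G x = 0 := by
      rintro x ⟨hxQ, hxN⟩
      by_contra hne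
      have hxO : x ∈ O := mem_of_indicator_ne_zero hne
      rw [hG, indicator_of_mem hxO] at hne
      have h2 : ρ (g x) ≠ 0 := left_ne_zero_of_mul hne
      have h3 := hρ _ h2
      have h4 : x ∈ K := ⟨hxO, hxQ, (h3.le.trans hδε)⟩
      have h5 := hlow x h4 hxN
      linarith
    have hmeas : ∀ z ∈ hZf.toFinset, MeasurableSet (N z) := by
      intro z hz
      rw [Set.Finite.mem_toFinset] at hz
      exact (hN z hz).2.1.measurableSet
    have hUeq : (⋃ z ∈ Z, N z) = ⋃ z ∈ hZf.toFinset, N z := by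
      simp
    have hsub : (⋃ z ∈ Z, N z) ⊆ Q := iUnion₂_subset fun z hz => (hN z hz).2.2.2.2.1
    have e1 : ∫ x in Q, G x ∂μ = ∫ x in ⋃ z ∈ Z, N z, G x ∂μ :=
      setIntegral_eq_of_subset_of_forall_sdiff_eq_zero hQm hsub hvan
    -- on each neighbourhood
    have hder : ∀ z ∈ Z, ∀ y ∈ N z, HasFDerivWithinAt g (fderiv ℝ g y) (N z) y := by
      intro z hz y hy
      have hyO : y ∈ O := (hN z hz).2.2.2.1 hy
      exact (((hg y hyO).contDiffAt (hO.mem_nhds hyO)).differentiableAt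
        one_ne_zero).hasFDerivAt.hasFDerivWithinAt
    have hGN : ∀ z ∈ Z, ∀ y ∈ N z, G y = (s z : ℝ) * (|(fderiv ℝ g y).det| • ρ (g y)) := by
      intro z hz y hy
      have hyO : y ∈ O := (hN z hz).2.2.2.1 hy
      rw [hG, indicator_of_mem hyO, smul_eq_mul]
      have h2 := (hN z hz).2.2.2.2.2.2.2.1 y hy
      calc ρ (g y) * (fderiv ℝ g y).det = ρ (g y) * (s z * |(fderiv ℝ g y).det|) := by rw [← h2]
        _ = _ := by ring
    have hint : ∀ z ∈ Z, IntegrableOn (fun y => |(fderiv ℝ g y).det| • ρ (g y)) (N z) μ := by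
      intro z hz
      exact (integrableOn_image_iff_integrableOn_abs_det_fderiv_smul μ
        (hN z hz).2.1.measurableSet (hder z hz) (hN z hz).2.2.2.2.2.2.1 ρ).1 hρi.integrableOn
    have e2 : ∫ x in ⋃ z ∈ Z, N z, G x ∂μ = ∑ z ∈ hZf.toFinset, ∫ x in N z, G x ∂μ := by
      rw [hUeq]
      refine integral_biUnion_finset _ hmeas ?_ ?_
      · intro z hz z' hz' hne
        rw [Finset.mem_coe, Set.Finite.mem_toFinset] at hz hz'
        exact hNdisj hz hz' hne
      · intro z hz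
        rw [Set.Finite.mem_toFinset] at hz
        have h3 : IntegrableOn (fun y => (s z : ℝ) * (|(fderiv ℝ g y).det| • ρ (g y))) (N z) μ :=
          Integrable.const_mul (hint z hz) _
        refine h3.congr_fun ?_ (hN z hz).2.1.measurableSet
        intro y hy
        exact (hGN z hz y hy).symm
    rw [e1, e2]
    push_cast
    rw [Finset.sum_mul]
    refine Finset.sum_congr rfl fun z hz => ?_
    rw [Set.Finite.mem_toFinset] at hz
    have e3 : ∫ x in N z, G x ∂μ =
        (s z : ℝ) * ∫ x in N z, |(fderiv ℝ g x).det| • ρ (g x) ∂μ := by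
      rw [← integral_const_mul]
      exact setIntegral_congr_fun (hN z hz).2.1.measurableSet (hGN z hz)
    rw [e3, ← integral_image_eq_integral_abs_det_fderiv_smul μ (hN z hz).2.1.measurableSet
      (hder z hz) (hN z hz).2.2.2.2.2.2.1 ρ]
    congr 1
    refine setIntegral_eq_integral_of_forall_compl_eq_zero ?_
    intro y hy
    by_contra hne
    have h2 := hρ y hne
    apply hy
    exact hδN z hz (by rw [mem_ball_zero_iff]; exact h2)

/-- the determinant as a continuous alternating map -/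
private noncomputable def parityBox_detC (M : ℕ) : (Fin M → ℝ) [⋀^Fin M]→L[ℝ] ℝ :=
  { (Matrix.detRowAlternating : (Fin M → ℝ) [⋀^Fin M]→ₗ[ℝ] ℝ) with
    cont := by
      change Continuous fun v : Fin M → Fin M → ℝ => Matrix.det v
      exact Continuous.matrix_det continuous_id }

private lemma parityBox_detC_apply (M : ℕ) (v : Fin M → Fin M → ℝ) :
    parityBox_detC M v = Matrix.det v := rfl

/-- forms of degree larger than the dimension vanish -/
private lemma parityBox_top (M : ℕ) (φ : (Fin M → ℝ) [⋀^Fin (M + 1)]→L[ℝ] ℝ) : φ = 0 := by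
  ext v
  have h : ¬ LinearIndependent ℝ v := by
    intro h
    have := h.fintype_card_le_finrank
    simp at this
  exact AlternatingMap.map_linearDependent φ.toAlternatingMap v h

open Filter Topology in
/-- the divergence theorem for the pulled back form -/
private lemma parityBox_div {M : ℕ} (h : (Fin (M + 1) → ℝ) → (Fin M → ℝ))
    (a b : Fin (M + 1) → ℝ) (hab : ∀ i, a i < b i) (O : Set (Fin (M + 1) → ℝ)) (hO : IsOpen O)
    (hh : ContDiffOn ℝ 2 h O) (ε : ℝ) (hcomp : IsCompact {x | x ∈ O ∧ x ∈ Icc a b ∧ ‖h x‖ ≤ ε})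
    (ρ : (Fin M → ℝ) → ℝ) (hρ : ContDiff ℝ 1 ρ) (hρs : ∀ y, ρ y ≠ 0 → ‖y‖ < ε) :
    ∑ i : Fin (M + 1),
      ((∫ y in Icc (a ∘ i.succAbove) (b ∘ i.succAbove), (-1 : ℝ) ^ (i : ℕ) *
        O.indicator (fun x => ρ (h x) * Matrix.det (fun j : Fin M =>
          fderiv ℝ h x (Pi.single (i.succAbove j) 1))) (i.insertNth (b i) y)) -
      ∫ y in Icc (a ∘ i.succAbove) (b ∘ i.succAbove), (-1 : ℝ) ^ (i : ℕ) *
        O.indicator (fun x => ρ (h x) * Matrix.det (fun j : Fin M =>
          fderiv ℝ h x (Pi.single (i.succAbove j) 1))) (i.insertNth (a i) y)) = 0 := by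
  classical
  set K : Set (Fin (M + 1) → ℝ) := {x | x ∈ O ∧ x ∈ Icc a b ∧ ‖h x‖ ≤ ε} with hK
  let pull : (Fin (M + 1) → ℝ) → (Fin (M + 1) → ℝ) [⋀^Fin M]→L[ℝ] ℝ := fun x =>
    (ρ (h x) • parityBox_detC M).compContinuousLinearMap (fderiv ℝ h x)
  let η : (Fin (M + 1) → ℝ) → (Fin (M + 1) → ℝ) [⋀^Fin M]→L[ℝ] ℝ := O.indicator pull
  have hηO : ∀ x ∈ O, η =ᶠ[𝓝 x] pull := by
    intro x hx
    filter_upwards [hO.mem_nhds hx] with y hy
    exact indicator_of_mem hy _
  have hh2 : ∀ x ∈ O, ContDiffAt ℝ 2 h x := fun x hx => (hh x hx).contDiffAt (hO.mem_nhds hx)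
  have hωd : ∀ y, DifferentiableAt ℝ (fun y => ρ y • parityBox_detC M) y := by
    intro y
    exact ((hρ.differentiable one_ne_zero) y).smul_const _
  have hpd : ∀ x ∈ O, DifferentiableAt ℝ pull x := by
    intro x hx
    have h1 : DifferentiableAt ℝ h x := (hh2 x hx).differentiableAt two_ne_zero
    have h2 : DifferentiableAt ℝ (fderiv ℝ h) x := by
      have := (hh2 x hx).fderiv_right (m := 1) (by norm_num)
      exact this.differentiableAt one_ne_zero
    have h3 : DifferentiableAt ℝ (fun x => ρ (h x) • parityBox_detC M) x :=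
      DifferentiableAt.comp (g := fun y => ρ y • parityBox_detC M) x (hωd (h x)) h1
    exact h3.continuousAlternatingMapCompContinuousLinearMap h2
  have hηd : ∀ x ∈ O, DifferentiableAt ℝ η x := fun x hx =>
    (hpd x hx).congr_of_eventuallyEq (hηO x hx)
  have hext : ∀ x ∈ O, extDeriv η x = 0 := by
    intro x hx
    rw [(hηO x hx).extDeriv_eq]
    have := extDeriv_pullback (ω := fun y => ρ y • parityBox_detC M) (f := h) (x := x) (r := 2)
      (hωd (h x)) (hh2 x hx) (by simp)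
    refine Eq.trans this ?_
    have h0 : extDeriv (fun y => ρ y • parityBox_detC M) (h x) = 0 := parityBox_top M _
    rw [h0]
    rfl
  -- outside
  have hKc : IsClosed K := hcomp.isClosed
  have hvan : ∀ y, y ∈ Icc a b → y ∉ K → η y = 0 := by
    intro y hy hyK
    by_cases hyO : y ∈ O
    · simp only [η, indicator_of_mem hyO, pull]
      have h1 : ρ (h y) = 0 := by
        by_contra hne
        exact hyK ⟨hyO, hy, (hρs _ hne).le⟩
      rw [h1, zero_smul]
      rfl
    · exact indicator_of_notMem hyO _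
  have hioo : IsOpen (pi univ fun i => Ioo (a i) (b i)) :=
    isOpen_set_pi finite_univ fun i _ => isOpen_Ioo
  have hsub : (pi univ fun i => Ioo (a i) (b i)) ⊆ Icc a b := by
    intro x hx
    exact ⟨fun i => (hx i trivial).1.le, fun i => (hx i trivial).2.le⟩
  have hηn : ∀ x ∈ (pi univ fun i => Ioo (a i) (b i)), x ∉ O → η =ᶠ[𝓝 x] fun _ => 0 := by
    intro x hx hxO
    have hxK : x ∉ K := fun h1 => hxO h1.1
    filter_upwards [hioo.mem_nhds hx, hKc.isOpen_compl.mem_nhds hxK] with y hy1 hy2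
    exact hvan y (hsub hy1) hy2
  have hηd' : ∀ x ∈ (pi univ fun i => Ioo (a i) (b i)), DifferentiableAt ℝ η x := by
    intro x hx
    by_cases hxO : x ∈ O
    · exact hηd x hxO
    · exact (differentiableAt_const (0 : (Fin (M + 1) → ℝ) [⋀^Fin M]→L[ℝ] ℝ)).congr_of_eventuallyEq
        (hηn x hx hxO)
  have hext' : ∀ x ∈ (pi univ fun i => Ioo (a i) (b i)), extDeriv η x = 0 := by
    intro x hx
    by_cases hxO : x ∈ O
    · exact hext x hxO
    · rw [(hηn x hx hxO).extDeriv_eq]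
      ext v
      rw [extDeriv_apply (differentiableAt_const _)]
      simp
  have hηc : ContinuousOn η (Icc a b) := by
    intro x hx
    by_cases hxO : x ∈ O
    · exact (hηd x hxO).continuousAt.continuousWithinAt
    · have hxK : x ∉ K := fun h1 => hxO h1.1
      have h1 : η =ᶠ[𝓝[Icc a b] x] fun _ => 0 := by
        filter_upwards [self_mem_nhdsWithin,
          mem_nhdsWithin_of_mem_nhds (hKc.isOpen_compl.mem_nhds hxK)] with y hy1 hy2
        exact hvan y hy1 hy2
      exact (continuousWithinAt_const).congr_of_eventuallyEq h1 (hvan x hx hxK)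
  -- the divergence theorem
  let ee : Fin (M + 1) → (Fin (M + 1) → ℝ) := fun i => Pi.single i 1
  have hzero : ∀ x, ∑ i : Fin (M + 1), ((pi univ fun i => Ioo (a i) (b i)).indicator
      (fun x => (-1 : ℝ) ^ (i : ℕ) • fderiv ℝ (fun x => η x (i.removeNth ee)) x)) x
        (Pi.single i 1) = 0 := by
    intro x
    by_cases hx : x ∈ (pi univ fun i => Ioo (a i) (b i))
    · have h1 := extDeriv_apply (hηd' x hx) ee
      rw [hext' x hx] at h1
      simp only [indicator_of_mem hx, ContinuousLinearMap.smul_apply]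
      refine Eq.trans (Finset.sum_congr rfl fun i _ => ?_) h1.symm
      simp only [ee, zsmul_eq_mul, smul_eq_mul]
      push_cast
      rfl
    · simp only [indicator_of_notMem hx]
      simp
  have key := integral_divergence_of_hasFDerivAt_off_countable' a b (fun i => (hab i).le)
    (fun i x => (-1 : ℝ) ^ (i : ℕ) * η x (i.removeNth ee))
    (fun i => (pi univ fun i => Ioo (a i) (b i)).indicator
      (fun x => (-1 : ℝ) ^ (i : ℕ) • fderiv ℝ (fun x => η x (i.removeNth ee)) x))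
    ∅ countable_empty ?_ ?_ ?_
  · rw [setIntegral_congr_fun (g := fun _ => 0) measurableSet_Icc] at key
    · rw [integral_zero] at key
      have hval : ∀ (i : Fin (M + 1)) (X : Fin (M + 1) → ℝ), η X (i.removeNth ee) =
          O.indicator (fun x => ρ (h x) * Matrix.det (fun j : Fin M =>
            fderiv ℝ h x (Pi.single (i.succAbove j) 1))) X := by
        intro i X
        by_cases hX : X ∈ O
        · simp only [η, indicator_of_mem hX, pull]
          rfl
        · simp only [η, indicator_of_notMem hX]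
          rfl
      simp only [hval] at key
      exact key.symm
    · intro x _
      exact hzero x
  · intro i
    exact (continuous_const.mul (continuous_eval_const (i.removeNth ee))).comp_continuousOn hηc
  · rintro x ⟨hx, _⟩ i
    rw [indicator_of_mem hx]
    have h1 : DifferentiableAt ℝ (fun x => η x (i.removeNth ee)) x :=
      (hηd' x hx).continuousAlternatingMap_apply (fun _ => differentiableAt_const _)
    exact h1.hasFDerivAt.const_mul _
  · refine IntegrableOn.congr_fun (f := fun _ => (0 : ℝ)) integrableOn_zero ?_ measurableSet_Icc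
    intro x _
    exact (hzero x).symm

/-- the linear part of `y ↦ i.insertNth c y` -/
private noncomputable def parityBox_L {M : ℕ} (i : Fin (M + 1)) :
    (Fin M → ℝ) →L[ℝ] (Fin (M + 1) → ℝ) :=
  ContinuousLinearMap.pi fun k =>
    (i.insertNth (α := fun _ => (Fin M → ℝ) →L[ℝ] ℝ) 0 (fun j => ContinuousLinearMap.proj j) k)

private lemma parityBox_L_same {M : ℕ} (i : Fin (M + 1)) (v : Fin M → ℝ) :
    parityBox_L i v i = 0 := by
  simp [parityBox_L]

private lemma parityBox_L_succ {M : ℕ} (i : Fin (M + 1)) (v : Fin M → ℝ) (j : Fin M) :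
    parityBox_L i v (i.succAbove j) = v j := by
  simp [parityBox_L]

private lemma parityBox_hasFDerivAt {M : ℕ} (i : Fin (M + 1)) (c : ℝ) (y : Fin M → ℝ) :
    HasFDerivAt (fun y : Fin M → ℝ => (i.insertNth c y : Fin (M + 1) → ℝ)) (parityBox_L i) y := by
  rw [hasFDerivAt_pi']
  intro k
  refine Fin.succAboveCases i ?_ (fun j => ?_) k
  · have e1 : (ContinuousLinearMap.proj i).comp (parityBox_L (M := M) i) = 0 := by
      ext v
      simp [parityBox_L]
    simp only [Fin.insertNth_apply_same]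
    rw [e1]
    exact hasFDerivAt_const c y
  · have e1 : (ContinuousLinearMap.proj (i.succAbove j)).comp (parityBox_L (M := M) i) =
        ContinuousLinearMap.proj (R := ℝ) (φ := fun _ : Fin M => ℝ) j := by
      ext v
      simp [parityBox_L]
    simp only [Fin.insertNth_apply_succAbove]
    rw [e1]
    exact hasFDerivAt_apply j y

private lemma parityBox_single {M : ℕ} (i : Fin (M + 1)) (j : Fin M) :
    parityBox_L i (Pi.single j 1) = (Pi.single (i.succAbove j) (1 : ℝ) : Fin (M + 1) → ℝ) := by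
  funext k
  refine Fin.succAboveCases i ?_ (fun l => ?_) k
  · rw [parityBox_L_same, Pi.single_eq_of_ne (Fin.succAbove_ne i j).symm]
  · rw [parityBox_L_succ]
    by_cases h : l = j
    · subst h
      simp
    · rw [Pi.single_eq_of_ne h, Pi.single_eq_of_ne]
      intro h1
      exact h (Fin.succAbove_right_injective h1)

private lemma parityBox_det {M : ℕ} (A : (Fin M → ℝ) →L[ℝ] (Fin M → ℝ)) :
    A.det = Matrix.det (fun j : Fin M => A (Pi.single j 1)) := by
  have h1 : A.det = LinearMap.det (A : (Fin M → ℝ) →ₗ[ℝ] (Fin M → ℝ)) := rfl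
  rw [h1, ← LinearMap.det_toMatrix', ← Matrix.det_transpose]
  congr 1

/-- **A1. Parity lemma on a box.** -/
theorem parity_box {M : ℕ} (h : (Fin (M + 1) → ℝ) → (Fin M → ℝ)) (a b : Fin (M + 1) → ℝ)
    (hab : ∀ i, a i < b i) (O : Set (Fin (M + 1) → ℝ)) (hO : IsOpen O) (hh : ContDiffOn ℝ 2 h O)
    (ε : ℝ) (hε : 0 < ε) (hcomp : IsCompact {x | x ∈ O ∧ x ∈ Icc a b ∧ ‖h x‖ ≤ ε})
    (hnd : ∀ x ∈ O, x ∈ Icc a b → h x = 0 → ∀ i, (x i = a i ∨ x i = b i) →
      (∀ j, j ≠ i → a j < x j ∧ x j < b j) ∧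
      ∀ v : Fin (M + 1) → ℝ, v i = 0 → fderiv ℝ h x v = 0 → v = 0) :
    {x | x ∈ O ∧ x ∈ Icc a b ∧ h x = 0 ∧ ∃ i, x i = a i ∨ x i = b i}.Finite ∧
      Even {x | x ∈ O ∧ x ∈ Icc a b ∧ h x = 0 ∧ ∃ i, x i = a i ∨ x i = b i}.ncard := by
  classical
  set K : Set (Fin (M + 1) → ℝ) := {x | x ∈ O ∧ x ∈ Icc a b ∧ ‖h x‖ ≤ ε} with hKdef
  let cc : Fin (M + 1) × Bool → ℝ := fun p => if p.2 = true then b p.1 else a p.1
  let X : Fin (M + 1) × Bool → (Fin M → ℝ) → (Fin (M + 1) → ℝ) := fun p y =>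
    p.1.insertNth (cc p) y
  have hcc : ∀ p, cc p = a p.1 ∨ cc p = b p.1 := by
    intro p
    simp only [cc]
    split_ifs
    · exact Or.inr rfl
    · exact Or.inl rfl
  have hXs : ∀ p y, X p y p.1 = cc p := fun p y => by simp [X]
  have hXj : ∀ p y j, X p y (p.1.succAbove j) = y j := fun p y j => by simp [X]
  have hXd : ∀ p y, HasFDerivAt (X p) (parityBox_L p.1) y := fun p y =>
    parityBox_hasFDerivAt p.1 (cc p) y
  have hXc : ∀ p, Continuous (X p) := fun p =>
    continuous_iff_continuousAt.2 fun y => (hXd p y).continuousAt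
  have hXinj : ∀ p, Function.Injective (X p) := by
    intro p y y' hy
    funext j
    rw [← hXj p y j, hy, hXj]
  have hXI : ∀ p y, X p y ∈ Icc a b ↔ y ∈ Icc (a ∘ p.1.succAbove) (b ∘ p.1.succAbove) := by
    intro p y
    constructor
    · rintro ⟨h1, h2⟩
      refine ⟨fun j => ?_, fun j => ?_⟩
      · have := h1 (p.1.succAbove j)
        rwa [hXj] at this
      · have := h2 (p.1.succAbove j)
        rwa [hXj] at this
    · rintro ⟨h1, h2⟩
      have hcI : a p.1 ≤ cc p ∧ cc p ≤ b p.1 := by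
        rcases hcc p with h3 | h3
        · rw [h3]; exact ⟨le_rfl, (hab _).le⟩
        · rw [h3]; exact ⟨(hab _).le, le_rfl⟩
      refine ⟨fun k => ?_, fun k => ?_⟩
      · refine Fin.succAboveCases p.1 ?_ (fun j => ?_) k
        · rw [hXs]; exact hcI.1
        · rw [hXj]; exact h1 j
      · refine Fin.succAboveCases p.1 ?_ (fun j => ?_) k
        · rw [hXs]; exact hcI.2
        · rw [hXj]; exact h2 j
  have hXcd : ∀ p, ContDiff ℝ 1 (X p) := by
    intro p
    have : X p = fun y => parityBox_L p.1 y + X p 0 := by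
      funext y k
      refine Fin.succAboveCases p.1 ?_ (fun j => ?_) k
      · rw [hXs, Pi.add_apply, parityBox_L_same, hXs, zero_add]
      · rw [hXj, Pi.add_apply, parityBox_L_succ, hXj]
        simp
    rw [this]
    exact (parityBox_L p.1).contDiff.add contDiff_const
  -- the face lemma
  have hface : ∀ p : Fin (M + 1) × Bool, _ := fun p =>
    parityBox_face (E := Fin M → ℝ) volume (fun y => h (X p y)) (X p ⁻¹' O)
      (Icc (a ∘ p.1.succAbove) (b ∘ p.1.succAbove)) (hO.preimage (hXc p)) measurableSet_Icc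
      ((hh.of_le (by norm_num)).comp (hXcd p).contDiffOn (fun y hy => hy)) ε hε
      (by
        -- compactness
        have e1 : {y : Fin M → ℝ | y ∈ X p ⁻¹' O ∧
            y ∈ Icc (a ∘ p.1.succAbove) (b ∘ p.1.succAbove) ∧ ‖h (X p y)‖ ≤ ε} =
            (fun x : Fin (M + 1) → ℝ => fun j => x (p.1.succAbove j)) ''
              (K ∩ {x | x p.1 = cc p}) := by
          ext y
          constructor
          · rintro ⟨h1, h2, h3⟩
            refine ⟨X p y, ⟨⟨h1, (hXI p y).2 h2, h3⟩, hXs p y⟩, ?_⟩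
            funext j
            exact hXj p y j
          · rintro ⟨x, ⟨⟨h1, h2, h3⟩, h4⟩, rfl⟩
            have e2 : X p (fun j => x (p.1.succAbove j)) = x := by
              funext k
              refine Fin.succAboveCases p.1 ?_ (fun j => ?_) k
              · rw [hXs]; exact h4.symm
              · rw [hXj]
            refine ⟨?_, ?_, ?_⟩
            · rw [mem_preimage, e2]; exact h1
            · rw [← hXI, e2]; exact h2
            · rw [e2]; exact h3
        rw [e1]
        refine IsCompact.image ?_ (continuous_pi fun j => continuous_apply _)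
        exact hcomp.inter_right (isClosed_eq (continuous_apply _) continuous_const))
      (by
        intro y hy hyQ hy0
        have hyI := (hXI p y).2 hyQ
        have h1 := hnd (X p y) hy hyI hy0 p.1 (by rw [hXs]; exact hcc p)
        refine ⟨?_, ?_⟩
        · have h2 : (pi univ fun j : Fin M => Ioo (a (p.1.succAbove j)) (b (p.1.succAbove j))) ∈
              nhds y := by
            refine (isOpen_set_pi finite_univ fun j _ => isOpen_Ioo).mem_nhds ?_
            intro j _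
            have := h1.1 (p.1.succAbove j) (Fin.succAbove_ne _ _)
            rw [hXj] at this
            exact this
          refine Filter.mem_of_superset h2 ?_
          intro y' hy'
          exact ⟨fun j => (hy' j trivial).1.le, fun j => (hy' j trivial).2.le⟩
        · intro v hv
          have h2 : HasFDerivAt (fun y => h (X p y)) ((fderiv ℝ h (X p y)).comp (parityBox_L p.1)) y :=
            HasFDerivAt.comp (g := h) y ((((hh _ hy).contDiffAt (hO.mem_nhds hy)).differentiableAt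
              two_ne_zero).hasFDerivAt) (hXd p y)
          rw [h2.fderiv, ContinuousLinearMap.comp_apply] at hv
          have h3 := h1.2 _ (parityBox_L_same p.1 v) hv
          funext j
          have h4 := congrFun h3 (p.1.succAbove j)
          rw [parityBox_L_succ] at h4
          exact h4)
  choose hfin S δ hδpos hδε hpar hint using hface
  -- a common bump function
  obtain ⟨δ₀, hδ₀, hδ₀'⟩ : ∃ δ₀ : ℝ, 0 < δ₀ ∧ ∀ p, δ₀ ≤ δ p := by
    refine ⟨Finset.univ.inf' Finset.univ_nonempty δ, ?_, fun p => Finset.inf'_le _ (Finset.mem_univ p)⟩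
    rw [Finset.lt_inf'_iff]
    exact fun p _ => hδpos p
  let ρ : ContDiffBump (0 : Fin M → ℝ) := ⟨δ₀ / 2, δ₀, by positivity, by linarith⟩
  have hρs : ∀ y, ρ y ≠ 0 → ‖y‖ < δ₀ := by
    intro y hy
    have h1 : y ∈ Function.support ρ := hy
    rw [ρ.support_eq, mem_ball_zero_iff] at h1
    exact h1
  have hI : 0 < ∫ y, ρ y := ρ.integral_pos
  have hval : ∀ p : Fin (M + 1) × Bool,
      ∫ y in Icc (a ∘ p.1.succAbove) (b ∘ p.1.succAbove), (-1 : ℝ) ^ (p.1 : ℕ) *
        O.indicator (fun x => ρ (h x) * Matrix.det (fun j : Fin M =>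
          fderiv ℝ h x (Pi.single (p.1.succAbove j) 1))) (X p y) =
      (-1 : ℝ) ^ (p.1 : ℕ) * (S p * ∫ y, ρ y) := by
    intro p
    rw [integral_const_mul, ← hint p ρ ρ.integrable (fun y hy => (hρs y hy).trans_le (hδ₀' p))]
    congr 1
    refine setIntegral_congr_fun measurableSet_Icc fun y _ => ?_
    by_cases hy : X p y ∈ O
    · have hy' : y ∈ X p ⁻¹' O := hy
      rw [indicator_of_mem hy, indicator_of_mem hy']
      congr 1
      have h2 : HasFDerivAt (fun y => h (X p y)) ((fderiv ℝ h (X p y)).comp (parityBox_L p.1)) y :=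
        HasFDerivAt.comp (g := h) y ((((hh _ hy).contDiffAt (hO.mem_nhds hy)).differentiableAt
          two_ne_zero).hasFDerivAt) (hXd p y)
      rw [h2.fderiv, parityBox_det]
      congr 1
      funext j
      rw [ContinuousLinearMap.comp_apply, parityBox_single]
    · have hy' : y ∉ X p ⁻¹' O := hy
      rw [indicator_of_notMem hy, indicator_of_notMem hy']
  have hdiv := parityBox_div h a b hab O hO hh ε hcomp ρ ρ.contDiff
    (fun y hy => (hρs y hy).trans_le ((hδ₀' (0, true)).trans (hδε (0, true))))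
  have hsum : ∑ i : Fin (M + 1), ((-1 : ℝ) ^ (i : ℕ) * (S (i, true) * ∫ y, ρ y) -
      (-1 : ℝ) ^ (i : ℕ) * (S (i, false) * ∫ y, ρ y)) = 0 := by
    rw [← hdiv]
    refine Finset.sum_congr rfl fun i _ => ?_
    rw [← hval (i, true), ← hval (i, false)]
    rfl
  have hsumZ : ∑ i : Fin (M + 1), (-1 : ℤ) ^ (i : ℕ) * (S (i, true) - S (i, false)) = 0 := by
    have h1 : (∑ i : Fin (M + 1), (-1 : ℝ) ^ (i : ℕ) * (S (i, true) - S (i, false))) *
        ∫ y, ρ y = 0 := by
      rw [← hsum, Finset.sum_mul]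
      refine Finset.sum_congr rfl fun i _ => ?_
      ring
    have h2 := (mul_eq_zero.1 h1).resolve_right hI.ne'
    exact_mod_cast h2
  -- parity of the total count
  set Zp : Fin (M + 1) × Bool → Set (Fin M → ℝ) := fun p => {y | y ∈ X p ⁻¹' O ∧
    y ∈ Icc (a ∘ p.1.succAbove) (b ∘ p.1.succAbove) ∧ h (X p y) = 0} with hZp
  have hfin' : ∀ p, (Zp p).Finite := hfin
  have hpar' : ∀ p, ((S p : ℤ) : ZMod 2) = (((Zp p).ncard : ℕ) : ZMod 2) := by
    intro p
    have h1 : Even (S p) ↔ Even (Zp p).ncard := hpar p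
    rw [← ZMod.intCast_eq_zero_iff_even, ← ZMod.natCast_eq_zero_iff_even] at h1
    have h2 : ∀ u v : ZMod 2, (u = 0 ↔ v = 0) → u = v := by decide
    exact h2 _ _ h1
  have htot : ((∑ p : Fin (M + 1) × Bool, (Zp p).ncard : ℕ) : ZMod 2) = 0 := by
    have h1 : ((∑ i : Fin (M + 1), (-1 : ℤ) ^ (i : ℕ) * (S (i, true) - S (i, false)) : ℤ) :
        ZMod 2) = 0 := by rw [hsumZ]; rfl
    rw [← h1]
    push_cast
    rw [Fintype.sum_prod_type]
    refine Finset.sum_congr rfl fun i _ => ?_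
    rw [Fintype.sum_bool, ← hpar', ← hpar']
    have h3 : (-1 : ZMod 2) = 1 := by decide
    rw [h3, one_pow, one_mul, sub_eq_add_neg]
    have h4 : ∀ u : ZMod 2, -u = u := by decide
    rw [h4]
  -- decomposition of the zeros
  set Z : Set (Fin (M + 1) → ℝ) :=
    {x | x ∈ O ∧ x ∈ Icc a b ∧ h x = 0 ∧ ∃ i, x i = a i ∨ x i = b i} with hZ
  have hZeq : Z = ⋃ p : Fin (M + 1) × Bool, X p '' Zp p := by
    ext x
    rw [mem_iUnion]
    constructor
    · rintro ⟨h1, h2, h3, i, h4⟩
      obtain ⟨p, hp1, hp2⟩ : ∃ p : Fin (M + 1) × Bool, p.1 = i ∧ x p.1 = cc p := by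
        rcases h4 with h4 | h4
        · exact ⟨(i, false), rfl, by simpa [cc] using h4⟩
        · exact ⟨(i, true), rfl, by simpa [cc] using h4⟩
      have e2 : X p (fun j => x (p.1.succAbove j)) = x := by
        funext k
        refine Fin.succAboveCases p.1 ?_ (fun j => ?_) k
        · rw [hXs]; exact hp2.symm
        · rw [hXj]
      refine ⟨p, fun j => x (p.1.succAbove j), ⟨?_, ?_, ?_⟩, e2⟩
      · rw [mem_preimage, e2]; exact h1
      · rw [← hXI, e2]; exact h2
      · rw [e2]; exact h3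
    · rintro ⟨p, y, ⟨h1, h2, h3⟩, rfl⟩
      refine ⟨h1, (hXI p y).2 h2, h3, p.1, ?_⟩
      rw [hXs]
      exact hcc p
  have hdisj : ∀ p p', p ≠ p' → Disjoint (X p '' Zp p) (X p' '' Zp p') := by
    intro p p' hne
    rw [Set.disjoint_left]
    rintro x ⟨y, ⟨h1, h2, h3⟩, rfl⟩ ⟨y', hy', hyy⟩
    have h4 := hnd (X p y) h1 ((hXI p y).2 h2) h3 p.1 (by rw [hXs]; exact hcc p)
    have h5 : X p y p'.1 = cc p' := by rw [← hyy, hXs]
    by_cases h6 : p'.1 = p.1
    · have h7 : p'.2 ≠ p.2 := fun h8 => hne (Prod.ext h6.symm h8.symm)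
      rw [h6, hXs] at h5
      have h9 := hab p.1
      simp only [cc, h6] at h5
      cases hb : p.2 <;> cases hb' : p'.2 <;> simp [hb, hb'] at h5 h7
      · linarith
      · linarith
    · have h7 := h4.1 p'.1 h6
      rw [h5] at h7
      rcases hcc p' with h8 | h8
      · rw [h8] at h7; exact lt_irrefl _ h7.1
      · rw [h8] at h7; exact lt_irrefl _ h7.2
  have hZfin : Z.Finite := by
    rw [hZeq]
    exact Set.finite_iUnion fun p => (hfin' p).image _
  refine ⟨hZfin, ?_⟩
  have hcard : Z.ncard = ∑ p : Fin (M + 1) × Bool, (Zp p).ncard := by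
    have e1 : hZfin.toFinset = Finset.univ.biUnion fun p : Fin (M + 1) × Bool =>
        ((hfin' p).image (X p)).toFinset := by
      ext x
      rw [Set.Finite.mem_toFinset, hZeq]
      simp
    rw [Set.ncard_eq_toFinset_card Z hZfin, e1, Finset.card_biUnion]
    · refine Finset.sum_congr rfl fun p _ => ?_
      rw [← Set.ncard_eq_toFinset_card _ ((hfin' p).image (X p)),
        Set.ncard_image_of_injective _ (hXinj p)]
    · intro p _ p' _ hne
      change Disjoint ((hfin' p).image (X p)).toFinset ((hfin' p').image (X p')).toFinset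
      rw [← Finset.disjoint_coe, Set.Finite.coe_toFinset, Set.Finite.coe_toFinset]
      exact hdisj p p' hne
  rw [hcard, ← ZMod.natCast_eq_zero_iff_even]
  exact htot

end Pool.Agent.AVG
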