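import Pool.Agent.Lib.MP_89fc28_gt.G.ParityBox

/-! # MP_89fc28_gt: parity lemma on a product -/

set_option autoImplicit false

open Set MeasureTheory Module

namespace Pool.Agent.AVG

/-- The linear identification of a product with a coordinate space. -/
private noncomputable def parityProd_T {E : Type} [NormedAddCommGroup E] [NormedSpace ℝ E]
    [FiniteDimensional ℝ E] {q M : ℕ} (hM : M + 1 = finrank ℝ E + q) :
    (E × (Fin q → ℝ)) ≃L[ℝ] (Fin (M + 1) → ℝ) :=
  (((((LinearEquiv.ofFinrankEq E (Fin (finrank ℝ E) → ℝ) (by simp)).prodCongr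
    (LinearEquiv.refl ℝ (Fin q → ℝ))).trans
      (LinearEquiv.sumArrowLequivProdArrow (Fin (finrank ℝ E)) (Fin q) ℝ ℝ).symm).trans
        (LinearEquiv.funCongrLeft ℝ ℝ ((finCongr hM).trans finSumFinEquiv.symm)))).toContinuousLinearEquiv

private noncomputable def parityProd_σ {e q M : ℕ} (hM : M + 1 = e + q) :
    Fin (M + 1) ≃ Fin e ⊕ Fin q := (finCongr hM).trans finSumFinEquiv.symm

private lemma parityProd_T_inr {E : Type} [NormedAddCommGroup E] [NormedSpace ℝ E]
    [FiniteDimensional ℝ E] {q M : ℕ} (hM : M + 1 = finrank ℝ E + q) (x : E × (Fin q → ℝ))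
    (i : Fin (M + 1)) (i' : Fin q) (hi : parityProd_σ hM i = Sum.inr i') :
    parityProd_T hM x i = x.2 i' := by
  have h1 : ∃ g : Fin (finrank ℝ E) → ℝ,
      parityProd_T hM x i = Sum.elim g x.2 (parityProd_σ hM i) := ⟨_, rfl⟩
  obtain ⟨g, hg⟩ := h1
  rw [hg, hi]
  rfl

/-- **A2. Parity lemma on a product.** -/
theorem parity_prod {E F : Type} [NormedAddCommGroup E] [NormedSpace ℝ E] [FiniteDimensional ℝ E]
    [NormedAddCommGroup F] [NormedSpace ℝ F] [FiniteDimensional ℝ F] {q : ℕ}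
    (hdim : finrank ℝ F + 1 = finrank ℝ E + q) (h : E × (Fin q → ℝ) → F)
    (O : Set (E × (Fin q → ℝ))) (hO : IsOpen O) (hh : ContDiffOn ℝ 2 h O)
    (ε : ℝ) (hε : 0 < ε) (hcomp : IsCompact {x | x ∈ O ∧ x.2 ∈ Icc 0 1 ∧ ‖h x‖ ≤ ε})
    (hnd : ∀ x ∈ O, x.2 ∈ Icc 0 1 → h x = 0 → ∀ i, (x.2 i = 0 ∨ x.2 i = 1) →
      (∀ j, j ≠ i → 0 < x.2 j ∧ x.2 j < 1) ∧
      ∀ v : E × (Fin q → ℝ), v.2 i = 0 → fderiv ℝ h x v = 0 → v = 0) :
    {x | x ∈ O ∧ x.2 ∈ Icc 0 1 ∧ h x = 0 ∧ ∃ i, x.2 i = 0 ∨ x.2 i = 1}.Finite ∧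
      Even {x | x ∈ O ∧ x.2 ∈ Icc 0 1 ∧ h x = 0 ∧ ∃ i, x.2 i = 0 ∨ x.2 i = 1}.ncard := by
  classical
  set M := finrank ℝ F with hMdef
  set T := parityProd_T (E := E) hdim with hT
  set σ := parityProd_σ (e := finrank ℝ E) (q := q) hdim with hσ
  have hTinr : ∀ (x : E × (Fin q → ℝ)) i i', σ i = Sum.inr i' → T x i = x.2 i' :=
    fun x i i' hi => parityProd_T_inr hdim x i i' hi
  set TF : F ≃L[ℝ] (Fin M → ℝ) := ContinuousLinearEquiv.ofFinrankEq (by simp [hMdef]) with hTF
  set K := {x : E × (Fin q → ℝ) | x ∈ O ∧ x.2 ∈ Icc 0 1 ∧ ‖h x‖ ≤ ε} with hK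
  have hKT : IsCompact (T '' K) := hcomp.image T.continuous
  obtain ⟨R₀, hR₀⟩ := hKT.isBounded.exists_norm_le
  set R : ℝ := |R₀| + 1 with hR
  have hRpos : 0 < R := by positivity
  have hKR : ∀ y ∈ K, ∀ j, -R < T y j ∧ T y j < R := by
    intro y hy j
    have h1 := hR₀ (T y) ⟨y, hy, rfl⟩
    have h2 : ‖T y j‖ ≤ R₀ := (norm_le_pi_norm (T y) j).trans h1
    rw [Real.norm_eq_abs] at h2
    have h3 := le_abs_self R₀
    constructor
    · have := (abs_le.mp h2).1
      linarith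
    · have := (abs_le.mp h2).2
      linarith
  set a : Fin (M + 1) → ℝ := fun i => Sum.elim (fun _ => -R) (fun _ => 0) (σ i) with ha
  set b : Fin (M + 1) → ℝ := fun i => Sum.elim (fun _ => R) (fun _ => 1) (σ i) with hb
  have hainl : ∀ i i', σ i = Sum.inl i' → a i = -R ∧ b i = R := by
    intro i i' hi
    simp only [ha, hb, hi, Sum.elim_inl, and_self]
  have hainr : ∀ i i', σ i = Sum.inr i' → a i = 0 ∧ b i = 1 := by
    intro i i' hi
    simp only [ha, hb, hi, Sum.elim_inr, and_self]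
  have hab : ∀ i, a i < b i := by
    intro i
    rcases hi : σ i with i' | i'
    · rw [(hainl i i' hi).1, (hainl i i' hi).2]
      linarith
    · rw [(hainr i i' hi).1, (hainr i i' hi).2]
      norm_num
  set h' : (Fin (M + 1) → ℝ) → (Fin M → ℝ) := TF ∘ h ∘ T.symm with hh'
  set O' : Set (Fin (M + 1) → ℝ) := T.symm ⁻¹' O with hO'
  have hO'open : IsOpen O' := hO.preimage T.symm.continuous
  have hh'c : ContDiffOn ℝ 2 h' O' := by
    refine TF.contDiff.comp_contDiffOn ?_
    exact hh.comp T.symm.contDiff.contDiffOn (fun x hx => hx)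
  -- the second component
  have hsnd : ∀ x : Fin (M + 1) → ℝ, x ∈ Icc a b → (T.symm x).2 ∈ Icc (0 : Fin q → ℝ) 1 := by
    intro x hx
    have h1 : ∀ i', 0 ≤ (T.symm x).2 i' ∧ (T.symm x).2 i' ≤ 1 := by
      intro i'
      have hi : σ (σ.symm (Sum.inr i')) = Sum.inr i' := σ.apply_symm_apply _
      have h2 := hTinr (T.symm x) _ i' hi
      rw [T.apply_symm_apply] at h2
      rw [← h2]
      have h3 := hx.1 (σ.symm (Sum.inr i'))
      have h4 := hx.2 (σ.symm (Sum.inr i'))
      rw [(hainr _ i' hi).1] at h3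
      rw [(hainr _ i' hi).2] at h4
      exact ⟨h3, h4⟩
    exact ⟨fun i' => (h1 i').1, fun i' => (h1 i').2⟩
  have hmemIcc : ∀ y ∈ K, T y ∈ Icc a b := by
    intro y hy
    have h1 : ∀ i, a i ≤ T y i ∧ T y i ≤ b i := by
      intro i
      rcases hi : σ i with i' | i'
      · rw [(hainl i i' hi).1, (hainl i i' hi).2]
        exact ⟨(hKR y hy i).1.le, (hKR y hy i).2.le⟩
      · rw [(hainr i i' hi).1, (hainr i i' hi).2, hTinr y i i' hi]
        exact ⟨hy.2.1.1 i', hy.2.1.2 i'⟩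
    exact ⟨fun i => (h1 i).1, fun i => (h1 i).2⟩
  set ε' : ℝ := ε / (‖(TF.symm : (Fin M → ℝ) →L[ℝ] F)‖ + 1) with hε'
  have hε'pos : 0 < ε' := by positivity
  have hnorm : ∀ y : F, ‖TF y‖ ≤ ε' → ‖y‖ ≤ ε := by
    intro y hy
    have h1 : ‖y‖ ≤ ‖(TF.symm : (Fin M → ℝ) →L[ℝ] F)‖ * ‖TF y‖ := by
      have := (TF.symm : (Fin M → ℝ) →L[ℝ] F).le_opNorm (TF y)
      simpa using this
    have h2 : 0 ≤ ‖(TF.symm : (Fin M → ℝ) →L[ℝ] F)‖ := norm_nonneg _
    calc ‖y‖ ≤ ‖(TF.symm : (Fin M → ℝ) →L[ℝ] F)‖ * ‖TF y‖ := h1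
      _ ≤ (‖(TF.symm : (Fin M → ℝ) →L[ℝ] F)‖ + 1) * ε' := by
          gcongr
          linarith
      _ = ε := by rw [hε']; field_simp
  have hcomp' : IsCompact {x | x ∈ O' ∧ x ∈ Icc a b ∧ ‖h' x‖ ≤ ε'} := by
    have hcont : ContinuousOn h' (T '' K) := by
      refine hh'c.continuousOn.mono ?_
      rintro _ ⟨y, hy, rfl⟩
      simp only [hO', mem_preimage, T.symm_apply_apply]
      exact hy.1
    have h1 : IsClosed (T '' K ∩ h' ⁻¹' Metric.closedBall 0 ε') :=
      hcont.preimage_isClosed_of_isClosed hKT.isClosed Metric.isClosed_closedBall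
    have h2 : {x | x ∈ O' ∧ x ∈ Icc a b ∧ ‖h' x‖ ≤ ε'} =
        (T '' K ∩ h' ⁻¹' Metric.closedBall 0 ε') ∩ Icc a b := by
      ext x
      simp only [mem_ofPred_eq, mem_inter_iff, mem_preimage, mem_closedBall_zero_iff]
      constructor
      · rintro ⟨hx1, hx2, hx3⟩
        refine ⟨⟨⟨T.symm x, ⟨hx1, hsnd x hx2, hnorm _ hx3⟩, T.apply_symm_apply x⟩, hx3⟩, hx2⟩
      · rintro ⟨⟨⟨y, hy, rfl⟩, hx3⟩, hx2⟩
        refine ⟨?_, hx2, hx3⟩
        simp only [hO', mem_preimage, T.symm_apply_apply]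
        exact hy.1
    rw [h2]
    exact (hKT.of_isClosed_subset h1 inter_subset_left).inter_right isClosed_Icc
  have hzeroK : ∀ y, y ∈ O → y.2 ∈ Icc (0 : Fin q → ℝ) 1 → h y = 0 → y ∈ K := by
    intro y h1 h2 h3
    exact ⟨h1, h2, by rw [h3, norm_zero]; exact hε.le⟩
  have hnd' : ∀ x ∈ O', x ∈ Icc a b → h' x = 0 → ∀ i, (x i = a i ∨ x i = b i) →
      (∀ j, j ≠ i → a j < x j ∧ x j < b j) ∧
      ∀ v : Fin (M + 1) → ℝ, v i = 0 → fderiv ℝ h' x v = 0 → v = 0 := by
    intro x hx1 hx2 hx3 i hi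
    have hy3 : h (T.symm x) = 0 := by
      have : TF (h (T.symm x)) = 0 := hx3
      simpa using this
    have hyK := hzeroK (T.symm x) hx1 (hsnd x hx2) hy3
    have hTy : T (T.symm x) = x := T.apply_symm_apply x
    have hstrict : ∀ j, -R < x j ∧ x j < R := by
      intro j
      have := hKR _ hyK j
      rwa [hTy] at this
    rcases hσi : σ i with i' | i'
    · exfalso
      rw [(hainl i i' hσi).1, (hainl i i' hσi).2] at hi
      have := hstrict i
      rcases hi with h1 | h1 <;> linarith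
    · have hxi : x i = (T.symm x).2 i' := by
        have := hTinr (T.symm x) i i' hσi
        rwa [hTy] at this
      rw [(hainr i i' hσi).1, (hainr i i' hσi).2, hxi] at hi
      obtain ⟨h1, h2⟩ := hnd (T.symm x) hx1 (hsnd x hx2) hy3 i' hi
      constructor
      · intro j hj
        rcases hσj : σ j with j' | j'
        · rw [(hainl j j' hσj).1, (hainl j j' hσj).2]
          exact hstrict j
        · rw [(hainr j j' hσj).1, (hainr j j' hσj).2]
          have hxj : x j = (T.symm x).2 j' := by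
            have := hTinr (T.symm x) j j' hσj
            rwa [hTy] at this
          rw [hxj]
          apply h1
          rintro rfl
          apply hj
          apply σ.injective
          rw [hσi, hσj]
      · intro v hv hv2
        have h3 : fderiv ℝ h' x = (TF : F →L[ℝ] (Fin M → ℝ)).comp ((fderiv ℝ h (T.symm x)).comp
            (T.symm : (Fin (M + 1) → ℝ) →L[ℝ] (E × (Fin q → ℝ)))) := by
          rw [hh', TF.comp_fderiv, T.symm.comp_right_fderiv]
        rw [h3] at hv2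
        simp only [ContinuousLinearMap.comp_apply, ContinuousLinearEquiv.coe_coe] at hv2
        have h4 : fderiv ℝ h (T.symm x) (T.symm v) = 0 := by
          simpa using hv2
        have h5 : (T.symm v).2 i' = 0 := by
          have := hTinr (T.symm v) i i' hσi
          rw [T.apply_symm_apply] at this
          rw [← this]
          exact hv
        have h6 := h2 _ h5 h4
        simpa using h6
  obtain ⟨hfin, heven⟩ := parity_box h' a b hab O' hO'open hh'c ε' hε'pos hcomp' hnd'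
  have himg : {x | x ∈ O' ∧ x ∈ Icc a b ∧ h' x = 0 ∧ ∃ i, x i = a i ∨ x i = b i} =
      T '' {x | x ∈ O ∧ x.2 ∈ Icc 0 1 ∧ h x = 0 ∧ ∃ i, x.2 i = 0 ∨ x.2 i = 1} := by
    ext x
    simp only [mem_ofPred_eq, mem_image]
    constructor
    · rintro ⟨hx1, hx2, hx3, i, hi⟩
      have hy3 : h (T.symm x) = 0 := by
        have : TF (h (T.symm x)) = 0 := hx3
        simpa using this
      have hyK := hzeroK (T.symm x) hx1 (hsnd x hx2) hy3
      have hTy : T (T.symm x) = x := T.apply_symm_apply x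
      refine ⟨T.symm x, ⟨hx1, hsnd x hx2, hy3, ?_⟩, hTy⟩
      rcases hσi : σ i with i' | i'
      · exfalso
        rw [(hainl i i' hσi).1, (hainl i i' hσi).2] at hi
        have := hKR _ hyK i
        rw [hTy] at this
        rcases hi with h1 | h1 <;> linarith [this.1, this.2]
      · rw [(hainr i i' hσi).1, (hainr i i' hσi).2] at hi
        have hxi : x i = (T.symm x).2 i' := by
          have := hTinr (T.symm x) i i' hσi
          rwa [hTy] at this
        rw [hxi] at hi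
        exact ⟨i', hi⟩
    · rintro ⟨y, ⟨hy1, hy2, hy3, i', hi'⟩, rfl⟩
      have hyK := hzeroK y hy1 hy2 hy3
      refine ⟨?_, hmemIcc y hyK, ?_, σ.symm (Sum.inr i'), ?_⟩
      · simp only [hO', mem_preimage, T.symm_apply_apply]
        exact hy1
      · simp only [hh', Function.comp_apply, T.symm_apply_apply, hy3, map_zero]
      · have hi : σ (σ.symm (Sum.inr i')) = Sum.inr i' := σ.apply_symm_apply _
        rw [(hainr _ i' hi).1, (hainr _ i' hi).2, hTinr y _ i' hi]
        exact hi'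
  rw [himg] at hfin heven
  refine ⟨hfin.of_finite_image T.injective.injOn, ?_⟩
  rwa [Set.ncard_image_of_injective _ T.injective] at heven

end Pool.Agent.AVG
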