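import Pool.Agent.Lib.MP_89fc28_gt.G.Simplex
import Pool.Agent.Lib.MP_89fc28_gt.G.Moments
import Pool.Agent.Lib.MP_89fc28_gt.G.Card
import Pool.Agent.Lib.MP_89fc28_gt.G.Mk

/-! # MP_89fc28_gt: the points of the chain -/

set_option autoImplicit false

open Set MeasureTheory Module

namespace Pool.Agent.AVG

private theorem norm_act {N m : ℕ} {A : Fin m → Eu N} (hA : gram A = gramOne m) (v : Eu m) :
    ‖act A v‖ = ‖v‖ := by
  have h := inner_act hA v v
  rw [real_inner_self_eq_norm_sq, real_inner_self_eq_norm_sq] at h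
  exact (sq_eq_sq₀ (norm_nonneg _) (norm_nonneg _)).mp h

private theorem act_add {N m : ℕ} (A : Fin m → Eu N) (v w : Eu m) :
    act A (v + w) = act A v + act A w := by
  unfold act
  rw [← Finset.sum_add_distrib]
  exact Finset.sum_congr rfl fun i _ => by rw [← add_smul]; rfl

private theorem act_smul {N m : ℕ} (A : Fin m → Eu N) (c : ℝ) (v : Eu m) :
    act A (c • v) = c • act A v := by
  unfold act
  rw [Finset.smul_sum]
  exact Finset.sum_congr rfl fun i _ => by rw [smul_smul]; rfl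

private theorem act_single {N m : ℕ} (A : Fin m → Eu N) (i : Fin m) :
    act A (EuclideanSpace.single i (1 : ℝ)) = A i := by
  unfold act
  rw [Finset.sum_eq_single i]
  · simp
  · intro j _ hj
    simp [hj]
  · simp

private theorem one_le_cast {m : ℕ} (hm : 2 ≤ m) : (2 : ℝ) ≤ m := by exact_mod_cast hm

/-- **F1. The points of the chain.** -/
theorem exists_confE {N m : ℕ} (hm : 2 ≤ m) {A : Fin m → Eu N} (hA : gram A = gramOne m) :
    ∃ x : Conf N (rm m) (m + 1), ∀ l, (x.1 l : Eu N) = act A (pf m l) := by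
  refine ⟨⟨fun l => ⟨act A (pf m l), ?_⟩, ?_⟩, fun l => rfl⟩
  · rw [mem_sphere_zero_iff_norm, norm_act hA, norm_pf hm]
  · intro i l hil
    show rm m ≤ gd _ _
    unfold rm gd
    apply Real.arccos_le_arccos
    show inner ℝ (act A (pf m i)) (act A (pf m l)) ≤ _
    rw [inner_act hA, inner_pf hm hil]

theorem exists_confC {N m : ℕ} (hm : 2 ≤ m) {A : Fin m → Eu N} (hA : gram A = gramOne m) {ρ : ℝ}
    (hρ : ρ ∈ Icc (0 : ℝ) 1) :
    ∃ x : Conf N (rm m) m, ∀ l, (x.1 l : Eu N) = act A (pv m ρ l) := by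
  refine ⟨⟨fun l => ⟨act A (pv m ρ l), ?_⟩, ?_⟩, fun l => rfl⟩
  · rw [mem_sphere_zero_iff_norm, norm_act hA, norm_pv hm hρ]
  · intro i l hil
    show rm m ≤ gd _ _
    unfold rm gd
    apply Real.arccos_le_arccos
    show inner ℝ (act A (pv m ρ i)) (act A (pv m ρ l)) ≤ _
    rw [inner_act hA, inner_pv hm hρ hil]
    have h2 := one_le_cast hm
    have h3 : (0 : ℝ) < m * ((m : ℝ) - 1) := by nlinarith
    have h4 : ρ ^ 2 ≤ 1 := by
      have := hρ.1; have := hρ.2
      nlinarith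
    have h5 : ρ ^ 2 / (m * ((m : ℝ) - 1)) ≤ 1 / (m * ((m : ℝ) - 1)) :=
      div_le_div_of_nonneg_right h4 h3.le
    have h6 : -(1 / ((m : ℝ) - 1)) + 1 / (m * ((m : ℝ) - 1)) = -(1 / (m : ℝ)) := by
      have : (m : ℝ) - 1 ≠ 0 := by
        have : (1 : ℝ) < m := by linarith
        linarith
      have : (m : ℝ) ≠ 0 := by positivity
      field_simp
      ring
    linarith

private theorem wt_zero {m : ℕ} (u : Fin m → ℝ) : wt u 0 = 1 := by
  simp [wt]

private theorem wt_succ {m : ℕ} (u : Fin m → ℝ) {l : ℕ} (hl : l < m) :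
    wt u (l + 1) = wt u l * u ⟨l, hl⟩ := by
  unfold wt
  have h : Finset.univ.filter (fun i : Fin m => i.1 < l + 1) =
      insert (⟨l, hl⟩ : Fin m) (Finset.univ.filter (fun i : Fin m => i.1 < l)) := by
    ext i
    simp only [Finset.mem_filter, Finset.mem_univ, true_and, Finset.mem_insert, Fin.ext_iff]
    omega
  rw [h, Finset.prod_insert (by simp), mul_comm]

private theorem wt_nonneg {m : ℕ} {u : Fin m → ℝ} (hu : ∀ i, 0 ≤ u i) (l : ℕ) : 0 ≤ wt u l :=
  Finset.prod_nonneg fun i _ => hu i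

private theorem wt_pos {m : ℕ} {u : Fin m → ℝ} (hu : ∀ i, 0 < u i) (l : ℕ) : 0 < wt u l :=
  Finset.prod_pos fun i _ => hu i

private theorem sum_wt_pos {m k : ℕ} (hk : 1 ≤ k) {u : Fin m → ℝ} (hu : ∀ i, 0 ≤ u i) :
    0 < ∑ i : Fin k, wt u i := by
  have h : wt u ((⟨0, by omega⟩ : Fin k) : ℕ) ≤ ∑ i : Fin k, wt u i :=
    Finset.single_le_sum (f := fun i : Fin k => wt u i) (fun i _ => wt_nonneg hu _)
      (Finset.mem_univ _)
  rw [show ((⟨0, by omega⟩ : Fin k) : ℕ) = 0 from rfl, wt_zero] at h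
  linarith

private theorem sum_nw {m k : ℕ} (hk : 1 ≤ k) {u : Fin m → ℝ} (hu : ∀ i, 0 ≤ u i) :
    ∑ i : Fin k, nw u k i = 1 := by
  unfold nw
  rw [← Finset.sum_div, div_self (sum_wt_pos hk hu).ne']

theorem exists_wt {m k : ℕ} (hk : 1 ≤ k) {u : Fin m → ℝ} (hu : u ∈ Icc (0 : Fin m → ℝ) 1) :
    ∃ l : stdSimplex ℝ (Fin k), ∀ i, l.1 i = nw u k i := by
  refine ⟨⟨fun i => nw u k i, fun i => ?_, sum_nw hk hu.1⟩, fun i => rfl⟩
  exact div_nonneg (wt_nonneg hu.1 _) (sum_wt_pos hk hu.1).le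

private theorem inner_comb {V W : Type*} [NormedAddCommGroup V] [InnerProductSpace ℝ V]
    [NormedAddCommGroup W] [InnerProductSpace ℝ W] {ι : Type*} [Fintype ι] (x : ι → V) (y : ι → W)
    (h : ∀ i j, inner ℝ (x i) (x j) = inner ℝ (y i) (y j)) (a b : ι → ℝ) :
    inner ℝ (∑ i, a i • x i) (∑ i, b i • x i) = inner ℝ (∑ i, a i • y i) (∑ i, b i • y i) := by
  simp only [sum_inner, inner_sum, real_inner_smul_left, real_inner_smul_right, h]

/-- every regular configuration comes from an isometric tuple -/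
theorem exists_isometry {N m : ℕ} (hm : 2 ≤ m) (x : Conf N (rm m) (m + 1)) :
    ∃ A : Fin m → Eu N, gram A = gramOne m ∧ ∀ l, (x.1 l : Eu N) = act A (pf m l) := by
  classical
  have hin : ∀ i j, inner ℝ (x.1 i : Eu N) (x.1 j : Eu N) = inner ℝ (pf m i) (pf m j) := by
    intro i j
    rcases eq_or_ne i j with rfl | hij
    · rw [real_inner_self_eq_norm_sq, real_inner_self_eq_norm_sq, norm_pf hm,
        mem_sphere_zero_iff_norm.mp (x.1 i).2]
    · rw [inner_pf hm hij, (inner_of_card_eq (by omega) x).1 i j hij]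
  have hc : ∀ i : Fin m, ∃ c : Fin (m + 1) → ℝ,
      ∑ l, c l • pf m l = EuclideanSpace.single i (1 : ℝ) := by
    intro i
    have : EuclideanSpace.single i (1 : ℝ) ∈ Submodule.span ℝ (range (pf m)) := by
      rw [span_pf hm]; trivial
    exact (Submodule.mem_span_range_iff_exists_fun ℝ).mp this
  choose c hc using hc
  refine ⟨fun i => ∑ l, c i l • (x.1 l : Eu N), ?_, ?_⟩
  · ext s
    induction s using Sym2.inductionOn with
    | hf i j =>
      show inner ℝ (∑ l, c i l • (x.1 l : Eu N)) (∑ l, c j l • (x.1 l : Eu N)) =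
        if i = j then 1 else 0
      rw [inner_comb _ _ hin, hc, hc, EuclideanSpace.inner_single_left]
      simp [Pi.single_apply]
  · intro l
    have h1 : act (fun i => ∑ l, c i l • (x.1 l : Eu N)) (pf m l) =
        ∑ k, (∑ i, pf m l i * c i k) • (x.1 k : Eu N) := by
      unfold act
      simp only [Finset.smul_sum, Finset.sum_smul, smul_smul]
      exact Finset.sum_comm
    have h2 : ∑ k, (∑ i, pf m l i * c i k) • pf m k = pf m l := by
      have : ∑ k, (∑ i, pf m l i * c i k) • pf m k = ∑ i, pf m l i • ∑ k, c i k • pf m k := by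
        simp only [Finset.smul_sum, Finset.sum_smul, smul_smul]
        exact Finset.sum_comm
      rw [this]
      simp only [hc]
      ext k
      simp [Pi.single_apply]
    have h3 : (x.1 l : Eu N) - act (fun i => ∑ l, c i l • (x.1 l : Eu N)) (pf m l) =
        ∑ k, ((if k = l then 1 else 0) - ∑ i, pf m l i * c i k) • (x.1 k : Eu N) := by
      rw [h1]
      simp only [sub_smul, Finset.sum_sub_distrib, ite_smul, one_smul, zero_smul,
        Finset.sum_ite_eq', Finset.mem_univ, if_true]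
    have h4 : ∑ k, ((if k = l then 1 else 0) - ∑ i, pf m l i * c i k) • pf m k = 0 := by
      simp only [sub_smul, Finset.sum_sub_distrib, ite_smul, one_smul, zero_smul,
        Finset.sum_ite_eq', Finset.mem_univ, if_true, h2, sub_self]
    have h5 := inner_comb _ _ hin (fun k => (if k = l then 1 else 0) - ∑ i, pf m l i * c i k)
      (fun k => (if k = l then 1 else 0) - ∑ i, pf m l i * c i k)
    rw [h4, inner_zero_left, ← h3, inner_self_eq_zero] at h5
    exact sub_eq_zero.mp h5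

/-- every measure with `m + 1` atoms comes from the first piece -/
theorem exists_E {N m : ℕ} (hm : 2 ≤ m) (μ : AVR N (rm m)) (hμ : μ.w.support.card = m + 1) :
    ∃ (A : Fin m → Eu N) (u : Fin m → ℝ) (x : Conf N (rm m) (m + 1))
      (l : stdSimplex ℝ (Fin (m + 1))), gram A = gramOne m ∧ u ∈ Icc (0 : Fin m → ℝ) 1 ∧
      (∀ i, (x.1 i : Eu N) = act A (pf m i)) ∧ (∀ i, l.1 i = nw u (m + 1) i) ∧
      AVR.mk' x l = μ := by
  obtain ⟨x, l, hl, hμ'⟩ := exists_mk' μ hμ
  set σ := Tuple.sort (fun i => - l.1 i) with hσ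
  have hmono : Monotone ((fun i => - l.1 i) ∘ σ) := Tuple.monotone_sort _
  have hanti : ∀ i j, i ≤ j → l.1 (σ j) ≤ l.1 (σ i) := by
    intro i j hij
    have := hmono hij
    simpa using this
  let y : Conf N (rm m) (m + 1) := ⟨fun i => x.1 (σ i), fun i j hij =>
    x.2 _ _ fun h => hij (σ.injective h)⟩
  let k : stdSimplex ℝ (Fin (m + 1)) := ⟨fun i => l.1 (σ i), fun i => l.2.1 _, by
    rw [Equiv.sum_comp σ l.1]; exact l.2.2⟩
  have hyk : AVR.mk' x l = AVR.mk' y k := mk_of_perm x y l k σ fun i => ⟨rfl, rfl⟩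
  obtain ⟨A, hA, hAy⟩ := exists_isometry hm y
  have hkpos : ∀ i, 0 < k.1 i := fun i => hl _
  let u : Fin m → ℝ := fun i => k.1 i.succ / k.1 i.castSucc
  have hu : ∀ i, 0 ≤ u i := fun i => div_nonneg (hkpos _).le (hkpos _).le
  have hw : ∀ j : ℕ, ∀ hj : j < m + 1, wt u j = k.1 ⟨j, hj⟩ / k.1 0 := by
    intro j
    induction j with
    | zero =>
      intro hj
      rw [wt_zero]
      exact (div_self (hkpos 0).ne').symm
    | succ j ih =>
      intro hj
      rw [wt_succ u (by omega : j < m), ih (by omega)]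
      have h1 : u ⟨j, by omega⟩ = k.1 ⟨j + 1, hj⟩ / k.1 ⟨j, by omega⟩ := rfl
      rw [h1]
      have h2 := (hkpos ⟨j, by omega⟩).ne'
      have h3 := (hkpos 0).ne'
      field_simp
  refine ⟨A, u, y, k, hA, ⟨hu, fun i => ?_⟩, hAy, fun i => ?_, by rw [← hyk, hμ']⟩
  · show k.1 i.succ / k.1 i.castSucc ≤ 1
    rw [div_le_one (hkpos _)]
    exact hanti _ _ (by rw [Fin.le_def]; simp)
  · unfold nw
    have h1 : ∀ i : Fin (m + 1), wt u i = k.1 i / k.1 0 := fun i => hw i.1 i.2
    simp only [h1]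
    rw [← Finset.sum_div, k.2.2]
    have h3 := (hkpos 0).ne'
    field_simp

/-- uniqueness of the representation -/
theorem unique_E {N m : ℕ} (hm : 2 ≤ m) {A A₀ : Fin m → Eu N} (hA : gram A = gramOne m)
    (hA₀ : gram A₀ = gramOne m) {u u₀ : Fin m → ℝ} (hu : u ∈ Icc (0 : Fin m → ℝ) 1)
    (hu₀ : ∀ i, 0 < u₀ i ∧ u₀ i < 1) (x y : Conf N (rm m) (m + 1))
    (l l₀ : stdSimplex ℝ (Fin (m + 1))) (hx : ∀ i, (x.1 i : Eu N) = act A (pf m i))
    (hy : ∀ i, (y.1 i : Eu N) = act A₀ (pf m i)) (hl : ∀ i, l.1 i = nw u (m + 1) i)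
    (hl₀ : ∀ i, l₀.1 i = nw u₀ (m + 1) i) (h : AVR.mk' x l = AVR.mk' y l₀) :
    A = A₀ ∧ u = u₀ := by
  have h2 := one_le_cast hm
  have hr : 0 < rm m := by
    unfold rm
    rw [Real.arccos_pos]
    have : 0 < 1 / (m : ℝ) := by positivity
    linarith
  have hl₀pos : ∀ i, 0 < l₀.1 i := by
    intro i
    rw [hl₀]
    exact div_pos (wt_pos (fun i => (hu₀ i).1) _) (sum_wt_pos (by omega) fun i => (hu₀ i).1.le)
  have hlpos : ∀ i, 0 < l.1 i := by
    have h3 := card_mk hr x l
    rw [h, card_mk hr y l₀] at h3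
    have h4 : (Finset.univ.filter fun i => l₀.1 i ≠ 0) = Finset.univ := by
      rw [Finset.filter_true_of_mem fun i _ => (hl₀pos i).ne']
    rw [h4, Finset.card_univ, Fintype.card_fin] at h3
    have h5 : (Finset.univ.filter fun i => l.1 i ≠ 0) = Finset.univ := by
      rw [← Finset.card_eq_iff_eq_univ, ← h3, Fintype.card_fin]
    intro i
    have h6 : i ∈ Finset.univ.filter fun i => l.1 i ≠ 0 := by rw [h5]; exact Finset.mem_univ _
    exact lt_of_le_of_ne (l.2.1 i) (Finset.mem_filter.mp h6).2.symm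
  obtain ⟨σ, hσ⟩ := mk_perm hr x y l l₀ hlpos hl₀pos h
  -- ratio
  have hrat : ∀ (v : Fin m → ℝ), (∀ i, 0 ≤ v i) → ∀ i : Fin m,
      nw v (m + 1) (i.succ : ℕ) = nw v (m + 1) (i.castSucc : ℕ) * v i := by
    intro v hv i
    unfold nw
    have : wt v (i.succ : ℕ) = wt v (i.castSucc : ℕ) * v i := by
      rw [Fin.val_succ, Fin.val_castSucc, wt_succ v i.2]
    rw [this]
    ring
  have hsa : StrictAnti l₀.1 := by
    rw [Fin.strictAnti_iff_succ_lt]
    intro i
    rw [hl₀, hl₀, hrat u₀ (fun i => (hu₀ i).1.le), ← hl₀]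
    have := hl₀pos i.castSucc
    nlinarith [(hu₀ i).2]
  have han : Antitone l.1 := by
    rw [Fin.antitone_iff_succ_le]
    intro i
    rw [hl, hl, hrat u hu.1, ← hl]
    have := hlpos i.castSucc
    have h7 : u i ≤ 1 := hu.2 i
    nlinarith
  have hσm : StrictMono σ := by
    intro i j hij
    by_contra hn
    rw [not_lt] at hn
    have h8 := han hn
    rw [← (hσ i).2, ← (hσ j).2] at h8
    exact absurd (hsa hij) (not_lt.mpr h8)
  have hσ1 : ⇑σ = id := by
    refine (hσm.range_inj strictMono_id).mp ?_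
    rw [σ.surjective.range_eq, range_id]
  have hxy : ∀ i, y.1 i = x.1 i := fun i => by rw [(hσ i).1, hσ1]; rfl
  have hll : ∀ i, l₀.1 i = l.1 i := fun i => by rw [(hσ i).2, hσ1]; rfl
  constructor
  · have hact : ∀ v : Eu m, act A v = act A₀ v := by
      intro v
      have hv : v ∈ Submodule.span ℝ (range (pf m)) := by rw [span_pf hm]; trivial
      induction hv using Submodule.span_induction with
      | mem v hv =>
        obtain ⟨i, rfl⟩ := hv
        rw [← hx, ← hy, hxy]
      | zero =>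
        have h9 : (0 : Eu m) = (0 : ℝ) • 0 := by simp
        rw [h9, act_smul, act_smul, zero_smul, zero_smul]
      | add v w _ _ h1 h2 => rw [act_add, act_add, h1, h2]
      | smul c v _ h1 => rw [act_smul, act_smul, h1]
    funext i
    rw [← act_single A i, hact, act_single]
  · funext i
    have e1 := hrat u hu.1 i
    have e2 := hrat u₀ (fun i => (hu₀ i).1.le) i
    rw [← hl, ← hl] at e1
    rw [← hl₀, ← hl₀, hll, hll, e1] at e2
    exact mul_left_cancel₀ (hlpos i.castSucc).ne' e2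

end Pool.Agent.AVG
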