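import Mathlib

/-! # MP_89fc28_gt: Sard on a level set -/

set_option autoImplicit false

open Set MeasureTheory Module

namespace Pool.Agent.AVG

open Topology in
private lemma sard_local {E G H : Type} [NormedAddCommGroup E] [NormedSpace ℝ E]
    [FiniteDimensional ℝ E] [NormedAddCommGroup G] [NormedSpace ℝ G] [FiniteDimensional ℝ G]
    [NormedAddCommGroup H] [NormedSpace ℝ H] [FiniteDimensional ℝ H] [MeasurableSpace H]
    [BorelSpace H] (ν : Measure H) [ν.IsAddHaarMeasure] (O : Set E) (hO : IsOpen O)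
    (c : E → G) (g : E → H) (hc : ContDiffOn ℝ 1 c O) (hg : ContDiffOn ℝ 1 g O)
    (hsub : ∀ z ∈ O, c z = 0 → Function.Surjective (fderiv ℝ c z))
    (hdim : finrank ℝ E = finrank ℝ G + finrank ℝ H) (z₀ : E) (hz₀ : z₀ ∈ O) (h0 : c z₀ = 0) :
    ∃ U ∈ 𝓝 z₀, ν (g '' {z | z ∈ U ∧ z ∈ O ∧ c z = 0 ∧
      ¬ Function.Surjective ((fderiv ℝ g z).prod (fderiv ℝ c z))}) = 0 := by
  classical
  have hcd : ∀ z ∈ O, ContDiffAt ℝ 1 c z := fun z hz => hc.contDiffAt (hO.mem_nhds hz)
  have hgd : ∀ z ∈ O, ContDiffAt ℝ 1 g z := fun z hz => hg.contDiffAt (hO.mem_nhds hz)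
  -- the projection
  set Dc := fderiv ℝ c z₀ with hDc
  set K := LinearMap.ker (Dc : E →ₗ[ℝ] G) with hK
  have hsurj := hsub z₀ hz₀ h0
  have hKdim : finrank ℝ K = finrank ℝ H := by
    have h1 := LinearMap.finrank_range_add_finrank_ker (Dc : E →ₗ[ℝ] G)
    have h2 : LinearMap.range (Dc : E →ₗ[ℝ] G) = ⊤ := LinearMap.range_eq_top.2 hsurj
    rw [h2, finrank_top] at h1
    have : finrank ℝ K = finrank ℝ (LinearMap.ker (Dc : E →ₗ[ℝ] G)) := rfl
    omega
  obtain ⟨π, hπ⟩ := LinearMap.exists_leftInverse_of_injective K.subtype K.ker_subtype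
  let e : K ≃ₗ[ℝ] H := LinearEquiv.ofFinrankEq K H hKdim
  let P : E →L[ℝ] H := LinearMap.toContinuousLinearMap ((e : K →ₗ[ℝ] H).comp π)
  have hPapp : ∀ v, P v = e (π v) := fun v => rfl
  have hinj : Function.Injective ((P.prod Dc : E →L[ℝ] H × G) : E →ₗ[ℝ] H × G) := by
    rw [← LinearMap.ker_eq_bot, LinearMap.ker_eq_bot']
    intro v hv
    have hv1 : P v = 0 := by
      have := congrArg Prod.fst hv
      simpa using this
    have hv2 : Dc v = 0 := by
      have := congrArg Prod.snd hv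
      simpa using this
    have hvK : v ∈ K := by
      rw [hK, LinearMap.mem_ker]
      exact hv2
    have h3 : π v = ⟨v, hvK⟩ := by
      have := congrArg (fun f => f ⟨v, hvK⟩) hπ
      simpa using this
    rw [hPapp, h3] at hv1
    have h4 : (⟨v, hvK⟩ : K) = 0 := by
      apply e.injective
      rw [hv1, map_zero]
    have := congrArg Subtype.val h4
    simpa using this
  have hfr : finrank ℝ E = finrank ℝ (H × G) := by
    rw [Module.finrank_prod]; omega
  let L₀ : E ≃L[ℝ] H × G :=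
    (LinearMap.linearEquivOfInjective ((P.prod Dc : E →L[ℝ] H × G) : E →ₗ[ℝ] H × G) hinj
      hfr).toContinuousLinearEquiv
  have hL₀ : (L₀ : E →L[ℝ] H × G) = P.prod Dc := by
    ext v <;> rfl
  let Θ : E → H × G := fun z => (P z, c z)
  have hΘd : ∀ z ∈ O, ContDiffAt ℝ 1 Θ z := fun z hz =>
    P.contDiff.contDiffAt.prodMk (hcd z hz)
  have hΘ' : ∀ z ∈ O, HasFDerivAt Θ (P.prod (fderiv ℝ c z)) z := fun z hz =>
    P.hasFDerivAt.prodMk ((hcd z hz).differentiableAt one_ne_zero).hasFDerivAt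
  have hΘ0 : HasFDerivAt Θ (L₀ : E →L[ℝ] H × G) z₀ := by
    rw [hL₀]
    exact hΘ' z₀ hz₀
  let Φ := (hΘd z₀ hz₀).toOpenPartialHomeomorph Θ hΘ0 one_ne_zero
  have hΦc : ∀ z, Φ z = Θ z := fun z => rfl
  have hcont : ContinuousAt (fun z => fderiv ℝ Θ z) z₀ :=
    ((hΘd z₀ hz₀).fderiv_right (m := 0) (by norm_num)).continuousAt
  have hrange : ∀ᶠ z in 𝓝 z₀, fderiv ℝ Θ z ∈
      range ((↑) : (E ≃L[ℝ] H × G) → E →L[ℝ] H × G) := by
    apply hcont.eventually_mem
    rw [hΘ0.fderiv]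
    exact L₀.nhds
  refine ⟨Φ.source ∩ {z | fderiv ℝ Θ z ∈ range ((↑) : (E ≃L[ℝ] H × G) → E →L[ℝ] H × G)},
    Filter.inter_mem (Φ.open_source.mem_nhds
      ((hΘd z₀ hz₀).mem_toOpenPartialHomeomorph_source hΘ0 one_ne_zero)) hrange, ?_⟩
  set S := {z | z ∈ (Φ.source ∩ {z | fderiv ℝ Θ z ∈
      range ((↑) : (E ≃L[ℝ] H × G) → E →L[ℝ] H × G)}) ∧ z ∈ O ∧ c z = 0 ∧
      ¬ Function.Surjective ((fderiv ℝ g z).prod (fderiv ℝ c z))} with hS
  let f : H → H := fun y => g (Φ.symm (y, 0))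
  have hsubset : g '' S ⊆ f '' (P '' S) := by
    rintro _ ⟨z, hz, rfl⟩
    refine ⟨P z, ⟨z, hz, rfl⟩, ?_⟩
    have h1 : Φ z = (P z, 0) := by
      rw [hΦc]
      simp only [Θ, hz.2.2.1]
    change g (Φ.symm (P z, 0)) = g z
    rw [← h1, Φ.left_inv hz.1.1]
  apply measure_mono_null hsubset
  have key : ∀ z ∈ S, ∃ f' : H →L[ℝ] H, HasFDerivAt f f' (P z) ∧ f'.det = 0 := by
    intro z hz
    obtain ⟨⟨hz1, L, hL⟩, hzO, hcz, hns⟩ := hz
    have h1 : Φ z = (P z, 0) := by
      rw [hΦc]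
      simp only [Θ, hcz]
    have hLd : HasFDerivAt Θ (L : E →L[ℝ] H × G) z := by
      rw [hL]
      exact ((hΘd z hzO).differentiableAt one_ne_zero).hasFDerivAt
    have hLeq : (L : E →L[ℝ] H × G) = P.prod (fderiv ℝ c z) := hLd.unique (hΘ' z hzO)
    have hsymm : Φ.symm (P z, 0) = z := by rw [← h1, Φ.left_inv hz1]
    have hmem : (P z, (0 : G)) ∈ Φ.target := by
      rw [← h1]; exact Φ.map_source hz1
    have h2 : HasFDerivAt Φ.symm (L.symm : H × G →L[ℝ] E) (P z, 0) := by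
      apply Φ.hasFDerivAt_symm hmem
      rw [hsymm]
      exact hLd
    have h3 : HasFDerivAt (fun y : H => (y, (0 : G))) (ContinuousLinearMap.inl ℝ H G) (P z) := by
      exact (ContinuousLinearMap.inl ℝ H G).hasFDerivAt
    have h4 : HasFDerivAt g (fderiv ℝ g z) (Φ.symm (P z, 0)) := by
      rw [hsymm]
      exact ((hgd z hzO).differentiableAt one_ne_zero).hasFDerivAt
    have h5 : HasFDerivAt f ((fderiv ℝ g z).comp
        ((L.symm : H × G →L[ℝ] E).comp (ContinuousLinearMap.inl ℝ H G))) (P z) := by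
      exact h4.comp (P z) (h2.comp (P z) h3)
    refine ⟨_, h5, ?_⟩
    -- a vector in the kernel
    have hni : ¬ Function.Injective (((fderiv ℝ g z).prod (fderiv ℝ c z) : E →L[ℝ] H × G) :
        E →ₗ[ℝ] H × G) := by
      intro hi
      exact hns ((LinearMap.injective_iff_surjective_of_finrank_eq_finrank hfr).1 hi)
    rw [← LinearMap.ker_eq_bot, LinearMap.ker_eq_bot'] at hni
    push Not at hni
    obtain ⟨v, hv, hv0⟩ := hni
    have hv1 : fderiv ℝ g z v = 0 := by
      have := congrArg Prod.fst hv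
      simpa using this
    have hv2 : fderiv ℝ c z v = 0 := by
      have := congrArg Prod.snd hv
      simpa using this
    have hLv : L v = (P v, 0) := by
      have := congrArg (fun T : E →L[ℝ] H × G => T v) hLeq
      simp only [ContinuousLinearMap.prod_apply, hv2] at this
      exact this
    have hLs : L.symm (P v, 0) = v := by
      rw [← hLv, L.symm_apply_apply]
    have hPv : P v ≠ 0 := by
      intro h
      rw [h] at hLs
      apply hv0
      rw [← hLs]
      exact map_zero L.symm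
    by_contra hdet
    have hu : IsUnit (((fderiv ℝ g z).comp ((L.symm : H × G →L[ℝ] E).comp
        (ContinuousLinearMap.inl ℝ H G)) : H →L[ℝ] H) : H →ₗ[ℝ] H) := by
      rw [LinearMap.isUnit_iff_isUnit_det]
      exact isUnit_iff_ne_zero.2 hdet
    have hker := (LinearMap.isUnit_iff_ker_eq_bot _).1 hu
    rw [LinearMap.ker_eq_bot'] at hker
    apply hPv
    apply hker
    change fderiv ℝ g z (L.symm (P v, 0)) = 0
    rw [hLs, hv1]
  choose! F hF1 hF2 using key
  have hfder : ∀ y ∈ P '' S, HasFDerivAt f (fderiv ℝ f y) y := by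
    rintro _ ⟨z, hz, rfl⟩
    exact (hF1 z hz).differentiableAt.hasFDerivAt
  apply addHaar_image_eq_zero_of_det_fderivWithin_eq_zero ν (f' := fun y => fderiv ℝ f y)
  · intro y hy
    exact (hfder y hy).hasFDerivWithinAt
  · rintro _ ⟨z, hz, rfl⟩
    have : fderiv ℝ f (P z) = F z := (hF1 z hz).fderiv
    rw [this]
    exact hF2 z hz

open Topology in
private lemma sard_eq {E G H : Type} [NormedAddCommGroup E] [NormedSpace ℝ E]
    [FiniteDimensional ℝ E] [NormedAddCommGroup G] [NormedSpace ℝ G] [FiniteDimensional ℝ G]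
    [NormedAddCommGroup H] [NormedSpace ℝ H] [FiniteDimensional ℝ H] [MeasurableSpace H]
    [BorelSpace H] (ν : Measure H) [ν.IsAddHaarMeasure] (O : Set E) (hO : IsOpen O)
    (c : E → G) (g : E → H) (hc : ContDiffOn ℝ 1 c O) (hg : ContDiffOn ℝ 1 g O)
    (hsub : ∀ z ∈ O, c z = 0 → Function.Surjective (fderiv ℝ c z))
    (hdim : finrank ℝ E = finrank ℝ G + finrank ℝ H) :
    ∀ᵐ y ∂ν, ∀ z ∈ O, c z = 0 → g z = y →
      Function.Surjective ((fderiv ℝ g z).prod (fderiv ℝ c z)) := by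
  have : ProperSpace E := FiniteDimensional.proper ℝ E
  set S := {z | z ∈ O ∧ c z = 0 ∧
      ¬ Function.Surjective ((fderiv ℝ g z).prod (fderiv ℝ c z))} with hS
  let m : OuterMeasure E := OuterMeasure.comap g ν.toOuterMeasure
  have hm : ∀ A : Set E, m A = ν (g '' A) := fun A => by
    simp only [m, OuterMeasure.comap_apply]
    rfl
  have hnull : m S = 0 := by
    apply measure_null_of_locally_null
    intro z hz
    obtain ⟨U, hU, hU0⟩ := sard_local ν O hO c g hc hg hsub hdim z hz.1 hz.2.1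
    refine ⟨U ∩ S, ?_, ?_⟩
    · exact Filter.inter_mem (mem_nhdsWithin_of_mem_nhds hU) self_mem_nhdsWithin
    · rw [hm]
      exact hU0
  rw [ae_iff]
  rw [hm] at hnull
  apply measure_mono_null _ hnull
  intro y hy
  simp only [mem_ofPred_eq] at hy
  push Not at hy
  obtain ⟨z, hz, hcz, hgz, hns⟩ := hy
  exact ⟨z, ⟨hz, hcz, hns⟩, hgz⟩

/-- **A3. Sard on a level set.** -/
theorem sard_level {E G H : Type} [NormedAddCommGroup E] [NormedSpace ℝ E]
    [FiniteDimensional ℝ E] [NormedAddCommGroup G] [NormedSpace ℝ G] [FiniteDimensional ℝ G]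
    [NormedAddCommGroup H] [NormedSpace ℝ H] [FiniteDimensional ℝ H] [MeasurableSpace H]
    [BorelSpace H] (ν : Measure H) [ν.IsAddHaarMeasure] (O : Set E) (hO : IsOpen O)
    (c : E → G) (g : E → H) (hc : ContDiffOn ℝ 1 c O) (hg : ContDiffOn ℝ 1 g O)
    (hsub : ∀ z ∈ O, c z = 0 → Function.Surjective (fderiv ℝ c z))
    (hdim : finrank ℝ E ≤ finrank ℝ G + finrank ℝ H) :
    ∀ᵐ y ∂ν, ∀ z ∈ O, c z = 0 → g z = y →
      Function.Surjective ((fderiv ℝ g z).prod (fderiv ℝ c z)) := by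
  obtain ⟨d, hd⟩ := Nat.exists_eq_add_of_le hdim
  let pr : E × (Fin d → ℝ) →L[ℝ] E := ContinuousLinearMap.fst ℝ E (Fin d → ℝ)
  have hcd : ∀ z ∈ O, HasFDerivAt c (fderiv ℝ c z) z := fun z hz =>
    ((hc.contDiffAt (hO.mem_nhds hz)).differentiableAt one_ne_zero).hasFDerivAt
  have hgd : ∀ z ∈ O, HasFDerivAt g (fderiv ℝ g z) z := fun z hz =>
    ((hg.contDiffAt (hO.mem_nhds hz)).differentiableAt one_ne_zero).hasFDerivAt
  have hc' : ∀ w : E × (Fin d → ℝ), pr w ∈ O →
      HasFDerivAt (fun w => c (pr w)) ((fderiv ℝ c (pr w)).comp pr) w := fun w hw =>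
    (hcd _ hw).comp w pr.hasFDerivAt
  have hg' : ∀ w : E × (Fin d → ℝ), pr w ∈ O →
      HasFDerivAt (fun w => g (pr w)) ((fderiv ℝ g (pr w)).comp pr) w := fun w hw =>
    (hgd _ hw).comp w pr.hasFDerivAt
  have hprs : Function.Surjective pr := fun z => ⟨(z, 0), rfl⟩
  have hmaps : MapsTo pr (pr ⁻¹' O) O := fun w hw => hw
  have := sard_eq ν (pr ⁻¹' O) (hO.preimage pr.continuous) (fun w => c (pr w))
    (fun w => g (pr w)) (hc.comp pr.contDiff.contDiffOn hmaps)
    (hg.comp pr.contDiff.contDiffOn hmaps)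
    (by
      intro w hw hcw
      rw [(hc' w hw).fderiv]
      exact (hsub _ hw hcw).comp hprs)
    (by
      rw [Module.finrank_prod, Module.finrank_fin_fun]
      omega)
  filter_upwards [this] with y hy z hz hcz hgz
  have h1 := hy (z, 0) hz hcz hgz
  rw [(hc' (z, 0) hz).fderiv, (hg' (z, 0) hz).fderiv] at h1
  intro t
  obtain ⟨w, hw⟩ := h1 t
  exact ⟨pr w, hw⟩

end Pool.Agent.AVG
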