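import Pool.Agent.Lib.MP_89fc28_gt.G.Chain

/-! # MP_89fc28_gt: the simplices -/

set_option autoImplicit false

open Set MeasureTheory Module

namespace Pool.Agent.AVG

private theorem simplex_sqrt_inv {m : ℕ} (hm : 0 < m) :
    (1 / Real.sqrt m) * (1 / Real.sqrt m) = 1 / (m : ℝ) := by
  have h : (0 : ℝ) < m := by exact_mod_cast hm
  rw [div_mul_div_comm, Real.mul_self_sqrt h.le, one_mul]

private theorem simplex_ev_ev {m : ℕ} (hm : 0 < m) : inner ℝ (ev m) (ev m) = (1 : ℝ) := by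
  have h : (0 : ℝ) < m := by exact_mod_cast hm
  simp only [ev, PiLp.inner_apply, RCLike.inner_apply, conj_trivial, simplex_sqrt_inv hm,
    Finset.sum_const, Finset.card_univ, Fintype.card_fin, nsmul_eq_mul]
  field_simp

private theorem simplex_single_ev {m : ℕ} (i : Fin m) :
    inner ℝ (EuclideanSpace.single i (1 : ℝ)) (ev m) = 1 / Real.sqrt m := by
  rw [EuclideanSpace.inner_single_left]
  simp [ev]

private theorem simplex_ev_single {m : ℕ} (i : Fin m) :
    inner ℝ (ev m) (EuclideanSpace.single i (1 : ℝ)) = 1 / Real.sqrt m := by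
  rw [real_inner_comm, simplex_single_ev]

private theorem simplex_single_single {m : ℕ} (i j : Fin m) :
    inner ℝ (EuclideanSpace.single i (1 : ℝ)) (EuclideanSpace.single j (1 : ℝ)) =
      if i = j then (1 : ℝ) else 0 := by
  rw [EuclideanSpace.inner_single_left]
  simp

private theorem simplex_qv_ev {m : ℕ} (hm : 0 < m) (i : Fin m) :
    inner ℝ (qv m i) (ev m) = (0 : ℝ) := by
  rw [qv, real_inner_smul_left, inner_sub_left, real_inner_smul_left, simplex_single_ev,
    simplex_ev_ev hm]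
  ring

private theorem simplex_ev_qv {m : ℕ} (hm : 0 < m) (i : Fin m) :
    inner ℝ (ev m) (qv m i) = (0 : ℝ) := by
  rw [real_inner_comm, simplex_qv_ev hm]

private theorem simplex_qv_qv {m : ℕ} (hm : 2 ≤ m) (i j : Fin m) :
    inner ℝ (qv m i) (qv m j) = (m : ℝ) / (m - 1) * ((if i = j then (1 : ℝ) else 0) - 1 / m) := by
  have h : (2 : ℝ) ≤ m := by exact_mod_cast hm
  have h1 : (0 : ℝ) ≤ (m : ℝ) / (m - 1) := div_nonneg (by linarith) (by linarith)
  have h2 := simplex_sqrt_inv (m := m) (by omega)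
  rw [qv, qv, real_inner_smul_left, real_inner_smul_right, ← mul_assoc, Real.mul_self_sqrt h1]
  rw [inner_sub_left, inner_sub_right, inner_sub_right, real_inner_smul_left,
    real_inner_smul_left, real_inner_smul_right, real_inner_smul_right, simplex_single_ev,
    simplex_ev_single, simplex_single_single, simplex_ev_ev (by omega), mul_one]
  linear_combination ((m : ℝ) / (m - 1)) * (-1) * h2

private theorem simplex_norm_one {E : Type*} [NormedAddCommGroup E] [InnerProductSpace ℝ E]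
    {x : E} (h : inner ℝ x x = (1 : ℝ)) : ‖x‖ = 1 := by
  rw [real_inner_self_eq_norm_sq] at h
  nlinarith [norm_nonneg x]

theorem norm_qv {m : ℕ} (hm : 2 ≤ m) (i : Fin m) : ‖qv m i‖ = 1 := by
  have h : (2 : ℝ) ≤ m := by exact_mod_cast hm
  refine simplex_norm_one ?_
  rw [simplex_qv_qv hm, if_pos rfl]
  have h1 : (m : ℝ) - 1 ≠ 0 := by linarith
  have h2 : (m : ℝ) ≠ 0 := by linarith
  field_simp

theorem inner_qv {m : ℕ} (hm : 2 ≤ m) {i j : Fin m} (h : i ≠ j) :
    inner ℝ (qv m i) (qv m j) = -(1 / ((m : ℝ) - 1)) := by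
  have h0 : (2 : ℝ) ≤ m := by exact_mod_cast hm
  rw [simplex_qv_qv hm, if_neg h]
  have h1 : (m : ℝ) - 1 ≠ 0 := by linarith
  have h2 : (m : ℝ) ≠ 0 := by linarith
  field_simp
  ring

private theorem simplex_pv_pv {m : ℕ} (hm : 2 ≤ m) {ρ : ℝ} (hρ : ρ ∈ Icc (0 : ℝ) 1)
    (i j : Fin m) : inner ℝ (pv m ρ i) (pv m ρ j) =
      (1 - ρ ^ 2 / (m : ℝ) ^ 2) * inner ℝ (qv m i) (qv m j) + ρ ^ 2 / (m : ℝ) ^ 2 := by
  have h0 : (2 : ℝ) ≤ m := by exact_mod_cast hm
  have h1 : (0 : ℝ) ≤ 1 - ρ ^ 2 / (m : ℝ) ^ 2 := by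
    have : ρ ^ 2 / (m : ℝ) ^ 2 ≤ 1 := by
      rw [div_le_one (by positivity)]
      nlinarith [hρ.1, hρ.2]
    linarith
  have hm0 : 0 < m := by omega
  rw [pv, pv, inner_sub_left, inner_sub_right, inner_sub_right, real_inner_smul_left,
    real_inner_smul_left, real_inner_smul_left, real_inner_smul_left, real_inner_smul_right,
    real_inner_smul_right, real_inner_smul_right, real_inner_smul_right, simplex_qv_ev hm0,
    simplex_ev_qv hm0, simplex_ev_ev hm0, ← mul_assoc, Real.mul_self_sqrt h1]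
  ring

private theorem simplex_pv_ev {m : ℕ} (hm : 2 ≤ m) (ρ : ℝ) (i : Fin m) :
    inner ℝ (pv m ρ i) (ev m) = -(ρ / m) := by
  have hm0 : 0 < m := by omega
  rw [pv, inner_sub_left, real_inner_smul_left, real_inner_smul_left, simplex_qv_ev hm0,
    simplex_ev_ev hm0]
  ring

theorem norm_pv {m : ℕ} (hm : 2 ≤ m) {ρ : ℝ} (hρ : ρ ∈ Icc (0 : ℝ) 1) (i : Fin m) :
    ‖pv m ρ i‖ = 1 := by
  refine simplex_norm_one ?_
  rw [simplex_pv_pv hm hρ, real_inner_self_eq_norm_sq, norm_qv hm]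
  ring

theorem inner_pv {m : ℕ} (hm : 2 ≤ m) {ρ : ℝ} (hρ : ρ ∈ Icc (0 : ℝ) 1) {i j : Fin m}
    (h : i ≠ j) : inner ℝ (pv m ρ i) (pv m ρ j) =
      -(1 / ((m : ℝ) - 1)) + ρ ^ 2 / (m * ((m : ℝ) - 1)) := by
  have h0 : (2 : ℝ) ≤ m := by exact_mod_cast hm
  rw [simplex_pv_pv hm hρ, inner_qv hm h]
  have h1 : (m : ℝ) - 1 ≠ 0 := by linarith
  have h2 : (m : ℝ) ≠ 0 := by linarith
  field_simp
  ring

theorem norm_pf {m : ℕ} (hm : 2 ≤ m) (i : Fin (m + 1)) : ‖pf m i‖ = 1 := by
  refine Fin.lastCases ?_ (fun j => ?_) i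
  · rw [pf, Fin.snoc_last]
    exact simplex_norm_one (simplex_ev_ev (by omega))
  · rw [pf, Fin.snoc_castSucc]
    exact norm_pv hm ⟨zero_le_one, le_rfl⟩ j

theorem inner_pf {m : ℕ} (hm : 2 ≤ m) {i j : Fin (m + 1)} (h : i ≠ j) :
    inner ℝ (pf m i) (pf m j) = -(1 / (m : ℝ)) := by
  have h0 : (2 : ℝ) ≤ m := by exact_mod_cast hm
  have h1 : (m : ℝ) - 1 ≠ 0 := by linarith
  have h2 : (m : ℝ) ≠ 0 := by linarith
  revert h
  refine Fin.lastCases ?_ (fun i => ?_) i
  · refine Fin.lastCases ?_ (fun j => ?_) j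
    · intro h; exact absurd rfl h
    · intro _
      rw [pf, Fin.snoc_last, Fin.snoc_castSucc, real_inner_comm, simplex_pv_ev hm]
  · refine Fin.lastCases ?_ (fun j => ?_) j
    · intro _
      rw [pf, Fin.snoc_last, Fin.snoc_castSucc, simplex_pv_ev hm]
    · intro h
      have hij : i ≠ j := fun e => h (by rw [e])
      rw [pf, Fin.snoc_castSucc, Fin.snoc_castSucc, inner_pv hm ⟨zero_le_one, le_rfl⟩ hij]
      field_simp
      ring

theorem pf_castSucc {m : ℕ} (i : Fin m) : pf m i.castSucc = pv m 1 i := by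
  rw [pf, Fin.snoc_castSucc]

theorem span_pf {m : ℕ} (hm : 2 ≤ m) : Submodule.span ℝ (range (pf m)) = ⊤ := by
  have h0 : (2 : ℝ) ≤ m := by exact_mod_cast hm
  set K := Submodule.span ℝ (range (pf m)) with hK
  have hev : ev m ∈ K := by
    have : pf m (Fin.last m) ∈ K := Submodule.subset_span ⟨_, rfl⟩
    rwa [pf, Fin.snoc_last] at this
  have hqv : ∀ i, qv m i ∈ K := by
    intro i
    have h1 : pv m 1 i ∈ K := by
      rw [← pf_castSucc]
      exact Submodule.subset_span ⟨_, rfl⟩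
    have h2 : Real.sqrt (1 - 1 ^ 2 / (m : ℝ) ^ 2) • qv m i ∈ K := by
      have := K.add_mem h1 (K.smul_mem ((1 : ℝ) / m) hev)
      rwa [pv, sub_add_cancel] at this
    have h3 : Real.sqrt (1 - 1 ^ 2 / (m : ℝ) ^ 2) ≠ 0 := by
      refine (Real.sqrt_pos.mpr ?_).ne'
      have : (1 : ℝ) ^ 2 / (m : ℝ) ^ 2 < 1 := by
        rw [div_lt_one (by positivity)]
        nlinarith
      linarith
    exact (K.smul_mem_iff h3).mp h2
  have hs : ∀ i, EuclideanSpace.single i (1 : ℝ) ∈ K := by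
    intro i
    have h3 : Real.sqrt ((m : ℝ) / (m - 1)) ≠ 0 := by
      refine (Real.sqrt_pos.mpr ?_).ne'
      exact div_pos (by linarith) (by linarith)
    have h4 : EuclideanSpace.single i (1 : ℝ) - (1 / Real.sqrt m) • ev m ∈ K :=
      (K.smul_mem_iff h3).mp (hqv i)
    have := K.add_mem h4 (K.smul_mem ((1 : ℝ) / Real.sqrt m) hev)
    rwa [sub_add_cancel] at this
  rw [eq_top_iff, ← (EuclideanSpace.basisFun (Fin m) ℝ).toBasis.span_eq, Submodule.span_le]
  rintro _ ⟨i, rfl⟩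
  simpa using hs i

/-- swapping two vertices of the big simplex -/
theorem swap_pf {m : ℕ} (hm : 2 ≤ m) (i : Fin m) : ∃ R : Eu m ≃ₗᵢ[ℝ] Eu m, R ≠ 1 ∧
    (∀ v, R (R v) = v) ∧ ∀ l, R (pf m l) = pf m (Equiv.swap i.castSucc i.succ l) := by
  have h0 : (2 : ℝ) ≤ m := by exact_mod_cast hm
  have hne : i.castSucc ≠ i.succ := by
    intro h
    have := congrArg Fin.val h
    simp at this
  have hab : ‖pf m i.castSucc‖ = ‖pf m i.succ‖ := by rw [norm_pf hm, norm_pf hm]
  have hR := Submodule.reflection_sub hab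
  refine ⟨(ℝ ∙ (pf m i.castSucc - pf m i.succ))ᗮ.reflection, ?_, ?_, ?_⟩
  · intro h
    have h1 : pf m i.castSucc = pf m i.succ := by
      rw [← hR, h]; rfl
    have h2 := inner_pf hm hne
    rw [← h1, real_inner_self_eq_norm_sq, norm_pf hm] at h2
    have h3 : (0 : ℝ) < 1 / (m : ℝ) := by positivity
    linarith
  · exact fun v => Submodule.reflection_reflection _ v
  · intro l
    by_cases hl : l = i.castSucc
    · rw [hl, Equiv.swap_apply_left, hR]
    by_cases hl' : l = i.succ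
    · have hR' := congrArg (ℝ ∙ (pf m i.castSucc - pf m i.succ))ᗮ.reflection hR
      rw [Submodule.reflection_reflection] at hR'
      rw [hl', Equiv.swap_apply_right, ← hR']
    · rw [Equiv.swap_apply_of_ne_of_ne hl hl']
      refine Submodule.reflection_mem_subspace_eq_self ?_
      rw [Submodule.mem_orthogonal_singleton_iff_inner_right, inner_sub_left,
        inner_pf hm (Ne.symm hl), inner_pf hm (Ne.symm hl'), sub_self]

private theorem simplex_congr_single {m : ℕ} (i j l : Fin m) :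
    LinearIsometryEquiv.piLpCongrLeft 2 ℝ ℝ (Equiv.swap i j) (EuclideanSpace.single l (1 : ℝ)) =
      EuclideanSpace.single (Equiv.swap i j l) (1 : ℝ) := by
  exact LinearIsometryEquiv.piLpCongrLeft_single _ _ _

private theorem simplex_congr_ev {m : ℕ} (i j : Fin m) :
    LinearIsometryEquiv.piLpCongrLeft 2 ℝ ℝ (Equiv.swap i j) (ev m) = ev m := by
  ext l
  simp [ev, LinearIsometryEquiv.piLpCongrLeft_apply, Equiv.piCongrLeft']

/-- swapping two vertices of the tilted simplex -/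
theorem swap_pv {m : ℕ} (hm : 2 ≤ m) (i j : Fin m) (hij : i ≠ j) : ∃ R : Eu m ≃ₗᵢ[ℝ] Eu m,
    R ≠ 1 ∧ (∀ v, R (R v) = v) ∧ ∀ ρ l, R (pv m ρ l) = pv m ρ (Equiv.swap i j l) := by
  refine ⟨LinearIsometryEquiv.piLpCongrLeft 2 ℝ ℝ (Equiv.swap i j), ?_, ?_, ?_⟩
  · intro h
    have h1 := simplex_congr_single i j i
    rw [h, Equiv.swap_apply_left] at h1
    have h2 : (EuclideanSpace.single i (1 : ℝ) : Eu m) = EuclideanSpace.single j (1 : ℝ) := h1
    have h3 := simplex_single_single i j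
    rw [← h2, simplex_single_single, if_pos rfl, if_neg hij] at h3
    exact one_ne_zero h3
  · intro v
    ext l
    simp [LinearIsometryEquiv.piLpCongrLeft_apply, Equiv.piCongrLeft']
  · intro ρ l
    rw [pv, pv, map_sub, map_smul, map_smul, simplex_congr_ev, qv, qv, map_smul, map_sub,
      map_smul, simplex_congr_ev, simplex_congr_single]

private theorem simplex_refl {m : ℕ} {v : Eu m} (hv : v ≠ 0) :
    (ℝ ∙ v)ᗮ.reflection ≠ (1 : Eu m ≃ₗᵢ[ℝ] Eu m) := by
  intro h
  have h1 := Submodule.reflection_orthogonalComplement_singleton_eq_neg (𝕜 := ℝ) v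
  rw [h] at h1
  have h2 : v = -v := h1
  have h3 : (2 : ℝ) • v = 0 := by rw [two_smul]; nth_rewrite 2 [h2]; exact add_neg_cancel v
  exact hv ((smul_eq_zero.mp h3).resolve_left two_ne_zero)

/-- a reflection that fixes all vertices of the tilted simplex but the last one -/
theorem fix_pv {m : ℕ} (hm : 2 ≤ m) (ρ : ℝ) : ∃ R : Eu m ≃ₗᵢ[ℝ] Eu m, R ≠ 1 ∧
    (∀ v, R (R v) = v) ∧ ∀ l : Fin m, l.1 + 1 < m → R (pv m ρ l) = pv m ρ l := by
  classical
  set K : Submodule ℝ (Eu m) := Submodule.span ℝ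
    (((Finset.univ.filter fun l : Fin m => l.1 + 1 < m).image (pv m ρ) : Finset (Eu m)) :
      Set (Eu m)) with hK
  have h1 : finrank ℝ K ≤ m - 1 := by
    refine (finrank_span_finset_le_card _).trans (Finset.card_image_le.trans ?_)
    have : (Finset.univ.filter fun l : Fin m => l.1 + 1 < m) ⊆
        Finset.univ.erase (⟨m - 1, by omega⟩ : Fin m) := by
      intro l hl
      rw [Finset.mem_filter] at hl
      rw [Finset.mem_erase]
      refine ⟨?_, Finset.mem_univ _⟩
      rintro rfl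
      have := hl.2
      simp only at this
      omega
    refine (Finset.card_le_card this).trans ?_
    rw [Finset.card_erase_of_mem (Finset.mem_univ _), Finset.card_univ, Fintype.card_fin]
  have h2 : Kᗮ ≠ ⊥ := by
    intro h
    have h3 := Submodule.finrank_add_finrank_orthogonal K
    rw [h, finrank_bot, finrank_euclideanSpace, Fintype.card_fin] at h3
    omega
  obtain ⟨v, hv, hv0⟩ := Submodule.exists_mem_ne_zero_of_ne_bot h2
  refine ⟨(ℝ ∙ v)ᗮ.reflection, simplex_refl hv0, fun w => Submodule.reflection_reflection _ w,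
    fun l hl => Submodule.reflection_mem_subspace_eq_self ?_⟩
  rw [Submodule.mem_orthogonal_singleton_iff_inner_left]
  refine (Submodule.mem_orthogonal K v).mp hv _ (Submodule.subset_span ?_)
  rw [Finset.coe_image]
  exact ⟨l, by simpa using hl, rfl⟩

/-- a reflection that fixes all vertices of the simplex that is not tilted -/
theorem fix_pv_zero {m : ℕ} (hm : 2 ≤ m) : ∃ R : Eu m ≃ₗᵢ[ℝ] Eu m, R ≠ 1 ∧
    (∀ v, R (R v) = v) ∧ ∀ l : Fin m, R (pv m 0 l) = pv m 0 l := by
  have hv0 : ev m ≠ 0 := by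
    intro h
    have := simplex_ev_ev (m := m) (by omega)
    rw [h, inner_zero_left] at this
    exact zero_ne_one this
  refine ⟨(ℝ ∙ ev m)ᗮ.reflection, simplex_refl hv0,
    fun w => Submodule.reflection_reflection _ w,
    fun l => Submodule.reflection_mem_subspace_eq_self ?_⟩
  rw [Submodule.mem_orthogonal_singleton_iff_inner_left, simplex_pv_ev hm]
  simp

end Pool.Agent.AVG
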