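import Mathlib

/-! # MP_89fc28_gt: square roots of matrices -/

set_option autoImplicit false

open Set MeasureTheory Module

namespace Pool.Agent.AVG

open scoped Matrix

open scoped MatrixOrder in
private noncomputable def sqrtS {s : ℕ} (M : Matrix (Fin s) (Fin s) ℝ) :
    Matrix (Fin s) (Fin s) ℝ := CFC.sqrt M

open scoped MatrixOrder in
private theorem sqrt_facts {s : ℕ} {M : Matrix (Fin s) (Fin s) ℝ} (hM : M.PosSemidef) :
    (sqrtS M).PosSemidef ∧ sqrtS M * sqrtS M = M ∧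
    ∀ A : Matrix (Fin s) (Fin s) ℝ, A.PosSemidef → A * A = M → sqrtS M = A := by
  have h0 : 0 ≤ M := hM.nonneg
  refine ⟨Matrix.nonneg_iff_posSemidef.1 (CFC.sqrt_nonneg M), CFC.sqrt_mul_sqrt_self M h0,
    fun A hA h => ?_⟩
  exact CFC.sqrt_unique h hA.nonneg

open scoped MatrixOrder in
private theorem sqrt_comm {s : ℕ} {M J : Matrix (Fin s) (Fin s) ℝ} (h : M * J = J * M) :
    sqrtS M * J = J * sqrtS M := by
  have h1 : Commute M J := h
  exact (h1.cfcₙ_nnreal _).eq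

private theorem sqrt_psd_closed (s : ℕ) :
    IsClosed {A : Matrix (Fin s) (Fin s) ℝ | A.PosSemidef} := by
  have e : {A : Matrix (Fin s) (Fin s) ℝ | A.PosSemidef} =
      {A | A.conjTranspose = A} ∩ ⋂ x : Fin s → ℝ, {A | 0 ≤ star x ⬝ᵥ A *ᵥ x} := by
    ext A
    simp only [mem_ofPred_eq, mem_inter_iff, mem_iInter, Matrix.posSemidef_iff_dotProduct_mulVec]
    exact Iff.rfl
  rw [e]
  refine IsClosed.inter (isClosed_eq (by fun_prop) (by fun_prop)) (isClosed_iInter fun x => ?_)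
  exact isClosed_le continuous_const
    (Continuous.dotProduct continuous_const (Continuous.matrix_mulVec continuous_id continuous_const))

private theorem sqrt_compact (s : ℕ) (B : ℝ) :
    IsCompact {A : Matrix (Fin s) (Fin s) ℝ | A.PosSemidef ∧ ∀ i j, A i j ∈ Icc (-B) B} := by
  have h1 : IsCompact {A : Matrix (Fin s) (Fin s) ℝ | ∀ i ∈ (univ : Set (Fin s)),
      A i ∈ {r : Fin s → ℝ | ∀ j ∈ (univ : Set (Fin s)), r j ∈ Icc (-B) B}} :=
    isCompact_univ_pi fun _ => isCompact_univ_pi fun _ => isCompact_Icc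
  have h2 := h1.inter_left (sqrt_psd_closed s)
  have e : {A : Matrix (Fin s) (Fin s) ℝ | A.PosSemidef ∧ ∀ i j, A i j ∈ Icc (-B) B} =
      {A : Matrix (Fin s) (Fin s) ℝ | A.PosSemidef} ∩
      {A : Matrix (Fin s) (Fin s) ℝ | ∀ i ∈ (univ : Set (Fin s)),
      A i ∈ {r : Fin s → ℝ | ∀ j ∈ (univ : Set (Fin s)), r j ∈ Icc (-B) B}} := by
    apply Set.ext
    intro A
    constructor
    · rintro ⟨h3, h4⟩
      exact ⟨h3, fun i _ j _ => h4 i j⟩
    · rintro ⟨h3, h4⟩
      exact ⟨h3, fun i j => h4 i (mem_univ i) j (mem_univ j)⟩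
  rw [e]
  exact h2

private theorem sqrt_cont (s : ℕ) :
    ContinuousOn (fun M : Matrix (Fin s) (Fin s) ℝ => sqrtS M) {M | M.PosDef} := by
  intro M0 hM0
  obtain ⟨B, hB0, hB⟩ : ∃ B : ℝ, 0 ≤ B ∧ ∀ i, M0 i i < B ^ 2 := by
    refine ⟨1 + ∑ i, |M0 i i|, by positivity, fun i => ?_⟩
    have h1 : |M0 i i| ≤ ∑ i, |M0 i i| :=
      Finset.single_le_sum (f := fun i => |M0 i i|) (fun i _ => abs_nonneg _) (Finset.mem_univ i)
    have h2 := le_abs_self (M0 i i)
    have h3 : 0 ≤ ∑ i, |M0 i i| := Finset.sum_nonneg fun i _ => abs_nonneg _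
    nlinarith
  set U : Set (Matrix (Fin s) (Fin s) ℝ) := {M | M.PosDef ∧ ∀ i, M i i ≤ B ^ 2} with hU
  have hbd : ∀ M ∈ U, ∀ i j, sqrtS M i j ∈ Icc (-B) B := by
    intro M hM i j
    obtain ⟨f1, f2, -⟩ := sqrt_facts hM.1.posSemidef
    have h1 : (sqrtS M * sqrtS M) i i ≤ B ^ 2 := by rw [f2]; exact hM.2 i
    rw [Matrix.mul_apply] at h1
    have h2 : ∀ j, sqrtS M j i = sqrtS M i j := fun j => by
      have := f1.isHermitian.apply i j
      simpa using this
    have h3 : sqrtS M i j * sqrtS M j i ≤ ∑ j, sqrtS M i j * sqrtS M j i := by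
      refine Finset.single_le_sum (f := fun j => sqrtS M i j * sqrtS M j i)
        (fun j _ => ?_) (Finset.mem_univ j)
      show 0 ≤ sqrtS M i j * sqrtS M j i
      rw [h2 j]
      exact mul_self_nonneg _
    rw [h2 j, ← sq] at h3
    exact abs_le.1 (abs_le_of_sq_le_sq (h3.trans h1) hB0)
  have hcU : ContinuousOn (fun M : Matrix (Fin s) (Fin s) ℝ => sqrtS M) U := by
    rw [continuousOn_iff_isClosed]
    intro t ht
    refine ⟨(fun A => A * A) '' ({A : Matrix (Fin s) (Fin s) ℝ | A.PosSemidef ∧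
      ∀ i j, A i j ∈ Icc (-B) B} ∩ t), ?_, ?_⟩
    · exact (((sqrt_compact s B).inter_right ht).image
        (continuous_id.matrix_mul continuous_id)).isClosed
    · ext M
      constructor
      · rintro ⟨h1, h2⟩
        obtain ⟨f1, f2, -⟩ := sqrt_facts h2.1.posSemidef
        exact ⟨⟨sqrtS M, ⟨⟨f1, hbd M h2⟩, h1⟩, f2⟩, h2⟩
      · rintro ⟨⟨A, ⟨⟨h1, -⟩, h2⟩, h3⟩, h4⟩
        refine ⟨?_, h4⟩
        have h5 := (sqrt_facts h4.1.posSemidef).2.2 A h1 h3
        show sqrtS M ∈ t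
        rw [h5]
        exact h2
  have hM0U : M0 ∈ U := ⟨hM0, fun i => (hB i).le⟩
  refine (hcU M0 hM0U).mono_of_mem_nhdsWithin ?_
  have hopen : IsOpen {M : Matrix (Fin s) (Fin s) ℝ | ∀ i, M i i < B ^ 2} := by
    have e : {M : Matrix (Fin s) (Fin s) ℝ | ∀ i, M i i < B ^ 2} =
        ⋂ i, {M : Matrix (Fin s) (Fin s) ℝ | M i i < B ^ 2} := by
      ext M; simp only [mem_ofPred_eq, mem_iInter]
    rw [e]
    exact isOpen_iInter_of_finite fun i =>
      isOpen_lt (continuous_id.matrix_elem i i) continuous_const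
  have h1 := inter_mem_nhdsWithin {M : Matrix (Fin s) (Fin s) ℝ | M.PosDef}
    (hopen.mem_nhds (show M0 ∈ _ from hB))
  exact Filter.mem_of_superset h1 fun M hM => ⟨hM.1, fun i => (hM.2 i).le⟩

/-- **Square roots of positive definite matrices**: continuous, equivariant. -/
theorem exists_sqrt (s : ℕ) : ∃ S : Matrix (Fin s) (Fin s) ℝ → Matrix (Fin s) (Fin s) ℝ,
    (∀ M : Matrix (Fin s) (Fin s) ℝ, M.PosDef → (S M).PosDef ∧ S M * S M = M) ∧
    ContinuousOn S {M | M.PosDef} ∧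
    ContinuousOn (fun M => (S M)⁻¹) {M | M.PosDef} ∧
    (∀ M : Matrix (Fin s) (Fin s) ℝ, M.PosDef → ∀ σ : Equiv.Perm (Fin s),
      S (M.submatrix σ σ) = (S M).submatrix σ σ) ∧
    (∀ M J : Matrix (Fin s) (Fin s) ℝ, M.PosDef → M * J = J * M → S M * J = J * S M) := by
  have hpd : ∀ M : Matrix (Fin s) (Fin s) ℝ, M.PosDef → (sqrtS M).PosDef := by
    intro M hM
    obtain ⟨f1, f2, -⟩ := sqrt_facts hM.posSemidef
    rw [f1.posDef_iff_det_ne_zero]
    intro h
    have h1 : M.det = 0 := by rw [← f2, Matrix.det_mul, h, mul_zero]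
    exact hM.det_pos.ne' h1
  refine ⟨fun M => sqrtS M, fun M hM => ⟨hpd M hM, (sqrt_facts hM.posSemidef).2.1⟩,
    sqrt_cont s, ?_, ?_, fun M J _ h => sqrt_comm h⟩
  · have e : (fun M : Matrix (Fin s) (Fin s) ℝ => (sqrtS M)⁻¹) =
        fun M => (sqrtS M).det⁻¹ • (sqrtS M).adjugate := by
      funext M
      rw [Matrix.inv_def, Ring.inverse_eq_inv']
    rw [e]
    have h1 : Continuous fun A : Matrix (Fin s) (Fin s) ℝ => A.det := continuous_id.matrix_det
    have h2 : Continuous fun A : Matrix (Fin s) (Fin s) ℝ => A.adjugate :=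
      continuous_id.matrix_adjugate
    refine ContinuousOn.smul (ContinuousOn.inv₀ (h1.comp_continuousOn (sqrt_cont s)) ?_)
      (h2.comp_continuousOn (sqrt_cont s))
    intro M hM
    exact (hpd M hM).det_pos.ne'
  · intro M hM σ
    obtain ⟨f1, f2, -⟩ := sqrt_facts hM.posSemidef
    refine (sqrt_facts (hM.posSemidef.submatrix σ)).2.2 _ (f1.submatrix σ) ?_
    rw [Matrix.submatrix_mul_equiv, f2]

end Pool.Agent.AVG
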