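import Pool.Agent.Lib.MP_89fc28_gt.G.Sqrt
import Pool.Agent.Lib.MP_89fc28_gt.G.Defs

/-! # MP_89fc28_gt: thinning -/

set_option autoImplicit false

open Set MeasureTheory Module

namespace Pool.Agent.AVG

/-- The matrix identity behind the thinning, in an arbitrary real algebra. -/
private lemma thin_alg {A : Type*} [Ring A] [Algebra ℝ A] (G E J R T Q m mt M Mt : A) (a t k : ℝ)
    (ha : a = 1 - t) (hJ : J = 1 - E) (hE : E * E = E) (hM : J * G * J = M - E)
    (hMt : Mt = a • M + t • (k • J + E)) (hRM : R * M * R = 1) (hmM : m * M = 1)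
    (hMm : M * m = 1) (hRE : R * E = E) (hER : E * R = E) (hEm : E * m = E) (hmE : m * E = E)
    (hTT : T * T = Mt) (hTQ : T * Q = 1) (hQT : Q * T = 1) (hTE : T * E = E) (hET : E * T = E)
    (hQE : Q * E = E) (hEQ : E * Q = E) (hQQ : Q * Q = mt) :
    ((J * T + a • (E * G * J * Q)) * R * J + a • (1 - G * J * m * J)) * G *
      (J * R * (T * J + a • (Q * J * G * E)) + a • (1 - J * m * J * G)) =
    a • G + (t * k) • J -
      a • (E * (t • (G * (1 - J * m * J * G)) + G * J * (m - a • mt) * J * G) * E) := by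
  have hEJ : E * J = 0 := by rw [hJ, mul_sub, mul_one, hE, sub_self]
  have hJE : J * E = 0 := by rw [hJ, sub_mul, one_mul, hE, sub_self]
  have hJJ : J * J = J := by
    nth_rw 2 [hJ]
    rw [mul_sub, mul_one, hJE, sub_zero]
  have hJR : J * R = R * J := by rw [hJ, sub_mul, mul_sub, one_mul, mul_one, hER, hRE]
  have hJT : J * T = T * J := by rw [hJ, sub_mul, mul_sub, one_mul, mul_one, hET, hTE]
  have hJQ : J * Q = Q * J := by rw [hJ, sub_mul, mul_sub, one_mul, mul_one, hEQ, hQE]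
  set W : A := 1 - J * m * J * G with hW
  set W' : A := 1 - G * J * m * J with hW'
  set K : A := T * J + a • (Q * J * G * E) with hK
  set K' : A := J * T + a • (E * G * J * Q) with hK'
  have hJGW : J * G * W = 0 := by
    have e1 : J * G * W = J * G - (J * G * J) * m * J * G := by
      rw [hW]; noncomm_ring
    rw [e1, hM]
    have e2 : (M - E) * m * J * G = M * m * J * G - E * m * J * G := by noncomm_ring
    rw [e2, hMm, hEm, hEJ]
    simp
  have hWGJ : W' * G * J = 0 := by
    have e1 : W' * G * J = G * J - G * J * m * (J * G * J) := by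
      rw [hW']; noncomm_ring
    rw [e1, hM]
    have e2 : G * J * m * (M - E) = G * J * (m * M) - G * J * (m * E) := by noncomm_ring
    rw [e2, hmM, hmE]
    have e3 : G * J * E = 0 := by rw [mul_assoc, hJE, mul_zero]
    rw [e3]
    simp
  have hGW : G * W = W' * G := by rw [hW, hW']; noncomm_ring
  have h1 : R * J * G * (J * R) = J := by
    have e1 : R * J * G * (J * R) = R * (J * G * J) * R := by noncomm_ring
    rw [e1, hM]
    have e2 : R * (M - E) * R = R * M * R - R * E * R := by noncomm_ring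
    rw [e2, hRM, hRE, hER, hJ]
  have h2 : R * J * G * W = 0 := by
    have e1 : R * J * G * W = R * (J * G * W) := by noncomm_ring
    rw [e1, hJGW, mul_zero]
  have h3 : W' * G * (J * R) = 0 := by
    have e1 : W' * G * (J * R) = (W' * G * J) * R := by noncomm_ring
    rw [e1, hWGJ, zero_mul]
  have h4 : W' * G * W = G * W := by
    have e1 : W' * G * W = G * W - G * J * m * (J * G * W) := by
      nth_rw 1 [hW']; noncomm_ring
    rw [e1, hJGW, mul_zero, sub_zero]
  have h5 : G * W = E * (G * W) * E := by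
    have hEJ1 : (1 : A) = E + J := by rw [hJ]; abel
    have e1 : J * (G * W) = 0 := by rw [← mul_assoc, hJGW]
    have e2 : (G * W) * J = 0 := by rw [hGW, hWGJ]
    calc G * W = (E + J) * (G * W) * (E + J) := by rw [← hEJ1, one_mul, mul_one]
      _ = E * (G * W) * E + E * ((G * W) * J) + J * (G * W) * E + J * (G * W) * J := by
          noncomm_ring
      _ = E * (G * W) * E := by rw [e1, e2]; simp
  have hJK : J * K = K := by
    rw [hK, mul_add, mul_smul_comm]
    have e1 : J * (T * J) = T * J := by rw [← mul_assoc, hJT, mul_assoc, hJJ]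
    have e2 : J * (Q * J * G * E) = Q * J * G * E := by
      calc J * (Q * J * G * E) = (J * Q) * J * G * E := by noncomm_ring
        _ = Q * (J * J) * G * E := by rw [hJQ]; noncomm_ring
        _ = Q * J * G * E := by rw [hJJ]
    rw [e1, e2]
  have h6 : K' * J * K = J * Mt * J + a • (J * G * E) + a • (E * G * J) +
      (a * a) • (E * G * J * mt * J * G * E) := by
    rw [mul_assoc, hJK, hK, hK']
    simp only [mul_add, add_mul, smul_mul_assoc, mul_smul_comm, smul_smul, smul_add]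
    have e1 : J * T * (T * J) = J * Mt * J := by rw [← hTT]; noncomm_ring
    have e2 : J * T * (Q * J * G * E) = J * G * E := by
      calc J * T * (Q * J * G * E) = J * (T * Q) * J * G * E := by noncomm_ring
        _ = J * G * E := by rw [hTQ, mul_one, hJJ]
    have e3 : E * G * J * Q * (T * J) = E * G * J := by
      calc E * G * J * Q * (T * J) = E * G * J * (Q * T) * J := by noncomm_ring
        _ = E * G * (J * J) := by rw [hQT]; noncomm_ring
        _ = E * G * J := by rw [hJJ]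
    have e4 : E * G * J * Q * (Q * J * G * E) = E * G * J * mt * J * G * E := by
      rw [← hQQ]; noncomm_ring
    rw [e1, e2, e3, e4]
    abel
  have h7 : J * Mt * J = a • (J * G * J) + (t * k) • J := by
    rw [hMt]
    have e1 : J * M * J = J * G * J := by
      have : M = J * G * J + E := by rw [hM]; abel
      calc J * M * J = J * (J * G * J + E) * J := by rw [← this]
        _ = (J * J) * G * (J * J) + (J * E) * J := by noncomm_ring
        _ = J * G * J := by rw [hJJ, hJE]; simp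
    have e2 : J * (k • J + E) * J = k • J := by
      rw [mul_add, add_mul, hJE, zero_mul, add_zero, mul_smul_comm, smul_mul_assoc, hJJ, hJJ]
    rw [mul_add, add_mul, mul_smul_comm, smul_mul_assoc, mul_smul_comm, smul_mul_assoc, e1, e2,
      smul_smul]
  have hL : (K' * R * J + a • W') * G * (J * R * K + a • W) =
      K' * J * K + (a * a) • (E * (G * W) * E) := by
    have e0 : (K' * R * J + a • W') * G * (J * R * K + a • W) =
        K' * (R * J * G * (J * R)) * K + a • (K' * (R * J * G * W)) +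
        a • ((W' * G * (J * R)) * K) + (a * a) • (W' * G * W) := by
      simp only [mul_add, add_mul, smul_mul_assoc, mul_smul_comm, smul_smul, mul_assoc, smul_add]
      abel
    rw [e0, h1, h2, h3, h4, ← h5]
    simp
  rw [hL, h6, h7]
  have hG : G = J * G * J + J * G * E + E * G * J + E * G * E := by
    have hEJ1 : (1 : A) = E + J := by rw [hJ]; abel
    calc G = (E + J) * G * (E + J) := by rw [← hEJ1, one_mul, mul_one]
      _ = _ := by noncomm_ring
  have hEGE : E * G * E = E * (G * W) * E + E * G * J * m * J * G * E := by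
    rw [hW]; noncomm_ring
  have hN : E * (t • (G * W) + G * J * (m - a • mt) * J * G) * E =
      t • (E * (G * W) * E) + E * G * J * m * J * G * E - a • (E * G * J * mt * J * G * E) := by
    simp only [mul_add, add_mul, mul_sub, sub_mul, smul_mul_assoc, mul_smul_comm, mul_assoc]
    abel
  rw [hN]
  have hG2 : a • G = a • (J * G * J) + a • (J * G * E) + a • (E * G * J) +
      (a • (E * (G * W) * E) + a • (E * G * J * m * J * G * E)) := by
    nth_rw 1 [hG]
    rw [hEGE]
    simp only [smul_add]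
  rw [hG2, ha]
  module


private lemma thin_alg2 {A : Type*} [Ring A] [Algebra ℝ A] (G E J m M mt Mt : A) (a : ℝ)
    (hJ : J = 1 - E) (hE : E * E = E) (hM : J * G * J = M - E)
    (hmM : m * M = 1) (hMm : M * m = 1) (hEm : E * m = E)
    (hmtMt : mt * Mt = 1) :
    (1 - G * J * m * J) * G * (1 - J * m * J * G) = G * (1 - J * m * J * G) ∧
    G * J * (m - a • mt) * J * G =
      (G * J * (m - a • mt)) * M * ((m - a • mt) * J * G) +
        a • ((G * J * mt) * (Mt - a • M) * (mt * J * G)) := by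
  have hEJ : E * J = 0 := by rw [hJ, mul_sub, mul_one, hE, sub_self]
  constructor
  · set W : A := 1 - J * m * J * G with hW
    have hJGW : J * G * W = 0 := by
      have e1 : J * G * W = J * G - (J * G * J) * m * J * G := by
        rw [hW]; noncomm_ring
      rw [e1, hM]
      have e2 : (M - E) * m * J * G = M * m * J * G - E * m * J * G := by noncomm_ring
      rw [e2, hMm, hEm, hEJ]
      simp
    have e1 : (1 - G * J * m * J) * G * W = G * W - G * J * m * (J * G * W) := by
      noncomm_ring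
    rw [e1, hJGW, mul_zero, sub_zero]
  · have e1 : (m - a • mt) * M * (m - a • mt) = m - (2 * a) • mt + (a * a) • (mt * M * mt) := by
      have e1a : (m - a • mt) * M * (m - a • mt) =
          (m * M) * m - a • ((m * M) * mt) - a • (mt * (M * m)) + (a * a) • (mt * M * mt) := by
        simp only [mul_add, add_mul, mul_sub, sub_mul, smul_mul_assoc, mul_smul_comm, smul_smul,
          mul_assoc, smul_add, smul_sub]
        abel
      rw [e1a, hmM, hMm]
      simp only [one_mul, mul_one]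
      module
    have e2 : mt * (Mt - a • M) * mt = mt - a • (mt * M * mt) := by
      rw [mul_sub, sub_mul, hmtMt, one_mul, mul_smul_comm, smul_mul_assoc]
    have e3 : (G * J * (m - a • mt)) * M * ((m - a • mt) * J * G) =
        G * J * ((m - a • mt) * M * (m - a • mt)) * J * G := by
      simp only [mul_assoc]
    have e4 : (G * J * mt) * (Mt - a • M) * (mt * J * G) =
        G * J * (mt * (Mt - a • M) * mt) * J * G := by
      simp only [mul_assoc]
    rw [e3, e4, e1, e2]
    simp only [mul_add, add_mul, mul_sub, sub_mul, smul_mul_assoc, mul_smul_comm, smul_smul,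
          mul_assoc, smul_add, smul_sub]
    module

open scoped Matrix

/-- the averaging matrix -/
private noncomputable def thin_E (s : ℕ) : Matrix (Fin s) (Fin s) ℝ := Matrix.of fun _ _ => 1 / (s : ℝ)

private lemma thin_EE {s : ℕ} (hs : 0 < s) : thin_E s * thin_E s = thin_E s := by
  ext i j
  have hs' : (s : ℝ) ≠ 0 := by exact_mod_cast hs.ne'
  simp only [thin_E, Matrix.mul_apply, Matrix.of_apply, Finset.sum_const, Finset.card_univ,
    Fintype.card_fin, nsmul_eq_mul]
  field_simp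

private lemma thin_ET (s : ℕ) : (thin_E s)ᵀ = thin_E s := by
  ext i j; simp [thin_E]

private lemma thin_Esub (s : ℕ) (σ : Equiv.Perm (Fin s)) : (thin_E s).submatrix σ σ = thin_E s := by
  ext i j; simp [thin_E]

private noncomputable def thin_tot {s : ℕ} (X : Matrix (Fin s) (Fin s) ℝ) : ℝ := ∑ j, ∑ k, X j k

private lemma thin_EXE {s : ℕ} (X : Matrix (Fin s) (Fin s) ℝ) (i l : Fin s) :
    (thin_E s * X * thin_E s) i l = thin_tot X / (s : ℝ) ^ 2 := by
  simp only [thin_E, Matrix.mul_apply, Matrix.of_apply, thin_tot]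
  rw [← Finset.sum_mul]
  have : ∑ k : Fin s, ∑ j : Fin s, 1 / (s : ℝ) * X j k = (1 / (s : ℝ)) * ∑ j, ∑ k, X j k := by
    rw [Finset.sum_comm, Finset.mul_sum]
    refine Finset.sum_congr rfl fun j _ => ?_
    rw [Finset.mul_sum]
  rw [this]
  ring

private lemma thin_tot_eq {s : ℕ} (X : Matrix (Fin s) (Fin s) ℝ) :
    thin_tot X = (fun _ => (1 : ℝ)) ⬝ᵥ (X *ᵥ (fun _ => (1 : ℝ))) := by
  simp [thin_tot, dotProduct, Matrix.mulVec]

private lemma thin_tot_nonneg {s : ℕ} {X : Matrix (Fin s) (Fin s) ℝ} (hX : X.PosSemidef) :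
    0 ≤ thin_tot X := by
  rw [thin_tot_eq]
  have := hX.dotProduct_mulVec_nonneg (fun _ => (1 : ℝ))
  simpa using this

private lemma thin_tot_pos {s : ℕ} (hs : 0 < s) {X : Matrix (Fin s) (Fin s) ℝ} (hX : X.PosDef) :
    0 < thin_tot X := by
  rw [thin_tot_eq]
  have hne : (fun _ : Fin s => (1 : ℝ)) ≠ 0 := by
    intro h
    have := congrFun h ⟨0, hs⟩
    simp at this
  have := hX.dotProduct_mulVec_pos hne
  simpa using this

private lemma thin_XE {s : ℕ} (hs : 0 < s) {X : Matrix (Fin s) (Fin s) ℝ} (hX : X.PosDef)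
    (hc : X * thin_E s = thin_E s * X) (h2 : X * X * thin_E s = thin_E s) :
    X * thin_E s = thin_E s ∧ thin_E s * X = thin_E s := by
  have hs' : (0 : ℝ) < s := by exact_mod_cast hs
  have e1 : X * thin_E s = (thin_tot X / s) • thin_E s := by
    have e0 : X * thin_E s = thin_E s * X * thin_E s := by
      rw [← hc, mul_assoc, thin_EE hs]
    rw [e0]
    ext i l
    rw [thin_EXE]
    simp only [Matrix.smul_apply, thin_E, Matrix.of_apply, smul_eq_mul]
    field_simp
  have hcpos : 0 < thin_tot X / s := div_pos (thin_tot_pos hs hX) hs'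
  set c := thin_tot X / s with hcdef
  have e2 : (c * c) • thin_E s = thin_E s := by
    have : X * X * thin_E s = (c * c) • thin_E s := by
      rw [mul_assoc, e1, Matrix.mul_smul, e1, smul_smul]
    rw [← this, h2]
  have e3 : c * c = 1 := by
    have := congrFun (congrFun e2 ⟨0, hs⟩) ⟨0, hs⟩
    simp only [Matrix.smul_apply, thin_E, Matrix.of_apply, smul_eq_mul] at this
    field_simp at this
    linarith
  have e4 : c = 1 := by nlinarith
  rw [e4, one_smul] at e1
  exact ⟨e1, by rw [← hc, e1]⟩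

private lemma thin_quad {s : ℕ} {G : Matrix (Fin s) (Fin s) ℝ} (hG : G.PosSemidef)
    (hneg : ∀ i l, i ≠ l → G i l < 0) (v : Fin s → ℝ) (hv : v ≠ 0) (hsum : ∑ i, v i = 0) :
    0 < v ⬝ᵥ (G *ᵥ v) := by
  have hex : ∀ w : Fin s → ℝ, w ⬝ᵥ (G *ᵥ w) = ∑ i, ∑ j, w i * G i j * w j := by
    intro w
    simp only [dotProduct, Matrix.mulVec, Finset.mul_sum]
    refine Finset.sum_congr rfl fun i _ => Finset.sum_congr rfl fun j _ => by ring
  have h1 : 0 ≤ (fun i => |v i|) ⬝ᵥ (G *ᵥ (fun i => |v i|)) := by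
    have := hG.dotProduct_mulVec_nonneg (fun i => |v i|)
    simpa using this
  -- a positive and a negative coordinate
  obtain ⟨p, hp⟩ : ∃ p, 0 < v p := by
    by_contra hno
    push Not at hno
    apply hv
    funext i
    have := (Finset.sum_eq_zero_iff_of_nonpos (fun i _ => hno i)).1 hsum i (Finset.mem_univ i)
    simpa using this
  obtain ⟨q, hq⟩ : ∃ q, v q < 0 := by
    by_contra hno
    push Not at hno
    apply hv
    funext i
    have := (Finset.sum_eq_zero_iff_of_nonneg (fun i _ => hno i)).1 hsum i (Finset.mem_univ i)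
    simpa using this
  have hpq : p ≠ q := by
    intro h
    rw [h] at hp
    linarith
  have hterm : ∀ i j, |v i| * G i j * |v j| ≤ v i * G i j * v j := by
    intro i j
    by_cases hij : i = j
    · subst hij
      have : |v i| * G i i * |v i| = G i i * (|v i| * |v i|) := by ring
      rw [this, abs_mul_abs_self]
      exact le_of_eq (by ring)
    · have hg := hneg i j hij
      have h2 : v i * v j ≤ |v i| * |v j| := by
        rw [← abs_mul]
        exact le_abs_self _
      nlinarith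
  have hstrict : |v p| * G p q * |v q| < v p * G p q * v q := by
    have hg := hneg p q hpq
    rw [abs_of_pos hp, abs_of_neg hq]
    have h3 : 0 < v p * (-v q) := mul_pos hp (by linarith)
    nlinarith
  have h2 : (fun i => |v i|) ⬝ᵥ (G *ᵥ (fun i => |v i|)) < v ⬝ᵥ (G *ᵥ v) := by
    rw [hex, hex]
    refine Finset.sum_lt_sum (fun i _ => Finset.sum_le_sum fun j _ => hterm i j)
      ⟨p, Finset.mem_univ p, ?_⟩
    exact Finset.sum_lt_sum (fun j _ => hterm p j) ⟨q, Finset.mem_univ q, hstrict⟩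
  linarith

private noncomputable def thin_M {s : ℕ} (G : Matrix (Fin s) (Fin s) ℝ) : Matrix (Fin s) (Fin s) ℝ :=
  (1 - thin_E s) * G * (1 - thin_E s) + thin_E s

private lemma thin_JT (s : ℕ) : (1 - thin_E s)ᵀ = 1 - thin_E s := by
  rw [Matrix.transpose_sub, Matrix.transpose_one, thin_ET]

private lemma thin_M_posDef {s : ℕ} (hs : 0 < s) {G : Matrix (Fin s) (Fin s) ℝ}
    (hG : G.PosSemidef) (hneg : ∀ i l, i ≠ l → G i l < 0) : (thin_M G).PosDef := by
  have hs' : (0 : ℝ) < s := by exact_mod_cast hs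
  have hJGJ : ((1 - thin_E s) * G * (1 - thin_E s)).PosSemidef := by
    have := hG.conjTranspose_mul_mul_same (1 - thin_E s)
    rwa [Matrix.conjTranspose_eq_transpose_of_trivial, thin_JT] at this
  have hEh : (thin_E s).IsHermitian := by
    unfold Matrix.IsHermitian
    rw [Matrix.conjTranspose_eq_transpose_of_trivial, thin_ET]
  refine Matrix.PosDef.of_dotProduct_mulVec_pos (hJGJ.isHermitian.add hEh) ?_
  intro v hv
  have hEv : ∀ i, (thin_E s *ᵥ v) i = (∑ j, v j) / s := by
    intro i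
    simp only [thin_E, Matrix.mulVec, dotProduct, Matrix.of_apply]
    rw [← Finset.mul_sum]
    ring
  have hE2 : v ⬝ᵥ (thin_E s *ᵥ v) = (∑ j, v j) ^ 2 / s := by
    simp only [dotProduct, hEv]
    rw [← Finset.sum_mul]
    ring
  have h1 : star v ⬝ᵥ (thin_M G *ᵥ v) =
      v ⬝ᵥ (((1 - thin_E s) * G * (1 - thin_E s)) *ᵥ v) + v ⬝ᵥ (thin_E s *ᵥ v) := by
    unfold thin_M
    rw [Matrix.add_mulVec, dotProduct_add]
    simp
  rw [h1, hE2]
  have h2 : 0 ≤ v ⬝ᵥ (((1 - thin_E s) * G * (1 - thin_E s)) *ᵥ v) := by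
    have := hJGJ.dotProduct_mulVec_nonneg v
    simpa using this
  by_cases hsum : ∑ j, v j = 0
  · have hEv0 : thin_E s *ᵥ v = 0 := by
      funext i
      rw [hEv, hsum]
      simp
    have hvE0 : v ᵥ* thin_E s = 0 := by
      have : v ᵥ* thin_E s = thin_E s *ᵥ v := by
        rw [← Matrix.mulVec_transpose, thin_ET]
      rw [this, hEv0]
    have hJv : (1 - thin_E s) *ᵥ v = v := by
      rw [Matrix.sub_mulVec, Matrix.one_mulVec, hEv0, sub_zero]
    have hvJ : v ᵥ* (1 - thin_E s) = v := by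
      rw [Matrix.vecMul_sub, Matrix.vecMul_one, hvE0, sub_zero]
    have h3 : v ⬝ᵥ (((1 - thin_E s) * G * (1 - thin_E s)) *ᵥ v) = v ⬝ᵥ (G *ᵥ v) := by
      rw [← Matrix.mulVec_mulVec, ← Matrix.mulVec_mulVec, hJv, Matrix.dotProduct_mulVec, hvJ]
    rw [h3, hsum]
    have := thin_quad hG hneg v hv hsum
    simpa using this
  · have : 0 < (∑ j, v j) ^ 2 / (s : ℝ) := by positivity
    linarith

private lemma thin_J_posSemidef {s : ℕ} (hs : 0 < s) : (1 - thin_E s).PosSemidef := by
  have h : (1 - thin_E s) = (1 - thin_E s)ᴴ * (1 - thin_E s) := by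
    rw [Matrix.conjTranspose_eq_transpose_of_trivial, thin_JT, mul_sub, mul_one, sub_mul, one_mul,
      thin_EE hs, sub_self, sub_zero]
  rw [h]
  exact Matrix.posSemidef_conjTranspose_mul_self _

private lemma thin_N0_posDef {s : ℕ} (hs : 2 ≤ s) :
    (((s : ℝ) / ((s : ℝ) - 1)) • (1 - thin_E s) + thin_E s).PosDef := by
  have hs1 : (1 : ℝ) < s := by exact_mod_cast (by omega : 1 < s)
  have h : ((s : ℝ) / ((s : ℝ) - 1)) • (1 - thin_E s) + thin_E s =
      1 + ((s : ℝ) / ((s : ℝ) - 1) - 1) • (1 - thin_E s) := by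
    rw [sub_smul, one_smul]
    abel
  rw [h]
  refine Matrix.PosDef.one.add_posSemidef ((thin_J_posSemidef (by omega)).smul ?_)
  have h1 : (0 : ℝ) < s - 1 := by linarith
  have h2 : (s : ℝ) / ((s : ℝ) - 1) - 1 = 1 / ((s : ℝ) - 1) := by
    field_simp
    ring
  rw [h2]
  positivity

private noncomputable def thin_Mt {s : ℕ} (G : Matrix (Fin s) (Fin s) ℝ) (t : ℝ) :
    Matrix (Fin s) (Fin s) ℝ :=
  (1 - t) • thin_M G + t • (((s : ℝ) / ((s : ℝ) - 1)) • (1 - thin_E s) + thin_E s)

private lemma thin_Mt_posDef {s : ℕ} (hs : 2 ≤ s) {G : Matrix (Fin s) (Fin s) ℝ}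
    (hG : G.PosSemidef) (hneg : ∀ i l, i ≠ l → G i l < 0) {t : ℝ} (ht0 : 0 ≤ t) (ht1 : t ≤ 1) :
    (thin_Mt G t).PosDef := by
  have h1 := thin_M_posDef (by omega) hG hneg
  have h2 := thin_N0_posDef hs
  unfold thin_Mt
  rcases ht0.eq_or_lt with h | h
  · rw [← h]
    simpa using h1
  · exact Matrix.PosDef.posSemidef_add (h1.posSemidef.smul (by linarith)) (h2.smul h)

/-- the transition matrix -/
private noncomputable def thin_C {s : ℕ} (S : Matrix (Fin s) (Fin s) ℝ → Matrix (Fin s) (Fin s) ℝ)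
    (G : Matrix (Fin s) (Fin s) ℝ) (t : ℝ) : Matrix (Fin s) (Fin s) ℝ :=
  (1 - thin_E s) * (S (thin_M G))⁻¹ * (S (thin_Mt G t) * (1 - thin_E s) +
    (1 - t) • ((S (thin_Mt G t))⁻¹ * (1 - thin_E s) * G * thin_E s)) +
    (1 - t) • (1 - (1 - thin_E s) * ((S (thin_M G))⁻¹ * (S (thin_M G))⁻¹) * (1 - thin_E s) * G)

private lemma thin_ME {s : ℕ} (hs : 0 < s) (G : Matrix (Fin s) (Fin s) ℝ) :
    thin_M G * thin_E s = thin_E s ∧ thin_E s * thin_M G = thin_E s := by
  have h1 : (1 - thin_E s) * thin_E s = 0 := by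
    rw [sub_mul, one_mul, thin_EE hs, sub_self]
  have h2 : thin_E s * (1 - thin_E s) = 0 := by
    rw [mul_sub, mul_one, thin_EE hs, sub_self]
  unfold thin_M
  constructor
  · rw [add_mul, mul_assoc, h1, mul_zero, thin_EE hs, zero_add]
  · rw [mul_add, mul_assoc, ← mul_assoc (thin_E s), h2, zero_mul, thin_EE hs, zero_add]

private lemma thin_MtE {s : ℕ} (hs : 0 < s) (G : Matrix (Fin s) (Fin s) ℝ) (t : ℝ) :
    thin_Mt G t * thin_E s = thin_E s ∧ thin_E s * thin_Mt G t = thin_E s := by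
  have h1 : (1 - thin_E s) * thin_E s = 0 := by
    rw [sub_mul, one_mul, thin_EE hs, sub_self]
  have h2 : thin_E s * (1 - thin_E s) = 0 := by
    rw [mul_sub, mul_one, thin_EE hs, sub_self]
  obtain ⟨h3, h4⟩ := thin_ME hs G
  unfold thin_Mt
  constructor
  · rw [add_mul, smul_mul_assoc, smul_mul_assoc, h3, add_mul, smul_mul_assoc, h1, smul_zero,
      zero_add, thin_EE hs]
    module
  · rw [mul_add, mul_smul_comm, mul_smul_comm, h4, mul_add, mul_smul_comm, h2, smul_zero,
      zero_add, thin_EE hs]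
    module

/-- facts about the square root and its inverse -/
private lemma thin_S_facts {s : ℕ} (hs : 0 < s)
    {S : Matrix (Fin s) (Fin s) ℝ → Matrix (Fin s) (Fin s) ℝ}
    (hS1 : ∀ M : Matrix (Fin s) (Fin s) ℝ, M.PosDef → (S M).PosDef ∧ S M * S M = M)
    (hS5 : ∀ M J : Matrix (Fin s) (Fin s) ℝ, M.PosDef → M * J = J * M → S M * J = J * S M)
    {M : Matrix (Fin s) (Fin s) ℝ} (hM : M.PosDef) (hME : M * thin_E s = thin_E s)
    (hEM : thin_E s * M = thin_E s) :
    (S M * (S M)⁻¹ = 1 ∧ (S M)⁻¹ * S M = 1) ∧ (S M * thin_E s = thin_E s ∧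
      thin_E s * S M = thin_E s) ∧ ((S M)⁻¹ * thin_E s = thin_E s ∧
      thin_E s * (S M)⁻¹ = thin_E s) ∧ ((S M)ᵀ = S M ∧ ((S M)⁻¹)ᵀ = (S M)⁻¹) := by
  obtain ⟨h1, h2⟩ := hS1 M hM
  have hu : IsUnit (S M).det := (Matrix.isUnit_iff_isUnit_det _).1 h1.isUnit
  have h3 : S M * (S M)⁻¹ = 1 := Matrix.mul_nonsing_inv _ hu
  have h4 : (S M)⁻¹ * S M = 1 := Matrix.nonsing_inv_mul _ hu
  have h5 : S M * thin_E s = thin_E s * S M := hS5 M _ hM (by rw [hME, hEM])
  obtain ⟨h6, h7⟩ := thin_XE hs h1 h5 (by rw [h2, hME])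
  refine ⟨⟨h3, h4⟩, ⟨h6, h7⟩, ⟨?_, ?_⟩, ?_, ?_⟩
  · calc (S M)⁻¹ * thin_E s = (S M)⁻¹ * (S M * thin_E s) := by rw [h6]
      _ = thin_E s := by rw [← mul_assoc, h4, one_mul]
  · calc thin_E s * (S M)⁻¹ = (thin_E s * S M) * (S M)⁻¹ := by rw [h7]
      _ = thin_E s := by rw [mul_assoc, h3, mul_one]
  · have := h1.isHermitian
    unfold Matrix.IsHermitian at this
    rwa [Matrix.conjTranspose_eq_transpose_of_trivial] at this
  · have := h1.inv.isHermitian
    unfold Matrix.IsHermitian at this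
    rwa [Matrix.conjTranspose_eq_transpose_of_trivial] at this

private lemma thin_C_zero {s : ℕ} (hs : 2 ≤ s)
    {S : Matrix (Fin s) (Fin s) ℝ → Matrix (Fin s) (Fin s) ℝ}
    (hS1 : ∀ M : Matrix (Fin s) (Fin s) ℝ, M.PosDef → (S M).PosDef ∧ S M * S M = M)
    (hS5 : ∀ M J : Matrix (Fin s) (Fin s) ℝ, M.PosDef → M * J = J * M → S M * J = J * S M)
    {G : Matrix (Fin s) (Fin s) ℝ} (hG : G.PosSemidef) (hneg : ∀ i l, i ≠ l → G i l < 0) :
    thin_C S G 0 = 1 := by
  have hs0 : 0 < s := by omega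
  have hM := thin_M_posDef hs0 hG hneg
  obtain ⟨hME, hEM⟩ := thin_ME hs0 G
  obtain ⟨⟨h1, h2⟩, ⟨h3, h4⟩, ⟨h5, h6⟩, -, -⟩ := thin_S_facts hs0 hS1 hS5 hM hME hEM
  have hMt : thin_Mt G 0 = thin_M G := by
    unfold thin_Mt
    simp
  have hSS := (hS1 _ hM).2
  have hM' : (1 - thin_E s) * G * (1 - thin_E s) = thin_M G - thin_E s := by
    unfold thin_M
    abel
  unfold thin_C
  rw [hMt]
  set E := thin_E s with hE
  set R := (S (thin_M G))⁻¹ with hR
  set T := S (thin_M G) with hT
  have hEE : E * E = E := thin_EE hs0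
  set J := 1 - E with hJ
  have hEJ : E * J = 0 := by rw [hJ, mul_sub, mul_one, hEE, sub_self]
  have hJJ : J * J = J := by
    nth_rw 1 [hJ]
    rw [sub_mul, one_mul, hEJ, sub_zero]
  have hRRM : R * R * thin_M G = 1 := by
    rw [← hSS]
    calc R * R * (T * T) = R * (R * T) * T := by noncomm_ring
      _ = 1 := by rw [h2, mul_one, h2]
  have hRRE : R * R * E = E := by rw [mul_assoc, h5, h5]
  have e1 : J * R * (T * J + (1 - (0 : ℝ)) • (R * J * G * E)) =
      J + J * (R * R) * J * G * E := by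
    have hJR : J * R = R * J := by rw [hJ, sub_mul, mul_sub, one_mul, mul_one, h6, h5]
    rw [sub_zero, one_smul, mul_add]
    have e1a : J * R * (T * J) = J := by
      calc J * R * (T * J) = J * (R * T) * J := by noncomm_ring
        _ = J := by rw [h2, mul_one, hJJ]
    rw [e1a]
    noncomm_ring
  rw [e1, sub_zero, one_smul]
  have e2 : J * (R * R) * J * G * J = J := by
    calc J * (R * R) * J * G * J = J * (R * R) * (J * G * J) := by noncomm_ring
      _ = J * (R * R * thin_M G - R * R * E) := by rw [hM']; noncomm_ring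
      _ = J * (1 - E) := by rw [hRRM, hRRE]
      _ = J := by rw [← hJ, hJJ]
  have e3 : J * (R * R) * J * G = J * (R * R) * J * G * E + J * (R * R) * J * G * J := by
    rw [hJ]; noncomm_ring
  rw [e2] at e3
  calc J + J * (R * R) * J * G * E + (1 - J * (R * R) * J * G) =
        J + J * (R * R) * J * G * E + (1 - (J * (R * R) * J * G * E + J)) := by rw [← e3]
    _ = 1 := by abel

private lemma thin_gram {s : ℕ} (hs : 2 ≤ s)
    {S : Matrix (Fin s) (Fin s) ℝ → Matrix (Fin s) (Fin s) ℝ}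
    (hS1 : ∀ M : Matrix (Fin s) (Fin s) ℝ, M.PosDef → (S M).PosDef ∧ S M * S M = M)
    (hS5 : ∀ M J : Matrix (Fin s) (Fin s) ℝ, M.PosDef → M * J = J * M → S M * J = J * S M)
    {G : Matrix (Fin s) (Fin s) ℝ} (hG : G.PosSemidef) (hneg : ∀ i l, i ≠ l → G i l < 0)
    {t : ℝ} (ht0 : 0 ≤ t) (ht1 : t ≤ 1) :
    ∃ θ : ℝ, 0 ≤ θ ∧ (t = 1 → θ = 0) ∧ ∀ i l, ((thin_C S G t)ᵀ * G * thin_C S G t) i l =
      (1 - t) * G i l + t * ((s : ℝ) / ((s : ℝ) - 1)) * (1 - thin_E s) i l - θ := by
  have hs0 : 0 < s := by omega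
  have hM := thin_M_posDef hs0 hG hneg
  have hMt := thin_Mt_posDef hs hG hneg ht0 ht1
  obtain ⟨hME, hEM⟩ := thin_ME hs0 G
  obtain ⟨hMtE, hEMt⟩ := thin_MtE hs0 G t
  obtain ⟨⟨a1, a2⟩, ⟨a3, a4⟩, ⟨a5, a6⟩, a7, a8⟩ := thin_S_facts hs0 hS1 hS5 hM hME hEM
  obtain ⟨⟨b1, b2⟩, ⟨b3, b4⟩, ⟨b5, b6⟩, b7, b8⟩ := thin_S_facts hs0 hS1 hS5 hMt hMtE hEMt
  have hSS := (hS1 _ hM).2
  have hTT := (hS1 _ hMt).2
  have hM' : (1 - thin_E s) * G * (1 - thin_E s) = thin_M G - thin_E s := by
    unfold thin_M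
    abel
  have hGT : Gᵀ = G := by
    have := hG.isHermitian
    unfold Matrix.IsHermitian at this
    rwa [Matrix.conjTranspose_eq_transpose_of_trivial] at this
  have hET := thin_ET s
  have hJT := thin_JT s
  have hEE : thin_E s * thin_E s = thin_E s := thin_EE hs0
  have hMtdef : thin_Mt G t = (1 - t) • thin_M G +
    t • (((s : ℝ) / ((s : ℝ) - 1)) • (1 - thin_E s) + thin_E s) := rfl
  have hCdef : thin_C S G t = (1 - thin_E s) * (S (thin_M G))⁻¹ * (S (thin_Mt G t) * (1 - thin_E s) +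
    (1 - t) • ((S (thin_Mt G t))⁻¹ * (1 - thin_E s) * G * thin_E s)) +
    (1 - t) • (1 - (1 - thin_E s) * ((S (thin_M G))⁻¹ * (S (thin_M G))⁻¹) *
      (1 - thin_E s) * G) := rfl
  have hMT : (thin_M G)ᵀ = thin_M G := by
    have := hM.isHermitian
    unfold Matrix.IsHermitian at this
    rwa [Matrix.conjTranspose_eq_transpose_of_trivial] at this
  set M := thin_M G with hMd
  set Mt := thin_Mt G t with hMtd
  set R := (S M)⁻¹ with hR
  set T := S Mt with hT
  set Q := T⁻¹ with hQ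
  set E := thin_E s with hE
  set J := 1 - E with hJ
  have hmM : R * R * M = 1 := by
    rw [← hSS]
    calc R * R * (S M * S M) = R * (R * S M) * S M := by noncomm_ring
      _ = 1 := by rw [a2, mul_one, a2]
  have hMm : M * (R * R) = 1 := by
    rw [← hSS]
    calc S M * S M * (R * R) = S M * (S M * R) * R := by noncomm_ring
      _ = 1 := by rw [a1, mul_one, a1]
  have hRM : R * M * R = 1 := by
    rw [← hSS]
    calc R * (S M * S M) * R = (R * S M) * (S M * R) := by noncomm_ring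
      _ = 1 := by rw [a1, a2, mul_one]
  have hQQ : Q * Q * Mt = 1 := by
    rw [← hTT]
    calc Q * Q * (T * T) = Q * (Q * T) * T := by noncomm_ring
      _ = 1 := by rw [b2, mul_one, b2]
  have hCT : (thin_C S G t)ᵀ = (J * T + (1 - t) • (E * G * J * Q)) * R * J +
      (1 - t) • (1 - G * J * (R * R) * J) := by
    rw [hCdef]
    simp only [Matrix.transpose_add, Matrix.transpose_mul, Matrix.transpose_smul, hJT, a8, b7, b8,
      hET, hGT, Matrix.transpose_sub, Matrix.transpose_one, mul_assoc]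
  have halg := thin_alg G E J R T Q (R * R) (Q * Q) M Mt (1 - t) t ((s : ℝ) / ((s : ℝ) - 1)) rfl hJ
    hEE hM' hMtdef hRM hmM hMm a5 a6 (by rw [← mul_assoc, a6, a6]) (by rw [mul_assoc, a5, a5])
    hTT b1 b2 b3 b4 b5 b6 rfl
  obtain ⟨c1, c2⟩ := thin_alg2 G E J (R * R) M (Q * Q) Mt (1 - t) hJ hEE hM' hmM hMm
    (by rw [← mul_assoc, a6, a6]) hQQ
  set Nn := t • (G * (1 - J * (R * R) * J * G)) +
    G * J * ((R * R) - (1 - t) • (Q * Q)) * J * G with hNn
  have hNpos : Nn.PosSemidef := by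
    rw [hNn]
    refine Matrix.PosSemidef.add ?_ ?_
    · refine Matrix.PosSemidef.smul ?_ ht0
      rw [← c1]
      have h := hG.conjTranspose_mul_mul_same (1 - J * (R * R) * J * G)
      have h2 : (1 - J * (R * R) * J * G)ᴴ = 1 - G * J * (R * R) * J := by
        rw [Matrix.conjTranspose_eq_transpose_of_trivial]
        simp only [Matrix.transpose_mul, hJT, a8, hGT, Matrix.transpose_sub, Matrix.transpose_one,
          mul_assoc]
      rwa [h2] at h
    · rw [c2]
      have hd : ((R * R) - (1 - t) • (Q * Q))ᵀ = (R * R) - (1 - t) • (Q * Q) := by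
        simp only [Matrix.transpose_mul, Matrix.transpose_sub, Matrix.transpose_smul, a8, b8]
      refine Matrix.PosSemidef.add ?_ ?_
      · have h := hM.posSemidef.conjTranspose_mul_mul_same (((R * R) - (1 - t) • (Q * Q)) * J * G)
        have h2 : (((R * R) - (1 - t) • (Q * Q)) * J * G)ᴴ =
            G * J * ((R * R) - (1 - t) • (Q * Q)) := by
          rw [Matrix.conjTranspose_eq_transpose_of_trivial, Matrix.transpose_mul,
            Matrix.transpose_mul, hd, hJT, hGT, mul_assoc]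
        rwa [h2] at h
      · refine Matrix.PosSemidef.smul ?_ (by linarith)
        have h0 : (Mt - (1 - t) • M).PosSemidef := by
          have : Mt - (1 - t) • M = t • (((s : ℝ) / ((s : ℝ) - 1)) • J + E) := by
            rw [hMtdef]; abel
          rw [this]
          exact (thin_N0_posDef hs).posSemidef.smul ht0
        have h := h0.conjTranspose_mul_mul_same (Q * Q * J * G)
        have h2 : (Q * Q * J * G)ᴴ = G * J * (Q * Q) := by
          rw [Matrix.conjTranspose_eq_transpose_of_trivial]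
          simp only [Matrix.transpose_mul, hJT, b8, hGT, mul_assoc]
        rwa [h2] at h
  refine ⟨(1 - t) * (thin_tot Nn / (s : ℝ) ^ 2), ?_, ?_, ?_⟩
  · have := thin_tot_nonneg hNpos
    have h1 : 0 ≤ 1 - t := by linarith
    positivity
  · intro h
    rw [h]
    simp
  · intro i l
    rw [hCT, hCdef, halg]
    rw [Matrix.sub_apply, Matrix.add_apply, Matrix.smul_apply, Matrix.smul_apply,
      Matrix.smul_apply, hE, thin_EXE]
    simp only [smul_eq_mul]

private lemma thin_C_sub {s : ℕ} (hs : 2 ≤ s)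
    {S : Matrix (Fin s) (Fin s) ℝ → Matrix (Fin s) (Fin s) ℝ}
    (hS4 : ∀ M : Matrix (Fin s) (Fin s) ℝ, M.PosDef → ∀ σ : Equiv.Perm (Fin s),
      S (M.submatrix σ σ) = (S M).submatrix σ σ)
    {G : Matrix (Fin s) (Fin s) ℝ} (hG : G.PosSemidef) (hneg : ∀ i l, i ≠ l → G i l < 0)
    {t : ℝ} (ht0 : 0 ≤ t) (ht1 : t ≤ 1) (σ : Equiv.Perm (Fin s)) :
    thin_C S (G.submatrix σ σ) t = (thin_C S G t).submatrix σ σ := by
  have hM := thin_M_posDef (by omega) hG hneg
  have hMt := thin_Mt_posDef hs hG hneg ht0 ht1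
  have hP : ∀ X Y : Matrix (Fin s) (Fin s) ℝ, (X * Y).submatrix σ σ =
      X.submatrix σ σ * Y.submatrix σ σ := fun X Y => (Matrix.submatrix_mul_equiv X Y σ σ σ).symm
  have hA : ∀ X Y : Matrix (Fin s) (Fin s) ℝ, (X + Y).submatrix σ σ =
      X.submatrix σ σ + Y.submatrix σ σ := fun X Y => rfl
  have hB : ∀ X Y : Matrix (Fin s) (Fin s) ℝ, (X - Y).submatrix σ σ =
      X.submatrix σ σ - Y.submatrix σ σ := fun X Y => rfl
  have hC : ∀ (c : ℝ) (X : Matrix (Fin s) (Fin s) ℝ), (c • X).submatrix σ σ =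
      c • X.submatrix σ σ := fun c X => rfl
  have h1 : (1 : Matrix (Fin s) (Fin s) ℝ).submatrix σ σ = 1 := Matrix.submatrix_one_equiv σ
  have hI : ∀ X : Matrix (Fin s) (Fin s) ℝ, (X⁻¹).submatrix σ σ = (X.submatrix σ σ)⁻¹ :=
    fun X => (Matrix.inv_submatrix_equiv X σ σ).symm
  have hE := thin_Esub s σ
  have hM1 : thin_M (G.submatrix σ σ) = (thin_M G).submatrix σ σ := by
    unfold thin_M
    simp only [hA, hP, hB, h1, hE]
  have hM2 : thin_Mt (G.submatrix σ σ) t = (thin_Mt G t).submatrix σ σ := by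
    unfold thin_Mt
    simp only [hA, hB, hC, h1, hE, hM1]
  unfold thin_C
  rw [hM1, hM2, hS4 _ hM, hS4 _ hMt]
  simp only [hA, hP, hB, h1, hE, hC, hI]

/-- the unnormalized points -/
private noncomputable def thin_y {N s : ℕ}
    (S : Matrix (Fin s) (Fin s) ℝ → Matrix (Fin s) (Fin s) ℝ) (x : Fin s → Sph N) (t : ℝ)
    (i : Fin s) : Eu N :=
  ∑ j, thin_C S (Matrix.gram ℝ fun i => (x i : Eu N)) t j i • (x j : Eu N)

private lemma thin_y_inner {N s : ℕ}
    (S : Matrix (Fin s) (Fin s) ℝ → Matrix (Fin s) (Fin s) ℝ) (x : Fin s → Sph N) (t : ℝ)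
    (i l : Fin s) : inner ℝ (thin_y S x t i) (thin_y S x t l) =
      ((thin_C S (Matrix.gram ℝ fun i => (x i : Eu N)) t)ᵀ *
        (Matrix.gram ℝ fun i => (x i : Eu N)) *
        thin_C S (Matrix.gram ℝ fun i => (x i : Eu N)) t) i l := by
  unfold thin_y
  rw [sum_inner]
  simp only [inner_sum, inner_smul_left, inner_smul_right, Matrix.mul_apply,
    Matrix.transpose_apply, Matrix.gram_apply, Finset.sum_mul]
  rw [Finset.sum_comm]
  refine Finset.sum_congr rfl fun j _ => Finset.sum_congr rfl fun k _ => ?_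
  simp only [conj_trivial]
  ring

private lemma thin_conf_inner {N s : ℕ} {r : ℝ} (hr : Real.pi / 2 < r) (x : Conf N r s)
    (i l : Fin s) (hil : i ≠ l) : inner ℝ (x.1 i : Eu N) (x.1 l : Eu N) ≤ Real.cos r := by
  have h := x.2 i l hil
  unfold gd at h
  have h0 : 0 ≤ r := by have := Real.pi_pos; linarith
  have hn : ∀ y : Sph N, ‖(y : Eu N)‖ = 1 := fun y => by simp
  have habs : |(inner ℝ (x.1 i : Eu N) (x.1 l : Eu N) : ℝ)| ≤ 1 := by
    have := abs_real_inner_le_norm (x.1 i : Eu N) (x.1 l : Eu N)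
    rwa [hn, hn, mul_one] at this
  have h1 := Real.cos_le_cos_of_nonneg_of_le_pi h0 (Real.arccos_le_pi _) h
  rwa [Real.cos_arccos (abs_le.1 habs).1 (abs_le.1 habs).2] at h1

private lemma thin_core {N s : ℕ} (hs : 2 ≤ s) {r : ℝ} (hr : Real.pi / 2 < r)
    (hr' : r ≤ Real.pi) {S : Matrix (Fin s) (Fin s) ℝ → Matrix (Fin s) (Fin s) ℝ}
    (hS1 : ∀ M : Matrix (Fin s) (Fin s) ℝ, M.PosDef → (S M).PosDef ∧ S M * S M = M)
    (hS5 : ∀ M J : Matrix (Fin s) (Fin s) ℝ, M.PosDef → M * J = J * M → S M * J = J * S M)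
    (x : Conf N r s) {t : ℝ} (ht0 : 0 ≤ t) (ht1 : t ≤ 1) :
    ∃ θ : ℝ, 0 ≤ θ ∧ (t = 1 → θ = 0) ∧ θ < 1 ∧
      (∀ i, inner ℝ (thin_y S x.1 t i) (thin_y S x.1 t i) = 1 - θ) ∧
      (∀ i l, i ≠ l → inner ℝ (thin_y S x.1 t i) (thin_y S x.1 t l) =
        (1 - t) * inner ℝ (x.1 i : Eu N) (x.1 l : Eu N) - t / ((s : ℝ) - 1) - θ) ∧
      (∀ i l, i ≠ l → inner ℝ (thin_y S x.1 t i) (thin_y S x.1 t l) ≤ Real.cos r - θ) := by
  have hpi := Real.pi_pos
  have hcos : Real.cos r < 0 := Real.cos_neg_of_pi_div_two_lt_of_lt hr (by linarith)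
  have hs1 : (1 : ℝ) < s := by exact_mod_cast (by omega : 1 < s)
  have hs1' : (0 : ℝ) < s - 1 := by linarith
  have hin := thin_conf_inner hr x
  have hG : (Matrix.gram ℝ fun i => (x.1 i : Eu N)).PosSemidef := Matrix.posSemidef_gram ..
  have hneg : ∀ i l, i ≠ l → (Matrix.gram ℝ fun i => (x.1 i : Eu N)) i l < 0 := by
    intro i l hil
    rw [Matrix.gram_apply]
    exact (hin i l hil).trans_lt hcos
  have hn : ∀ y : Sph N, ‖(y : Eu N)‖ = 1 := fun y => by simp
  have hdiag : ∀ i, (Matrix.gram ℝ fun i => (x.1 i : Eu N)) i i = 1 := by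
    intro i
    rw [Matrix.gram_apply, real_inner_self_eq_norm_sq, hn]
    norm_num
  obtain ⟨θ, hθ0, hθ1, hθ⟩ := thin_gram hs hS1 hS5 hG hneg ht0 ht1
  have hE1 : ∀ i, (1 - thin_E s) i i = 1 - 1 / (s : ℝ) := by
    intro i
    simp [thin_E, Matrix.sub_apply]
  have hE2 : ∀ i l, i ≠ l → (1 - thin_E s) i l = - (1 / (s : ℝ)) := by
    intro i l hil
    simp [thin_E, Matrix.sub_apply, hil]
  have hA : ∀ i, inner ℝ (thin_y S x.1 t i) (thin_y S x.1 t i) = 1 - θ := by
    intro i
    rw [thin_y_inner, hθ, hdiag, hE1]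
    field_simp
    ring
  have hB : ∀ i l, i ≠ l → inner ℝ (thin_y S x.1 t i) (thin_y S x.1 t l) =
      (1 - t) * inner ℝ (x.1 i : Eu N) (x.1 l : Eu N) - t / ((s : ℝ) - 1) - θ := by
    intro i l hil
    rw [thin_y_inner, hθ, hE2 i l hil, Matrix.gram_apply]
    field_simp
    ring
  -- the bound on the cosine
  have hc : -(1 / ((s : ℝ) - 1)) ≤ Real.cos r := by
    have h0 := thin_tot_nonneg hG
    have h1 : thin_tot (Matrix.gram ℝ fun i => (x.1 i : Eu N)) ≤
        ∑ i : Fin s, (1 + ((s : ℝ) - 1) * Real.cos r) := by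
      unfold thin_tot
      refine Finset.sum_le_sum fun i _ => ?_
      rw [← Finset.add_sum_erase _ _ (Finset.mem_univ i), hdiag]
      have h2 : ∑ l ∈ Finset.univ.erase i, (Matrix.gram ℝ fun i => (x.1 i : Eu N)) i l ≤
          ∑ l ∈ (Finset.univ.erase i : Finset (Fin s)), Real.cos r := by
        refine Finset.sum_le_sum fun l hl => ?_
        rw [Matrix.gram_apply]
        exact hin i l (Finset.ne_of_mem_erase hl).symm
      rw [Finset.sum_const, Finset.card_erase_of_mem (Finset.mem_univ i), Finset.card_univ,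
        Fintype.card_fin, nsmul_eq_mul, Nat.cast_sub (by omega), Nat.cast_one] at h2
      linarith
    rw [Finset.sum_const, Finset.card_univ, Fintype.card_fin, nsmul_eq_mul] at h1
    have h3 : 0 ≤ (s : ℝ) * (1 + ((s : ℝ) - 1) * Real.cos r) := h0.trans h1
    have h4 : 0 ≤ 1 + ((s : ℝ) - 1) * Real.cos r := by
      have : (0 : ℝ) < s := by linarith
      exact nonneg_of_mul_nonneg_right h3 this
    have h5 : Real.cos r + 1 / ((s : ℝ) - 1) =
        (1 + ((s : ℝ) - 1) * Real.cos r) / ((s : ℝ) - 1) := by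
      field_simp
      ring
    rw [neg_le_iff_add_nonneg, h5]
    exact div_nonneg h4 hs1'.le
  have hC : ∀ i l, i ≠ l → inner ℝ (thin_y S x.1 t i) (thin_y S x.1 t l) ≤ Real.cos r - θ := by
    intro i l hil
    rw [hB i l hil]
    have h1 : (1 - t) * inner ℝ (x.1 i : Eu N) (x.1 l : Eu N) ≤ (1 - t) * Real.cos r :=
      mul_le_mul_of_nonneg_left (hin i l hil) (by linarith)
    have h2 : -(t / ((s : ℝ) - 1)) ≤ t * Real.cos r := by
      have := mul_le_mul_of_nonneg_left hc ht0
      have h3 : t * -(1 / ((s : ℝ) - 1)) = -(t / ((s : ℝ) - 1)) := by ring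
      rwa [h3] at this
    linarith
  refine ⟨θ, hθ0, hθ1, ?_, hA, hB, hC⟩
  by_contra hge
  push Not at hge
  have h01 : (⟨0, by omega⟩ : Fin s) ≠ ⟨1, by omega⟩ := by simp
  have h1 := hA ⟨0, by omega⟩
  rw [real_inner_self_eq_norm_sq] at h1
  have h2 : ‖thin_y S x.1 t ⟨0, by omega⟩‖ = 0 := by
    have := sq_nonneg ‖thin_y S x.1 t ⟨0, by omega⟩‖
    have h3 : ‖thin_y S x.1 t ⟨0, by omega⟩‖ ^ 2 = 0 := by linarith
    exact pow_eq_zero_iff (two_ne_zero) |>.1 h3
  have h3 := hC _ _ h01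
  rw [norm_eq_zero.1 h2, inner_zero_left] at h3
  linarith

private lemma thin_y_cont {N s : ℕ} (hs : 2 ≤ s) {r : ℝ} (hr : Real.pi / 2 < r)
    (hr' : r ≤ Real.pi) {S : Matrix (Fin s) (Fin s) ℝ → Matrix (Fin s) (Fin s) ℝ}
    (hS2 : ContinuousOn S {M | M.PosDef})
    (hS3 : ContinuousOn (fun M => (S M)⁻¹) {M | M.PosDef}) (i : Fin s) :
    Continuous fun p : unitInterval × Conf N r s => thin_y S p.2.1 p.1 i := by
  have hpi := Real.pi_pos
  have hcos : Real.cos r < 0 := Real.cos_neg_of_pi_div_two_lt_of_lt hr (by linarith)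
  have hG : ∀ x : Conf N r s, (Matrix.gram ℝ fun i => (x.1 i : Eu N)).PosSemidef :=
    fun x => Matrix.posSemidef_gram ..
  have hneg : ∀ x : Conf N r s, ∀ i l, i ≠ l →
      (Matrix.gram ℝ fun i => (x.1 i : Eu N)) i l < 0 := by
    intro x i l hil
    rw [Matrix.gram_apply]
    exact (thin_conf_inner hr x i l hil).trans_lt hcos
  have hx : ∀ j, Continuous fun p : unitInterval × Conf N r s => (p.2.1 j : Eu N) := by
    intro j
    exact continuous_subtype_val.comp ((continuous_apply j).comp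
      (continuous_subtype_val.comp continuous_snd))
  have hgc : Continuous fun p : unitInterval × Conf N r s =>
      (Matrix.gram ℝ fun i => (p.2.1 i : Eu N)) := by
    refine continuous_matrix fun a b => ?_
    simp only [Matrix.gram_apply]
    exact (hx a).inner (hx b)
  have htc : Continuous fun p : unitInterval × Conf N r s => (p.1 : ℝ) :=
    continuous_subtype_val.comp continuous_fst
  have hMc : Continuous fun p : unitInterval × Conf N r s =>
      thin_M (Matrix.gram ℝ fun i => (p.2.1 i : Eu N)) := by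
    unfold thin_M
    exact ((continuous_const.matrix_mul hgc).matrix_mul continuous_const).add continuous_const
  have hMtc : Continuous fun p : unitInterval × Conf N r s =>
      thin_Mt (Matrix.gram ℝ fun i => (p.2.1 i : Eu N)) p.1 := by
    unfold thin_Mt
    exact ((continuous_const.sub htc).smul hMc).add (htc.smul continuous_const)
  have h1 : Continuous fun p : unitInterval × Conf N r s =>
      (S (thin_M (Matrix.gram ℝ fun i => (p.2.1 i : Eu N))))⁻¹ :=
    hS3.comp_continuous hMc fun p => thin_M_posDef (by omega) (hG p.2) (hneg p.2)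
  have h2 : Continuous fun p : unitInterval × Conf N r s =>
      S (thin_Mt (Matrix.gram ℝ fun i => (p.2.1 i : Eu N)) p.1) :=
    hS2.comp_continuous hMtc fun p => thin_Mt_posDef hs (hG p.2) (hneg p.2) p.1.2.1 p.1.2.2
  have h3 : Continuous fun p : unitInterval × Conf N r s =>
      (S (thin_Mt (Matrix.gram ℝ fun i => (p.2.1 i : Eu N)) p.1))⁻¹ :=
    hS3.comp_continuous hMtc fun p => thin_Mt_posDef hs (hG p.2) (hneg p.2) p.1.2.1 p.1.2.2
  have hCc : Continuous fun p : unitInterval × Conf N r s =>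
      thin_C S (Matrix.gram ℝ fun i => (p.2.1 i : Eu N)) p.1 := by
    unfold thin_C
    exact ((continuous_const.matrix_mul h1).matrix_mul ((h2.matrix_mul continuous_const).add
      ((continuous_const.sub htc).smul (((h3.matrix_mul continuous_const).matrix_mul
        hgc).matrix_mul continuous_const)))).add ((continuous_const.sub htc).smul
      (continuous_const.sub (((continuous_const.matrix_mul (h1.matrix_mul h1)).matrix_mul
        continuous_const).matrix_mul hgc)))
  unfold thin_y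
  refine continuous_finsetSum _ fun j _ => ?_
  exact (hCc.matrix_elem j i).smul (hx j)

/-- **G2. Thinning.** -/
theorem thin {N s : ℕ} (hs : 2 ≤ s) {r : ℝ} (hr : Real.pi / 2 < r) :
    ∃ T : C(unitInterval × Conf N r s, Conf N r s), (∀ x, T (0, x) = x) ∧
      (∀ x i l, i ≠ l → inner ℝ ((T (1, x)).1 i : Eu N) ((T (1, x)).1 l : Eu N) =
        -(1 / ((s : ℝ) - 1))) ∧
      (∀ x y (σ : Equiv.Perm (Fin s)), (∀ i, y.1 i = x.1 (σ i)) →
        ∀ t i, (T (t, y)).1 i = (T (t, x)).1 (σ i)) := by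
  have hpi := Real.pi_pos
  by_cases hr' : r ≤ Real.pi
  swap
  · have hemp : ∀ x : Conf N r s, False := by
      intro x
      have h := x.2 ⟨0, by omega⟩ ⟨1, by omega⟩ (by simp)
      exact hr' (h.trans (Real.arccos_le_pi _))
    exact ⟨⟨fun p => p.2, continuous_snd⟩, fun x => (hemp x).elim, fun x => (hemp x).elim,
      fun x => (hemp x).elim⟩
  obtain ⟨S, hS1, hS2, hS3, hS4, hS5⟩ := exists_sqrt s
  have hcos : Real.cos r < 0 := Real.cos_neg_of_pi_div_two_lt_of_lt hr (by linarith)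
  have hn : ∀ y : Sph N, ‖(y : Eu N)‖ = 1 := fun y => by simp
  have hne : ∀ (p : unitInterval × Conf N r s) i, thin_y S p.2.1 p.1 i ≠ 0 := by
    intro p i h0
    obtain ⟨θ, -, -, h3, h4, -⟩ := thin_core hs hr hr' hS1 hS5 p.2 p.1.2.1 p.1.2.2
    have := h4 i
    rw [h0, inner_zero_left] at this
    linarith
  have hmem : ∀ (p : unitInterval × Conf N r s) i,
      (‖thin_y S p.2.1 p.1 i‖)⁻¹ • thin_y S p.2.1 p.1 i ∈ Metric.sphere (0 : Eu N) 1 := by
    intro p i
    rw [mem_sphere_zero_iff_norm, norm_smul, norm_inv, norm_norm,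
      inv_mul_cancel₀ (norm_ne_zero_iff.2 (hne p i))]
  have hnorm : ∀ (p : unitInterval × Conf N r s) (θ : ℝ), θ < 1 →
      (∀ i, inner ℝ (thin_y S p.2.1 p.1 i) (thin_y S p.2.1 p.1 i) = 1 - θ) → ∀ i l,
      inner ℝ ((‖thin_y S p.2.1 p.1 i‖)⁻¹ • thin_y S p.2.1 p.1 i)
        ((‖thin_y S p.2.1 p.1 l‖)⁻¹ • thin_y S p.2.1 p.1 l) =
        inner ℝ (thin_y S p.2.1 p.1 i) (thin_y S p.2.1 p.1 l) / (1 - θ) := by
    intro p θ hθ h i l
    have h1 := h i
    have h2 := h l
    rw [real_inner_self_eq_norm_sq] at h1 h2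
    have hpos : 0 < 1 - θ := by linarith
    have h3 : ‖thin_y S p.2.1 p.1 i‖ = ‖thin_y S p.2.1 p.1 l‖ := by
      have : ‖thin_y S p.2.1 p.1 i‖ ^ 2 = ‖thin_y S p.2.1 p.1 l‖ ^ 2 := by rw [h1, h2]
      exact (sq_eq_sq₀ (norm_nonneg _) (norm_nonneg _)).1 this
    rw [real_inner_smul_left, real_inner_smul_right, h3, ← h2]
    have h4 : ‖thin_y S p.2.1 p.1 l‖ ≠ 0 := norm_ne_zero_iff.2 (hne p l)
    field_simp
  have hconf : ∀ p : unitInterval × Conf N r s, (fun i =>
      (⟨_, hmem p i⟩ : Sph N)) ∈ Conf N r s := by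
    intro p i l hil
    obtain ⟨θ, h1, -, h3, h4, -, h6⟩ := thin_core hs hr hr' hS1 hS5 p.2 p.1.2.1 p.1.2.2
    unfold gd
    have hpos : 0 < 1 - θ := by linarith
    have h7 : inner ℝ ((‖thin_y S p.2.1 p.1 i‖)⁻¹ • thin_y S p.2.1 p.1 i)
        ((‖thin_y S p.2.1 p.1 l‖)⁻¹ • thin_y S p.2.1 p.1 l) ≤ Real.cos r := by
      rw [hnorm p θ h3 h4]
      have h8 := h6 i l hil
      rw [div_le_iff₀ hpos]
      nlinarith
    have h9 : r = Real.arccos (Real.cos r) := (Real.arccos_cos (by linarith) hr').symm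
    exact h9.le.trans (Real.antitone_arccos h7)
  refine ⟨⟨fun p => ⟨_, hconf p⟩, ?_⟩, ?_, ?_, ?_⟩
  · refine Continuous.subtype_mk (continuous_pi fun i => Continuous.subtype_mk ?_ _) _
    have h1 := thin_y_cont (N := N) hs hr hr' hS2 hS3 i
    exact (h1.norm.inv₀ fun p => norm_ne_zero_iff.2 (hne p i)).smul h1
  · intro x
    apply Subtype.ext
    funext i
    apply Subtype.ext
    have hG : (Matrix.gram ℝ fun i => (x.1 i : Eu N)).PosSemidef := Matrix.posSemidef_gram ..
    have hneg : ∀ i l, i ≠ l → (Matrix.gram ℝ fun i => (x.1 i : Eu N)) i l < 0 := by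
      intro i l hil
      rw [Matrix.gram_apply]
      exact (thin_conf_inner hr x i l hil).trans_lt hcos
    have h1 : thin_y S x.1 ((0 : unitInterval) : ℝ) i = (x.1 i : Eu N) := by
      unfold thin_y
      rw [show ((0 : unitInterval) : ℝ) = 0 from rfl, thin_C_zero hs hS1 hS5 hG hneg]
      rw [Finset.sum_eq_single i]
      · rw [Matrix.one_apply_eq, one_smul]
      · intro j _ hj
        rw [Matrix.one_apply_ne hj, zero_smul]
      · intro h
        exact absurd (Finset.mem_univ i) h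
    show (‖thin_y S x.1 ((0 : unitInterval) : ℝ) i‖)⁻¹ •
      thin_y S x.1 ((0 : unitInterval) : ℝ) i = (x.1 i : Eu N)
    rw [h1, hn, inv_one, one_smul]
  · intro x i l hil
    obtain ⟨θ, -, h2, h3, h4, h5, -⟩ := thin_core hs hr hr' hS1 hS5 x (t := ((1 : unitInterval) : ℝ))
      (1 : unitInterval).2.1 (1 : unitInterval).2.2
    have h6 := hnorm (1, x) θ h3 h4 i l
    have h7 : θ = 0 := h2 (by simp)
    show inner ℝ ((‖thin_y S x.1 ((1 : unitInterval) : ℝ) i‖)⁻¹ •
      thin_y S x.1 ((1 : unitInterval) : ℝ) i) ((‖thin_y S x.1 ((1 : unitInterval) : ℝ) l‖)⁻¹ •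
      thin_y S x.1 ((1 : unitInterval) : ℝ) l) = _
    have h8 := h5 i l hil
    rw [h6]
    show inner ℝ (thin_y S x.1 ((1 : unitInterval) : ℝ) i)
      (thin_y S x.1 ((1 : unitInterval) : ℝ) l) / (1 - θ) = _
    rw [h8, h7, show ((1 : unitInterval) : ℝ) = 1 from rfl]
    simp
  · intro x y σ hy t i
    apply Subtype.ext
    have hG : (Matrix.gram ℝ fun i => (x.1 i : Eu N)).PosSemidef := Matrix.posSemidef_gram ..
    have hneg : ∀ i l, i ≠ l → (Matrix.gram ℝ fun i => (x.1 i : Eu N)) i l < 0 := by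
      intro i l hil
      rw [Matrix.gram_apply]
      exact (thin_conf_inner hr x i l hil).trans_lt hcos
    have h1 : (Matrix.gram ℝ fun i => (y.1 i : Eu N)) =
        (Matrix.gram ℝ fun i => (x.1 i : Eu N)).submatrix σ σ := by
      ext a b
      simp only [Matrix.gram_apply, Matrix.submatrix_apply, hy]
    have h2 : thin_y S y.1 (t : ℝ) i = thin_y S x.1 (t : ℝ) (σ i) := by
      unfold thin_y
      rw [h1, thin_C_sub hs hS4 hG hneg t.2.1 t.2.2 σ]
      simp only [Matrix.submatrix_apply, hy]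
      exact Equiv.sum_comp σ (fun j => thin_C S (Matrix.gram ℝ fun i => (x.1 i : Eu N)) t j (σ i) •
        (x.1 j : Eu N))
    show (‖thin_y S y.1 (t : ℝ) i‖)⁻¹ • thin_y S y.1 (t : ℝ) i =
      (‖thin_y S x.1 (t : ℝ) (σ i)‖)⁻¹ • thin_y S x.1 (t : ℝ) (σ i)
    rw [h2]

end Pool.Agent.AVG
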