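import Pool.Agent.Lib.MP_89fc28_gt.G.Descend
import Pool.Agent.Lib.MP_89fc28_gt.G.Cut
import Pool.Agent.Lib.MP_89fc28_gt.G.Approx
import Pool.Agent.Lib.MP_89fc28_gt.G.Card
import Pool.Agent.Lib.MP_89fc28_gt.G.Thin
import Pool.Agent.Lib.MP_89fc28_gt.G.Missed

set_option autoImplicit false

open Set

namespace Pool.Agent.AVG


theorem rm_gt {m : ℕ} (hm : 1 ≤ m) : Real.pi / 2 < rm m := by
  unfold rm
  rw [← Real.arccos_zero]
  have h : (0 : ℝ) < 1 / (m : ℝ) := by positivity
  have h1 : 1 / (m : ℝ) ≤ 1 := by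
    rw [div_le_one (by positivity)]; exact_mod_cast hm
  exact Real.strictAntiOn_arccos ⟨by linarith, by linarith⟩ ⟨by norm_num, by norm_num⟩ (by linarith)

/-- the thinning homotopy, including the trivial case of one point -/
theorem thin' {N s : ℕ} (hs : 1 ≤ s) {r : ℝ} (hr : Real.pi / 2 < r) :
    ∃ T : C(unitInterval × Conf N r s, Conf N r s), (∀ x, T (0, x) = x) ∧
      (∀ x i l, i ≠ l → inner ℝ ((T (1, x)).1 i : Eu N) ((T (1, x)).1 l : Eu N) =
        -(1 / ((s : ℝ) - 1))) ∧
      (∀ x y (σ : Equiv.Perm (Fin s)), (∀ i, y.1 i = x.1 (σ i)) →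
        ∀ t i, (T (t, y)).1 i = (T (t, x)).1 (σ i)) := by
  rcases hs.eq_or_lt with h | h
  · subst h
    refine ⟨⟨fun p => p.2, continuous_snd⟩, fun x => rfl, fun x i l hil => ?_,
      fun x y σ h t i => h i⟩
    exact absurd (Subsingleton.elim i l) hil
  · exact thin h hr

variable {N m D : ℕ} {r : ℝ}

/-- every map into the punctured space is homotopic to one that is constant on the stratum -/
theorem stepA_aux (hmN : m ≤ N) (hD : D + m.choose 2 = m * N)
    (hr : Real.pi / 2 < r) [CompactSpace (AVR N r)] (f : C(AVR N r, Pun ((Fin D → ℝ) × ℝ)))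
    (j : ℕ) (hj : j ≤ m) :
    ∃ (f' : C(AVR N r, Pun ((Fin D → ℝ) × ℝ))) (y : Pun ((Fin D → ℝ) × ℝ)), f.Homotopic f' ∧
      ∀ μ ∈ strat N r j, f' μ = y := by
  have hr0 : 0 < r := lt_trans (by positivity) hr
  induction j with
  | zero =>
    refine ⟨f, ⟨(0, 1), by simp⟩, ContinuousMap.Homotopic.refl f, fun μ hμ => ?_⟩
    exfalso
    have h1 : μ.w = 0 := by
      have : μ.w.support.card = 0 := Nat.le_zero.1 hμ
      simpa using this
    have h2 := μ.total
    rw [h1] at h2
    simp at h2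
  | succ j ih =>
    obtain ⟨f₁, q, hf₁, hq⟩ := ih (by omega)
    -- the minimum of the norm
    obtain ⟨η, hη, hmin⟩ : ∃ η > 0, ∀ μ, η ≤ ‖(f₁ μ).1‖ := by
      rcases isEmpty_or_nonempty (AVR N r) with he | hne
      · exact ⟨1, one_pos, fun μ => (he.false μ).elim⟩
      · obtain ⟨μ, -, hμ⟩ := isCompact_univ.exists_isMinOn univ_nonempty
          (f := fun μ => ‖(f₁ μ).1‖) (by fun_prop)
        exact ⟨‖(f₁ μ).1‖, norm_pos_iff.2 (f₁ μ).2, fun ν => hμ (mem_univ ν)⟩
    obtain ⟨S, δ, hδ, hS, hS0, hS1⟩ := smooth_cut (H := (Fin D → ℝ) × ℝ) (η / 3) (by positivity)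
    obtain ⟨k, φ, Ψ, hφ, hΨ, happ⟩ := approx (N := N) (r := r)
      ⟨fun p : AVR N r × unitInterval => (f₁ p.1).1, by fun_prop⟩ (min δ (η / 3))
      (lt_min hδ (by positivity))
    -- the smooth function
    set g₀ : (Fin k → ℝ) → (Fin D → ℝ) × ℝ := fun z => q.1 + S (Ψ (z, 0) - q.1) with hg₀
    have hg₀s : ContDiff ℝ 2 g₀ := by
      have : ContDiff ℝ 2 fun z : Fin k → ℝ => Ψ (z, 0) - q.1 :=
        (hΨ.comp (contDiff_id.prodMk contDiff_const)).sub contDiff_const
      exact contDiff_const.add (hS.comp this)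
    have happ' : ∀ μ : AVR N r, ‖(f₁ μ).1 - Ψ (integ μ.w φ, 0)‖ < min δ (η / 3) := by
      intro μ
      simpa using happ μ 0
    have hdist : ∀ μ : AVR N r, ‖g₀ (integ μ.w φ) - (f₁ μ).1‖ < η := by
      intro μ
      have h1 := hS1 (Ψ (integ μ.w φ, 0) - q.1)
      have h2 := (happ' μ).trans_le (min_le_right _ _)
      calc ‖g₀ (integ μ.w φ) - (f₁ μ).1‖
          = ‖(S (Ψ (integ μ.w φ, 0) - q.1) - (Ψ (integ μ.w φ, 0) - q.1)) -
              ((f₁ μ).1 - Ψ (integ μ.w φ, 0))‖ := by
            congr 1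
            simp only [hg₀]
            generalize S (Ψ (integ μ.w φ, 0) - q.1) = a
            abel
        _ ≤ _ := norm_sub_le _ _
        _ < η := by linarith
    have hline : ∀ (μ : AVR N r) (t : ℝ), t ∈ Icc (0 : ℝ) 1 →
        (f₁ μ).1 + t • (g₀ (integ μ.w φ) - (f₁ μ).1) ≠ 0 := by
      intro μ t ht h0
      have h1 := hmin μ
      have h2 := hdist μ
      have h3 : (f₁ μ).1 = -(t • (g₀ (integ μ.w φ) - (f₁ μ).1)) := eq_neg_of_add_eq_zero_left h0
      have h4 : ‖(f₁ μ).1‖ ≤ ‖g₀ (integ μ.w φ) - (f₁ μ).1‖ := by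
        calc ‖(f₁ μ).1‖ = ‖t • (g₀ (integ μ.w φ) - (f₁ μ).1)‖ := by
              conv_lhs => rw [h3]
              rw [norm_neg]
          _ = |t| * ‖g₀ (integ μ.w φ) - (f₁ μ).1‖ := by rw [norm_smul, Real.norm_eq_abs]
          _ ≤ 1 * ‖g₀ (integ μ.w φ) - (f₁ μ).1‖ := by
              gcongr; rw [abs_of_nonneg ht.1]; exact ht.2
          _ = _ := one_mul _
      linarith
    have hgc : Continuous fun μ : AVR N r => g₀ (integ μ.w φ) :=
      hg₀s.continuous.comp (continuous_integ φ hφ.continuous)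
    have hg0 : ∀ μ : AVR N r, g₀ (integ μ.w φ) ≠ 0 := by
      intro μ
      have := hline μ 1 ⟨zero_le_one, le_rfl⟩
      simpa using this
    set g : C(AVR N r, Pun ((Fin D → ℝ) × ℝ)) :=
      ⟨fun μ => ⟨g₀ (integ μ.w φ), hg0 μ⟩, Continuous.subtype_mk hgc _⟩ with hg
    have hf₁g : f₁.Homotopic g := by
      refine ⟨⟨⟨fun p => ⟨(f₁ p.2).1 + (p.1 : ℝ) • (g₀ (integ p.2.w φ) - (f₁ p.2).1),
        hline p.2 p.1 p.1.2⟩, ?_⟩, fun μ => ?_, fun μ => ?_⟩⟩
      · refine Continuous.subtype_mk ?_ _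
        have h1 : Continuous fun p : unitInterval × AVR N r => g₀ (integ p.2.w φ) :=
          hgc.comp continuous_snd
        have h2 : Continuous fun p : unitInterval × AVR N r => (f₁ p.2).1 := by fun_prop
        have h3 : Continuous fun p : unitInterval × AVR N r => (p.1 : ℝ) := by fun_prop
        exact h2.add (h3.smul (h1.sub h2))
      · ext1; simp
      · ext1; simp [hg]
    have hgq : ∀ μ ∈ strat N r j, g μ = q := by
      intro μ hμ
      ext1
      change g₀ (integ μ.w φ) = q.1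
      rw [hg₀]
      have h1 := (happ' μ).trans_le (min_le_left _ _)
      rw [hq μ hμ] at h1
      simp only
      rw [hS0 _ (by rw [norm_sub_rev]; exact h1.le), add_zero]
    -- thinning
    obtain ⟨T, hT0, hT1, hTσ⟩ := thin' (N := N) (s := j + 1) (by omega) hr
    -- measures with a vanishing weight lie in the lower stratum
    have hlow : ∀ (x : Conf N r (j + 1)) (l : stdSimplex ℝ (Fin (j + 1))), (∃ i, l.1 i = 0) →
        AVR.mk' x l ∈ strat N r j := by
      rintro x l ⟨i, hi⟩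
      change (AVR.mk' x l).w.support.card ≤ j
      rw [card_mk hr0]
      have : (Finset.univ.filter fun i => l.1 i ≠ 0).card < (Finset.univ : Finset (Fin (j + 1))).card :=
        Finset.card_lt_card (by
          rw [Finset.ssubset_univ_iff]
          intro h
          have := h ▸ Finset.mem_univ i
          simp [hi] at this)
      simp only [Finset.card_univ, Fintype.card_fin] at this
      omega
    obtain ⟨G, hG1, hG2⟩ := descend (N := N) (r := r) hr0 (j := j)
      (fun p : Conf N r (j + 1) × stdSimplex ℝ (Fin (j + 1)) × unitInterval =>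
        g (AVR.mk' (T (p.2.2, p.1)) p.2.1))
      (by
        have h1 : Continuous fun p : Conf N r (j + 1) × stdSimplex ℝ (Fin (j + 1)) ×
            unitInterval => (T (p.2.2, p.1), p.2.1) := by fun_prop
        exact g.continuous.comp (continuous_mk.comp h1))
      (fun _ => q) continuous_const
      (by
        intro x y l k σ h t
        simp only
        congr 1
        exact (mk_of_perm _ _ _ _ σ fun i => ⟨hTσ x y σ (fun i => (h i).1) t i, (h i).2⟩).symm)
      (by
        intro x l t h0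
        exact hgq _ (hlow _ l h0))
    have hGg : ∀ μ : strat N r (j + 1), G (μ, 0) = g μ := by
      rintro ⟨μ, hμ⟩
      by_cases hμ' : μ ∈ strat N r j
      · rw [hG2 _ _ hμ', hgq _ hμ']
      · have hc : μ.w.support.card = j + 1 := by
          have h1 : μ.w.support.card ≤ j + 1 := hμ
          have h2 : ¬ μ.w.support.card ≤ j := hμ'
          omega
        obtain ⟨x, l, hl, hx⟩ := exists_mk' μ hc
        rw [hG1 ⟨μ, hμ⟩ x l 0 hx]
        simp only [hT0]
        rw [hx]
    obtain ⟨f₂, hf₂, hf₂'⟩ := hep (strat N r (j + 1)) (isClosed_strat _) g G hGg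
    -- the missed ray
    obtain ⟨y, hy0, hyq, hy⟩ := exists_missed (N := N) (m := m) (D := D) (s := j + 1)
      (by omega) hj hmN hD φ hφ g₀ hg₀s q.1
    have hray : ∀ (v : (Fin D → ℝ) × ℝ) (t : ℝ), t ∈ Icc (0 : ℝ) 1 → v ≠ 0 →
        (∀ a : ℝ, 0 < a → a • v ≠ y) → (1 - t) • v - t • y ≠ 0 := by
      intro v t ht hv hv' h0
      rcases ht.1.eq_or_lt with h | h
      · rw [← h] at h0; simp at h0; exact hv h0
      · rcases ht.2.eq_or_lt with h1 | h1
        · rw [h1] at h0; simp at h0; exact hy0 h0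
        · have h2 : (1 - t) • v = t • y := sub_eq_zero.1 h0
          refine hv' ((1 - t) / t) (div_pos (by linarith) h) ?_
          have h3 : t⁻¹ • ((1 - t) • v) = t⁻¹ • (t • y) := by rw [h2]
          rw [smul_smul, smul_smul, inv_mul_cancel₀ h.ne', one_smul] at h3
          rw [← h3]; congr 1; field_simp
    have hthin : ∀ (x : Conf N r (j + 1)) (l : stdSimplex ℝ (Fin (j + 1))) (a : ℝ), 0 < a →
        a • (g (AVR.mk' (T (1, x)) l)).1 ≠ y := by
      intro x l a ha
      change a • g₀ (integ (AVR.mk' (T (1, x)) l).w φ) ≠ y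
      rw [integ_mk]
      refine hy (fun i => ((T (1, x)).1 i : Eu N)) l.1 (fun i => ?_) (fun i l' hil => ?_)
        l.2.2 a ha
      · simpa using ((T (1, x)).1 i).2
      · have := hT1 x i l' hil
        push_cast at this ⊢
        exact this
    obtain ⟨G', hG'1, hG'2⟩ := descend (N := N) (r := r) hr0 (j := j)
      (fun p : Conf N r (j + 1) × stdSimplex ℝ (Fin (j + 1)) × unitInterval =>
        (⟨(1 - (p.2.2 : ℝ)) • (g (AVR.mk' (T (1, p.1)) p.2.1)).1 - (p.2.2 : ℝ) • y,
          hray _ _ p.2.2.2 (g _).2 (hthin p.1 p.2.1)⟩ : Pun ((Fin D → ℝ) × ℝ)))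
      (by
        refine Continuous.subtype_mk ?_ _
        have h1 : Continuous fun p : Conf N r (j + 1) × stdSimplex ℝ (Fin (j + 1)) ×
            unitInterval => (T (1, p.1), p.2.1) := by fun_prop
        have h2 := continuous_subtype_val.comp (g.continuous.comp (continuous_mk.comp h1))
        have h3 : Continuous fun p : Conf N r (j + 1) × stdSimplex ℝ (Fin (j + 1)) ×
            unitInterval => (p.2.2 : ℝ) := by fun_prop
        exact ((continuous_const.sub h3).smul h2).sub (h3.smul continuous_const))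
      (fun t => ⟨(1 - (t : ℝ)) • q.1 - (t : ℝ) • y, hray _ _ t.2 q.2 hyq⟩)
      (by refine Continuous.subtype_mk ?_ _; fun_prop)
      (by
        intro x y' l k σ h t
        have h1 : AVR.mk' (T (1, x)) l = AVR.mk' (T (1, y')) k :=
          mk_of_perm _ _ _ _ σ fun i => ⟨hTσ x y' σ (fun i => (h i).1) 1 i, (h i).2⟩
        ext1
        simp only
        rw [h1])
      (by
        intro x l t h0
        ext1
        simp only
        rw [hgq _ (hlow _ l h0)])
    have hG'f : ∀ μ : strat N r (j + 1), G' (μ, 0) = f₂ μ := by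
      rintro ⟨μ, hμ⟩
      rw [hf₂']
      by_cases hμ' : μ ∈ strat N r j
      · rw [hG'2 _ _ hμ', hG2 _ _ hμ']
        ext1; simp
      · have hc : μ.w.support.card = j + 1 := by
          have h1 : μ.w.support.card ≤ j + 1 := hμ
          have h2 : ¬ μ.w.support.card ≤ j := hμ'
          omega
        obtain ⟨x, l, hl, hx⟩ := exists_mk' μ hc
        rw [hG'1 ⟨μ, hμ⟩ x l 0 hx, hG1 ⟨μ, hμ⟩ x l 1 hx]
        ext1; simp
    obtain ⟨f₃, hf₃, hf₃'⟩ := hep (strat N r (j + 1)) (isClosed_strat _) f₂ G' hG'f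
    refine ⟨f₃, ⟨-y, neg_ne_zero.2 hy0⟩, ((hf₁.trans hf₁g).trans hf₂).trans hf₃, ?_⟩
    intro μ hμ
    rw [hf₃' ⟨μ, hμ⟩]
    by_cases hμ' : μ ∈ strat N r j
    · rw [hG'2 _ _ hμ']
      ext1; simp
    · have hc : μ.w.support.card = j + 1 := by
        have h1 : μ.w.support.card ≤ j + 1 := hμ
        have h2 : ¬ μ.w.support.card ≤ j := hμ'
        omega
      obtain ⟨x, l, hl, hx⟩ := exists_mk' μ hc
      rw [hG'1 ⟨μ, hμ⟩ x l 1 hx]
      ext1; simp

/-- **Step A.** -/
theorem stepA (hm : 1 ≤ m) (hmN : m ≤ N) (hD : D + m.choose 2 = m * N)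
    (hr : rm m < r) (f : C(AVR N r, Pun ((Fin D → ℝ) × ℝ))) :
    ∃ y : Pun ((Fin D → ℝ) × ℝ), f.Homotopic (ContinuousMap.const _ y) := by
  have : CompactSpace (AVR N r) := compactSpace_AVR m fun μ => card_le_of_lt hm hr μ
  obtain ⟨f', y, h1, h2⟩ := stepA_aux hmN hD ((rm_gt hm).trans hr) f m le_rfl
  refine ⟨y, ?_⟩
  have : f' = ContinuousMap.const _ y := by
    ext1 μ
    exact h2 μ (card_le_of_lt hm hr μ)
  rw [← this]; exact h1

end Pool.Agent.AVG
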